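import Pool.Agent.BSD5.BaseAux

/-!
# The field `B = ℚ(i, θ)`, `θ⁴ = 1 - 2i`, of degree eight: class number one

`ρ = (1 + (1+i) θ + θ²) / 2` is a root of `g = x⁴ - 2x³ + (1+i) x² - (2+2i) x + 1`, so of
`f = (x⁴-2x³+x²-2x+1)² + (x²-2x)²` (degree 8, irreducible since `[B : ℚ] = 8` and `B = ℚ(ρ)`), and
`ℤ[ρ] = 𝓞 B`, `|disc B| = 8192000 = 2¹⁶ 5³`.
-/

set_option linter.unusedSectionVars false

namespace BSD5

open NumberField IsDedekindDomain WithZero CFT

variable {F L : Type*} [Field F] [NumberField F] [Field L] [NumberField L] [Algebra F L]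
  (Q : Qr F L) (hF : Module.finrank ℚ F = 2)

namespace Qr

/-- the factor of the derivative which is a unit -/
noncomputable def uu : 𝓞 L := Q.j0 * (Q.r0 * ((Q.r0 - 2) * (-1 + (1 + Q.j0) * Q.r0)))

lemma uu_unit : Q.uu * (-Q.j0 * (((1 + Q.j0) + (-1 + Q.j0) * Q.t0 - (1 + Q.j0) * Q.r0
    + Q.t0 * Q.r0) * ((-(1 + Q.j0) + (1 + Q.j0) * Q.t0 + (-3 + Q.j0) * Q.r0
    - (1 + 2 * Q.j0) * Q.t0 * Q.r0) * (-1 - 2 * Q.j0 * Q.t0 + (1 + Q.j0) * Q.r0)))) = 1 := by
  apply ext0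
  have h1 := BaseA.inv1 Q.hj Q.ht4 Q.hr
  have h2 := BaseA.inv2 Q.hj Q.ht4 Q.hr
  have h3 := BaseA.inv3 Q.hj Q.ht4 Q.hr
  have hj := Q.hj
  simp only [uu, map_sub, map_add, map_mul, map_neg, map_one, coe_two, coe_three,
    coe_j0, coe_t0, coe_r0]
  calc _ = (-(Q.j ^ 2)) * ((Q.r * ((1 + Q.j) + (-1 + Q.j) * Q.t - (1 + Q.j) * Q.r + Q.t * Q.r)) *
      (((Q.r - 2) * (-(1 + Q.j) + (1 + Q.j) * Q.t + (-3 + Q.j) * Q.r
        - (1 + 2 * Q.j) * Q.t * Q.r)) *
      ((-1 + (1 + Q.j) * Q.r) * (-1 - 2 * Q.j * Q.t + (1 + Q.j) * Q.r)))) := by ring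
    _ = 1 := by rw [h1, h2, h3, hj]; ring

open Polynomial in
lemma der_fr : derivative fr = 8 * X ^ 7 - 28 * X ^ 6 + 36 * X ^ 5 - 40 * X ^ 4 + 48 * X ^ 3
    - 36 * X ^ 2 + 20 * X - 4 := by
  rw [fr]
  simp only [derivative_add, derivative_sub, derivative_mul, derivative_X_pow, derivative_X,
    derivative_one, derivative_ofNat, Nat.cast_ofNat, map_ofNat, zero_mul, zero_add, mul_one,
    add_zero]
  ring

open Polynomial in
lemma der_r : aeval Q.r0 (derivative fr) = -(4 * Q.t0 ^ 3 * Q.uu) := by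
  apply ext0
  have h1 := BaseA.h_eq Q.hj Q.ht4 Q.hr
  have h2 := BaseA.gp_eq Q.hj Q.ht4 Q.hr
  have hj := Q.hj
  rw [der_fr, ← aeval_algebraMap_apply]
  simp only [map_add, map_sub, map_mul, map_pow, aeval_X, map_ofNat, map_neg, uu, map_one,
    coe_j0, coe_t0, coe_r0]
  linear_combination 2 * (4 * Q.r ^ 3 - 6 * Q.r ^ 2 + 2 * Q.r - 2) * h1
    - 2 * Q.j * (Q.r ^ 2 - 2 * Q.r) * h2
    + 2 * (Q.r ^ 2 - 2 * Q.r) * (2 * Q.r - 2) * hj

end Qr

include Q hF in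
/-- `f'(ρ) = 4 θ³ · unit` is in the different (`aeval_derivative_mem_differentIdeal`, see
`Cub.abs_discr_le` in `BSD/BaseQ.lean`). With `h = x⁴-2x³+x²-2x+1`, `l = x²-2x`:
`f'(ρ) = -2i l(ρ) g'(ρ)`, `l(ρ) = ρ (ρ - 2)`, `ρ` and `ρ - 2` are units with inverses
`(1+i) + (-1+i) θ - (1+i) ρ + θρ` and `-(1+i) + (1+i) θ + (-3+i) ρ - (1+2i) θρ`,
`g'(ρ) = 2 θ³ (-1 + (1+i) ρ)`, `(-1 + (1+i) ρ)⁻¹ = -1 - 2i θ + (1+i) ρ`. The norm of `4 θ³` is
`2¹⁶ · 5³`. `θ = ` a polynomial in `ρ` and `i`, and `i = -h(ρ)⁻¹...`: `h(ρ) = -i l(ρ)`, so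
`i = -h(ρ) / l(ρ) ∈ ℚ(ρ)`. -/
theorem base_discr : (discr L).natAbs ≤ 8192000 := by
  have hd := aeval_derivative_mem_differentIdeal ℤ ℚ L Q.r0 (Q.adjoin_r hF)
  rw [Q.minpoly_r hF, Q.der_r] at hd
  have hle : Ideal.span {4 * Q.t0 ^ 3 * Q.uu} ≤ differentIdeal ℤ (𝓞 L) :=
    (Ideal.span_singleton_le_iff_mem _).2 (by simpa using hd)
  have hdvd := Ideal.absNorm_dvd_absNorm_of_le hle
  rw [absNorm_differentIdeal (K := L)] at hdvd
  have h108 : Ideal.absNorm (Ideal.span {4 * Q.t0 ^ 3 * Q.uu}) = 8192000 := by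
    have e : (4 : 𝓞 L) = 2 ^ 2 := by norm_num
    rw [e, ← Ideal.span_singleton_mul_span_singleton, ← Ideal.span_singleton_mul_span_singleton,
      ← Ideal.span_singleton_pow, ← Ideal.span_singleton_pow, map_mul, map_mul, map_pow, map_pow,
      Q.absNorm_t hF, Q.absNorm_two hF, Qr.absNorm_unit Q.uu_unit]
    norm_num
  rw [h108] at hdvd
  exact Nat.le_of_dvd (by norm_num) hdvd

namespace Qr

include Q hF in
lemma places : InfinitePlace.nrRealPlaces L + 2 * InfinitePlace.nrComplexPlaces L = 8 := by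
  rw [InfinitePlace.card_add_two_mul_card_eq_rank, Q.finrank_L hF]

include Q hF in
lemma bound : (4 / Real.pi) ^ InfinitePlace.nrComplexPlaces L *
    ((Nat.factorial (Module.finrank ℚ L)) / (Module.finrank ℚ L) ^ (Module.finrank ℚ L)
      * √|(discr L : ℝ)|) < 19 := by
  have hp := Q.places hF
  have h1 : InfinitePlace.nrComplexPlaces L ≤ 4 := by omega
  rw [Q.finrank_L hF]
  have hd := base_discr Q hF
  have hdR : |(discr L : ℝ)| ≤ 8192000 := by
    have : ((discr L).natAbs : ℝ) ≤ 8192000 := by exact_mod_cast hd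
    rwa [Nat.cast_natAbs, Int.cast_abs] at this
  have hs : √|(discr L : ℝ)| ≤ 2862.2 := by
    rw [Real.sqrt_le_left (by norm_num)]
    exact hdR.trans (by norm_num)
  have hs0 : 0 ≤ √|(discr L : ℝ)| := Real.sqrt_nonneg _
  have hpi : (4 : ℝ) / Real.pi ≤ 1.2739 := by
    rw [div_le_iff₀ Real.pi_pos]
    nlinarith [Real.pi_gt_d2]
  have hpi1 : 1 ≤ (4 : ℝ) / Real.pi := by
    rw [le_div_iff₀ Real.pi_pos]
    nlinarith [Real.pi_lt_d2]
  have hpw : ((4 : ℝ) / Real.pi) ^ InfinitePlace.nrComplexPlaces L ≤ 1.2739 ^ 4 :=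
    (pow_le_pow_right₀ hpi1 h1).trans (pow_le_pow_left₀ (by positivity) hpi 4)
  have hfac : ((Nat.factorial 8 : ℕ) : ℝ) / ((8 : ℕ) : ℝ) ^ 8 = 40320 / 16777216 := by
    norm_num [Nat.factorial]
  rw [hfac]
  calc _ ≤ (1.2739 ^ 4 : ℝ) * (40320 / 16777216 * 2862.2) := by
        apply mul_le_mul hpw _ (by positivity) (by norm_num)
        exact mul_le_mul_of_nonneg_left hs (by norm_num)
    _ < 19 := by norm_num

/-- Fermat in the residue field -/
lemma pow_absNorm_sub_mem (I : Ideal (𝓞 L)) (hI : I.IsPrime) (h0 : I ≠ ⊥) (x : 𝓞 L) :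
    x ^ Ideal.absNorm I - x ∈ I := by
  haveI := hI
  haveI : I.IsMaximal := hI.isMaximal h0
  letI := Ideal.Quotient.field I
  haveI : Finite (𝓞 L ⧸ I) := Ideal.finiteQuotientOfFreeOfNeBot I h0
  letI := Fintype.ofFinite (𝓞 L ⧸ I)
  rw [← Ideal.Quotient.eq_zero_iff_mem, map_sub, map_pow, sub_eq_zero]
  have h : Ideal.absNorm I = Fintype.card (𝓞 L ⧸ I) := by
    rw [Ideal.absNorm_apply, Submodule.cardQuot_apply, Nat.card_eq_fintype_card]
  rw [h]
  exact FiniteField.pow_card _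

lemma isPrimePow_absNorm (I : Ideal (𝓞 L)) (hI : I.IsPrime) (h0 : I ≠ ⊥) :
    IsPrimePow (Ideal.absNorm I) := by
  haveI := hI
  haveI : I.IsMaximal := hI.isMaximal h0
  letI := Ideal.Quotient.field I
  haveI : Finite (𝓞 L ⧸ I) := Ideal.finiteQuotientOfFreeOfNeBot I h0
  letI := Fintype.ofFinite (𝓞 L ⧸ I)
  have h : Ideal.absNorm I = Fintype.card (𝓞 L ⧸ I) := by
    rw [Ideal.absNorm_apply, Submodule.cardQuot_apply, Nat.card_eq_fintype_card]
  rw [h]
  exact FiniteField.isPrimePow_card _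

lemma not_both (I : Ideal (𝓞 L)) (hI : I.IsPrime) {a b : ℤ} (ha : (a : 𝓞 L) ∈ I)
    (hb : (b : 𝓞 L) ∈ I) (h : IsCoprime a b) : False := by
  obtain ⟨u, v, huv⟩ := h
  apply hI.ne_top
  rw [Ideal.eq_top_iff_one]
  have : (1 : 𝓞 L) = u * a + v * b := by
    have := congrArg (fun z : ℤ => (z : 𝓞 L)) huv
    push_cast at this
    exact this.symm
  rw [this]
  exact add_mem (Ideal.mul_mem_left _ _ ha) (Ideal.mul_mem_left _ _ hb)

include hF in
lemma isMaximal_mu : (Ideal.span {Q.mu}).IsMaximal := by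
  have hn := Q.absNorm_mu hF
  refine (Ideal.isPrime_of_irreducible_absNorm (by rw [hn]; exact Nat.prime_two)).isMaximal ?_
  intro h
  rw [h, Ideal.absNorm_bot] at hn
  exact absurd hn (by norm_num)

include hF in
lemma isMaximal_t : (Ideal.span {Q.t0}).IsMaximal := by
  have hn := Q.absNorm_t hF
  refine (Ideal.isPrime_of_irreducible_absNorm (by rw [hn]; exact Nat.prime_five)).isMaximal ?_
  intro h
  rw [h, Ideal.absNorm_bot] at hn
  exact absurd hn (by norm_num)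

include hF in
lemma eq_mu {I : Ideal (𝓞 L)} (hI : I.IsPrime) (h : Q.mu ∈ I) : I = Ideal.span {Q.mu} :=
  ((Q.isMaximal_mu hF).eq_of_le hI.ne_top ((Ideal.span_singleton_le_iff_mem _).2 h)).symm

include hF in
lemma eq_t {I : Ideal (𝓞 L)} (hI : I.IsPrime) (h : Q.t0 ∈ I) : I = Ideal.span {Q.t0} :=
  ((Q.isMaximal_t hF).eq_of_le hI.ne_top ((Ideal.span_singleton_le_iff_mem _).2 h)).symm

include hF in
lemma eq_mu_of_two {I : Ideal (𝓞 L)} (hI : I.IsPrime) (h : (2 : 𝓞 L) ∈ I) :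
    I = Ideal.span {Q.mu} := by
  apply Q.eq_mu hF hI
  have hj := Q.j0_sq
  have e : (1 + Q.j0) ^ 2 = 2 * Q.j0 := by linear_combination hj
  have h1 : 1 + Q.j0 ∈ I := by
    apply hI.mem_of_pow_mem 2
    rw [e]
    exact Ideal.mul_mem_right _ _ h
  apply hI.mem_of_pow_mem 4
  rw [Q.mu_four]
  exact Ideal.mul_mem_right _ _ h1

lemma five_of_t {I : Ideal (𝓞 L)} (h : Q.t0 ∈ I) : ((5 : ℤ) : 𝓞 L) ∈ I := by
  have hj := Q.j0_sq
  have ht := Q.t0_four
  have e : ((5 : ℤ) : 𝓞 L) = Q.t0 * (Q.t0 ^ 3 * (1 + 2 * Q.j0)) := by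
    push_cast
    linear_combination -(1 + 2 * Q.j0) * ht + 4 * hj
  rw [e]
  exact Ideal.mul_mem_right _ _ h

lemma two_of_j {I : Ideal (𝓞 L)} (h : 2 * Q.j0 ∈ I) : ((2 : ℤ) : 𝓞 L) ∈ I := by
  have hj := Q.j0_sq
  have e : ((2 : ℤ) : 𝓞 L) = (2 * Q.j0) * (-Q.j0) := by
    push_cast
    linear_combination 2 * hj
  rw [e]
  exact Ideal.mul_mem_right _ _ h

include hF in
lemma small {I : Ideal (𝓞 L)} (hI : I.IsPrime) (h0 : I ≠ ⊥) (hn : Ideal.absNorm I ≤ 18) :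
    I = Ideal.span {Q.mu} ∨ I = Ideal.span {Q.t0} := by
  have hj := Q.j0_sq
  have ht := Q.t0_four
  have hmem := Ideal.absNorm_mem I
  have hfj := pow_absNorm_sub_mem I hI h0 Q.j0
  have hft := pow_absNorm_sub_mem I hI h0 Q.t0
  obtain ⟨p, k, hp, hk, hpk⟩ := isPrimePow_absNorm I hI h0
  rw [← hpk] at hmem hfj hft hn
  have hpp : p.Prime := hp.nat_prime
  have hpI : ((p : ℤ) : 𝓞 L) ∈ I := by
    have h1 : ((p : 𝓞 L)) ^ k ∈ I := by exact_mod_cast hmem
    exact_mod_cast hI.mem_of_pow_mem k h1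
  have hple : p ≤ 18 := (Nat.le_self_pow hk.ne' p).trans hn
  have hk1 : 3 ≤ p → k ≤ 2 := by
    intro h3
    by_contra hcon
    have : 3 ^ 3 ≤ p ^ k := (Nat.pow_le_pow_left h3 3).trans
      (Nat.pow_le_pow_right (by omega) (by omega))
    omega
  have hk2 : 5 ≤ p → k = 1 := by
    intro h3
    by_contra hcon
    have : 5 ^ 2 ≤ p ^ k := (Nat.pow_le_pow_left h3 2).trans
      (Nat.pow_le_pow_right (by omega) (by omega))
    omega
  interval_cases p
  all_goals first | (exfalso; revert hpp; decide) | skip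
  · -- p = 2
    left
    exact Q.eq_mu_of_two hF hI (by simpa using hpI)
  · -- p = 3
    exfalso
    have hk1' := hk1 le_rfl
    interval_cases k
    · have e : Q.j0 ^ 3 ^ 1 - Q.j0 = -(2 * Q.j0) := by linear_combination Q.j0 * hj
      rw [e, neg_mem_iff] at hfj
      exact not_both I hI hpI (Q.two_of_j hfj) (by norm_num)
    · have e : Q.t0 ^ 3 ^ 2 - Q.t0 = Q.t0 * (-4 * (1 + Q.j0)) := by
        linear_combination (Q.t0 * (Q.t0 ^ 4 + 1 - 2 * Q.j0)) * ht + 4 * Q.t0 * hj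
      rw [e] at hft
      rcases hI.mem_or_mem hft with h | h
      · exact not_both I hI hpI (Q.five_of_t h) (by norm_num)
      · have h8 : ((8 : ℤ) : 𝓞 L) ∈ I := by
          have e8 : ((8 : ℤ) : 𝓞 L) = (-4 * (1 + Q.j0)) * (-(1 - Q.j0)) := by
            push_cast
            linear_combination 4 * hj
          rw [e8]
          exact Ideal.mul_mem_right _ _ h
        exact not_both I hI hpI h8 (by norm_num)
  · -- p = 5
    right
    have hk' := hk2 le_rfl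
    subst hk'
    have e : Q.t0 ^ 5 ^ 1 - Q.t0 = Q.t0 * -(2 * Q.j0) := by linear_combination Q.t0 * ht
    rw [e] at hft
    rcases hI.mem_or_mem hft with h | h
    · exact Q.eq_t hF hI h
    · exfalso
      rw [neg_mem_iff] at h
      exact not_both I hI hpI (Q.two_of_j h) (by norm_num)
  · -- p = 7
    exfalso
    have hk' := hk2 (by norm_num)
    subst hk'
    have e : Q.j0 ^ 7 ^ 1 - Q.j0 = -(2 * Q.j0) := by
      linear_combination (Q.j0 ^ 5 - Q.j0 ^ 3 + Q.j0) * hj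
    rw [e, neg_mem_iff] at hfj
    exact not_both I hI hpI (Q.two_of_j hfj) (by norm_num)
  · -- p = 11
    exfalso
    have hk' := hk2 (by norm_num)
    subst hk'
    have e : Q.j0 ^ 11 ^ 1 - Q.j0 = -(2 * Q.j0) := by
      linear_combination (Q.j0 ^ 9 - Q.j0 ^ 7 + Q.j0 ^ 5 - Q.j0 ^ 3 + Q.j0) * hj
    rw [e, neg_mem_iff] at hfj
    exact not_both I hI hpI (Q.two_of_j hfj) (by norm_num)
  · -- p = 13
    exfalso
    have hk' := hk2 (by norm_num)
    subst hk'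
    have e : Q.t0 ^ 13 ^ 1 - Q.t0 = Q.t0 * (-12 + 2 * Q.j0) := by
      linear_combination (Q.t0 * (Q.t0 ^ 8 + Q.t0 ^ 4 * (1 - 2 * Q.j0) + (1 - 2 * Q.j0) ^ 2)) * ht
        + Q.t0 * (12 - 8 * Q.j0) * hj
    rw [e] at hft
    rcases hI.mem_or_mem hft with h | h
    · exact not_both I hI hpI (Q.five_of_t h) (by norm_num)
    · have h8 : ((74 : ℤ) : 𝓞 L) ∈ I := by
        have e8 : ((74 : ℤ) : 𝓞 L) = (-12 + 2 * Q.j0) * (-6 - Q.j0) := by
          push_cast
          linear_combination 2 * hj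
        rw [e8]
        exact Ideal.mul_mem_right _ _ h
      exact not_both I hI hpI h8 (by norm_num)
  · -- p = 17
    exfalso
    have hk' := hk2 (by norm_num)
    subst hk'
    have e : Q.t0 ^ 17 ^ 1 - Q.t0 = Q.t0 * (-8 + 24 * Q.j0) := by
      linear_combination (Q.t0 * (Q.t0 ^ 8 + (1 - 2 * Q.j0) ^ 2) * (Q.t0 ^ 4 + (1 - 2 * Q.j0))) * ht
        + Q.t0 * (16 * Q.j0 ^ 2 - 32 * Q.j0 + 8) * hj
    rw [e] at hft
    rcases hI.mem_or_mem hft with h | h
    · exact not_both I hI hpI (Q.five_of_t h) (by norm_num)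
    · have h8 : ((80 : ℤ) : 𝓞 L) ∈ I := by
        have e8 : ((80 : ℤ) : 𝓞 L) = (-8 + 24 * Q.j0) * (-1 - 3 * Q.j0) := by
          push_cast
          linear_combination 72 * hj
        rw [e8]
        exact Ideal.mul_mem_right _ _ h
      exact not_both I hI hpI h8 (by norm_num)

end Qr

include Q hF in
/-- Class number one. Minkowski bound `(4/π)⁴ · 8!/8⁸ · √8192000 = 18.08 < 19` (four complex
places). Prime ideals `I` of norm `n ≤ 18` (`n` a prime power):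
* `n` even: `2 ∈ I`; `μ = ρ - 1` has `μ⁴ = (1+i)(-2 + 3i θ + (-1+i) ρ + (2-2i) θρ)`, the second factor
  a unit; so `μ ∈ I`, and `(μ)` has norm 2;
* `n = 5`: `x⁵ = x` in the residue field gives `θ⁴ = 0` or `θ⁴ = 1`; the second is `2i = 0`,
  impossible; so `θ ∈ I` and `(θ)` has norm 5;
* `n = 3, 7, 11`: `i² = -1` is impossible; `n = 9`: `1 = θ⁸ = (1-2i)² = 2i`, impossible;
  `n = 13`: `1 = (1-2i)³`, so `i = 6`, impossible; `n = 17`: `1 = (1-2i)⁴`, so `i = 6`, impossible. -/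
theorem base_pid : IsPrincipalIdealRing (𝓞 L) := by
  apply RingOfIntegers.isPrincipalIdealRing_of_isPrincipal_of_norm_le_of_isPrime
  intro I hI hnorm
  have h3 : (Ideal.absNorm (I : Ideal (𝓞 L)) : ℝ) < 19 := lt_of_le_of_lt hnorm (Q.bound hF)
  have h3' : Ideal.absNorm (I : Ideal (𝓞 L)) < 19 := by exact_mod_cast h3
  have h0 : (I : Ideal (𝓞 L)) ≠ ⊥ := by
    intro h
    have := Ideal.absNorm_ne_zero_of_nonZeroDivisors I
    rw [h, Ideal.absNorm_bot] at this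
    exact this rfl
  rcases Q.small hF hI h0 (by omega) with h | h
  · exact ⟨⟨Q.mu, h⟩⟩
  · exact ⟨⟨Q.t0, h⟩⟩

include hF in
/-- there is exactly one place above `θ`, generated by `θ` -/
theorem base_theta (w : HeightOneSpectrum (𝓞 L)) (hw : w.valuation L Q.t < 1) :
    w.valuation L Q.t = exp (-1 : ℤ) ∧ ∀ w' : HeightOneSpectrum (𝓞 L),
      w'.valuation L Q.t < 1 → w' = w := by
  have key : ∀ v : HeightOneSpectrum (𝓞 L), v.valuation L Q.t < 1 →
      v.asIdeal = Ideal.span {Q.t0} := by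
    intro v hv
    have h : v.valuation L (algebraMap (𝓞 L) L Q.t0) < 1 := hv
    rw [HeightOneSpectrum.valuation_lt_one_iff_mem] at h
    exact Q.eq_t hF v.isPrime h
  refine ⟨?_, fun w' hw' => ?_⟩
  · have h1 := w.intValuation_singleton (r := Q.t0) (by
      intro h
      apply Q.t_ne_zero
      rw [← Qr.coe_t0, h, map_zero]) (key w hw)
    rw [← h1, ← w.valuation_of_algebraMap (K := L)]
    rfl
  · apply HeightOneSpectrum.ext
    rw [key w hw, key w' hw']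

end BSD5
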