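import Mathlib

/-!
# Polynomial identities in `ℚ(i, θ)`, `θ⁴ = 1 - 2i`, with `ρ = (1 + (1+i) θ + θ²) / 2`
-/

namespace BSD5.BaseA

variable {L : Type*} [Field L] [CharZero L] {j t r : L} (hj : j ^ 2 = -1) (ht : t ^ 4 = 1 - 2 * j)
  (hr : r = (1 + (1 + j) * t + t ^ 2) / 2)

include hj ht hr

lemma h_eq : r ^ 4 - 2 * r ^ 3 + r ^ 2 - 2 * r + 1 = - (j * (r ^ 2 - 2 * r)) := by
  rw [hr]
  linear_combination ((1 / 4) * t + (3 / 8) * t ^ 2 + (1 / 4) * t ^ 3 + (1 / 16) * t ^ 4 + (3 / 8) * j + (3 / 4) * j * t + (3 / 4) * j * t ^ 2 + (1 / 4) * j * t ^ 3 + (3 / 8) * j ^ 2 + (3 / 4) * j ^ 2 * t + (3 / 8) * j ^ 2 * t ^ 2 + (1 / 4) * j ^ 3 + (1 / 4) * j ^ 3 * t + (1 / 16) * j ^ 4) * ht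
    + ((1 / 16) + (-3 / 4) * t + (-3 / 4) * t ^ 2 + (-3 / 8) * j + (-5 / 4) * j * t + (-1 / 2) * j * t ^ 2 + (-7 / 16) * j ^ 2 + (-1 / 2) * j ^ 2 * t + (-1 / 8) * j ^ 3) * hj

lemma inv1 : r * ((1 + j) + (-1 + j) * t - (1 + j) * r + t * r) = 1 := by
  rw [hr]
  linear_combination ((1 / 4) + (1 / 4) * t + (1 / 4) * j) * ht
    + ((-1 / 2) + (-1 / 4) * t ^ 2 + (-1 / 4) * t ^ 3 + (-1 / 4) * j * t ^ 2) * hj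

lemma inv2 : (r - 2) * (-(1 + j) + (1 + j) * t + (-3 + j) * r - (1 + 2 * j) * t * r) = 1 := by
  rw [hr]
  linear_combination ((-5 / 4) + (-1 / 4) * t + (-5 / 4) * j + (-1 / 2) * j * t + (-1) * j ^ 2) * ht
    + ((3 / 2) + (5 / 4) * t ^ 2 + (-3 / 4) * t ^ 3 + (2) * j + (1 / 4) * j * t ^ 2 + (-1 / 2) * j * t ^ 3) * hj

lemma inv3 : (-1 + (1 + j) * r) * (-1 - 2 * j * t + (1 + j) * r) = 1 := by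
  rw [hr]
  linear_combination ((1 / 4) + (1 / 2) * j + (1 / 4) * j ^ 2) * ht
    + ((-1 / 2) + (-1 / 2) * t + (-1 / 4) * t ^ 2 + (1 / 2) * t ^ 3 + (-1 / 2) * j + (1 / 2) * j * t + (1 / 2) * j * t ^ 3 + (1 / 4) * j ^ 2 * t ^ 2) * hj

lemma gp_eq : 4 * r ^ 3 - 6 * r ^ 2 + 2 * (1 + j) * r - (2 + 2 * j) = 2 * t ^ 3 * (-1 + (1 + j) * r) := by
  rw [hr]
  linear_combination ((1 / 2) + (1 / 2) * t + (1 / 2) * t ^ 2 + (1) * j + (1 / 2) * j * t + (1 / 2) * j ^ 2) * ht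
    + ((-3 / 2) + (3 / 2) * t ^ 3 + (-1) * j + (1 / 2) * j * t ^ 3) * hj

lemma mu4 : (r - 1) ^ 4 = (1 + j) * (-2 + 3 * j * t + (-1 + j) * r + (2 - 2 * j) * t * r) := by
  rw [hr]
  linear_combination ((-1 / 4) + (-1 / 2) * t + (1 / 8) * t ^ 2 + (1 / 4) * t ^ 3 + (1 / 16) * t ^ 4 + (-11 / 8) * j + (3 / 4) * j * t ^ 2 + (1 / 4) * j * t ^ 3 + (-3 / 8) * j ^ 2 + (3 / 4) * j ^ 2 * t + (3 / 8) * j ^ 2 * t ^ 2 + (1 / 4) * j ^ 3 + (1 / 4) * j ^ 3 * t + (1 / 16) * j ^ 4) * ht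
    + ((37 / 16) + (-5 / 4) * t + (-1 / 4) * t ^ 2 + (-1 / 4) * t ^ 3 + (9 / 8) * j + (-7 / 4) * j * t + (1 / 4) * j * t ^ 2 + (-1 / 4) * j * t ^ 3 + (-7 / 16) * j ^ 2 + (-1 / 2) * j ^ 2 * t + (-1 / 8) * j ^ 3) * hj

lemma inv4 : (-2 + 3 * j * t + (-1 + j) * r + (2 - 2 * j) * t * r) * ((1 - j) + (2 + j) * t + (-1 + j) * r) = 1 := by
  rw [hr]
  linear_combination ((5 / 4) + (-1 / 2) * t + (-1 / 2) * j + (1) * j * t + (1 / 4) * j ^ 2 + (-1 / 2) * j ^ 2 * t + (-1) * j ^ 3) * ht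
    + ((-1) + (-4) * t + (9 / 4) * t ^ 2 + (1) * t ^ 3 + (-3 / 2) * j + (1) * j * t + (2) * j * t ^ 2 + (-1 / 2) * j * t ^ 3 + (2) * j ^ 2 + (1 / 4) * j ^ 2 * t ^ 2 + (-1 / 2) * j ^ 2 * t ^ 3) * hj

lemma j_eq : 1 - 4 * r + 3 * r ^ 2 - 4 * r ^ 3 + 2 * r ^ 4 - 2 * r ^ 5 + r ^ 6 = j := by
  rw [hr]
  linear_combination ((-43 / 64) + (-1 / 4) * t + (13 / 32) * t ^ 2 + (11 / 16) * t ^ 3 + (39 / 64) * t ^ 4 + (15 / 32) * t ^ 5 + (17 / 64) * t ^ 6 + (3 / 32) * t ^ 7 + (1 / 64) * t ^ 8 + (-11 / 8) * j + (-1 / 16) * j * t + (39 / 32) * j * t ^ 2 + (3 / 2) * j * t ^ 3 + (49 / 32) * j * t ^ 4 + (35 / 32) * j * t ^ 5 + (15 / 32) * j * t ^ 6 + (3 / 32) * j * t ^ 7 + (-2) * j ^ 2 + (-3 / 8) * j ^ 2 * t + (3 / 4) * j ^ 2 * t ^ 2 + (27 / 16) * j ^ 2 * t ^ 3 + (55 / 32) * j ^ 2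 * t ^ 4 + (15 / 16) * j ^ 2 * t ^ 5 + (15 / 64) * j ^ 2 * t ^ 6 + (-37 / 16) * j ^ 3 + (-17 / 16) * j ^ 3 * t + (15 / 32) * j ^ 3 * t ^ 2 + (5 / 4) * j ^ 3 * t ^ 3 + (15 / 16) * j ^ 3 * t ^ 4 + (5 / 16) * j ^ 3 * t ^ 5 + (-51 / 32) * j ^ 4 + (-15 / 32) * j ^ 4 * t + (25 / 64) * j ^ 4 * t ^ 2 + (15 / 32) * j ^ 4 * t ^ 3 + (15 / 64) * j ^ 4 * t ^ 4 + (-15 / 32) * j ^ 5 + (1 / 32) * j ^ 5 * t + (3 / 32) * j ^ 5 * t ^ 2 + (3 / 32) * j ^ 5 * t ^ 3 + (1 / 64) * j ^ 6 * t ^ 2) * ht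
    + ((-43 / 32) + (-63 / 32) * t + (-109 / 64) * t ^ 2 + (-13 / 32) * t ^ 3 + (-33 / 32) * j + (-41 / 32) * j * t + (-3 / 8) * j * t ^ 2 + (-51 / 32) * j * t ^ 3 + (67 / 32) * j ^ 2 + (55 / 32) * j ^ 2 * t + (-3 / 8) * j ^ 2 * t ^ 2 + (-59 / 32) * j ^ 2 * t ^ 3 + (87 / 32) * j ^ 3 + (31 / 32) * j ^ 3 * t + (-21 / 32) * j ^ 3 * t ^ 2 + (-27 / 32) * j ^ 3 * t ^ 3 + (15 / 16) * j ^ 4 + (-1 / 16) * j ^ 4 * t + (-11 / 64) * j ^ 4 * t ^ 2 + (-3 / 16) * j ^ 4 * t ^ 3 + (-1 / 32) * j ^ 5 * t ^ 2) * hj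

lemma t_eq : -2 + 7 * r - 9 * r ^ 2 + 11 * r ^ 3 - 6 * r ^ 4 + 5 * r ^ 5 - 4 * r ^ 6 + r ^ 7 = t := by
  rw [hr]
  linear_combination ((53 / 64) + (11 / 128) * t + (-161 / 128) * t ^ 2 + (-89 / 64) * t ^ 3 + (-91 / 128) * t ^ 4 + (-27 / 128) * t ^ 5 + (7 / 64) * t ^ 6 + (29 / 128) * t ^ 7 + (5 / 32) * t ^ 8 + (7 / 128) * t ^ 9 + (1 / 128) * t ^ 10 + (31 / 16) * j + (-197 / 128) * j * t + (-231 / 64) * j * t ^ 2 + (-81 / 32) * j * t ^ 3 + (-39 / 32) * j * t ^ 4 + (3 / 128) * j * t ^ 5 + (27 / 32) * j * t ^ 6 + (99 / 128) * j * t ^ 7 + (21 / 64) * j * t ^ 8 + (7 / 128) * j * t ^ 9 + (173 / 128) * j ^ 2 + (-21 / 8) * j ^ 2 * t + (-111 / 32) * j ^ 2 * t ^ 2 + (-171 / 64) * j ^ 2 * t ^ 3 + (-59 / 64) * j ^ 2 * t ^ 4 + (17 / 16) * j ^ 2 * t ^ 5 + (195 / 128) * j ^ 2 *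 t ^ 6 + (105 / 128) * j ^ 2 * t ^ 7 + (21 / 128) * j ^ 2 * t ^ 8 + (71 / 64) * j ^ 3 + (-71 / 32) * j ^ 3 * t + (-205 / 64) * j ^ 3 * t ^ 2 + (-135 / 64) * j ^ 3 * t ^ 3 + (19 / 64) * j ^ 3 * t ^ 4 + (95 / 64) * j ^ 3 * t ^ 5 + (35 / 32) * j ^ 3 * t ^ 6 + (35 / 128) * j ^ 3 * t ^ 7 + (-19 / 128) * j ^ 4 + (-155 / 64) * j ^ 4 * t + (-295 / 128) * j ^ 4 * t ^ 2 + (-65 / 128) * j ^ 4 * t ^ 3 + (45 / 64) * j ^ 4 * t ^ 4 + (105 / 128) * j ^ 4 * t ^ 5 + (35 / 128) * j ^ 4 * t ^ 6 + (-69 / 64) * j ^ 5 + (-49 / 32) * j ^ 5 * t + (-19 / 32) * j ^ 5 * t ^ 2 + (15 / 128) * j ^ 5 * t ^ 3 + (21 / 64) * j ^ 5 * t ^ 4 + (21 / 128) * j ^ 5 * t ^ 5 + (-77 / 128) * j ^ 6 + (-21 / 64) * j ^ 6 * t + (-1 / 128) * j ^ 6 * t ^ 2 + (7 / 128) * j ^ 6 * t ^ 3 + (7 / 128) * j ^ 6 * t ^ 4 +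 (-7 / 64) * j ^ 7 + (1 / 128) * j ^ 7 * t ^ 3) * ht
    + ((151 / 128) + (75 / 64) * t + (159 / 128) * t ^ 2 + (-13 / 128) * t ^ 3 + (9 / 32) * j + (3 / 8) * j * t + (-17 / 64) * j * t ^ 2 + (315 / 128) * j * t ^ 3 + (-237 / 64) * j ^ 2 + (-23 / 32) * j ^ 2 * t + (187 / 64) * j ^ 2 * t ^ 2 + (31 / 8) * j ^ 2 * t ^ 3 + (-15 / 8) * j ^ 3 + (85 / 32) * j ^ 3 * t + (4) * j ^ 3 * t ^ 2 + (79 / 64) * j ^ 3 * t ^ 3 + (171 / 128) * j ^ 4 + (175 / 64) * j ^ 4 * t + (151 / 128) * j ^ 4 * t ^ 2 + (-21 / 128) * j ^ 4 * t ^ 3 + (35 / 32) * j ^ 5 + (21 / 32) * j ^ 5 * t + (1 / 64) * j ^ 5 * t ^ 2 + (-13 / 128) * j ^ 5 * t ^ 3 + (7 / 32) * j ^ 6 + (-1 / 64) * j ^ 6 * t ^ 3) * hj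

lemma root_f : (r ^ 4 - 2 * r ^ 3 + r ^ 2 - 2 * r + 1) ^ 2 + (r ^ 2 - 2 * r) ^ 2 = 0 := by
  rw [h_eq hj ht hr]
  linear_combination (r ^ 2 - 2 * r) ^ 2 * hj

end BSD5.BaseA
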