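import Pool.Agent.BSD5.Exists
import Pool.Agent.BSD5.BaseAId

/-!
# The octic field `ℚ(i, θ)`: integral elements, primitivity, norms
-/

set_option linter.unusedSectionVars false

namespace BSD5

open NumberField IsDedekindDomain WithZero CFT

variable {F L : Type*} [Field F] [NumberField F] [Field L] [NumberField L] [Algebra F L]
  (Q : Qr F L) (hF : Module.finrank ℚ F = 2)

namespace Qr

lemma ht4 : Q.t ^ 4 = 1 - 2 * Q.j := Q.ht

/-- `ρ` -/
noncomputable def r : L := (1 + (1 + Q.j) * Q.t + Q.t ^ 2) / 2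

lemma hr : Q.r = (1 + (1 + Q.j) * Q.t + Q.t ^ 2) / 2 := rfl

lemma t8 : Q.t ^ 8 - 2 * Q.t ^ 4 + 5 = 0 := by
  have h := Q.ht4
  have hj := Q.hj
  linear_combination (Q.t ^ 4 - 1 - 2 * Q.j) * h + 4 * hj

include hF in
lemma F_coord (x : F) : ∃ a b : ℚ, x = (a : F) + (b : F) * Q.i := by
  let v : Fin 2 → F := ![1, Q.i]
  have hli : LinearIndependent ℚ v := by
    rw [Fintype.linearIndependent_iff]
    intro g hg
    simp only [v, Fin.sum_univ_two, Matrix.cons_val_zero, Matrix.cons_val_one,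
      Rat.smul_def, mul_one] at hg
    have h1 : (g 1) = 0 := by
      by_contra hne
      have h2 : (g 1 : F) ≠ 0 := by exact_mod_cast hne
      have h3 : ((-(g 0) / g 1 : ℚ) : F) = Q.i := by
        push_cast
        field_simp
        linear_combination -hg
      have h4 : ((-(g 0) / g 1 : ℚ) : F) ^ 2 = -1 := by rw [h3, Q.hi]
      have h5 : (-(g 0) / g 1 : ℚ) ^ 2 = -1 := by exact_mod_cast h4
      nlinarith [sq_nonneg (-(g 0) / g 1 : ℚ)]
    have h0 : g 0 = 0 := by
      rw [h1] at hg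
      simpa using hg
    intro k
    fin_cases k
    · exact h0
    · exact h1
  have hcard : Fintype.card (Fin 2) = Module.finrank ℚ F := by rw [hF]; rfl
  have hspan := hli.span_eq_top_of_card_eq_finrank hcard
  have hx : x ∈ Submodule.span ℚ (Set.range v) := by rw [hspan]; trivial
  rw [Submodule.mem_span_range_iff_exists_fun] at hx
  obtain ⟨c, hc⟩ := hx
  refine ⟨c 0, c 1, ?_⟩
  rw [← hc]
  simp [v, Fin.sum_univ_two, Rat.smul_def]

/-! ### integral elements -/

lemma int_j : IsIntegral ℤ Q.j :=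
  IsIntegral.of_pow (n := 2) (by norm_num) (by rw [Q.hj]; exact isIntegral_one.neg)

lemma int_t : IsIntegral ℤ Q.t :=
  IsIntegral.of_pow (n := 4) (by norm_num) (by
    rw [Q.ht4]
    have h2 : IsIntegral ℤ (2 : L) := by
      simpa using isIntegral_algebraMap (R := ℤ) (A := L) (x := (2 : ℤ))
    exact isIntegral_one.sub (h2.mul Q.int_j))

open Polynomial in
/-- the minimal polynomial of `ρ` -/
noncomputable def fr : ℤ[X] :=
  X ^ 8 - 4 * X ^ 7 + 6 * X ^ 6 - 8 * X ^ 5 + 12 * X ^ 4 - 12 * X ^ 3 + 10 * X ^ 2 - 4 * X + 1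

open Polynomial in
lemma fr_monic : fr.Monic := by
  rw [fr]; monicity!

open Polynomial in
lemma fr_deg : fr.natDegree = 8 := by
  rw [fr]; compute_degree!

lemma fr_root : Polynomial.aeval Q.r fr = 0 := by
  have h := BaseA.root_f Q.hj Q.ht4 Q.hr
  simp only [fr, map_add, map_sub, map_mul, map_pow, Polynomial.aeval_X, map_ofNat, map_one]
  linear_combination h

lemma int_r : IsIntegral ℤ Q.r := ⟨fr, fr_monic, Q.fr_root⟩

/-- `i` as an integer -/
noncomputable def j0 : 𝓞 L := ⟨Q.j, Q.int_j⟩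
/-- `θ` as an integer -/
noncomputable def t0 : 𝓞 L := ⟨Q.t, Q.int_t⟩
/-- `ρ` as an integer -/
noncomputable def r0 : 𝓞 L := ⟨Q.r, Q.int_r⟩

lemma coe_j0 : algebraMap (𝓞 L) L Q.j0 = Q.j := rfl
lemma coe_t0 : algebraMap (𝓞 L) L Q.t0 = Q.t := rfl
lemma coe_r0 : algebraMap (𝓞 L) L Q.r0 = Q.r := rfl

/-- equality of integers can be checked in the field -/
lemma ext0 {x y : 𝓞 L} (h : algebraMap (𝓞 L) L x = algebraMap (𝓞 L) L y) : x = y :=
  FaithfulSMul.algebraMap_injective (𝓞 L) L h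

lemma j0_sq : Q.j0 ^ 2 = -1 := by
  apply ext0
  rw [map_pow, map_neg, map_one]
  exact Q.hj

lemma coe_two : algebraMap (𝓞 L) L 2 = 2 := map_ofNat (algebraMap (𝓞 L) L) 2

lemma coe_three : algebraMap (𝓞 L) L 3 = 3 := map_ofNat (algebraMap (𝓞 L) L) 3

lemma t0_four : Q.t0 ^ 4 = 1 - 2 * Q.j0 := by
  apply ext0
  rw [map_pow, map_sub, map_mul, map_one, coe_two]
  exact Q.ht4

/-! ### primitivity -/

include Q in
lemma finrank4 : Module.finrank F L = 4 := by
  let b : Fin 4 → L := ![1, Q.t, Q.t ^ 2, Q.t ^ 3]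
  have hli : LinearIndependent F b := by
    rw [Fintype.linearIndependent_iff]
    intro g hg
    simp only [b, Fin.sum_univ_four, Matrix.cons_val_zero, Matrix.cons_val_one,
      Matrix.cons_val] at hg
    have h1 : Q.el (g 0) (g 1) (g 2) (g 3) = Q.el 0 0 0 0 := by
      simp only [el, map_zero, zero_mul, add_zero]
      rw [← hg]
      simp only [Algebra.smul_def, mul_one]
    obtain ⟨e0, e1, e2, e3⟩ := Q.el_inj h1
    intro i
    fin_cases i
    · exact e0
    · exact e1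
    · exact e2
    · exact e3
  have hsp : ⊤ ≤ Submodule.span F (Set.range b) := by
    intro x _
    rw [Submodule.mem_span_range_iff_exists_fun]
    refine ⟨![Q.c0 x, Q.c1 x, Q.c2 x, Q.c3 x], ?_⟩
    simp only [b, Fin.sum_univ_four, Matrix.cons_val_zero, Matrix.cons_val_one,
      Matrix.cons_val, Algebra.smul_def, mul_one]
    exact (Q.eq x).symm
  have h := Module.finrank_eq_card_basis (Module.Basis.mk hli hsp)
  simpa using h

include Q hF in
lemma finrank_L : Module.finrank ℚ L = 8 := by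
  rw [← Module.finrank_mul_finrank ℚ F L, hF, Q.finrank4]

include hF in
lemma adjoin_of_mem (S : Subalgebra ℚ L) (hj : Q.j ∈ S) (ht : Q.t ∈ S) : S = ⊤ := by
  rw [Algebra.eq_top_iff]
  have hx : ∀ x : F, algebraMap F L x ∈ S := by
    intro x
    obtain ⟨a, b, rfl⟩ := Q.F_coord hF x
    rw [map_add, map_mul, map_ratCast, map_ratCast]
    exact add_mem (by simpa using S.algebraMap_mem a)
      (mul_mem (by simpa using S.algebraMap_mem b) hj)
  intro y
  rw [Q.eq y]
  exact add_mem (add_mem (add_mem (hx _) (mul_mem (hx _) ht)) (mul_mem (hx _) (pow_mem ht 2)))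
    (mul_mem (hx _) (pow_mem ht 3))

include hF in
lemma adjoin_r : Algebra.adjoin ℚ {Q.r} = ⊤ := by
  have hr : Q.r ∈ Algebra.adjoin ℚ {Q.r} := Algebra.subset_adjoin (Set.mem_singleton _)
  have hn : ∀ n : ℤ, (n : L) ∈ Algebra.adjoin ℚ {Q.r} := fun n => intCast_mem _ n
  apply Q.adjoin_of_mem hF
  · rw [← BaseA.j_eq Q.hj Q.ht4 Q.hr]
    have h1 := hn 1
    have h2 := hn 2
    have h3 := hn 3
    have h4 := hn 4
    push_cast at h1 h2 h3 h4
    exact add_mem (sub_mem (add_mem (sub_mem (add_mem (sub_mem h1 (mul_mem h4 hr))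
      (mul_mem h3 (pow_mem hr 2))) (mul_mem h4 (pow_mem hr 3))) (mul_mem h2 (pow_mem hr 4)))
      (mul_mem h2 (pow_mem hr 5))) (pow_mem hr 6)
  · rw [← BaseA.t_eq Q.hj Q.ht4 Q.hr]
    have h1 := hn (-2)
    have h4 := hn 4
    have h5 := hn 5
    have h6 := hn 6
    have h7 := hn 7
    have h9 := hn 9
    have h11 := hn 11
    push_cast at h1 h4 h5 h6 h7 h9 h11
    exact add_mem (sub_mem (add_mem (sub_mem (add_mem (sub_mem (add_mem h1 (mul_mem h7 hr))
      (mul_mem h9 (pow_mem hr 2))) (mul_mem h11 (pow_mem hr 3))) (mul_mem h6 (pow_mem hr 4)))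
      (mul_mem h5 (pow_mem hr 5))) (mul_mem h4 (pow_mem hr 6))) (pow_mem hr 7)

include hF in
lemma adjoin_t : Algebra.adjoin ℚ {Q.t} = ⊤ := by
  have ht : Q.t ∈ Algebra.adjoin ℚ {Q.t} := Algebra.subset_adjoin (Set.mem_singleton _)
  apply Q.adjoin_of_mem hF _ _ ht
  have e : Q.j = algebraMap ℚ L (1 / 2) * (1 - Q.t ^ 4) := by
    rw [Q.ht4]
    simp
  rw [e]
  exact mul_mem (Subalgebra.algebraMap_mem _ _) (sub_mem (one_mem _) (pow_mem ht 4))

include Q hF in
lemma natDegree_of_adjoin {x : L} (h : Algebra.adjoin ℚ {x} = ⊤) :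
    (minpoly ℚ x).natDegree = 8 := by
  rw [← finrank_L Q hF, ← Field.primitive_element_iff_minpoly_natDegree_eq]
  apply IntermediateField.toSubalgebra_injective
  rw [IntermediateField.adjoin_simple_toSubalgebra_of_isAlgebraic
    (IsIntegral.of_finite ℚ x).isAlgebraic, h]
  rfl

lemma fr_root0 : Polynomial.aeval Q.r0 fr = 0 := by
  apply ext0
  have h := Q.fr_root
  rw [← coe_r0] at h
  have h2 := Polynomial.aeval_algebraMap_apply L Q.r0 fr
  rw [← h2]
  rw [map_zero]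
  exact h

lemma minpoly_natDegree {x : 𝓞 L} (h : (minpoly ℚ (algebraMap (𝓞 L) L x)).natDegree = 8) :
    (minpoly ℤ x).natDegree = 8 := by
  have hint : IsIntegral ℤ x := RingOfIntegers.isIntegral x
  have h1 := minpoly.isIntegrallyClosed_eq_field_fractions (R := ℤ) (S := 𝓞 L) ℚ L (s := x) hint
  rw [h1, Polynomial.natDegree_map_eq_of_injective (algebraMap ℤ ℚ).injective_int] at h
  exact h

include hF in
lemma minpoly_r : minpoly ℤ Q.r0 = fr := by
  have hint : IsIntegral ℤ Q.r0 := RingOfIntegers.isIntegral _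
  have hdvd := minpoly.isIntegrallyClosed_dvd hint Q.fr_root0
  refine (Polynomial.eq_of_monic_of_dvd_of_natDegree_le (minpoly.monic hint) fr_monic hdvd ?_).symm
  have h8 : (minpoly ℚ (algebraMap (𝓞 L) L Q.r0)).natDegree = 8 :=
    Q.natDegree_of_adjoin hF (Q.adjoin_r hF)
  rw [fr_deg, minpoly_natDegree h8]

open Polynomial in
include hF in
/-- the norm of `θ` is five -/
lemma norm_t : Algebra.norm ℚ Q.t = 5 := by
  have hint : IsIntegral ℚ Q.t := IsIntegral.of_finite ℚ _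
  let pb := PowerBasis.ofAdjoinEqTop hint (Q.adjoin_t hF)
  have hgen : pb.gen = Q.t := PowerBasis.ofAdjoinEqTop_gen hint (Q.adjoin_t hF)
  have hdeg := Q.natDegree_of_adjoin hF (Q.adjoin_t hF)
  have hmin : minpoly ℚ Q.t = X ^ 8 - 2 * X ^ 4 + 5 := by
    have hmon : (X ^ 8 - 2 * X ^ 4 + 5 : ℚ[X]).Monic := by monicity!
    have hd : (X ^ 8 - 2 * X ^ 4 + 5 : ℚ[X]).natDegree = 8 := by compute_degree!
    have hroot : aeval Q.t (X ^ 8 - 2 * X ^ 4 + 5 : ℚ[X]) = 0 := by
      simp only [map_add, map_sub, map_mul, map_pow, aeval_X, map_ofNat]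
      exact Q.t8
    refine (eq_of_monic_of_dvd_of_natDegree_le (minpoly.monic hint) hmon
      (minpoly.dvd ℚ _ hroot) ?_).symm
    rw [hd, hdeg]
  have h := Algebra.PowerBasis.norm_gen_eq_coeff_zero_minpoly pb
  rw [hgen, hmin] at h
  have hdim : pb.dim = 8 := by
    rw [← pb.natDegree_minpoly, hgen, hdeg]
  rw [hdim] at h
  have h0 : (X ^ 8 - 2 * X ^ 4 + 5 : ℚ[X]).coeff 0 = 5 := by simp
  rw [h, h0]
  norm_num

/-! ### norms of ideals -/

lemma absNorm_unit {x y : 𝓞 L} (h : x * y = 1) : Ideal.absNorm (Ideal.span {x}) = 1 := by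
  rw [Ideal.absNorm_eq_one_iff, Ideal.span_singleton_eq_top]
  exact IsUnit.of_mul_eq_one _ h

include hF in
lemma absNorm_t : Ideal.absNorm (Ideal.span {Q.t0}) = 5 := by
  rw [Ideal.absNorm_span_singleton]
  have h : ((Algebra.norm ℤ Q.t0 : ℤ) : ℚ) = Algebra.norm ℚ Q.t := Algebra.coe_norm_int Q.t0
  rw [Q.norm_t hF] at h
  have h2 : Algebra.norm ℤ Q.t0 = 5 := by exact_mod_cast h
  rw [h2]
  rfl

include Q hF in
lemma absNorm_two : Ideal.absNorm (Ideal.span {(2 : 𝓞 L)}) = 2 ^ 8 := by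
  rw [Ideal.absNorm_span_singleton]
  have h := Algebra.norm_natCast ℤ (S := 𝓞 L) 2
  rw [RingOfIntegers.rank, Q.finrank_L hF] at h
  have h2 : Algebra.norm ℤ (2 : 𝓞 L) = 256 := by
    have e : ((2 : ℕ) : 𝓞 L) = 2 := by norm_num
    rw [e] at h
    rw [h]; norm_num
  rw [h2]; rfl

include hF in
lemma absNorm_one_add : Ideal.absNorm (Ideal.span {1 + Q.j0}) = 16 := by
  have h := Q.absNorm_two hF
  have e : (2 : 𝓞 L) = (1 + Q.j0) ^ 2 * (-Q.j0) := by
    have hj := Q.j0_sq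
    linear_combination (Q.j0 + 2) * hj
  have hu : Ideal.absNorm (Ideal.span {-Q.j0}) = 1 :=
    absNorm_unit (y := Q.j0) (by linear_combination -Q.j0_sq)
  rw [e, ← Ideal.span_singleton_mul_span_singleton, map_mul, hu, mul_one,
    ← Ideal.span_singleton_pow, map_pow] at h
  have h2 : Ideal.absNorm (Ideal.span {1 + Q.j0}) ^ 2 = 16 ^ 2 := by rw [h]; norm_num
  exact Nat.pow_left_injective (n := 2) (by norm_num) h2

/-- the generator of the prime above two -/
noncomputable def mu : 𝓞 L := Q.r0 - 1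

lemma mu_four : Q.mu ^ 4 = (1 + Q.j0) *
    (-2 + 3 * Q.j0 * Q.t0 + (-1 + Q.j0) * Q.r0 + (2 - 2 * Q.j0) * Q.t0 * Q.r0) := by
  apply ext0
  have h := BaseA.mu4 Q.hj Q.ht4 Q.hr
  simp only [mu, map_pow, map_sub, map_add, map_mul, map_neg, map_one, coe_two, coe_three,
    coe_j0, coe_t0, coe_r0]
  exact h

lemma mu_unit : (-2 + 3 * Q.j0 * Q.t0 + (-1 + Q.j0) * Q.r0 + (2 - 2 * Q.j0) * Q.t0 * Q.r0) *
    ((1 - Q.j0) + (2 + Q.j0) * Q.t0 + (-1 + Q.j0) * Q.r0) = 1 := by
  apply ext0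
  have h := BaseA.inv4 Q.hj Q.ht4 Q.hr
  simp only [map_sub, map_add, map_mul, map_neg, map_one, coe_two, coe_three,
    coe_j0, coe_t0, coe_r0]
  exact h

include hF in
lemma absNorm_mu : Ideal.absNorm (Ideal.span {Q.mu}) = 2 := by
  have h : Ideal.absNorm (Ideal.span {Q.mu ^ 4}) = 16 := by
    rw [Q.mu_four, ← Ideal.span_singleton_mul_span_singleton, map_mul, Q.absNorm_one_add hF,
      absNorm_unit Q.mu_unit]
  rw [← Ideal.span_singleton_pow, map_pow] at h
  have h2 : Ideal.absNorm (Ideal.span {Q.mu}) ^ 4 = 2 ^ 4 := by rw [h]; norm_num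
  exact Nat.pow_left_injective (n := 4) (by norm_num) h2

end Qr

end BSD5
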