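import Pool.Agent.BSD5.BaseB3

/-!
# Elements all of whose valuations are fifth powers, in fields of class number one
-/

namespace BSD5

set_option linter.unusedSectionVars false

open NumberField IsDedekindDomain WithZero

variable {L : Type*} [Field L] [NumberField L]

lemma exists_exp5 {γ : ℤᵐ⁰} (h : γ ≠ 0) : ∃ k : ℤ, γ = exp k := ⟨log γ, (exp_log h).symm⟩

lemma fifth_lt_one {γ : ℤᵐ⁰} (h : ∃ δ, γ = δ ^ 5) (h1 : γ < 1) : γ ≤ exp (-5 : ℤ) := by
  obtain ⟨r, rfl⟩ := h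
  by_cases hr : r = 0
  · rw [hr, zero_pow (by norm_num)]; exact zero_le
  obtain ⟨k, rfl⟩ := exists_exp5 hr
  rw [← exp_nsmul, ← exp_zero, exp_lt_exp] at h1
  rw [← exp_nsmul, exp_le_exp]
  simp only [nsmul_eq_mul] at h1 ⊢
  push_cast at h1 ⊢
  omega

lemma int_fifth [IsPrincipalIdealRing (𝓞 L)] (m : 𝓞 L) (hm : m ≠ 0)
    (hv : ∀ w : HeightOneSpectrum (𝓞 L), ∃ γ, w.valuation L (algebraMap (𝓞 L) L m) = γ ^ 5) :
    ∃ (u : (𝓞 L)ˣ) (z : 𝓞 L), z ≠ 0 ∧ m = u * z ^ 5 := by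
  have wf : WellFounded (DvdNotUnit (α := 𝓞 L)) := wellFounded_dvdNotUnit
  revert hm hv
  refine wf.induction (C := fun m => m ≠ 0 → (∀ w : HeightOneSpectrum (𝓞 L),
    ∃ γ, w.valuation L (algebraMap (𝓞 L) L m) = γ ^ 5) → ∃ (u : (𝓞 L)ˣ) (z : 𝓞 L), z ≠ 0 ∧
      m = u * z ^ 5) m ?_
  intro m ih hm hv
  by_cases hu : IsUnit m
  · obtain ⟨u, rfl⟩ := hu
    exact ⟨u, 1, one_ne_zero, by ring⟩
  · obtain ⟨p, hp, hpm⟩ := WfDvdMonoid.exists_irreducible_factor hu hm
    have hpp : Prime p := hp.prime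
    have hp0 : p ≠ 0 := hpp.ne_zero
    let w : HeightOneSpectrum (𝓞 L) := ⟨Ideal.span {p}, (Ideal.span_singleton_prime hp0).2 hpp,
      by rwa [Ne, Ideal.span_singleton_eq_bot]⟩
    have h1 : w.valuation L (algebraMap (𝓞 L) L m) < 1 := by
      rw [w.valuation_lt_one_iff_mem]
      exact Ideal.mem_span_singleton.2 hpm
    have h2 := fifth_lt_one (hv w) h1
    rw [w.valuation_of_algebraMap] at h2
    have h3 := (w.intValuation_le_pow_iff_dvd m 5).1 (by exact_mod_cast h2)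
    have h4 : p ^ 5 ∣ m := by
      have h5 : w.asIdeal = Ideal.span {p} := rfl
      rw [h5, Ideal.span_singleton_pow, Ideal.dvd_span_singleton, Ideal.mem_span_singleton] at h3
      exact h3
    obtain ⟨m', rfl⟩ := h4
    have hm' : m' ≠ 0 := by
      rintro rfl
      exact hm (mul_zero _)
    obtain ⟨u, z, hz, hz'⟩ := ih m' ⟨hm', p ^ 5, fun h => hpp.not_isUnit
      ((isUnit_pow_iff (by norm_num)).1 h), mul_comm _ _⟩ hm' (by
        intro w'
        obtain ⟨r, hr⟩ := hv w'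
        have hpv : w'.valuation L (algebraMap (𝓞 L) L p) ≠ 0 := by
          rw [Valuation.ne_zero_iff]
          exact (map_ne_zero_iff _ (FaithfulSMul.algebraMap_injective (𝓞 L) L)).2 hp0
        refine ⟨r / w'.valuation L (algebraMap (𝓞 L) L p), ?_⟩
        rw [map_mul (algebraMap (𝓞 L) L), map_mul, map_pow (algebraMap (𝓞 L) L), map_pow] at hr
        rw [div_pow, ← hr, mul_comm, mul_div_assoc, div_self (pow_ne_zero 5 hpv), mul_one])
    exact ⟨u, p * z, mul_ne_zero hp0 hz, by rw [hz']; ring⟩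

lemma frac_fifth [IsPrincipalIdealRing (𝓞 L)] (x : L) (hx : x ≠ 0)
    (hv : ∀ w : HeightOneSpectrum (𝓞 L), Div5 w x) :
    ∃ (u : (𝓞 L)ˣ) (z : L), z ≠ 0 ∧ x = ((u : 𝓞 L) : L) * z ^ 5 := by
  obtain ⟨a, b, hb, rfl⟩ := IsFractionRing.div_surjective (A := 𝓞 L) x
  have hb0 : b ≠ 0 := nonZeroDivisors.ne_zero hb
  have hb0' : algebraMap (𝓞 L) L b ≠ 0 :=
    (map_ne_zero_iff _ (FaithfulSMul.algebraMap_injective (𝓞 L) L)).2 hb0
  have ha0 : a ≠ 0 := by
    rintro rfl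
    simp at hx
  obtain ⟨u, z, hz, hz'⟩ := int_fifth (a * b ^ 4) (mul_ne_zero ha0 (pow_ne_zero 4 hb0)) (by
    intro w
    obtain ⟨m, hm⟩ := hv w
    have e : algebraMap (𝓞 L) L (a * b ^ 4) = algebraMap (𝓞 L) L a / algebraMap (𝓞 L) L b
        * (algebraMap (𝓞 L) L b) ^ 5 := by
      rw [map_mul, map_pow]
      field_simp
    refine ⟨exp m * w.valuation L (algebraMap (𝓞 L) L b), ?_⟩
    rw [e, map_mul, hm, map_pow, mul_pow, ← exp_nsmul]
    congr 2)
  have hz0' : algebraMap (𝓞 L) L z ≠ 0 :=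
    (map_ne_zero_iff _ (FaithfulSMul.algebraMap_injective (𝓞 L) L)).2 hz
  refine ⟨u, algebraMap (𝓞 L) L z / algebraMap (𝓞 L) L b, div_ne_zero hz0' hb0', ?_⟩
  have h := congrArg (algebraMap (𝓞 L) L) hz'
  rw [map_mul, map_mul, map_pow, map_pow] at h
  have e : ((u : 𝓞 L) : L) = algebraMap (𝓞 L) L (u : 𝓞 L) := rfl
  rw [e]
  field_simp
  linear_combination h

/-- the extension has degree four -/
lemma finrank_four {K L : Type*} [Field K] [Field L] [Algebra K L] (Q : Qr K L) :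
    Module.finrank K L = 4 := by
  let f : (Fin 4 → K) →ₗ[K] L :=
    { toFun := fun g => Q.el (g 0) (g 1) (g 2) (g 3)
      map_add' := fun g g' => by
        rw [Q.el_add]; rfl
      map_smul' := fun a g => by
        simp only [Pi.smul_apply, smul_eq_mul, RingHom.id_apply, Algebra.smul_def, Qr.el, map_mul]
        ring }
  have hinj : Function.Injective f := by
    intro g g' h
    obtain ⟨h0, h1, h2, h3⟩ := Q.el_inj h
    funext k
    fin_cases k
    · exact h0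
    · exact h1
    · exact h2
    · exact h3
  have hsurj : Function.Surjective f := fun x =>
    ⟨![Q.c0 x, Q.c1 x, Q.c2 x, Q.c3 x], Q.el_coord x⟩
  rw [← (LinearEquiv.ofBijective f ⟨hinj, hsurj⟩).finrank_eq, Module.finrank_fin_fun]

end BSD5
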