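import Pool.Agent.BSD5.BaseA
import Pool.Agent.BSD5.BaseB4

/-!
# The field `B = ℚ(i, θ)`: units modulo fifth powers; the Selmer group over `ℚ(i)` is trivial
-/

namespace BSD5

open NumberField IsDedekindDomain WithZero CFT

variable {F L : Type*} [Field F] [NumberField F] [Field L] [NumberField L] [Algebra F L]
  (Q : Qr F L) (hF : Module.finrank ℚ F = 2)

/-- values of `i` at complex embeddings -/
lemma emb_i {K : Type*} [Field K] {i : K} (hi : i ^ 2 = -1) (σ : K →+* ℂ) :
    σ i = Complex.I ∨ σ i = -Complex.I := by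
  have h1 := congrArg σ hi
  rw [map_pow, map_neg, map_one, ← Complex.I_sq] at h1
  exact sq_eq_sq_iff_eq_or_eq_neg.1 h1

/-- absolute values of `a + b i` -/
lemma norm_emb {K : Type*} [Field K] {i : K} (hi : i ^ 2 = -1) (σ : K →+* ℂ) (a b : ℤ) :
    ‖σ (a + b * i)‖ ^ 2 = a ^ 2 + b ^ 2 := by
  rw [map_add, map_mul, map_intCast, map_intCast, ← Complex.normSq_eq_norm_sq]
  rcases emb_i hi σ with h | h <;> rw [h] <;> simp [Complex.normSq_apply] <;> ring

include hF in
/-- norms of `a + b i` in the quadratic field -/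
lemma absNorm_F {i : F} (hi : i ^ 2 = -1) {ii : 𝓞 F} (hii : algebraMap (𝓞 F) F ii = i) (a b : ℤ)
    (p : ℕ) (hp : (p : ℤ) = a ^ 2 + b ^ 2) :
    Ideal.absNorm (Ideal.span {(a + b * ii : 𝓞 F)}) = p := by
  have hpR : ((p : ℕ) : ℝ) = (a : ℝ) ^ 2 + b ^ 2 := by exact_mod_cast hp
  have h1 := absNorm_of_abs (a + b * ii : 𝓞 F) (Real.sqrt p) (fun σ => by
    have h2 := norm_emb hi σ a b
    have h3 : ((a + b * ii : 𝓞 F) : F) = a + b * i := by
      change algebraMap (𝓞 F) F (a + b * ii) = _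
      rw [map_add, map_mul, map_intCast, map_intCast, hii]
    rw [h3, hpR, ← h2, Real.sqrt_sq (norm_nonneg _)])
  rw [hF, Real.sq_sqrt (by positivity)] at h1
  exact_mod_cast h1

include hF in
/-- valuations of elements of prime norm in the quadratic field -/
lemma val_F {i : F} (hi : i ^ 2 = -1) (a b : ℤ) {p : ℕ} (hpp : p.Prime)
    (hp : (p : ℤ) = a ^ 2 + b ^ 2) (v : HeightOneSpectrum (𝓞 F))
    (hv : v.valuation F (a + b * i) < 1) : v.valuation F (a + b * i) = exp (-1 : ℤ) := by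
  have hint : IsIntegral ℤ i := by
    refine ⟨Polynomial.X ^ 2 + 1, by monicity!, ?_⟩
    simp only [Polynomial.eval₂_add, Polynomial.eval₂_X_pow, Polynomial.eval₂_one]
    rw [hi]; ring
  set ii : 𝓞 F := ⟨i, hint⟩ with hii
  have hii' : algebraMap (𝓞 F) F ii = i := rfl
  have h3 : algebraMap (𝓞 F) F (a + b * ii) = a + b * i := by
    rw [map_add, map_mul, map_intCast, map_intCast, hii']
  rw [← h3] at hv ⊢
  exact val_of_absNorm hpp (absNorm_F hF hi hii' a b p hp)
    ((v.valuation_lt_one_iff_mem (K := F) _).1 hv)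

include Q hF in
/-- `B` is totally complex of degree eight: unit rank three. -/
theorem base_rank : NumberField.Units.rank L = 3 := by
  have hreal : InfinitePlace.nrRealPlaces L = 0 := by
    classical
    by_contra hne
    have hpos : 0 < InfinitePlace.nrRealPlaces L := Nat.pos_of_ne_zero hne
    obtain ⟨w⟩ := Fintype.card_pos_iff.1 hpos
    have hr := w.2
    rw [InfinitePlace.isReal_iff] at hr
    set φ := w.1.embedding with hφ
    have h2 := RingHom.congr_fun (ComplexEmbedding.isReal_iff.1 hr) Q.j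
    have h1 : (starRingEnd ℂ) (φ Q.j) = φ Q.j := h2
    rcases emb_i Q.hj φ with h | h <;> rw [h] at h1
    · rw [Complex.conj_I] at h1
      have := congrArg Complex.im h1
      norm_num at this
    · rw [map_neg, Complex.conj_I] at h1
      have := congrArg Complex.im h1
      norm_num at this
  have hdeg : Module.finrank ℚ L = 8 := by
    rw [← Module.finrank_mul_finrank ℚ F L, hF, finrank_four Q]
  have h1 := InfinitePlace.card_add_two_mul_card_eq_rank L
  rw [hreal, hdeg] at h1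
  have h := InfinitePlace.card_eq_nrRealPlaces_add_nrComplexPlaces (K := L)
  rw [NumberField.Units.rank, h, hreal]
  omega

include hF in
/-- the norm of `θ` -/
lemma base_norm_th : Ideal.absNorm (Ideal.span {(Q.th : 𝓞 L)}) = 5 := by
  have hdeg : Module.finrank ℚ L = 8 := by
    rw [← Module.finrank_mul_finrank ℚ F L, hF, finrank_four Q]
  have h2 := absNorm_of_abs (Q.th : 𝓞 L) (Real.sqrt (Real.sqrt (Real.sqrt 5))) (fun σ => by
    have h3 : ‖σ Q.t‖ ^ 4 = Real.sqrt 5 := by
      have h4 := congrArg σ Q.ht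
      rw [map_pow] at h4
      rw [← norm_pow, h4]
      have h5 := norm_emb Q.hj σ 1 (-2)
      have h6 : ((1 : ℤ) : L) + ((-2 : ℤ) : L) * Q.j = 1 - 2 * algebraMap F L Q.i := by
        push_cast
        ring
      rw [h6] at h5
      rw [← Real.sqrt_sq (norm_nonneg _), h5]
      norm_num
    have h7 : ‖σ Q.t‖ = Real.sqrt (Real.sqrt (‖σ Q.t‖ ^ 4)) := by
      have e : ‖σ Q.t‖ ^ 4 = (‖σ Q.t‖ ^ 2) ^ 2 := by ring
      rw [e, Real.sqrt_sq (by positivity), Real.sqrt_sq (norm_nonneg _)]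
    change ‖σ Q.t‖ = _
    rw [h7, h3])
  rw [hdeg] at h2
  have h8 : (Real.sqrt (Real.sqrt (Real.sqrt 5))) ^ 8 = 5 := by
    have e : (Real.sqrt (Real.sqrt (Real.sqrt 5))) ^ 8
        = (((Real.sqrt (Real.sqrt (Real.sqrt 5))) ^ 2) ^ 2) ^ 2 := by ring
    rw [e, Real.sq_sqrt (by positivity), Real.sq_sqrt (by positivity), Real.sq_sqrt (by norm_num)]
  rw [h8] at h2
  exact_mod_cast h2

include hF in
/-- the residue field at `θ` has five elements -/
lemma base_absNorm (w : HeightOneSpectrum (𝓞 L)) (hw : w.valuation L Q.t < 1) :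
    Ideal.absNorm w.asIdeal = 5 := by
  have h1 := base_norm_th Q hF
  rw [eq_span_of_absNorm Nat.prime_five h1 ((w.valuation_lt_one_iff_mem (K := L) Q.th).1 hw), h1]

include Q hF in
/-- no fifth roots of unity -/
lemma base_mu (z : L) (hz : z ^ 5 = 1) : z = 1 := by
  obtain ⟨_, v, hv⟩ := exists_place F Q.i Q.hi
  refine Q.mu5 v ?_ z hz
  have e : (2 : F) - Q.i = ((2 : ℤ) : F) + ((-1 : ℤ) : F) * Q.i := by push_cast; ring
  rw [e] at hv ⊢
  exact val_F hF Q.hi 2 (-1) Nat.prime_five (by norm_num) v hv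

include hF in
/-- A unit which is congruent to a fifth power modulo `θ⁴` is a fifth power.

Proof. `E = (𝓞 L)ˣ`; `E / E⁵` has order `5³` (Dirichlet, rank three, torsion prime to five by
`Qr.mu5`). `𝓞 L / (θ⁴) = 𝔽₅[t]/t⁴` with `i ↦ 3`, `θ ↦ t` (ring homomorphism `r`; surjective with
kernel `(θ⁴)`; `5 = θ⁴ (1 + 2i)`; `𝓞 L = ℤ[i][θ] + (prime to five)`). The group of units of
`𝔽₅[t]/t⁴` modulo constants is `{1 + a t + b t² + c t³}`, elementary abelian of order `5³`, fifth
powers are the constants. The units `ε₁ = 1 + θ + θ³`, `τ ε₁ = 1 + iθ - iθ³`, `ε₂ = (1+i) + i θ²` have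
logarithms `(1,2,3)`, `(3,3,1)`, `(0,2,0)` (`log(1 + x) = x - x²/2 + x³/3`), determinant `1`, so
`E / E⁵ → 𝔽₅³` is onto, hence injective. (Inverses, with `ρ = (1 + (1+i)θ + θ²)/2`:
`ε₁⁻¹ = (-2+3i) + (4+2i) θ + (2+2i) ρ - (2+4i) θρ`, `ε₂⁻¹ = (1+2i) + (-1+i) θ - 2i ρ`.) -/
theorem base_units (u : (𝓞 L)ˣ) (w : HeightOneSpectrum (𝓞 L)) (hw : w.valuation L Q.t < 1)
    (h : ∃ c : L, w.valuation L (((u : 𝓞 L) : L) * c ^ 5 - 1) ≤ exp (-4 : ℤ)) :
    Is5 ((u : 𝓞 L) : L) :=
  units_main Q (base_theta Q hF w hw).1 (base_absNorm Q hF w hw) (base_rank Q hF) (base_mu Q hF) u h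

universe u v

/-- All valuations of a Selmer element are divisible by five (also at `θ`, by the local condition), so
it is a unit times a fifth power (`base_pid`), and `base_units` applies. -/
theorem base_triv {F : Type u} [Field F] [NumberField F] (hF : Module.finrank ℚ F = 2) {i : F}
    (hi : i ^ 2 = -1) : TrivSel.{u, v} F i := by
  intro L _ _ _ Q hQi x hx
  have := base_pid Q hF
  have hle : ∀ w : HeightOneSpectrum (𝓞 L), w.valuation L Q.t ≤ 1 := fun w =>
    w.valuation_le_one Q.th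
  have hdiv : ∀ w : HeightOneSpectrum (𝓞 L), Div5 w x := by
    intro w
    rcases (hle w).lt_or_eq with h | h
    · obtain ⟨z, hz⟩ := hx.loc w h
      have h5 : exp (-5 : ℤ) < 1 := by rw [← exp_zero, exp_lt_exp]; norm_num
      have h1 : w.valuation L (x * z ^ 5) = 1 := by
        have e : x * z ^ 5 = 1 + (x * z ^ 5 - 1) := by ring
        rw [e, Valuation.map_add_eq_of_lt_left _ (by rw [map_one]; exact hz.trans_lt h5), map_one]
      have hz0 : w.valuation L z ≠ 0 := by
        intro h0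
        rw [map_mul, map_pow, h0, zero_pow (by norm_num), mul_zero] at h1
        exact zero_ne_one h1
      obtain ⟨k, hk⟩ := exists_exp5 hz0
      refine ⟨-k, ?_⟩
      rw [map_mul, map_pow, hk, ← exp_nsmul] at h1
      have h2 : exp (5 * -k) * exp ((5 : ℕ) • k) = 1 := by
        rw [← exp_add, ← exp_zero]
        congr 1
        simp
      exact mul_right_cancel₀ exp_ne_zero (h1.trans h2.symm)
    · exact hx.val w h
  obtain ⟨u, z, hz0, hxz⟩ := frac_fifth x hx.ne_zero hdiv
  obtain ⟨w, hw⟩ : ∃ w : HeightOneSpectrum (𝓞 L), w.valuation L Q.t < 1 := by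
    have h1 := base_norm_th Q hF
    have hne : Ideal.span {(Q.th : 𝓞 L)} ≠ ⊤ := by
      intro h
      rw [h, Ideal.absNorm_top] at h1
      norm_num at h1
    obtain ⟨P, hP, hle'⟩ := Ideal.exists_le_maximal _ hne
    have hmem : Q.th ∈ P := hle' (Ideal.mem_span_singleton_self _)
    refine ⟨⟨P, hP.isPrime, ?_⟩, ?_⟩
    · rintro rfl
      rw [Ideal.mem_bot] at hmem
      apply Q.t_ne_zero
      rw [← Q.th_coe, hmem, map_zero]
    · exact (HeightOneSpectrum.valuation_lt_one_iff_mem (K := L) _ Q.th).2 hmem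
  obtain ⟨y, hy⟩ := base_units Q hF u w hw (by
    obtain ⟨c, hc⟩ := hx.loc w hw
    refine ⟨z * c, ?_⟩
    have e : ((u : 𝓞 L) : L) * (z * c) ^ 5 = x * c ^ 5 := by rw [hxz]; ring
    rw [e]
    exact hc.trans (by rw [exp_le_exp]; norm_num))
  exact ⟨y * z, by rw [hxz, hy]; ring⟩

/-- `ℚ(i)` is a good field. -/
theorem base_good {F : Type u} [Field F] [NumberField F] (hF : Module.finrank ℚ F = 2) {i : F}
    (hi : i ^ 2 = -1) : Good.{u, v} F i where
  two v hv := by
    have e : (1 : F) + i = ((1 : ℤ) : F) + ((1 : ℤ) : F) * i := by push_cast; ring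
    rw [e] at hv ⊢
    exact val_F hF hi 1 1 Nat.prime_two (by norm_num) v hv
  five v hv := by
    have e : (2 : F) + i = ((2 : ℤ) : F) + ((1 : ℤ) : F) * i := by push_cast; ring
    rw [e] at hv ⊢
    exact val_F hF hi 2 1 Nat.prime_five (by norm_num) v hv
  five' v hv := by
    have e : (2 : F) - i = ((2 : ℤ) : F) + ((-1 : ℤ) : F) * i := by push_cast; ring
    rw [e] at hv ⊢
    exact val_F hF hi 2 (-1) Nat.prime_five (by norm_num) v hv
  triv := base_triv hF hi

end BSD5
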