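import Pool.Agent.BSD5.Qr

/-!
# Units modulo fifth powers in fields of unit rank three; norms and absolute values
-/

namespace BSD5

set_option linter.unusedSectionVars false

open NumberField IsDedekindDomain WithZero

section Norm

variable {K : Type*} [Field K] [NumberField K]

/-- the norm of an integer all of whose conjugates have the same absolute value -/
lemma absNorm_of_abs (x : 𝓞 K) (r : ℝ) (h : ∀ σ : K →+* ℂ, ‖σ (x : K)‖ = r) :
    ((Ideal.absNorm (Ideal.span {x}) : ℕ) : ℝ) = r ^ Module.finrank ℚ K := by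
  have h1 := Algebra.norm_eq_prod_embeddings ℚ ℂ (x : K)
  have h2 : ((Algebra.norm ℤ x : ℤ) : ℂ) = ∏ σ : K →ₐ[ℚ] ℂ, σ (x : K) := by
    rw [← h1, ← Algebra.coe_norm_int]; simp
  have h3 := congrArg norm h2
  rw [norm_prod] at h3
  have h4 : ∏ σ : K →ₐ[ℚ] ℂ, ‖σ (x : K)‖ = r ^ Module.finrank ℚ K := by
    rw [Finset.prod_congr rfl (fun σ _ => h σ.toRingHom), Finset.prod_const, Finset.card_univ,
      AlgHom.card]
  rw [h4, Complex.norm_intCast] at h3
  rw [Ideal.absNorm_span_singleton, Nat.cast_natAbs, Int.cast_abs, h3]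

lemma eq_span_of_absNorm {w : HeightOneSpectrum (𝓞 K)} {x : 𝓞 K} {p : ℕ} (hp : p.Prime)
    (hx : Ideal.absNorm (Ideal.span {x}) = p) (hmem : x ∈ w.asIdeal) :
    w.asIdeal = Ideal.span {x} := by
  have hprime : (Ideal.span {x}).IsPrime := Ideal.isPrime_of_irreducible_absNorm (by
    rw [hx]; exact hp)
  have hl0 : x ≠ 0 := by
    rintro rfl
    simp at hx
    exact hp.ne_zero hx.symm
  have hbot : Ideal.span {x} ≠ ⊥ := by rwa [Ne, Ideal.span_singleton_eq_bot]
  have : (Ideal.span {x}).IsMaximal := hprime.isMaximal hbot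
  exact (Ideal.IsMaximal.eq_of_le this w.isPrime.ne_top
      ((Ideal.span_singleton_le_iff_mem _).2 hmem)).symm

lemma val_of_absNorm {w : HeightOneSpectrum (𝓞 K)} {x : 𝓞 K} {p : ℕ} (hp : p.Prime)
    (hx : Ideal.absNorm (Ideal.span {x}) = p) (hmem : x ∈ w.asIdeal) :
    w.valuation K (x : K) = exp (-1 : ℤ) := by
  have hl0 : x ≠ 0 := by
    rintro rfl
    simp at hx
    exact hp.ne_zero hx.symm
  have h : w.valuation K (x : K) = w.intValuation x := w.valuation_of_algebraMap x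
  rw [h]
  exact w.intValuation_singleton hl0 (eq_span_of_absNorm hp hx hmem)

end Norm

section Units

variable {L : Type*} [Field L] [NumberField L]

/-- the exponents of a unit -/
noncomputable def expo (u : (𝓞 L)ˣ) : Fin (Units.rank L) → ℤ :=
  (Units.exist_unique_eq_mul_prod L u).choose.2

lemma expo_spec (u : (𝓞 L)ˣ) : ∃ s : (𝓞 L)ˣ, s ∈ Units.torsion L ∧
    u = s * ∏ i, Units.fundSystem L i ^ expo u i :=
  ⟨_, (Units.exist_unique_eq_mul_prod L u).choose.1.2,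
    (Units.exist_unique_eq_mul_prod L u).choose_spec.1⟩

lemma expo_unique {u s : (𝓞 L)ˣ} {e : Fin (Units.rank L) → ℤ} (hs : s ∈ Units.torsion L)
    (h : u = s * ∏ i, Units.fundSystem L i ^ e i) : expo u = e := by
  have h1 := (Units.exist_unique_eq_mul_prod L u).choose_spec.2 (⟨s, hs⟩, e) h
  rw [expo, ← h1]

lemma expo_mul (u v : (𝓞 L)ˣ) : expo (u * v) = expo u + expo v := by
  obtain ⟨s, hs, hu⟩ := expo_spec u
  obtain ⟨s', hs', hv⟩ := expo_spec v
  refine expo_unique (mul_mem hs hs') ?_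
  conv_lhs => rw [hu, hv]
  simp only [Pi.add_apply, zpow_add, Finset.prod_mul_distrib]
  rw [mul_mul_mul_comm]

/-- the coordinates of a unit modulo five -/
noncomputable def phi (u : (𝓞 L)ˣ) : Fin (Units.rank L) → ZMod 5 := fun i => (expo u i : ZMod 5)

lemma phi_mul (u v : (𝓞 L)ˣ) : phi (u * v) = phi u + phi v := by
  funext i
  rw [Pi.add_apply, phi, phi, phi, expo_mul, Pi.add_apply, Int.cast_add]

lemma phi_one : phi (1 : (𝓞 L)ˣ) = 0 := by
  have h := phi_mul (1 : (𝓞 L)ˣ) 1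
  rw [mul_one] at h
  exact (add_eq_left.1 h.symm)

lemma phi_pow (u : (𝓞 L)ˣ) (n : ℕ) : phi (u ^ n) = (n : ZMod 5) • phi u := by
  induction n with
  | zero => rw [pow_zero, phi_one, Nat.cast_zero, zero_smul]
  | succ n ih => rw [pow_succ, phi_mul, ih, Nat.cast_succ, add_smul, one_smul]

lemma phi_inv (u : (𝓞 L)ˣ) : phi u⁻¹ = - phi u := by
  have h := phi_mul u u⁻¹
  rw [mul_inv_cancel, phi_one] at h
  exact (neg_eq_of_add_eq_zero_right h.symm).symm

/-- finite order elements are fifth powers -/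
lemma fifth_of_torsion (hmu : ∀ z : L, z ^ 5 = 1 → z = 1) {s : (𝓞 L)ˣ} (hs : IsOfFinOrder s) :
    ∃ v, s = v ^ 5 := by
  set n := orderOf s with hn
  have hn0 : n ≠ 0 := (orderOf_pos_iff.2 hs).ne'
  have h5 : ¬ 5 ∣ n := by
    rintro ⟨k, hk⟩
    have h1 : ((s ^ k) ^ 5 : (𝓞 L)ˣ) = 1 := by
      rw [← pow_mul, mul_comm, ← hk, hn, pow_orderOf_eq_one]
    have h2 : ((((s ^ k : (𝓞 L)ˣ) : 𝓞 L) : L)) ^ 5 = 1 := by
      have h3 := congrArg (fun y : (𝓞 L)ˣ => ((y : 𝓞 L) : L)) h1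
      simpa using h3
    have h3 := hmu _ h2
    have h4 : s ^ k = 1 := by
      apply Units.ext
      apply RingOfIntegers.ext
      rw [h3]; simp
    have h6 := orderOf_dvd_of_pow_eq_one h4
    rw [← hn, hk] at h6
    have hk0 : 0 < k := by
      rcases Nat.eq_zero_or_pos k with h | h
      · exact absurd (by rw [hk, h]) hn0
      · exact h
    have := Nat.le_of_dvd hk0 h6
    omega
  have hcop : IsCoprime (5 : ℤ) (n : ℤ) := by
    have : Nat.Coprime 5 n := (Nat.Prime.coprime_iff_not_dvd Nat.prime_five).2 h5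
    exact Nat.isCoprime_iff_coprime.2 this
  obtain ⟨a, b, hab⟩ := hcop
  refine ⟨s ^ a, ?_⟩
  have h1 : s = s ^ (a * 5 + b * n) := by rw [hab, zpow_one]
  conv_lhs => rw [h1]
  rw [zpow_add, zpow_mul, mul_comm b, zpow_mul, zpow_natCast, hn, pow_orderOf_eq_one, one_zpow,
    mul_one]
  norm_cast

lemma phi_eq_zero (hmu : ∀ z : L, z ^ 5 = 1 → z = 1) {u : (𝓞 L)ˣ} (h : phi u = 0) :
    ∃ v, u = v ^ 5 := by
  have h1 : ∀ i, ∃ k : ℤ, expo u i = k * 5 := by
    intro i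
    have h2 := congrFun h i
    rw [phi, Pi.zero_apply, ZMod.intCast_zmod_eq_zero_iff_dvd] at h2
    obtain ⟨k, hk⟩ := h2
    exact ⟨k, by rw [hk, mul_comm]; rfl⟩
  choose k hk using h1
  obtain ⟨s, hs, hu⟩ := expo_spec u
  obtain ⟨s', hs'⟩ := fifth_of_torsion hmu ((CommGroup.mem_torsion _).1 hs)
  refine ⟨s' * ∏ i, Units.fundSystem L i ^ k i, ?_⟩
  rw [mul_pow, ← hs', ← Finset.prod_pow]
  conv_lhs => rw [hu]
  congr 1
  refine Finset.prod_congr rfl (fun i _ => ?_)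
  rw [hk i, zpow_mul]
  norm_cast

/-- Three units which are independent modulo fifth powers generate the units modulo fifth powers. -/
theorem three_units (hrank : Units.rank L = 3) (hmu : ∀ z : L, z ^ 5 = 1 → z = 1)
    (e₁ e₂ e₃ : (𝓞 L)ˣ) (hind : ∀ a b c : ℕ, a < 5 → b < 5 → c < 5 → ∀ v : (𝓞 L)ˣ,
      e₁ ^ a * e₂ ^ b * e₃ ^ c = v ^ 5 → a = 0 ∧ b = 0 ∧ c = 0) (u : (𝓞 L)ˣ) :
    ∃ (a b c : ℕ) (v : (𝓞 L)ˣ), a < 5 ∧ b < 5 ∧ c < 5 ∧ u = e₁ ^ a * e₂ ^ b * e₃ ^ c * v ^ 5 := by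
  have : Fact (Nat.Prime 5) := ⟨Nat.prime_five⟩
  have hphi : ∀ a b c : ℕ, phi (e₁ ^ a * e₂ ^ b * e₃ ^ c)
      = (a : ZMod 5) • phi e₁ + (b : ZMod 5) • phi e₂ + (c : ZMod 5) • phi e₃ := by
    intro a b c
    rw [phi_mul, phi_mul, phi_pow, phi_pow, phi_pow]
  have hli : LinearIndependent (ZMod 5) ![phi e₁, phi e₂, phi e₃] := by
    rw [Fintype.linearIndependent_iff]
    intro g hg
    rw [Fin.sum_univ_three] at hg
    simp only [Matrix.cons_val_zero, Matrix.cons_val_one, Matrix.cons_val] at hg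
    have h1 : phi (e₁ ^ (g 0).val * e₂ ^ (g 1).val * e₃ ^ (g 2).val) = 0 := by
      rw [hphi]
      simp only [ZMod.natCast_val, ZMod.cast_id', id_eq]
      exact hg
    obtain ⟨v, hv⟩ := phi_eq_zero hmu h1
    obtain ⟨ha, hb, hc⟩ := hind _ _ _ (ZMod.val_lt _) (ZMod.val_lt _) (ZMod.val_lt _) v hv
    rw [ZMod.val_eq_zero] at ha hb hc
    intro i
    fin_cases i
    · exact ha
    · exact hb
    · exact hc
  have hcard : Module.finrank (ZMod 5) (Fin (Units.rank L) → ZMod 5) = 3 := by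
    rw [Module.finrank_fin_fun, hrank]
  have hspan : Submodule.span (ZMod 5) (Set.range ![phi e₁, phi e₂, phi e₃]) = ⊤ := by
    apply hli.span_eq_top_of_card_eq_finrank
    rw [hcard]; rfl
  have hmem : phi u ∈ Submodule.span (ZMod 5) (Set.range ![phi e₁, phi e₂, phi e₃]) := by
    rw [hspan]; trivial
  rw [Submodule.mem_span_range_iff_exists_fun] at hmem
  obtain ⟨g, hg⟩ := hmem
  rw [Fin.sum_univ_three] at hg
  simp only [Matrix.cons_val_zero, Matrix.cons_val_one, Matrix.cons_val] at hg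
  have h1 : phi (u * (e₁ ^ (g 0).val * e₂ ^ (g 1).val * e₃ ^ (g 2).val)⁻¹) = 0 := by
    rw [phi_mul, phi_inv, hphi]
    simp only [ZMod.natCast_val, ZMod.cast_id', id_eq]
    rw [hg, add_neg_cancel]
  obtain ⟨v, hv⟩ := phi_eq_zero hmu h1
  refine ⟨_, _, _, v, ZMod.val_lt (g 0), ZMod.val_lt (g 1), ZMod.val_lt (g 2), ?_⟩
  rw [← hv]
  rw [mul_comm u, mul_inv_cancel_left]

end Units

end BSD5
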