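import Pool.Agent.BSD5.BaseB1

/-!
# The field `B = ℚ(i, θ)`: truncated expansions at the place above `θ`
-/

namespace BSD5

set_option linter.unusedSectionVars false

open NumberField IsDedekindDomain WithZero

/-! ### truncated polynomials over `𝔽₅` -/

/-- coefficients of a polynomial of degree at most three -/
abbrev R4 : Type := ZMod 5 × ZMod 5 × ZMod 5 × ZMod 5

/-- multiplication modulo `t⁴` -/
def mul4 (x y : R4) : R4 :=
  (x.1 * y.1, x.1 * y.2.1 + x.2.1 * y.1, x.1 * y.2.2.1 + x.2.1 * y.2.1 + x.2.2.1 * y.1,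
    x.1 * y.2.2.2 + x.2.1 * y.2.2.1 + x.2.2.1 * y.2.1 + x.2.2.2 * y.1)

/-- powers modulo `t⁴` -/
def pow4 (x : R4) : ℕ → R4
  | 0 => (1, 0, 0, 0)
  | n + 1 => mul4 (pow4 x n) x

/-- the first unit -/
def E1 : R4 := (1, 1, 0, 1)

/-- the second unit -/
def E2 : R4 := (1, 3, 0, 2)

/-- the third unit -/
def E3 : R4 := (4, 0, 3, 0)

lemma dec4 : ∀ a b c : Fin 5, (mul4 (mul4 (pow4 E1 a) (pow4 E2 b)) (pow4 E3 c)).2 = 0 →
    a = 0 ∧ b = 0 ∧ c = 0 := by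
  decide +kernel

section Ev

variable {A : Type*} [CommRing A] (h : ZMod 5 →+* A) (T : A)

/-- the value of a truncated polynomial -/
def ev (x : R4) : A := h x.1 + h x.2.1 * T + h x.2.2.1 * T ^ 2 + h x.2.2.2 * T ^ 3

lemma ev_mul (hT : T ^ 4 = 0) (x y : R4) : ev h T (mul4 x y) = ev h T x * ev h T y := by
  simp only [ev, mul4, map_add, map_mul]
  linear_combination (-(h x.2.1 * h y.2.2.2 + h x.2.2.1 * h y.2.2.1 + h x.2.2.2 * h y.2.1)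
    - (h x.2.2.1 * h y.2.2.2 + h x.2.2.2 * h y.2.2.1) * T
    - (h x.2.2.2 * h y.2.2.2) * T ^ 2) * hT

lemma ev_pow (hT : T ^ 4 = 0) (x : R4) (n : ℕ) : ev h T (pow4 x n) = ev h T x ^ n := by
  induction n with
  | zero => simp [ev, pow4]
  | succ n ih => rw [pow4, ev_mul h T hT, ih, pow_succ]

lemma ev_const (m : ZMod 5) : ev h T (m, 0, 0, 0) = h m := by simp [ev]

lemma ev_sub (x y : R4) : ev h T x - ev h T y = ev h T (x - y) := by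
  simp only [ev, Prod.fst_sub, Prod.snd_sub, map_sub]
  ring

end Ev

/-! ### powers of primes and valuations -/

lemma mem_pow_iff {L : Type*} [Field L] [NumberField L] (w : HeightOneSpectrum (𝓞 L)) (n : ℕ)
    (x : 𝓞 L) : x ∈ w.asIdeal ^ n ↔ w.valuation L (algebraMap (𝓞 L) L x) ≤ exp (-(n : ℤ)) := by
  have h : w.valuation L (algebraMap (𝓞 L) L x) = w.intValuation x := w.valuation_of_algebraMap x
  rw [h, w.intValuation_le_pow_iff_dvd, Ideal.dvd_span_singleton]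

/-! ### the integers of `B` -/

section Int

variable {K L : Type*} [Field K] [Field L] [Algebra K L] (Q : Qr K L)

lemma Qr.j_int : IsIntegral ℤ Q.j := by
  refine ⟨Polynomial.X ^ 2 + 1, by monicity!, ?_⟩
  simp only [Polynomial.eval₂_add, Polynomial.eval₂_X_pow, Polynomial.eval₂_one]
  rw [Q.hj]; ring

lemma Qr.t_int : IsIntegral ℤ Q.t := by
  apply IsIntegral.of_pow (n := 4) (by norm_num)
  rw [Q.ht]
  exact isIntegral_one.sub ((isIntegral_algebraMap (x := (2 : ℤ))).mul Q.j_int |> fun h => by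
    simpa using h)

variable [NumberField L]

/-- `i` in the integers -/
def Qr.jj : 𝓞 L := ⟨Q.j, Q.j_int⟩

/-- `θ` in the integers -/
def Qr.th : 𝓞 L := ⟨Q.t, Q.t_int⟩

lemma Qr.jj_coe : algebraMap (𝓞 L) L Q.jj = Q.j := rfl

lemma Qr.th_coe : algebraMap (𝓞 L) L Q.th = Q.t := rfl

lemma Qr.jj_sq : Q.jj ^ 2 = -1 := by
  apply FaithfulSMul.algebraMap_injective (𝓞 L) L
  rw [map_pow, Q.jj_coe, Q.hj, map_neg, map_one]

lemma Qr.th_four : Q.th ^ 4 = 1 - 2 * Q.jj := by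
  apply FaithfulSMul.algebraMap_injective (𝓞 L) L
  rw [map_pow, Q.th_coe, Q.ht, map_sub, map_mul, Q.jj_coe, map_one, map_ofNat]

lemma Qr.five_eq : (5 : 𝓞 L) = Q.th ^ 4 * (1 + 2 * Q.jj) := by
  linear_combination (-(1 + 2 * Q.jj)) * Q.th_four + 4 * Q.jj_sq

/-- the first unit -/
def Qr.u1 : (𝓞 L)ˣ := ⟨1 + Q.th + Q.th ^ 3,
  (-1 + 4 * Q.jj) + (3 + 2 * Q.jj) * Q.th + (2 - 2 * Q.jj) * Q.th ^ 2
    - (1 + 2 * Q.jj) * Q.th ^ 3,
  by linear_combination (2 + 2 * Q.th - 2 * Q.th * Q.jj - Q.th ^ 2 - 2 * Q.th ^ 2 * Q.jj) * Q.th_four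
    + (4 * Q.th + 4 * Q.th ^ 2) * Q.jj_sq,
  by linear_combination (2 + 2 * Q.th - 2 * Q.th * Q.jj - Q.th ^ 2 - 2 * Q.th ^ 2 * Q.jj) * Q.th_four
    + (4 * Q.th + 4 * Q.th ^ 2) * Q.jj_sq⟩

/-- the second unit -/
def Qr.u2 : (𝓞 L)ˣ := ⟨1 + Q.jj * Q.th - Q.jj * Q.th ^ 3,
  (-1 + 4 * Q.jj) + (-2 + 3 * Q.jj) * Q.th + (-2 + 2 * Q.jj) * Q.th ^ 2
    + (-2 + Q.jj) * Q.th ^ 3,
  by linear_combination (-2 * Q.jj ^ 2 + 2 * Q.th * Q.jj - 2 * Q.th * Q.jj ^ 2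
      + 2 * Q.th ^ 2 * Q.jj - Q.th ^ 2 * Q.jj ^ 2) * Q.th_four
    + (-2 + 4 * Q.jj - 2 * Q.th + 4 * Q.th * Q.jj - 2 * Q.th ^ 2 + 2 * Q.th ^ 2 * Q.jj
      - 2 * Q.th ^ 3) * Q.jj_sq,
  by linear_combination (-2 * Q.jj ^ 2 + 2 * Q.th * Q.jj - 2 * Q.th * Q.jj ^ 2
      + 2 * Q.th ^ 2 * Q.jj - Q.th ^ 2 * Q.jj ^ 2) * Q.th_four
    + (-2 + 4 * Q.jj - 2 * Q.th + 4 * Q.th * Q.jj - 2 * Q.th ^ 2 + 2 * Q.th ^ 2 * Q.jj
      - 2 * Q.th ^ 3) * Q.jj_sq⟩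

/-- the third unit -/
def Qr.u3 : (𝓞 L)ˣ := ⟨(1 + Q.jj) + Q.jj * Q.th ^ 2, (1 + Q.jj) - Q.jj * Q.th ^ 2,
  by linear_combination (-Q.jj ^ 2) * Q.th_four + (2 * Q.jj) * Q.jj_sq,
  by linear_combination (-Q.jj ^ 2) * Q.th_four + (2 * Q.jj) * Q.jj_sq⟩

end Int

/-! ### expansions -/

section Exp

variable {K L : Type*} [Field K] [Field L] [NumberField L] [Algebra K L] (Q : Qr K L)
  {w : HeightOneSpectrum (𝓞 L)} (hw : w.valuation L Q.t = exp (-1 : ℤ))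

include hw in
lemma five_mem : (5 : 𝓞 L) ∈ w.asIdeal ^ 4 := by
  rw [Q.five_eq]
  refine Ideal.mul_mem_right _ _ (Ideal.pow_mem_pow ?_ 4)
  rw [← pow_one w.asIdeal, mem_pow_iff, Q.th_coe, hw]
  norm_num

include hw in
lemma int_mem {m : ℤ} (hm : (m : 𝓞 L) ∈ w.asIdeal) : (5 : ℤ) ∣ m := by
  by_contra h
  have h5 : (5 : 𝓞 L) ∈ w.asIdeal := Ideal.pow_le_self (by norm_num) (five_mem Q hw)
  have hcop : IsCoprime (5 : ℤ) m := (Int.isCoprime_iff_gcd_eq_one.2 (by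
    have h7 : Nat.Coprime 5 m.natAbs := (Nat.Prime.coprime_iff_not_dvd Nat.prime_five).2 (by
      intro h8
      apply h
      have := Int.natCast_dvd_natCast.2 h8
      rwa [Int.dvd_natAbs] at this)
    exact h7))
  obtain ⟨a, b, hab⟩ := hcop
  apply w.isPrime.ne_top
  rw [Ideal.eq_top_iff_one]
  have h1 : ((a * 5 + b * m : ℤ) : 𝓞 L) = 1 := by rw [hab]; simp
  rw [← h1]
  push_cast
  exact add_mem (Ideal.mul_mem_left _ _ h5) (Ideal.mul_mem_left _ _ hm)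

include hw in
lemma dig {m : ℤ} {y : 𝓞 L} {n : ℕ} (hn : n < 4) (h : (m : 𝓞 L) + Q.th * y ∈ w.asIdeal ^ (n + 1)) :
    (5 : ℤ) ∣ m ∧ y ∈ w.asIdeal ^ n := by
  have hth : Q.th ∈ w.asIdeal := by
    rw [← pow_one w.asIdeal, mem_pow_iff, Q.th_coe, hw]
    norm_num
  have h1 : (m : 𝓞 L) ∈ w.asIdeal := by
    have h2 := sub_mem (Ideal.pow_le_self (by omega) h) (Ideal.mul_mem_right y _ hth)
    rwa [add_sub_cancel_right] at h2
  have h2 := int_mem Q hw h1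
  refine ⟨h2, ?_⟩
  have h3 : (m : 𝓞 L) ∈ w.asIdeal ^ (n + 1) := by
    obtain ⟨k, rfl⟩ := h2
    push_cast
    exact Ideal.mul_mem_right _ _ (Ideal.pow_le_pow_right (by omega) (five_mem Q hw))
  have h4 : Q.th * y ∈ w.asIdeal ^ (n + 1) := by
    have h5 := sub_mem h h3
    rwa [add_sub_cancel_left] at h5
  rw [mem_pow_iff] at h4 ⊢
  rw [map_mul, map_mul, Q.th_coe, hw] at h4
  have h6 : exp (-((n + 1 : ℕ) : ℤ)) = exp (-1 : ℤ) * exp (-(n : ℤ)) := by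
    rw [← exp_add]; congr 1; push_cast; ring
  rw [h6] at h4
  exact (mul_le_mul_iff_right₀ (exp_pos (a := (-1 : ℤ)))).1 h4

end Exp

end BSD5
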