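import Pool.Agent.BSD5.BaseB2

/-!
# The field `B = ℚ(i, θ)`: units which are fifth powers modulo `θ⁴`
-/

namespace BSD5

set_option linter.unusedSectionVars false

open NumberField IsDedekindDomain WithZero

section Quot

variable {K L : Type*} [Field K] [Field L] [NumberField L] [Algebra K L] (Q : Qr K L)
  {w : HeightOneSpectrum (𝓞 L)} (hw : w.valuation L Q.t = exp (-1 : ℤ))

include hw in
lemma exists_hom : Nonempty (ZMod 5 →+* 𝓞 L ⧸ w.asIdeal ^ 4) := by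
  have hne : w.asIdeal ^ 4 ≠ ⊤ := fun h => w.isPrime.ne_top (by
    rw [Ideal.eq_top_iff_one]
    exact Ideal.pow_le_self (by norm_num) (h ▸ Submodule.mem_top (x := (1 : 𝓞 L))))
  have : Nontrivial (𝓞 L ⧸ w.asIdeal ^ 4) := Ideal.Quotient.nontrivial_iff.2 hne
  have h5 : ((5 : ℕ) : 𝓞 L ⧸ w.asIdeal ^ 4) = 0 := by
    have h := Ideal.Quotient.eq_zero_iff_mem.2 (five_mem Q hw)
    rw [map_ofNat] at h
    exact_mod_cast h
  have : CharP (𝓞 L ⧸ w.asIdeal ^ 4) 5 :=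
    (CharP.charP_iff_prime_eq_zero Nat.prime_five).2 h5
  exact ⟨ZMod.castHom (dvd_refl 5) _⟩

variable (h : ZMod 5 →+* 𝓞 L ⧸ w.asIdeal ^ 4)

include hw in
/-- the expansion is injective -/
lemma ev_inj {x : R4} (hx : ev h (Ideal.Quotient.mk (w.asIdeal ^ 4) Q.th) x = 0) : x = 0 := by
  have hval : ∀ m : ZMod 5, h m = Ideal.Quotient.mk (w.asIdeal ^ 4) (((m.val : ℤ)) : 𝓞 L) := by
    intro m
    rw [map_intCast]
    conv_lhs => rw [← ZMod.natCast_zmod_val m]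
    rw [map_natCast]
    push_cast
    rfl
  have hz : ∀ m : ZMod 5, (5 : ℤ) ∣ (m.val : ℤ) → m = 0 := by
    intro m hm
    rw [← ZMod.natCast_zmod_val m]
    have h1 : (5 : ℕ) ∣ m.val := by exact_mod_cast hm
    exact (ZMod.natCast_eq_zero_iff _ _).2 h1
  rw [ev, hval, hval, hval, hval] at hx
  have h1 : (((x.1.val : ℤ)) : 𝓞 L) + Q.th * ((((x.2.1.val : ℤ)) : 𝓞 L) + Q.th *
      ((((x.2.2.1.val : ℤ)) : 𝓞 L) + Q.th * ((((x.2.2.2.val : ℤ)) : 𝓞 L) + Q.th * 0)))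
      ∈ w.asIdeal ^ (3 + 1) := by
    have e : (((x.1.val : ℤ)) : 𝓞 L) + Q.th * ((((x.2.1.val : ℤ)) : 𝓞 L) + Q.th *
        ((((x.2.2.1.val : ℤ)) : 𝓞 L) + Q.th * ((((x.2.2.2.val : ℤ)) : 𝓞 L) + Q.th * 0)))
        = (((x.1.val : ℤ)) : 𝓞 L) + (((x.2.1.val : ℤ)) : 𝓞 L) * Q.th
          + (((x.2.2.1.val : ℤ)) : 𝓞 L) * Q.th ^ 2 + (((x.2.2.2.val : ℤ)) : 𝓞 L) * Q.th ^ 3 := by
      ring
    rw [e]
    change _ ∈ w.asIdeal ^ 4
    rw [← Ideal.Quotient.eq_zero_iff_mem]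
    simp only [map_add, map_mul, map_pow]
    exact hx
  obtain ⟨a0, h2⟩ := dig Q hw (by norm_num) h1
  obtain ⟨a1, h3⟩ := dig Q hw (n := 2) (by norm_num) h2
  obtain ⟨a2, h4⟩ := dig Q hw (n := 1) (by norm_num) h3
  obtain ⟨a3, _⟩ := dig Q hw (n := 0) (by norm_num) h4
  exact Prod.ext (hz _ a0) (Prod.ext (hz _ a1) (Prod.ext (hz _ a2) (hz _ a3)))

include hw in
lemma th_pow_four : (Ideal.Quotient.mk (w.asIdeal ^ 4) Q.th) ^ 4 = 0 := by
  rw [← map_pow, Ideal.Quotient.eq_zero_iff_mem]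
  refine Ideal.pow_mem_pow ?_ 4
  rw [← pow_one w.asIdeal, mem_pow_iff, Q.th_coe, hw]
  norm_num

include hw in
/-- the residue field is the prime field -/
lemma exists_int (h5 : Ideal.absNorm w.asIdeal = 5) (v : 𝓞 L) : ∃ m : ℤ, v - m ∈ w.asIdeal := by
  have hcard : Nat.card (𝓞 L ⧸ w.asIdeal) = 5 := h5
  have : Finite (𝓞 L ⧸ w.asIdeal) := Nat.finite_of_card_ne_zero (by omega)
  let f : Fin 5 → 𝓞 L ⧸ w.asIdeal := fun k => Ideal.Quotient.mk w.asIdeal ((k.val : ℤ) : 𝓞 L)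
  have hinj : Function.Injective f := by
    intro a b hab
    have h1 : (((a.val : ℤ) - (b.val : ℤ) : ℤ) : 𝓞 L) ∈ w.asIdeal := by
      push_cast
      exact (Ideal.Quotient.mk_eq_mk_iff_sub_mem _ _).1 (by simpa [f] using hab)
    have h2 := int_mem Q hw h1
    apply Fin.ext
    have := a.2
    have := b.2
    omega
  have hsurj : Function.Surjective f := by
    apply (Function.Injective.bijective_of_nat_card_le hinj _).2
    rw [hcard]; simp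
  obtain ⟨k, hk⟩ := hsurj (Ideal.Quotient.mk _ v)
  exact ⟨(k.val : ℤ), (Ideal.Quotient.mk_eq_mk_iff_sub_mem _ _).1 hk.symm⟩

include hw in
/-- fifth powers are constants modulo `θ⁴` -/
lemma fifth_const (h5 : Ideal.absNorm w.asIdeal = 5) (v : 𝓞 L) :
    ∃ m : ZMod 5, (Ideal.Quotient.mk (w.asIdeal ^ 4) v) ^ 5 = h m := by
  obtain ⟨m, hm⟩ := exists_int Q hw h5 v
  refine ⟨(m : ZMod 5) ^ 5, ?_⟩
  have e0 : h (m : ZMod 5) = Ideal.Quotient.mk (w.asIdeal ^ 4) (m : 𝓞 L) := by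
    rw [map_intCast, map_intCast]
  rw [map_pow, e0, ← map_pow, ← map_pow, Ideal.Quotient.mk_eq_mk_iff_sub_mem]
  obtain ⟨y, hy, rfl⟩ : ∃ y ∈ w.asIdeal, v = m + y := ⟨v - m, hm, by ring⟩
  have e : ((m : 𝓞 L) + y) ^ 5 - (m : 𝓞 L) ^ 5
      = 5 * (m ^ 4 * y + 2 * m ^ 3 * y ^ 2 + 2 * m ^ 2 * y ^ 3 + m * y ^ 4) + y ^ 4 * y := by ring
  rw [e]
  exact add_mem (Ideal.mul_mem_right _ _ (five_mem Q hw))
    (Ideal.mul_mem_right _ _ (Ideal.pow_mem_pow hy 4))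

include hw in
lemma jj_three : Ideal.Quotient.mk (w.asIdeal ^ 4) Q.jj = h 3 := by
  have h0 : h 3 = Ideal.Quotient.mk (w.asIdeal ^ 4) 3 := by rw [map_ofNat, map_ofNat]
  rw [h0, Ideal.Quotient.mk_eq_mk_iff_sub_mem]
  have e : Q.jj - 3 = 5 * (-(Q.jj - 3) - 3) + Q.th ^ 4 * (-3) := by
    linear_combination 3 * Q.th_four
  rw [e]
  refine add_mem (Ideal.mul_mem_right _ _ (five_mem Q hw)) (Ideal.mul_mem_right _ _ ?_)
  refine Ideal.pow_mem_pow ?_ 4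
  rw [← pow_one w.asIdeal, mem_pow_iff, Q.th_coe, hw]
  norm_num

include hw in
lemma mk_u1 : Ideal.Quotient.mk (w.asIdeal ^ 4) ((Q.u1 : (𝓞 L)ˣ) : 𝓞 L)
    = ev h (Ideal.Quotient.mk (w.asIdeal ^ 4) Q.th) E1 := by
  change Ideal.Quotient.mk (w.asIdeal ^ 4) (1 + Q.th + Q.th ^ 3) = _
  rw [ev, E1]
  simp

include hw in
lemma mk_u2 : Ideal.Quotient.mk (w.asIdeal ^ 4) ((Q.u2 : (𝓞 L)ˣ) : 𝓞 L)
    = ev h (Ideal.Quotient.mk (w.asIdeal ^ 4) Q.th) E2 := by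
  change Ideal.Quotient.mk (w.asIdeal ^ 4) (1 + Q.jj * Q.th - Q.jj * Q.th ^ 3) = _
  have h2 : h 2 = -h 3 := by
    rw [← map_neg]
    rfl
  rw [ev, E2, map_sub, map_add, map_mul, map_mul, map_pow, jj_three Q hw h, h2]
  simp
  ring

include hw in
lemma mk_u3 : Ideal.Quotient.mk (w.asIdeal ^ 4) ((Q.u3 : (𝓞 L)ˣ) : 𝓞 L)
    = ev h (Ideal.Quotient.mk (w.asIdeal ^ 4) Q.th) E3 := by
  change Ideal.Quotient.mk (w.asIdeal ^ 4) ((1 + Q.jj) + Q.jj * Q.th ^ 2) = _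
  have h4 : h 4 = 1 + h 3 := by
    rw [← map_one h, ← map_add]
    rfl
  rw [ev, E3, map_add, map_add, map_mul, map_pow, jj_three Q hw h, h4]
  simp

include hw in
/-- products of the three units are constants modulo `θ⁴` only if the exponents are zero -/
lemma indep {a b c : ℕ} (ha : a < 5) (hb : b < 5) (hc : c < 5) (m : ZMod 5)
    (hm : Ideal.Quotient.mk (w.asIdeal ^ 4)
      (((Q.u1 ^ a * Q.u2 ^ b * Q.u3 ^ c : (𝓞 L)ˣ)) : 𝓞 L) = h m) : a = 0 ∧ b = 0 ∧ c = 0 := by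
  have hT := th_pow_four Q hw
  rw [Units.val_mul, Units.val_mul, Units.val_pow_eq_pow_val, Units.val_pow_eq_pow_val,
    Units.val_pow_eq_pow_val, map_mul, map_mul, map_pow, map_pow, map_pow, mk_u1 Q hw h,
    mk_u2 Q hw h, mk_u3 Q hw h, ← ev_pow h _ hT, ← ev_pow h _ hT, ← ev_pow h _ hT,
    ← ev_mul h _ hT, ← ev_mul h _ hT, ← ev_const h (Ideal.Quotient.mk (w.asIdeal ^ 4) Q.th) m,
    ← sub_eq_zero, ev_sub] at hm
  have h1 := congrArg Prod.snd (ev_inj Q hw h hm)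
  rw [Prod.snd_sub] at h1
  have h2 := dec4 ⟨a, ha⟩ ⟨b, hb⟩ ⟨c, hc⟩ (by
    have h3 := sub_eq_zero.1 h1
    exact h3)
  obtain ⟨h3, h4, h5⟩ := h2
  exact ⟨congrArg Fin.val h3, congrArg Fin.val h4, congrArg Fin.val h5⟩

end Quot

/-- **Units congruent to fifth powers modulo `θ⁴` are fifth powers.** -/
theorem units_main {K L : Type*} [Field K] [Field L] [NumberField L] [Algebra K L] (Q : Qr K L)
    {w : HeightOneSpectrum (𝓞 L)} (hw : w.valuation L Q.t = exp (-1 : ℤ))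
    (h5 : Ideal.absNorm w.asIdeal = 5) (hrank : Units.rank L = 3)
    (hmu : ∀ z : L, z ^ 5 = 1 → z = 1) (u : (𝓞 L)ˣ)
    (h : ∃ c : L, w.valuation L (((u : 𝓞 L) : L) * c ^ 5 - 1) ≤ exp (-4 : ℤ)) :
    Is5 ((u : 𝓞 L) : L) := by
  obtain ⟨φ⟩ := exists_hom Q hw
  obtain ⟨a, b, c, v, ha, hb, hc, huv⟩ := three_units hrank hmu Q.u1 Q.u2 Q.u3 (by
    intro a b c ha hb hc v hv
    obtain ⟨m, hm⟩ := fifth_const Q hw φ h5 (v : 𝓞 L)
    refine indep Q hw φ ha hb hc m ?_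
    rw [hv, Units.val_pow_eq_pow_val, map_pow, hm]) u
  obtain ⟨m, hm⟩ := fifth_const Q hw φ h5 (v : 𝓞 L)
  -- the local condition
  obtain ⟨x, hx⟩ := h
  have hu1 : w.valuation L ((u : 𝓞 L) : L) = 1 := by
    have h1 : w.valuation L ((u : 𝓞 L) : L) ≤ 1 := w.valuation_le_one (u : 𝓞 L)
    have h2 : w.valuation L (((u⁻¹ : (𝓞 L)ˣ) : 𝓞 L) : L) ≤ 1 :=
      w.valuation_le_one ((u⁻¹ : (𝓞 L)ˣ) : 𝓞 L)
    have h3 : w.valuation L ((u : 𝓞 L) : L) * w.valuation L (((u⁻¹ : (𝓞 L)ˣ) : 𝓞 L) : L) = 1 := by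
      rw [← map_mul]
      have h4 : ((u : 𝓞 L) : L) * (((u⁻¹ : (𝓞 L)ˣ) : 𝓞 L) : L) = 1 := by
        have h6 := congrArg (algebraMap (𝓞 L) L) u.mul_inv
        rw [map_mul, map_one] at h6
        exact h6
      rw [h4, map_one]
    refine le_antisymm h1 ?_
    rw [← h3]
    exact mul_le_of_le_one_right' h2
  have hx1 : w.valuation L x ≤ 1 := by
    by_contra hcon
    rw [not_le] at hcon
    have h1 : 1 < w.valuation L (((u : 𝓞 L) : L) * x ^ 5) := by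
      rw [map_mul, hu1, one_mul, map_pow]
      exact one_lt_pow₀ hcon (by norm_num)
    have h2 : w.valuation L (((u : 𝓞 L) : L) * x ^ 5 - 1)
        = w.valuation L (((u : 𝓞 L) : L) * x ^ 5) :=
      Valuation.map_sub_eq_of_lt_left _ (by rw [map_one]; exact h1)
    rw [h2] at hx
    have h3 : exp (-4 : ℤ) ≤ 1 := by rw [← exp_zero, exp_le_exp]; norm_num
    exact absurd (h1.trans_le (hx.trans h3)) (lt_irrefl _)
  obtain ⟨z, hz⟩ := w.exists_valuation_sub_lt_of_integer hx1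
    (Units.mk0 (exp (-4 : ℤ)) exp_ne_zero)
  have hz' : w.valuation L (algebraMap (𝓞 L) L z - x) ≤ exp (-4 : ℤ) := hz.le
  have hzu : (u : 𝓞 L) * z ^ 5 - 1 ∈ w.asIdeal ^ 4 := by
    rw [mem_pow_iff]
    set Z := algebraMap (𝓞 L) L z with hZ
    have hZ1 : w.valuation L Z ≤ 1 := w.valuation_le_one z
    have e : algebraMap (𝓞 L) L ((u : 𝓞 L) * z ^ 5 - 1)
        = (((u : 𝓞 L) : L) * x ^ 5 - 1) + ((u : 𝓞 L) : L) * ((Z - x) *
          (Z ^ 4 + Z ^ 3 * x + Z ^ 2 * x ^ 2 + Z * x ^ 3 + x ^ 4)) := by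
      rw [map_sub, map_mul, map_pow, map_one]
      ring
    rw [e]
    refine (Valuation.map_add _ _ _).trans (max_le hx ?_)
    rw [map_mul, hu1, one_mul, map_mul]
    have h1 : w.valuation L (Z ^ 4 + Z ^ 3 * x + Z ^ 2 * x ^ 2 + Z * x ^ 3 + x ^ 4) ≤ 1 := by
      have hp : ∀ k l : ℕ, w.valuation L (Z ^ k * x ^ l) ≤ 1 := by
        intro k l
        rw [map_mul, map_pow, map_pow]
        exact mul_le_one' (pow_le_one' hZ1 _) (pow_le_one' hx1 _)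
      have h40 := hp 4 0
      have h31 := hp 3 1
      have h22 := hp 2 2
      have h13 := hp 1 3
      have h04 := hp 0 4
      rw [pow_zero, mul_one] at h40
      rw [pow_one] at h31 h13
      rw [pow_zero, one_mul] at h04
      refine (Valuation.map_add _ _ _).trans (max_le ?_ h04)
      refine (Valuation.map_add _ _ _).trans (max_le ?_ h13)
      refine (Valuation.map_add _ _ _).trans (max_le ?_ h22)
      exact (Valuation.map_add _ _ _).trans (max_le h40 h31)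
    calc w.valuation L (Z - x) * w.valuation L (Z ^ 4 + Z ^ 3 * x + Z ^ 2 * x ^ 2 + Z * x ^ 3
          + x ^ 4) ≤ exp (-4 : ℤ) * 1 := mul_le_mul' hz' h1
      _ = exp (-((4 : ℕ) : ℤ)) := by rw [mul_one]; norm_num
  have : Fact (Nat.Prime 5) := ⟨Nat.prime_five⟩
  have hne : w.asIdeal ^ 4 ≠ ⊤ := fun h => w.isPrime.ne_top (by
    rw [Ideal.eq_top_iff_one]
    exact Ideal.pow_le_self (by norm_num) (h ▸ Submodule.mem_top (x := (1 : 𝓞 L))))
  have : Nontrivial (𝓞 L ⧸ w.asIdeal ^ 4) := Ideal.Quotient.nontrivial_iff.2 hne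
  obtain ⟨n, hn⟩ := fifth_const Q hw φ h5 z
  have h1 : Ideal.Quotient.mk (w.asIdeal ^ 4) (u : 𝓞 L) * φ n = 1 := by
    rw [← hn, ← map_pow, ← map_mul, ← map_one (Ideal.Quotient.mk (w.asIdeal ^ 4)),
      Ideal.Quotient.mk_eq_mk_iff_sub_mem]
    exact hzu
  set U : (𝓞 L)ˣ := Q.u1 ^ a * Q.u2 ^ b * Q.u3 ^ c with hU
  have h2 : Ideal.Quotient.mk (w.asIdeal ^ 4) (U : 𝓞 L) * φ (m * n) = 1 := by
    rw [map_mul, ← mul_assoc, ← hm, ← map_pow, ← map_mul]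
    have e : (U : 𝓞 L) * (v : 𝓞 L) ^ 5 = (u : 𝓞 L) := by
      rw [huv, Units.val_mul U (v ^ 5), Units.val_pow_eq_pow_val v 5]
    rw [e, h1]
  have hmn : m * n ≠ 0 := by
    intro h0
    rw [h0, map_zero, mul_zero] at h2
    exact zero_ne_one h2
  have h3 : Ideal.Quotient.mk (w.asIdeal ^ 4) (U : 𝓞 L) = φ (m * n)⁻¹ := by
    have h4 : φ (m * n) * φ (m * n)⁻¹ = 1 := by
      rw [← map_mul, mul_inv_cancel₀ hmn, map_one]
    calc Ideal.Quotient.mk (w.asIdeal ^ 4) (U : 𝓞 L)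
        = Ideal.Quotient.mk (w.asIdeal ^ 4) (U : 𝓞 L) * (φ (m * n) * φ (m * n)⁻¹) := by
          rw [h4, mul_one]
      _ = _ := by rw [← mul_assoc, h2, one_mul]
  obtain ⟨rfl, rfl, rfl⟩ := indep Q hw φ ha hb hc _ h3
  refine ⟨((v : 𝓞 L) : L), ?_⟩
  have e : (u : 𝓞 L) = (v : 𝓞 L) ^ 5 := by
    rw [huv, hU]; simp
  rw [e]
  exact map_pow (algebraMap (𝓞 L) L) _ 5

end BSD5
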