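import Pool.Agent.BSD5.Exists
import Pool.Agent.CFT.FirstG
import Pool.Agent.CFT.Herbrand

/-!
# Places with non-trivial decomposition group in `K(θ)/K`: silent places and places above two

For these the eigenvalue condition `τ x = x³ y⁵` alone implies that the valuation is divisible by
five.
-/

namespace BSD5

open NumberField IsDedekindDomain WithZero CFT
open scoped Pointwise

variable {K L : Type*} [Field K] [NumberField K] [Field L] [NumberField L] [Algebra K L]
  (Q : Qr K L)

private lemma exists_exp (w : HeightOneSpectrum (𝓞 L)) {x : L} (hx : x ≠ 0) :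
    ∃ a : ℤ, w.valuation L x = exp a :=
  ⟨log (w.valuation L x), (exp_log ((Valuation.ne_zero_iff _).mpr hx)).symm⟩

/-- If `w ∘ τ² = w`: from `τ² x = x⁹ · (fifth power)` we get `8 w(x) ≡ 0` modulo five. -/
theorem div5_of_stab (w : HeightOneSpectrum (𝓞 L))
    (hw : ∀ x, w.valuation L (Q.τ (Q.τ x)) = w.valuation L x) {x : L} (hx : x ≠ 0)
    (he : ∃ y : L, Q.τ x = x ^ 3 * y ^ 5) : Div5 w x := by
  obtain ⟨y, hy⟩ := he
  have h1 : Q.τ (Q.τ x) = x ^ 9 * (y ^ 3 * Q.τ y) ^ 5 := by
    rw [hy, map_mul, map_pow, map_pow, hy]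
    ring
  have hy0 : y ≠ 0 := by
    rintro rfl
    rw [zero_pow (by norm_num), mul_zero] at hy
    exact hx ((map_eq_zero_iff Q.τ Q.τ.injective).mp hy)
  have hz : y ^ 3 * Q.τ y ≠ 0 :=
    mul_ne_zero (pow_ne_zero _ hy0) ((map_ne_zero_iff Q.τ Q.τ.injective).mpr hy0)
  have h2 := hw x
  rw [h1, map_mul, map_pow, map_pow] at h2
  obtain ⟨a, ha⟩ := exists_exp w hx
  obtain ⟨b, hb⟩ := exists_exp w hz
  rw [ha, hb, ← exp_nsmul, ← exp_nsmul, ← exp_add, exp_inj, nsmul_eq_mul, nsmul_eq_mul] at h2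
  push_cast at h2
  refine ⟨-2 * b - 3 * a, ?_⟩
  rw [ha, exp_inj]
  linarith

/-- If some non-trivial element of the Galois group fixes `w` then so does `τ²` (`Qr.gal_eq`). -/
theorem stab_of_gal (w : HeightOneSpectrum (𝓞 L)) (g : L ≃ₐ[K] L) (hg : g ≠ 1)
    (hw : ∀ x, w.valuation L (g x) = w.valuation L x) (x : L) :
    w.valuation L (Q.τ (Q.τ x)) = w.valuation L x := by
  rcases Q.gal_eq g with h | h | h | h
  · exact absurd h hg
  · have h1 : Q.τ (Q.τ x) = g (g x) := by rw [h, h]
    rw [h1, hw, hw]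
  · rw [← h, hw]
  · have h1 : Q.τ (Q.τ x) = g (g x) := by rw [h, h, Q.ττττ]
    rw [h1, hw, hw]

omit [NumberField K] in
/-- an automorphism which maps `w` into itself preserves the valuation -/
private lemma val_gal [NumberField K] (w : HeightOneSpectrum (𝓞 L)) (g : L ≃ₐ[K] L)
    (h : ∀ x : 𝓞 L, x ∈ w.asIdeal → g • x ∈ w.asIdeal) (x : L) :
    w.valuation L (g x) = w.valuation L x := by
  have h1 : g • w.asIdeal ≤ w.asIdeal := by
    intro y hy
    rw [Ideal.mem_pointwise_smul_iff_inv_smul_mem] at hy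
    have := h _ hy
    rwa [smul_inv_smul] at this
  have h2 : CFT.FI.gp g w = w := by
    ext1
    exact (CFT.FI.gp g w).isMaximal.eq_of_le w.isPrime.ne_top h1
  have h3 := CFT.FI.valuation_gp g w x
  rwa [h2] at h3

/-- Silent places: take a Frobenius element `g` at `w` (`IsArithFrobAt`, it maps `w` to itself). If
`g = 1` then `x ^ q ≡ x` modulo `w` for all `x`, `q` the norm of the place `v` below; as
`X ^ q - X` has only `q` roots in the residue field, `θ` is congruent to an element of `K`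
(see `inertiaDeg_eq_one` in `CFT/Frob.lean`), whose fourth power is `≡ 1 - 2i`: contradiction. -/
theorem div5_silent (w : HeightOneSpectrum (𝓞 L)) (hs : Silent Q.i (bl K L w)) {x : L}
    (hx : x ≠ 0) (he : ∃ y : L, Q.τ x = x ^ 3 * y ^ 5) : Div5 w x := by
  have := Q.isGalois
  have hfin : Finite (𝓞 L ⧸ w.asIdeal) := Ideal.finiteQuotientOfFreeOfNeBot _ w.ne_bot
  have hg : IsArithFrobAt (𝓞 K) (arithFrobAt (𝓞 K) Gal(L/K) w.asIdeal) w.asIdeal :=
    IsArithFrobAt.arithFrobAt (𝓞 K) Gal(L/K) w.asIdeal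
  set g := arithFrobAt (𝓞 K) Gal(L/K) w.asIdeal
  rw [isArithFrobAt_iff] at hg
  set q := Ideal.absNorm (bl K L w).asIdeal with hq
  have hq1 : 1 < q := by
    have h0 : q ≠ 0 := by
      rw [hq, Ne, Ideal.absNorm_eq_zero_iff]
      exact (bl K L w).ne_bot
    have h1 : q ≠ 1 := by
      rw [hq, Ne, Ideal.absNorm_eq_one_iff]
      exact (bl K L w).isPrime.ne_top
    omega
  refine div5_of_stab Q w (stab_of_gal Q w g ?_ (val_gal w g ?_)) hx he
  · intro h1
    rw [h1] at hg
    simp only [one_smul] at hg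
    have : w.asIdeal.IsMaximal := w.isMaximal
    let _ : Field (𝓞 L ⧸ w.asIdeal) := Ideal.Quotient.field _
    have h6 : Nat.card (𝓞 L ⧸ w.asIdeal) ≤ q := by
      classical
      cases nonempty_fintype (𝓞 L ⧸ w.asIdeal)
      have h7 : (Finset.univ : Finset (𝓞 L ⧸ w.asIdeal)) ⊆
          (Polynomial.X ^ q - Polynomial.X : Polynomial (𝓞 L ⧸ w.asIdeal)).roots.toFinset := by
        intro y _
        rw [Multiset.mem_toFinset, Polynomial.mem_roots
          (FiniteField.X_pow_card_sub_X_ne_zero _ hq1)]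
        obtain ⟨x, rfl⟩ := Ideal.Quotient.mk_surjective y
        simp only [Polynomial.IsRoot, Polynomial.eval_sub, Polynomial.eval_pow, Polynomial.eval_X]
        rw [← map_pow, ← map_sub]
        apply Ideal.Quotient.eq_zero_iff_mem.mpr
        have := w.asIdeal.neg_mem (hg x)
        rwa [neg_sub] at this
      rw [Nat.card_eq_fintype_card, ← Finset.card_univ]
      refine (Finset.card_le_card h7).trans ((Multiset.toFinset_card_le _).trans ?_)
      refine (Polynomial.card_roots' _).trans ?_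
      rw [FiniteField.X_pow_card_sub_X_natDegree_eq _ hq1]
    have hle : (bl K L w).asIdeal ≤ Ideal.comap (algebraMap (𝓞 K) (𝓞 L)) w.asIdeal :=
      fun _ h => h
    have h8 : Function.Injective (Ideal.quotientMap (I := (bl K L w).asIdeal) w.asIdeal
        (algebraMap (𝓞 K) (𝓞 L)) hle) := by
      apply Ideal.quotientMap_injective
    have h9 := h8.bijective_of_nat_card_le h6
    -- the element theta
    have hiK : IsIntegral ℤ Q.i := IsIntegral.of_pow (n := 2) (by norm_num) (by
      rw [Q.hi]; exact isIntegral_one.neg)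
    have h2L : IsIntegral ℤ (2 : L) := by
      have := isIntegral_algebraMap (R := ℤ) (A := L) (x := 2)
      simpa using this
    have htL : IsIntegral ℤ Q.t := IsIntegral.of_pow (n := 4) (by norm_num) (by
      rw [Q.ht]
      exact isIntegral_one.sub (h2L.mul (hiK.algebraMap)))
    let I : 𝓞 K := ⟨Q.i, hiK⟩
    let T : 𝓞 L := ⟨Q.t, htL⟩
    obtain ⟨a', ha'⟩ := h9.2 (Ideal.Quotient.mk _ T)
    obtain ⟨a, rfl⟩ := Ideal.Quotient.mk_surjective a'
    rw [Ideal.quotientMap_mk, Ideal.Quotient.eq] at ha'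
    have hT : T ^ 4 = algebraMap (𝓞 K) (𝓞 L) (1 - 2 * I) := by
      apply RingOfIntegers.ext
      have h := Q.ht
      have e : ((algebraMap (𝓞 K) (𝓞 L) (1 - 2 * I) : 𝓞 L) : L)
          = algebraMap K L (((1 - 2 * I : 𝓞 K)) : K) := rfl
      rw [e]
      have e2 : (((1 - 2 * I : 𝓞 K)) : K) = 1 - 2 * Q.i := by
        push_cast
        rfl
      rw [e2, map_sub, map_mul, map_one, map_ofNat, ← h]
      rfl
    have h10 : algebraMap (𝓞 K) (𝓞 L) (a ^ 4 - (1 - 2 * I)) ∈ w.asIdeal := by
      rw [map_sub, ← hT, map_pow]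
      exact w.asIdeal.mem_of_dvd (sub_dvd_pow_sub_pow _ _ 4) ha'
    have h11 : a ^ 4 - (1 - 2 * I) ∈ (bl K L w).asIdeal := h10
    have h12 := hs.2 (a : K)
    rw [← not_lt] at h12
    apply h12
    have h13 : ((a : K) ^ 4 - (1 - 2 * Q.i)) = algebraMap (𝓞 K) K (a ^ 4 - (1 - 2 * I)) := by
      rw [map_sub, map_pow, map_sub, map_mul, map_one, map_ofNat]
      rfl
    rw [h13, HeightOneSpectrum.valuation_lt_one_iff_mem]
    exact h11
  · intro x hx
    have h1 := hg x
    have h2 : x ^ q ∈ w.asIdeal := Ideal.pow_mem_of_mem _ hx _ (by omega)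
    have := w.asIdeal.add_mem h1 h2
    rwa [sub_add_cancel] at this

omit [NumberField K] in
/-- if `w` is unramified over `K` above two, `(y + 1)² = λ y` contradicts the parity of valuations -/
private lemma not_unram_two [NumberField K] (w : HeightOneSpectrum (𝓞 L))
    (hl : w.valuation L (1 + Q.j) = exp (-1 : ℤ)) : False := by
  have hj := Q.hj
  have ht : Q.t ^ 4 = 1 - 2 * Q.j := Q.ht
  obtain ⟨l, hldef⟩ : ∃ l : L, l = 1 + Q.j := ⟨_, rfl⟩
  rw [← hldef] at hl
  have hjl : Q.j = l - 1 := by rw [hldef]; ring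
  have hl0 : l ≠ 0 := by
    intro h
    rw [h, map_zero] at hl
    exact exp_ne_zero hl.symm
  have hwj : w.valuation L Q.j = 1 := by
    have hj0 : Q.j ≠ 0 := by
      intro h
      rw [h] at hj
      norm_num at hj
    have h1 : w.valuation L Q.j ^ 2 = 1 := by rw [← map_pow, hj, Valuation.map_neg, map_one]
    obtain ⟨c, hc⟩ := exists_exp w hj0
    rw [hc, ← exp_nsmul, ← exp_zero, exp_inj, nsmul_eq_mul] at h1
    push_cast at h1
    rw [hc, ← exp_zero, exp_inj]
    omega
  have h2 : (2 : L) = -Q.j * l ^ 2 := by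
    rw [hldef]
    linear_combination (2 + Q.j) * hj
  have hw2 : w.valuation L 2 = exp (-2 : ℤ) := by
    rw [h2, map_mul, Valuation.map_neg, hwj, one_mul, map_pow, hl, ← exp_nsmul]
    norm_num
  have hs : (Q.t ^ 2 - 1) * (Q.t ^ 2 + 1) = -l ^ 2 := by
    rw [hldef]
    linear_combination ht + hj
  have hne : (Q.t ^ 2 - 1) * (Q.t ^ 2 + 1) ≠ 0 := by
    rw [hs]
    exact neg_ne_zero.mpr (pow_ne_zero _ hl0)
  obtain ⟨m, hm⟩ := exists_exp w (left_ne_zero_of_mul hne)
  obtain ⟨n, hn⟩ := exists_exp w (right_ne_zero_of_mul hne)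
  have hmn : m + n = -2 := by
    have h := congrArg (w.valuation L) hs
    rw [map_mul, hm, hn, Valuation.map_neg, map_pow, hl, ← exp_nsmul, ← exp_add, exp_inj,
      nsmul_eq_mul] at h
    push_cast at h
    linarith
  have hm2 : m = -1 := by
    -- the difference of the two factors is two
    have hA : w.valuation L (Q.t ^ 2 + 1) ≤ max (w.valuation L (Q.t ^ 2 - 1))
        (w.valuation L 2) := by
      have : Q.t ^ 2 + 1 = (Q.t ^ 2 - 1) + 2 := by ring
      rw [this]
      exact Valuation.map_add _ _ _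
    have hB : w.valuation L (Q.t ^ 2 - 1) ≤ max (w.valuation L (Q.t ^ 2 + 1))
        (w.valuation L 2) := by
      have : Q.t ^ 2 - 1 = (Q.t ^ 2 + 1) + -2 := by ring
      rw [this]
      refine (Valuation.map_add _ _ _).trans ?_
      rw [Valuation.map_neg]
    rw [hm, hn, hw2, le_max_iff, exp_le_exp, exp_le_exp] at hA hB
    omega
  obtain ⟨y, hy⟩ : ∃ y : L, y = (Q.t ^ 2 - 1) / l := ⟨_, rfl⟩
  have hyl : l * y = Q.t ^ 2 - 1 := by rw [hy]; field_simp
  have hwy : w.valuation L y = 1 := by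
    rw [hy, map_div₀, hm, hl, hm2, div_self exp_ne_zero]
  have hq : (y + 1) ^ 2 = l * y := by
    have h3 : l ^ 2 * ((y + 1) ^ 2 - l * y) = 0 := by
      have h4 : (Q.t ^ 2) ^ 2 = 1 - l ^ 2 := by
        rw [hldef]
        linear_combination ht + hj
      have h5 : Q.t ^ 2 = l * y + 1 := by rw [hyl]; ring
      rw [h5] at h4
      have h6 : l ^ 2 - 2 * l + 2 = 0 := by
        rw [hldef]
        linear_combination hj
      linear_combination h4 - y * l * h6
    rcases mul_eq_zero.mp h3 with h | h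
    · exact absurd h (pow_ne_zero _ hl0)
    · exact sub_eq_zero.mp h
  have hy1 : y + 1 ≠ 0 := by
    intro h
    rw [h] at hq
    have : l * y = 0 := by rw [← hq]; ring
    rcases mul_eq_zero.mp this with h | h
    · exact hl0 h
    · rw [h, map_zero] at hwy
      exact zero_ne_one hwy
  obtain ⟨c, hc⟩ := exists_exp w hy1
  have h := congrArg (w.valuation L) hq
  rw [map_pow, map_mul, hc, hl, hwy, mul_one, ← exp_nsmul, exp_inj, nsmul_eq_mul] at h
  push_cast at h
  omega

/-- Places above two. `s = θ²`, `λ = 1 + i`, `s² = 1 - λ²`. `(s - 1)(s + 1) = -λ²`, hence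
`w(s - 1) = w(λ)`, `s = 1 + λ y`, `y² - iλ y + 1 = 0`, `(y + 1)² = iλ(1 - λ) y`, so
`2 w(y + 1) = w(λ)`; as `v(λ) = 1` for the place `v` below, `w` is ramified over `v` and there is a
non-trivial inertia element (`Ideal.card_inertia_eq_ramificationIdxIn`, see `inertia_eq_bot` in
`CFT/Frob.lean`), which fixes `w`. -/
theorem div5_two (w : HeightOneSpectrum (𝓞 L)) (hw : w.valuation L 2 < 1)
    (hv : (bl K L w).valuation K (1 + Q.i) = exp (-1 : ℤ)) {x : L}
    (hx : x ≠ 0) (he : ∃ y : L, Q.τ x = x ^ 3 * y ^ 5) : Div5 w x := by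
  have := Q.isGalois
  have hfin : Finite (𝓞 L ⧸ w.asIdeal) := Ideal.finiteQuotientOfFreeOfNeBot _ w.ne_bot
  have hne : w.asIdeal.inertia Gal(L/K) ≠ ⊥ := by
    intro hbot
    have h1 : Nat.card (w.asIdeal.inertia Gal(L/K)) = 1 := by
      rw [hbot]
      exact Subgroup.card_bot
    have : (w.asIdeal).LiesOver ((bl K L w).asIdeal) := ⟨rfl⟩
    have : Finite (𝓞 K ⧸ (bl K L w).asIdeal) :=
      Ideal.finiteQuotientOfFreeOfNeBot _ (bl K L w).ne_bot
    have : PerfectField ((bl K L w).asIdeal).ResidueField := by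
      infer_instance
    rw [Ideal.card_inertia_eq_ramificationIdxIn (bl K L w).asIdeal w.asIdeal,
      Ideal.ramificationIdxIn_eq_ramificationIdx (bl K L w).asIdeal w.asIdeal Gal(L/K),
      ← Ideal.ramificationIdx'_eq_ramificationIdx (bl K L w).asIdeal w.asIdeal
        (bl K L w).ne_bot] at h1
    have h2 := HeightOneSpectrum.valuation_liesOver L (bl K L w) w (1 + Q.i)
    rw [h1, pow_one, hv, map_add, map_one] at h2
    exact not_unram_two Q w h2.symm
  obtain ⟨⟨g, hgI⟩, hg1⟩ := Subgroup.ne_bot_iff_exists_ne_one.mp hne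
  have hgI' : ∀ x : 𝓞 L, g • x - x ∈ w.asIdeal := hgI
  refine div5_of_stab Q w (stab_of_gal Q w g ?_ (val_gal w g ?_)) hx he
  · intro h
    apply hg1
    exact Subtype.ext h
  · intro x hx
    have := w.asIdeal.add_mem (hgI' x) hx
    rwa [sub_add_cancel] at this

end BSD5
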