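import Pool.Agent.BSD5.Qr
import Pool.Agent.CFT.Frob

/-!
# Existence of the quartic extension, Galois group, ramification, fifth roots of unity
-/

namespace BSD5

open NumberField IsDedekindDomain WithZero CFT

universe u

open Polynomial in
/-- Existence of `K(θ)`: `X⁴ - (1 - 2i)` is Eisenstein at `v`, as `1 - 2i = -i (2 + i)`. Take
`AdjoinRoot`; the coordinates are those of the power basis. -/
theorem Qr.exists (K : Type u) [Field K] [NumberField K] (i : K) (hi : i ^ 2 = -1)
    (v : HeightOneSpectrum (𝓞 K)) (hv : v.valuation K (2 + i) = exp (-1 : ℤ)) :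
    ∃ (L : Type u) (_ : Field L) (_ : NumberField L) (_ : Algebra K L) (Q : Qr K L), Q.i = i := by
  classical
  -- the integer `i`
  have hii : IsIntegral ℤ i := IsIntegral.of_pow (n := 2) (by norm_num) (by
    rw [hi]; exact (isIntegral_one).neg)
  let i0 : 𝓞 K := ⟨i, hii⟩
  have hi0 : i0 ^ 2 = -1 := by
    apply RingOfIntegers.ext
    push_cast
    exact hi
  set c0 : 𝓞 K := 1 - 2 * i0 with hc0
  have hc0c : ((c0 : 𝓞 K) : K) = -i * (2 + i) := by
    rw [hc0]
    push_cast
    change 1 - 2 * i = _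
    linear_combination hi
  have hvi : v.valuation K i = 1 := by
    have h1 : v.valuation K i ^ 2 = 1 := by
      rw [← map_pow, hi, Valuation.map_neg, map_one]
    exact (pow_eq_one_iff_of_nonneg zero_le two_ne_zero).1 h1
  have hvc : v.valuation K ((c0 : 𝓞 K) : K) = exp (-1 : ℤ) := by
    rw [hc0c, map_mul, Valuation.map_neg, hvi, one_mul, hv]
  -- the polynomial
  set f0 : (𝓞 K)[X] := X ^ 4 - C c0 with hf0
  have hdeg0 : f0.natDegree = 4 := by rw [hf0]; compute_degree!
  have hmon0 : f0.Monic := by rw [hf0]; monicity!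
  have hvi' : v.intValuation c0 = exp (-1 : ℤ) := by
    rw [← hvc]
    exact (v.valuation_of_algebraMap (K := K) c0).symm
  have hmem : c0 ∈ v.asIdeal := by
    rw [← v.intValuation_lt_one_iff_mem, hvi', ← exp_zero, exp_lt_exp]
    norm_num
  have hnmem : c0 ∉ v.asIdeal ^ 2 := by
    intro h
    rw [← v.intValuation_le_pow_iff_mem, hvi', exp_le_exp] at h
    norm_num at h
  have hcoeff0 : f0.coeff 0 = -c0 := by
    rw [hf0]; simp
  have heis : f0.IsEisensteinAt v.asIdeal := by
    constructor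
    · rw [hmon0.leadingCoeff]
      exact (Ideal.ne_top_iff_one _).1 v.isPrime.ne_top
    · intro n hn
      rw [hdeg0] at hn
      rw [hf0, coeff_sub, coeff_X_pow, coeff_C]
      rw [if_neg (by omega)]
      split_ifs with h0
      · rw [zero_sub]; exact neg_mem hmem
      · rw [sub_zero]; exact zero_mem _
    · rw [hcoeff0]
      intro h
      exact hnmem (by simpa using neg_mem h)
  have hirr0 : Irreducible f0 := heis.irreducible v.isPrime hmon0.isPrimitive (by rw [hdeg0]; norm_num)
  set f : K[X] := f0.map (algebraMap (𝓞 K) K) with hf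
  have hirr : Irreducible f := (hmon0.irreducible_iff_irreducible_map_fraction_map).1 hirr0
  have hmon : f.Monic := hmon0.map _
  have hdeg : f.natDegree = 4 := by rw [hf, hmon0.natDegree_map, hdeg0]
  have hfexp : f = X ^ 4 - C (1 - 2 * i) := by
    rw [hf, hf0, Polynomial.map_sub, Polynomial.map_pow, map_X, map_C]
    congr 2
  have : Fact (Irreducible f) := ⟨hirr⟩
  have hfin : Module.Finite K (AdjoinRoot f) := hmon.finite_adjoinRoot
  have : CharZero (AdjoinRoot f) := charZero_of_injective_algebraMap (algebraMap K (AdjoinRoot f)).injective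
  have hfinQ : FiniteDimensional ℚ (AdjoinRoot f) := by
    have : IsScalarTower ℚ K (AdjoinRoot f) := by infer_instance
    exact Module.Finite.trans K (AdjoinRoot f)
  have hNF : NumberField (AdjoinRoot f) := ⟨⟩
  set L := AdjoinRoot f
  let pb : PowerBasis K L := AdjoinRoot.powerBasis hmon.ne_zero
  have hdim : pb.dim = 4 := by
    change f.natDegree = 4
    exact hdeg
  have hgen : pb.gen = AdjoinRoot.root f := rfl
  let b : Module.Basis (Fin 4) K L := pb.basis.reindex (finCongr hdim)
  have hb : ∀ k : Fin 4, b k = AdjoinRoot.root f ^ (k : ℕ) := by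
    intro k
    simp only [b, Module.Basis.reindex_apply, pb.basis_eq_pow, hgen]
    rfl
  set t : L := AdjoinRoot.root f with ht
  have hroot : t ^ 4 = 1 - 2 * algebraMap K L i := by
    have h0 : aeval t f = 0 := by
      rw [aeval_def, AdjoinRoot.algebraMap_eq, AdjoinRoot.eval₂_root]
    have h1 : ∀ g : K[X], g = X ^ 4 - C (1 - 2 * i) → aeval t g = 0 →
        t ^ 4 = algebraMap K L (1 - 2 * i) := by
      intro g hg h
      rw [hg, map_sub, map_pow, aeval_X, aeval_C] at h
      exact sub_eq_zero.1 h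
    rw [h1 f hfexp h0, map_sub, map_one, map_mul, map_ofNat]
  have hmk : ∀ a : Fin 4 → K, ∀ k, b.repr (algebraMap K L (a 0) + algebraMap K L (a 1) * t
      + algebraMap K L (a 2) * t ^ 2 + algebraMap K L (a 3) * t ^ 3) k = a k := by
    intro a k
    have h1 : algebraMap K L (a 0) + algebraMap K L (a 1) * t
      + algebraMap K L (a 2) * t ^ 2 + algebraMap K L (a 3) * t ^ 3 = ∑ k, a k • b k := by
      rw [Fin.sum_univ_four, hb, hb, hb, hb]
      simp only [Algebra.smul_def]
      simp
    rw [h1, b.repr_sum_self]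
  refine ⟨L, inferInstance, hNF, inferInstance,
    { i := i
      hi := hi
      t := t
      ht := hroot
      c0 := fun x => b.repr x 0
      c1 := fun x => b.repr x 1
      c2 := fun x => b.repr x 2
      c3 := fun x => b.repr x 3
      eq := fun x => ?_
      c0_mk := fun a b' c d => hmk ![a, b', c, d] 0
      c1_mk := fun a b' c d => hmk ![a, b', c, d] 1
      c2_mk := fun a b' c d => hmk ![a, b', c, d] 2
      c3_mk := fun a b' c d => hmk ![a, b', c, d] 3 }, rfl⟩
  conv_lhs => rw [← b.sum_repr x]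
  rw [Fin.sum_univ_four, hb, hb, hb, hb]
  simp only [Algebra.smul_def]
  simp

section

variable {K L : Type*} [Field K] [NumberField K] [Field L] [NumberField L] [Algebra K L]
  (Q : Qr K L)

/-- coordinates -/
noncomputable def Qr.coord : L ≃ₗ[K] (Fin 4 → K) where
  toFun x := ![Q.c0 x, Q.c1 x, Q.c2 x, Q.c3 x]
  invFun a := Q.el (a 0) (a 1) (a 2) (a 3)
  left_inv x := Q.el_coord x
  right_inv a := by
    change ![Q.c0 (Q.el (a 0) (a 1) (a 2) (a 3)), Q.c1 (Q.el (a 0) (a 1) (a 2) (a 3)),
      Q.c2 (Q.el (a 0) (a 1) (a 2) (a 3)), Q.c3 (Q.el (a 0) (a 1) (a 2) (a 3))] = a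
    rw [Q.c0_mk', Q.c1_mk', Q.c2_mk', Q.c3_mk']
    ext k
    fin_cases k <;> rfl
  map_add' x y := by
    have h := Q.el_add (Q.c0 x) (Q.c1 x) (Q.c2 x) (Q.c3 x) (Q.c0 y) (Q.c1 y) (Q.c2 y) (Q.c3 y)
    rw [Q.el_coord, Q.el_coord] at h
    rw [h, Q.c0_mk', Q.c1_mk', Q.c2_mk', Q.c3_mk']
    ext k
    fin_cases k <;> rfl
  map_smul' r x := by
    have h : r • x = Q.el (r * Q.c0 x) (r * Q.c1 x) (r * Q.c2 x) (r * Q.c3 x) := by
      conv_lhs => rw [← Q.el_coord x]
      rw [Algebra.smul_def]
      simp only [Qr.el, map_mul]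
      ring
    rw [h, Q.c0_mk', Q.c1_mk', Q.c2_mk', Q.c3_mk']
    ext k
    fin_cases k <;> rfl

omit [NumberField K] [NumberField L] in
include Q in
theorem Qr.finrank_eq : Module.finrank K L = 4 := by
  rw [Q.coord.finrank_eq, Module.finrank_fin_fun]

include Q in
/-- `K(θ)/K` is Galois (the fixed field of `τ` is `K`, `Qr.mem_of_τ`, `Qr.ττττ`). -/
theorem Qr.isGalois : IsGalois K L := by
  have : FiniteDimensional K L := Module.Finite.of_restrictScalars_finite ℚ K L
  apply IsGalois.of_fixedField_eq_bot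
  rw [eq_bot_iff]
  intro x hx
  rw [IntermediateField.mem_fixedField_iff] at hx
  obtain ⟨a, ha⟩ := Q.mem_of_τ (hx Q.τ (Subgroup.mem_top _))
  rw [IntermediateField.mem_bot]
  exact ⟨a, ha⟩

omit [NumberField K] [NumberField L] in
lemma Qr.alg_ext {g h : L ≃ₐ[K] L} (hgh : g Q.t = h Q.t) (x : L) : g x = h x := by
  rw [Q.eq x]
  simp only [map_add, map_mul, map_pow, hgh, AlgEquiv.commutes]

omit [NumberField K] [NumberField L] in
/-- the Galois group is `{1, τ, τ², τ³}` (an automorphism is determined by the image of `θ`, which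
is `i^k θ`) -/
theorem Qr.gal_eq (g : L ≃ₐ[K] L) : g = 1 ∨ (∀ x, g x = Q.τ x) ∨ (∀ x, g x = Q.τ (Q.τ x)) ∨
    (∀ x, g x = Q.τ (Q.τ (Q.τ x))) := by
  have h1 : g Q.t ^ 4 = Q.t ^ 4 := by
    rw [← map_pow, Q.ht, map_sub, map_one, map_mul, map_ofNat, AlgEquiv.commutes]
  have hj := Q.hj
  have h2 : (g Q.t - Q.t) * (g Q.t + Q.t) * (g Q.t - Q.j * Q.t) * (g Q.t + Q.j * Q.t) = 0 := by
    linear_combination h1 - (g Q.t ^ 2 * Q.t ^ 2 - Q.t ^ 4) * hj
  rcases mul_eq_zero.1 h2 with h2 | h2
  · rcases mul_eq_zero.1 h2 with h2 | h2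
    · rcases mul_eq_zero.1 h2 with h2 | h2
      · left
        ext x
        exact Q.alg_ext (h := 1) (sub_eq_zero.1 h2) x
      · right; right; left
        intro x
        refine Q.alg_ext (h := Q.τ.trans Q.τ) ?_ x
        change _ = Q.τ (Q.τ Q.t)
        rw [Q.ττ_t]
        linear_combination h2
    · right; left
      intro x
      refine Q.alg_ext (h := Q.τ) ?_ x
      rw [Q.τ_t]
      linear_combination h2
  · right; right; right
    intro x
    refine Q.alg_ext (h := (Q.τ.trans Q.τ).trans Q.τ) ?_ x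
    change _ = Q.τ (Q.τ (Q.τ Q.t))
    rw [Q.ττ_t, map_neg, Q.τ_t]
    linear_combination h2

open Polynomial in
/-- a prime not dividing the derivative of the minimal polynomial of a generator is unramified -/
lemma val_bl_of_minpoly (w : HeightOneSpectrum (𝓞 L)) (x : 𝓞 L)
    (htop : Algebra.adjoin K {algebraMap (𝓞 L) L x} = ⊤)
    (hder : aeval x (derivative (minpoly (𝓞 K) x)) ∉ w.asIdeal) (y : K) :
    w.valuation L (algebraMap K L y) = (bl K L w).valuation K y := by
  have := bl_liesOver K L w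
  have hd := aeval_derivative_mem_differentIdeal (𝓞 K) K L x htop
  have hne := Ideal.IsDedekindDomain.ramificationIdx'_ne_zero_of_liesOver w.asIdeal
    (bl K L w).ne_bot
  have h1 : (bl K L w).asIdeal.ramificationIdx' w.asIdeal = 1 := by
    by_contra h1
    have h2 : 2 ≤ (bl K L w).asIdeal.ramificationIdx' w.asIdeal := by omega
    have : (bl K L w).asIdeal.IsMaximal := (bl K L w).isMaximal
    have h3 : w.asIdeal ^ 2 ∣ (bl K L w).asIdeal.map (algebraMap (𝓞 K) (𝓞 L)) := by
      rw [Ideal.dvd_iff_le]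
      exact Ideal.le_pow_of_le_ramificationIdx' h2
    have h4 := pow_sub_one_dvd_differentIdeal (𝓞 K) w.asIdeal 2 (bl K L w).ne_bot h3
    rw [show 2 - 1 = 1 from rfl, pow_one, Ideal.dvd_iff_le] at h4
    exact hder (h4 hd)
  rw [← HeightOneSpectrum.valuation_liesOver L (bl K L w) w y, h1, pow_one]

omit [NumberField K] in
lemma isIntegral_i (i : K) (hi : i ^ 2 = -1) : IsIntegral ℤ i :=
  IsIntegral.of_pow (n := 2) (by norm_num) (by rw [hi]; exact isIntegral_one.neg)

/-- `i` as an integer -/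
def Qr.i0 : 𝓞 K := ⟨Q.i, isIntegral_i Q.i Q.hi⟩

omit [NumberField K] [NumberField L] in
lemma Qr.i0_coe : ((Q.i0 : 𝓞 K) : K) = Q.i := rfl

/-- `θ` as an integer -/
def Qr.t0 : 𝓞 L := ⟨Q.t, IsIntegral.of_pow (n := 4) (by norm_num) (by
    rw [Q.ht]
    have h1 : IsIntegral ℤ (algebraMap K L Q.i) := (isIntegral_i Q.i Q.hi).algebraMap
    have h2 : IsIntegral ℤ (2 : L) := by
      have := isIntegral_algebraMap (R := ℤ) (A := L) (x := 2)
      rwa [map_ofNat] at this
    exact isIntegral_one.sub (h2.mul h1))⟩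

omit [NumberField K] [NumberField L] in
lemma Qr.t0_coe : ((Q.t0 : 𝓞 L) : L) = Q.t := rfl

open Polynomial in
/-- `K(θ)/K` is unramified outside `2 θ` (the derivative of the minimal polynomial of `θ` is `4 θ³`;
compare `Cub.ri_eq_one` in `BSD/SelTower.lean`) -/
theorem Qr.unram (w : HeightOneSpectrum (𝓞 L)) (h2 : w.valuation L 2 = 1)
    (ht : w.valuation L Q.t = 1) (x : K) :
    w.valuation L (algebraMap K L x) = (bl K L w).valuation K x := by
  have htop : Algebra.adjoin K {algebraMap (𝓞 L) L Q.t0} = ⊤ := by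
    rw [Algebra.eq_top_iff]
    intro y
    have h1 : Q.t ∈ Algebra.adjoin K {algebraMap (𝓞 L) L Q.t0} :=
      Algebra.subset_adjoin (Set.mem_singleton _)
    rw [Q.eq y]
    exact add_mem (add_mem (add_mem (Subalgebra.algebraMap_mem _ _)
      (mul_mem (Subalgebra.algebraMap_mem _ _) h1))
      (mul_mem (Subalgebra.algebraMap_mem _ _) (pow_mem h1 2)))
      (mul_mem (Subalgebra.algebraMap_mem _ _) (pow_mem h1 3))
  apply val_bl_of_minpoly w Q.t0 htop
  set p : (𝓞 K)[X] := X ^ 4 - C (1 - 2 * Q.i0) with hp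
  have hmon : p.Monic := by rw [hp]; monicity!
  have hdeg : p.natDegree = 4 := by rw [hp]; compute_degree!
  have ht4 : Q.t0 ^ 4 = algebraMap (𝓞 K) (𝓞 L) (1 - 2 * Q.i0) := by
    apply FaithfulSMul.algebraMap_injective (𝓞 L) L
    rw [map_pow, ← IsScalarTower.algebraMap_apply, IsScalarTower.algebraMap_apply (𝓞 K) K L,
      map_sub, map_one, map_mul, map_ofNat, map_sub, map_one, map_mul, map_ofNat]
    exact Q.ht
  have hroot : aeval Q.t0 p = 0 := by
    rw [hp, map_sub, map_pow, aeval_X, aeval_C, ht4, sub_self]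
  have hint : IsIntegral (𝓞 K) Q.t0 := ⟨p, hmon, hroot⟩
  have hmin : minpoly (𝓞 K) Q.t0 = p := by
    have hdvd := minpoly.isIntegrallyClosed_dvd hint hroot
    refine (eq_of_monic_of_dvd_of_natDegree_le (minpoly.monic hint) hmon hdvd ?_).symm
    rw [hdeg]
    by_contra hcon
    rw [not_le] at hcon
    set q := minpoly (𝓞 K) Q.t0 with hq
    have h0 : aeval Q.t0 q = 0 := minpoly.aeval _ _
    have hmq : q.Monic := minpoly.monic hint
    have hsum : q = C (q.coeff 0) + C (q.coeff 1) * X + C (q.coeff 2) * X ^ 2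
        + C (q.coeff 3) * X ^ 3 := by
      conv_lhs => rw [q.as_sum_range' 4 hcon]
      simp only [Finset.sum_range_succ, Finset.sum_range_zero, ← C_mul_X_pow_eq_monomial]
      ring
    rw [hsum] at h0
    simp only [map_add, map_mul, map_pow, aeval_X, aeval_C] at h0
    have h1 : Q.el (q.coeff 0 : K) (q.coeff 1 : K) (q.coeff 2 : K) (q.coeff 3 : K)
        = Q.el 0 0 0 0 := by
      have h5 := congrArg (fun z : 𝓞 L => (z : L)) h0
      simp only [map_add, map_mul, map_pow, map_zero, Qr.t0_coe] at h5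
      simp only [Qr.el, map_zero, zero_mul, add_zero]
      rw [← h5]
      rfl
    obtain ⟨e0, e1, e2, e3⟩ := Q.el_inj h1
    have hz : ∀ z : 𝓞 K, (z : K) = 0 → z = 0 := fun z hz => by
      apply FaithfulSMul.algebraMap_injective (𝓞 K) K
      rw [map_zero]
      exact hz
    have hq0 : q = 0 := by
      rw [hsum, hz _ e0, hz _ e1, hz _ e2, hz _ e3]
      simp
    exact hmq.ne_zero hq0
  have hmem2 : (2 : 𝓞 L) ∉ w.asIdeal := by
    rw [← w.valuation_lt_one_iff_mem (K := L)]
    have e2 : ((2 : 𝓞 L) : L) = 2 := map_ofNat (algebraMap (𝓞 L) L) 2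
    change ¬ w.valuation L ((2 : 𝓞 L) : L) < 1
    rw [e2, h2]
    exact lt_irrefl _
  have hmemt : Q.t0 ∉ w.asIdeal := by
    rw [← w.valuation_lt_one_iff_mem (K := L)]
    change ¬ w.valuation L Q.t < 1
    rw [ht]
    exact lt_irrefl _
  rw [hmin, hp, derivative_sub, derivative_X_pow, derivative_C, sub_zero, map_mul, map_pow,
    aeval_X, aeval_C, map_natCast]
  intro hmem
  have := w.isPrime
  rcases w.isPrime.mem_or_mem hmem with h | h
  · have h4 : ((4 : ℕ) : 𝓞 L) = 2 * 2 := by norm_num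
    rw [h4] at h
    rcases w.isPrime.mem_or_mem h with h | h <;> exact hmem2 h
  · exact hmemt (w.isPrime.mem_of_pow_mem _ h)

lemma val_int_le_one {M : Type*} [Field M] [NumberField M] (w : HeightOneSpectrum (𝓞 M)) {x : M}
    (hx : IsIntegral ℤ x) : w.valuation M x ≤ 1 :=
  w.valuation_le_one (⟨x, hx⟩ : 𝓞 M)

lemma isIntegral_ofNat' {M : Type*} [Field M] [NumberField M] (n : ℕ) [n.AtLeastTwo] :
    IsIntegral ℤ (OfNat.ofNat n : M) := by
  have := isIntegral_algebraMap (R := ℤ) (A := M) (x := OfNat.ofNat n)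
  rwa [map_ofNat] at this

/-- `ζ₅ ∉ K(θ)`: at a place `w` above `v` one has `w(5) = 1`, whereas `5 = (1 - ζ)⁴ · unit`. -/
theorem Qr.mu5 (v : HeightOneSpectrum (𝓞 K)) (hv : v.valuation K (2 - Q.i) = exp (-1 : ℤ))
    (z : L) (hz : z ^ 5 = 1) : z = 1 := by
  have hvi : v.valuation K Q.i = 1 := by
    have h1 : v.valuation K Q.i ^ 2 = 1 := by
      rw [← map_pow, Q.hi, Valuation.map_neg, map_one]
    exact (pow_eq_one_iff_of_nonneg zero_le two_ne_zero).1 h1
  have hlt : v.valuation K (2 - Q.i) < 1 := by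
    rw [hv, ← exp_zero, exp_lt_exp]; norm_num
  have hv2 : v.valuation K 2 = 1 := by
    have h1 : v.valuation K (2 : K) = v.valuation K (Q.i + (2 - Q.i)) := by
      congr 1; ring
    rw [h1, Valuation.map_add_eq_of_lt_left _ (by rw [hvi]; exact hlt), hvi]
  have hvp : v.valuation K (2 + Q.i) = 1 := by
    have h1 : v.valuation K (2 + Q.i : K) = v.valuation K (2 * Q.i + (2 - Q.i)) := by
      congr 1; ring
    have h2 : v.valuation K (2 * Q.i) = 1 := by rw [map_mul, hv2, hvi, one_mul]
    rw [h1, Valuation.map_add_eq_of_lt_left _ (by rw [h2]; exact hlt), h2]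
  obtain ⟨w, hw⟩ := bl_surjective K L v
  obtain ⟨e, he, hwe⟩ := val_bl_pow K w
  rw [hw] at hwe
  have hw2 : w.valuation L 2 = 1 := by
    have := hwe 2
    rw [hv2, one_pow, map_ofNat] at this
    exact this.symm
  have hwt : w.valuation L Q.t = 1 := by
    have h1 : w.valuation L Q.t ^ 4 = 1 := by
      have h2 := hwe (1 - 2 * Q.i)
      have h3 : (1 - 2 * Q.i : K) = -Q.i * (2 + Q.i) := by linear_combination Q.hi
      have h4 : v.valuation K (1 - 2 * Q.i) = 1 := by
        rw [h3, map_mul, Valuation.map_neg, hvi, hvp, one_mul]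
      rw [← map_pow, Q.ht]
      rw [h4, one_pow, map_sub, map_one, map_mul, map_ofNat] at h2
      exact h2.symm
    exact (pow_eq_one_iff_of_nonneg zero_le (by norm_num)).1 h1
  have hun := Q.unram w hw2 hwt
  rw [hw] at hun
  have h5 : w.valuation L 5 = exp (-1 : ℤ) := by
    have h1 := hun 5
    rw [map_ofNat] at h1
    rw [h1]
    have h3 : (5 : K) = (2 - Q.i) * (2 + Q.i) := by linear_combination Q.hi
    rw [h3, map_mul, hv, hvp, mul_one]
  by_contra hne
  have hphi : 1 + z + z ^ 2 + z ^ 3 + z ^ 4 = 0 := by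
    have h1 : (z - 1) * (1 + z + z ^ 2 + z ^ 3 + z ^ 4) = 0 := by
      linear_combination hz
    rcases mul_eq_zero.1 h1 with h | h
    · exact absurd (sub_eq_zero.1 h) hne
    · exact h
  have hid : (5 : L) = (1 - z) ^ 4 * (1 + z) ^ 2 * z ^ 2 := by
    linear_combination (5 - 5 * z - z ^ 2 + 3 * z ^ 3 - z ^ 4) * hphi
  have hzi : IsIntegral ℤ z := IsIntegral.of_pow (n := 5) (by norm_num) (by
    rw [hz]; exact isIntegral_one)
  have hwz : w.valuation L z = 1 := by
    have h1 : w.valuation L z ^ 5 = 1 := by rw [← map_pow, hz, map_one]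
    exact (pow_eq_one_iff_of_nonneg zero_le (by norm_num)).1 h1
  have hw1z : w.valuation L (1 + z) = 1 := by
    apply le_antisymm (val_int_le_one w (isIntegral_one.add hzi))
    have h1 : (1 + z) * (-(z + z ^ 3)) = 1 := by linear_combination -hphi
    have h2 : w.valuation L (1 + z) * w.valuation L (-(z + z ^ 3)) = 1 := by
      rw [← map_mul, h1, map_one]
    have h3 : w.valuation L (-(z + z ^ 3)) ≤ 1 := val_int_le_one w (hzi.add (hzi.pow 3)).neg
    calc (1 : ℤᵐ⁰) = w.valuation L (1 + z) * w.valuation L (-(z + z ^ 3)) := h2.symm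
      _ ≤ w.valuation L (1 + z) * 1 := by gcongr
      _ = _ := mul_one _
  have hne' : w.valuation L (1 - z) ≠ 0 := by
    rw [Ne, Valuation.zero_iff, sub_eq_zero]
    exact fun h => hne h.symm
  obtain ⟨k, hk⟩ : ∃ k : ℤ, w.valuation L (1 - z) = exp k :=
    ⟨log (w.valuation L (1 - z)), (exp_log hne').symm⟩
  rw [hid, map_mul, map_mul, map_pow, map_pow, map_pow, hw1z, hwz, one_pow, mul_one,
    mul_one, hk, ← exp_nsmul, exp_inj, nsmul_eq_mul] at h5
  push_cast at h5
  omega

end

/-- a place above `2 + i` -/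
lemma exists_place_aux (K : Type*) [Field K] [NumberField K] (i : K) (hi : i ^ 2 = -1) :
    ∃ v : HeightOneSpectrum (𝓞 K), v.valuation K (2 + i) < 1 := by
  by_contra hcon
  push Not at hcon
  have hmul : (2 + i) * ((2 - i) / 5) = 1 := by
    field_simp
    linear_combination -hi
  have hne : (2 + i) ≠ 0 := left_ne_zero_of_mul_eq_one hmul
  set x : K := (2 - i) / 5 with hxdef
  have hx : IsIntegral ℤ x := by
    have h1 : ∀ v : HeightOneSpectrum (𝓞 K), v.valuation K x ≤ 1 := by
      intro v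
      have h2 : v.valuation K (2 + i) * v.valuation K x = 1 := by
        rw [← map_mul, hmul, map_one]
      calc v.valuation K x = 1 * v.valuation K x := (one_mul _).symm
        _ ≤ v.valuation K (2 + i) * v.valuation K x := by
            gcongr
            exact hcon v
        _ = 1 := h2
    obtain ⟨y, hy⟩ := HeightOneSpectrum.mem_integers_of_valuation_le_one K x h1
    rw [← hy]
    exact y.2
  open Polynomial in
  have hrat : ∀ r : ℚ, algebraMap ℚ K r ≠ i := by
    intro r hr
    have h1 : r ^ 2 = -1 := by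
      apply (algebraMap ℚ K).injective
      rw [map_pow, hr, hi, map_neg, map_one]
    nlinarith [sq_nonneg r]
  open Polynomial in
  have key : False := by
    set q : ℚ[X] := X ^ 2 - C (4 / 5) * X + C (1 / 5) with hq
    have hqm : q.Monic := by rw [hq]; monicity!
    have hqd : q.natDegree = 2 := by rw [hq]; compute_degree!
    have hq0 : aeval x q = 0 := by
      rw [hq]
      simp only [map_add, map_sub, map_mul, map_pow, aeval_X, aeval_C]
      have e1 : algebraMap ℚ K (4 / 5) = 4 / 5 := by simp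
      have e2 : algebraMap ℚ K (1 / 5) = 1 / 5 := by simp
      rw [e1, e2, hxdef]
      field_simp
      linear_combination hi
    have hdvd := minpoly.dvd ℚ x hq0
    have hxq : IsIntegral ℚ x := hx.tower_top
    have hmm := minpoly.isIntegrallyClosed_eq_field_fractions' ℚ hx
    have hle : (minpoly ℚ x).natDegree ≤ 2 := by
      rw [← hqd]
      exact natDegree_le_of_dvd hdvd hqm.ne_zero
    have hpos := minpoly.natDegree_pos hxq
    have hcases : (minpoly ℚ x).natDegree = 1 ∨ (minpoly ℚ x).natDegree = 2 := by omega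
    rcases hcases with h1 | h2
    · rw [minpoly.natDegree_eq_one_iff] at h1
      obtain ⟨r, hr⟩ := h1
      apply hrat (2 - 5 * r)
      rw [map_sub, map_mul, map_ofNat, map_ofNat, hr, hxdef]
      field_simp
      ring
    · have h3 : q = minpoly ℚ x :=
        eq_of_monic_of_dvd_of_natDegree_le (minpoly.monic hxq) hqm hdvd (by rw [hqd, h2])
      have h4 : q.coeff 0 = ((minpoly ℤ x).coeff 0 : ℚ) := by
        rw [h3, hmm, coeff_map]
        rfl
      have h5 : q.coeff 0 = 1 / 5 := by
        rw [hq]; simp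
      rw [h5] at h4
      have h6 : (1 : ℚ) = ((5 * (minpoly ℤ x).coeff 0 : ℤ) : ℚ) := by
        push_cast
        rw [← h4]; norm_num
      have h7 : (1 : ℤ) = 5 * (minpoly ℤ x).coeff 0 := by exact_mod_cast h6
      omega
  exact key

/-- places above an element which is not a unit; used with `2 + i` (norm `5 ^ [K : ℚ(i)]`) -/
theorem exists_place (K : Type*) [Field K] [NumberField K] (i : K) (hi : i ^ 2 = -1) :
    (∃ v : HeightOneSpectrum (𝓞 K), v.valuation K (2 + i) < 1) ∧
      (∃ v : HeightOneSpectrum (𝓞 K), v.valuation K (2 - i) < 1) := by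
  refine ⟨exists_place_aux K i hi, ?_⟩
  have := exists_place_aux K (-i) (by rw [neg_sq, hi])
  simpa [sub_eq_add_neg] using this

end BSD5
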