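import Pool.Agent.BSD5.Tower

/-!
# All intermediate fields of a Galois extension of degree `5ⁿ` are good
-/

namespace BSD5


open NumberField IsDedekindDomain WithZero CFT

/-- fourth powers do not appear in extensions of odd degree -/
lemma fourth_of_norm {k k' : Type*} [Field k] [Field k'] [Algebra k k']
    (hf : Odd (Module.finrank k k')) {κ : k} (hκ : κ ≠ 0) {t : k'}
    (ht : t ^ 4 = algebraMap k k' κ) : ∃ s : k, s ^ 4 = κ := by
  have h1 : (Algebra.norm k t) ^ 4 = κ ^ Module.finrank k k' := by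
    rw [← map_pow, ht, Algebra.norm_algebraMap]
  obtain ⟨a, ha⟩ := hf
  rcases Nat.even_or_odd' a with ⟨m, hm | hm⟩
  · refine ⟨Algebra.norm k t / κ ^ m, ?_⟩
    have h2 : κ ^ (Module.finrank k k') = (κ ^ m) ^ 4 * κ := by
      rw [ha, hm, ← pow_mul, ← pow_succ]
      congr 1
      ring
    rw [div_pow, h1, h2]
    field_simp
  · have hN : Algebra.norm k t ≠ 0 := by
      intro h0
      rw [h0] at h1
      have : κ ^ Module.finrank k k' = 0 := by rw [← h1]; simp
      exact hκ (pow_eq_zero_iff (by omega) |>.1 this)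
    refine ⟨κ ^ (m + 1) / Algebra.norm k t, ?_⟩
    have h2 : κ ^ (Module.finrank k k') * κ = (κ ^ (m + 1)) ^ 4 := by
      rw [ha, hm, ← pow_mul, ← pow_succ]
      congr 1
      ring
    rw [div_pow, h1, ← h2]
    field_simp

/-- integral approximation -/
lemma exists_int_approx {K : Type*} [Field K] [NumberField K] (v : HeightOneSpectrum (𝓞 K))
    {x : K} (hx : v.valuation K x ≤ 1) :
    ∃ b : 𝓞 K, v.valuation K (algebraMap (𝓞 K) K b - x) < 1 := by
  obtain ⟨b, hb⟩ := v.exists_valuation_sub_lt_of_integer (K := K) hx 1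
  exact ⟨b, by simpa using hb⟩

/-- `i` is integral -/
lemma exists_int_i {K : Type*} [Field K] [NumberField K] {i : K} (hi : i ^ 2 = -1) :
    ∃ i0 : 𝓞 K, algebraMap (𝓞 K) K i0 = i := by
  refine ⟨⟨i, ?_⟩, rfl⟩
  have : IsIntegral ℤ (i ^ 2) := by
    rw [hi]
    exact isIntegral_one.neg
  exact IsIntegral.of_pow (by norm_num) this

/-- the fourth power condition in the residue field -/
lemma fourth_iff {K : Type*} [Field K] [NumberField K] (v : HeightOneSpectrum (𝓞 K))
    (c : 𝓞 K) :
    (∃ a : K, v.valuation K (a ^ 4 - algebraMap (𝓞 K) K c) < 1) ↔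
      ∃ b : 𝓞 K, b ^ 4 - c ∈ v.asIdeal := by
  constructor
  · rintro ⟨a, ha⟩
    have ha1 : v.valuation K a ≤ 1 := by
      by_contra hcon
      push Not at hcon
      have h1 : 1 < v.valuation K (a ^ 4) := by
        rw [map_pow]
        exact one_lt_pow₀ hcon (by norm_num)
      have h2 : v.valuation K (a ^ 4) ≤ max (v.valuation K (a ^ 4 - algebraMap (𝓞 K) K c))
          (v.valuation K (algebraMap (𝓞 K) K c)) := by
        have := (v.valuation K).map_add (a ^ 4 - algebraMap (𝓞 K) K c) (algebraMap (𝓞 K) K c)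
        rwa [sub_add_cancel] at this
      have h3 : max (v.valuation K (a ^ 4 - algebraMap (𝓞 K) K c))
          (v.valuation K (algebraMap (𝓞 K) K c)) ≤ 1 :=
        max_le ha.le (v.valuation_le_one c)
      exact absurd (lt_of_lt_of_le h1 (h2.trans h3)) (lt_irrefl _)
    obtain ⟨b, hb⟩ := exists_int_approx v ha1
    refine ⟨b, ?_⟩
    rw [← v.valuation_lt_one_iff_mem (K := K)]
    change v.valuation K (algebraMap (𝓞 K) K (b ^ 4 - c)) < 1
    have hbi : v.valuation K (algebraMap (𝓞 K) K b) ≤ 1 := v.valuation_le_one b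
    rw [map_sub (algebraMap (𝓞 K) K), map_pow (algebraMap (𝓞 K) K)]
    generalize algebraMap (𝓞 K) K b = B at *
    generalize algebraMap (𝓞 K) K c = C at *
    have h1 : B ^ 4 - C = (B - a) * (B ^ 3 + B ^ 2 * a + B * a ^ 2 + a ^ 3) + (a ^ 4 - C) := by
      ring
    rw [h1]
    refine lt_of_le_of_lt (Valuation.map_add _ _ _) (max_lt ?_ ha)
    rw [map_mul]
    have h2 : v.valuation K (B ^ 3 + B ^ 2 * a + B * a ^ 2 + a ^ 3) ≤ 1 := by
      have q : ∀ m n : ℕ, v.valuation K (B ^ m * a ^ n) ≤ 1 := by
        intro m n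
        rw [map_mul, map_pow, map_pow]
        exact mul_le_one' (pow_le_one' hbi m) (pow_le_one' ha1 n)
      have q3 := q 3 0
      have q2 := q 2 1
      have q1 := q 1 2
      have q0 := q 0 3
      rw [pow_zero, mul_one] at q3
      rw [pow_one] at q2
      rw [pow_one] at q1
      rw [pow_zero, one_mul] at q0
      refine (Valuation.map_add _ _ _).trans (max_le ((Valuation.map_add _ _ _).trans
        (max_le ((Valuation.map_add _ _ _).trans (max_le q3 q2)) q1)) q0)
    calc _ ≤ v.valuation K (B - a) * 1 := mul_le_mul' le_rfl h2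
      _ < 1 := by rwa [mul_one]
  · rintro ⟨b, hb⟩
    refine ⟨algebraMap (𝓞 K) K b, ?_⟩
    rw [← v.valuation_lt_one_iff_mem (K := K)] at hb
    change v.valuation K (algebraMap (𝓞 K) K (b ^ 4 - c)) < 1 at hb
    rwa [map_sub, map_pow] at hb

/-- silent places stay silent in extensions of odd residue degree: if `t⁴ = κ` in the residue field
above then `N(t)⁴ = κ^f`, so `κ` is a fourth power below -/
theorem silent_up {K K' : Type*} [Field K] [NumberField K] [Field K'] [NumberField K']
    [Algebra K K'] {i : K} (hi : i ^ 2 = -1) (v' : HeightOneSpectrum (𝓞 K'))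
    (hf : Odd (v'.asIdeal.inertiaDeg (𝓞 K))) (hs : Silent i (bl K K' v')) :
    Silent (algebraMap K K' i) v' := by
  obtain ⟨i0, hi0⟩ := exists_int_i hi
  set v := bl K K' v' with hv
  obtain ⟨h10, hno⟩ := hs
  refine ⟨?_, ?_⟩
  · obtain ⟨e, _, he⟩ := val_bl_pow K v'
    have := he 10
    rw [map_ofNat (algebraMap K K') 10, ← hv, h10, one_pow] at this
    exact this.symm
  · by_contra hcon
    push Not at hcon
    set c : 𝓞 K := 1 - 2 * i0 with hc
    have hcK : algebraMap (𝓞 K) K c = 1 - 2 * i := by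
      rw [hc, map_sub, map_mul, hi0, map_one, map_ofNat]
    set c' : 𝓞 K' := algebraMap (𝓞 K) (𝓞 K') c with hc'
    have hcK' : algebraMap (𝓞 K') K' c' = 1 - 2 * algebraMap K K' i := by
      have : algebraMap (𝓞 K') K' c' = algebraMap K K' (algebraMap (𝓞 K) K c) := rfl
      rw [this, hcK, map_sub, map_mul, map_one, map_ofNat]
    have hno' : ¬ ∃ b : 𝓞 K, b ^ 4 - c ∈ v.asIdeal := by
      rw [← fourth_iff, hcK]
      push Not
      exact hno
    rw [← hcK', fourth_iff] at hcon
    obtain ⟨b, hb⟩ := hcon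
    have : v'.asIdeal.LiesOver v.asIdeal := bl_liesOver K K' v'
    have : v'.asIdeal.IsMaximal := v'.isMaximal
    have : v.asIdeal.IsMaximal := v.isMaximal
    let := Ideal.Quotient.field v'.asIdeal
    let := Ideal.Quotient.field v.asIdeal
    rw [Ideal.inertiaDeg_eq_of_isMaximal v.asIdeal v'.asIdeal] at hf
    apply hno'
    have hκ : Ideal.Quotient.mk v.asIdeal c ≠ 0 := by
      intro h0
      rw [Ideal.Quotient.eq_zero_iff_mem] at h0
      apply hno'
      refine ⟨0, ?_⟩
      have := v.asIdeal.neg_mem h0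
      simpa using this
    have ht : (Ideal.Quotient.mk v'.asIdeal b) ^ 4 = algebraMap (𝓞 K ⧸ v.asIdeal)
        (𝓞 K' ⧸ v'.asIdeal) (Ideal.Quotient.mk v.asIdeal c) := by
      rw [← map_pow]
      exact Ideal.Quotient.eq.2 hb
    obtain ⟨s, hs⟩ := fourth_of_norm hf hκ ht
    obtain ⟨s, rfl⟩ := Ideal.Quotient.mk_surjective s
    refine ⟨s, ?_⟩
    rw [← map_pow] at hs
    exact Ideal.Quotient.eq.1 hs



lemma exp_neg_one_pow {e : ℕ} (h : (exp (-1 : ℤ)) ^ e = exp (-1 : ℤ)) : e = 1 := by
  rw [← exp_nsmul, exp_inj] at h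
  simp only [nsmul_eq_mul] at h
  omega

section

variable {K M : Type*} [Field K] [NumberField K] [Field M] [NumberField M] [Algebra K M]

lemma val_bl_ram (v : Pl M) (y : K) :
    (bl K M v).valuation K y ^ v.asIdeal.ramificationIdx (𝓞 K)
      = v.valuation M (algebraMap K M y) := by
  have := bl_liesOver K M v
  rw [← HeightOneSpectrum.valuation_liesOver M (bl K M v) v y,
    Ideal.ramificationIdx'_eq_ramificationIdx _ _ (bl K M v).ne_bot]

lemma ram_one_iff (v : Pl M) :
    (∀ y : K, v.valuation M (algebraMap K M y) = (bl K M v).valuation K y) ↔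
      v.asIdeal.ramificationIdx (𝓞 K) = 1 := by
  constructor
  · intro h
    obtain ⟨π, hπ⟩ := (bl K M v).valuation_exists_uniformizer K
    have h1 := val_bl_ram v π
    rw [h π, hπ] at h1
    exact exp_neg_one_pow h1
  · intro h y
    rw [← val_bl_ram v y, h, pow_one]

lemma ram_of_bij (hb : Function.Surjective (algebraMap K M)) (v : Pl M) :
    v.asIdeal.ramificationIdx (𝓞 K) = 1 := by
  obtain ⟨π, hπ⟩ := v.valuation_exists_uniformizer M
  obtain ⟨x, rfl⟩ := hb π
  rw [← val_bl_ram v x] at hπ
  set e := v.asIdeal.ramificationIdx (𝓞 K) with he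
  have hx0 : (bl K M v).valuation K x ≠ 0 := by
    intro h0
    rw [h0] at hπ
    rcases Nat.eq_zero_or_pos e with h | h
    · rw [h, pow_zero] at hπ
      rw [← exp_zero, exp_inj] at hπ
      omega
    · rw [zero_pow (by omega)] at hπ
      exact exp_ne_zero hπ.symm
  obtain ⟨m, hm⟩ : ∃ m : ℤ, (bl K M v).valuation K x = exp m := by
    exact ⟨_, (exp_log hx0).symm⟩
  rw [hm, ← exp_nsmul, exp_inj] at hπ
  simp only [nsmul_eq_mul] at hπ
  have h1 : (e : ℤ) ∣ 1 := ⟨-m, by linarith⟩
  exact_mod_cast Int.eq_one_of_dvd_one (by positivity) h1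

end

universe u v w

/-- fields of degree one over a good field are good -/
lemma good_of_bij {F : Type u} {K : Type w} [Field F] [NumberField F] [Field K] [NumberField K]
    [Algebra F K] (hb : Function.Surjective (algebraMap F K)) {i : F} (hi : i ^ 2 = -1)
    (hF : Good.{u, v} F i) : Good.{w, v} K (algebraMap F K i) := by
  have hv : ∀ (v : Pl K) (y : F), v.valuation K (algebraMap F K y) = (bl F K v).valuation F y :=
    fun v => (ram_one_iff v).2 (ram_of_bij hb v)
  refine ⟨fun v h => ?_, fun v h => ?_, fun v h => ?_, ?_⟩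
  · rw [← map_one (algebraMap F K), ← map_add, hv] at h ⊢
    exact hF.two _ h
  · rw [← map_ofNat (algebraMap F K) 2, ← map_add, hv] at h ⊢
    exact hF.five _ h
  · rw [← map_ofNat (algebraMap F K) 2, ← map_sub, hv] at h ⊢
    exact hF.five' _ h
  · intro L _ _ _ Q hQ x hx
    have hbij : Function.Bijective (algebraMap F K) := ⟨(algebraMap F K).injective, hb⟩
    let σ : F ≃+* K := RingEquiv.ofBijective (algebraMap F K) hbij
    let : Algebra F L := ((algebraMap K L).comp (algebraMap F K)).toAlgebra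
    have hσ : ∀ a : K, algebraMap K L a = algebraMap F L (σ.symm a) := by
      intro a
      obtain ⟨q, rfl⟩ := hbij.2 a
      have : σ.symm (algebraMap F K q) = q := σ.symm_apply_apply q
      rw [this]
      rfl
    have hσi : σ.symm Q.i = i := by
      rw [hQ]
      exact σ.symm_apply_apply i
    let Q' : Qr F L :=
      { i := i
        hi := hi
        t := Q.t
        ht := by
          rw [Q.ht, hσ, hσi]
        c0 := fun x => σ.symm (Q.c0 x)
        c1 := fun x => σ.symm (Q.c1 x)
        c2 := fun x => σ.symm (Q.c2 x)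
        c3 := fun x => σ.symm (Q.c3 x)
        eq := fun x => by
          rw [← hσ, ← hσ, ← hσ, ← hσ]
          exact Q.eq x
        c0_mk := fun a b c d => by
          have := Q.c0_mk (σ a) (σ b) (σ c) (σ d)
          rw [hσ, hσ, hσ, hσ, σ.symm_apply_apply, σ.symm_apply_apply, σ.symm_apply_apply,
            σ.symm_apply_apply] at this
          rw [this, σ.symm_apply_apply]
        c1_mk := fun a b c d => by
          have := Q.c1_mk (σ a) (σ b) (σ c) (σ d)
          rw [hσ, hσ, hσ, hσ, σ.symm_apply_apply, σ.symm_apply_apply, σ.symm_apply_apply,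
            σ.symm_apply_apply] at this
          rw [this, σ.symm_apply_apply]
        c2_mk := fun a b c d => by
          have := Q.c2_mk (σ a) (σ b) (σ c) (σ d)
          rw [hσ, hσ, hσ, hσ, σ.symm_apply_apply, σ.symm_apply_apply, σ.symm_apply_apply,
            σ.symm_apply_apply] at this
          rw [this, σ.symm_apply_apply]
        c3_mk := fun a b c d => by
          have := Q.c3_mk (σ a) (σ b) (σ c) (σ d)
          rw [hσ, hσ, hσ, hσ, σ.symm_apply_apply, σ.symm_apply_apply, σ.symm_apply_apply,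
            σ.symm_apply_apply] at this
          rw [this, σ.symm_apply_apply] }
    have hτ : ∀ y, Q'.τ y = Q.τ y := by
      intro y
      change algebraMap F L (σ.symm (Q.c0 y)) + algebraMap F L (i * σ.symm (Q.c1 y)) * Q.t
        + algebraMap F L (-σ.symm (Q.c2 y)) * Q.t ^ 2
        + algebraMap F L (-i * σ.symm (Q.c3 y)) * Q.t ^ 3
        = algebraMap K L (Q.c0 y) + algebraMap K L (Q.i * Q.c1 y) * Q.t
        + algebraMap K L (-Q.c2 y) * Q.t ^ 2
        + algebraMap K L (-Q.i * Q.c3 y) * Q.t ^ 3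
      simp only [hσ, map_mul, map_neg, hσi]
    refine hF.triv L Q' rfl x ⟨hx.ne_zero, ?_, hx.val, hx.loc⟩
    obtain ⟨y, hy⟩ := hx.eig
    exact ⟨y, by rw [hτ, hy]⟩



/-- In a Galois extension of degree `5ⁿ` every intermediate field other than the base field is a
cyclic quintic extension of a smaller intermediate field. -/
lemma exists_sub5 {F L : Type*} [Field F] [Field L] [Algebra F L] [FiniteDimensional F L]
    [IsGalois F L] (n : ℕ) (hn : Module.finrank F L = 5 ^ n) (K : IntermediateField F L) (m : ℕ)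
    (hm : Module.finrank F K = 5 ^ (m + 1)) :
    ∃ (K₀ : IntermediateField F L) (h : K₀ ≤ K), Module.finrank F K₀ = 5 ^ m ∧
      let : Algebra K₀ K := (IntermediateField.inclusion h).toRingHom.toAlgebra
      IsGalois K₀ K ∧ Module.finrank K₀ K = 5 := by
  have : Fact (Nat.Prime 5) := ⟨Nat.prime_five⟩
  have h1 := Module.finrank_mul_finrank F K L
  rw [hm, hn] at h1
  -- the exponent of the group of `K`
  obtain ⟨a, ha, haL⟩ : ∃ a, a + (m + 1) = n ∧ Module.finrank K L = 5 ^ a := by
    have h2 : Module.finrank K L ∣ 5 ^ n := ⟨5 ^ (m + 1), by rw [← h1, mul_comm]⟩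
    obtain ⟨a, _, ha⟩ := (Nat.dvd_prime_pow Nat.prime_five).1 h2
    refine ⟨a, ?_, ha⟩
    rw [ha, ← pow_add] at h1
    have := Nat.pow_right_injective (le_refl 2 |>.trans (by norm_num : 2 ≤ 5)) h1
    omega
  set H := K.fixingSubgroup with hH
  have hHc : Nat.card H = 5 ^ a := by
    rw [hH, IsGalois.card_fixingSubgroup_eq_finrank, haL]
  have hG : Nat.card Gal(L/F) = 5 ^ n := by rw [IsGalois.card_aut_eq_finrank, hn]
  obtain ⟨H₀, hH₀, hle⟩ := Sylow.exists_subgroup_card_pow_succ (p := 5) (n := a)
    (G := Gal(L/F)) (by rw [hG]; exact pow_dvd_pow 5 (by omega)) hHc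
  set K₀ := IntermediateField.fixedField H₀ with hK₀
  have hKK : IntermediateField.fixedField H = K := IsGalois.fixedField_fixingSubgroup K
  have h : K₀ ≤ K := by
    rw [← hKK, hK₀]
    exact IntermediateField.fixedField_le hle
  have hf0 : Module.finrank K₀ L = 5 ^ (a + 1) := by
    rw [hK₀, IntermediateField.finrank_fixedField_eq_card, hH₀]
  have hf1 : Module.finrank F K₀ = 5 ^ m := by
    have h2 := Module.finrank_mul_finrank F K₀ L
    rw [hf0, hn, ← ha, show a + (m + 1) = m + (a + 1) by omega, pow_add 5 m] at h2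
    exact Nat.eq_of_mul_eq_mul_right (by positivity) h2
  refine ⟨K₀, h, hf1, ?_⟩
  let : Algebra K₀ K := (IntermediateField.inclusion h).toRingHom.toAlgebra
  have : IsScalarTower K₀ K L := IsScalarTower.of_algebraMap_eq' rfl
  have hf2 : Module.finrank K₀ K = 5 := by
    have h2 := Module.finrank_mul_finrank K₀ K L
    rw [hf0, haL, pow_succ', ] at h2
    exact Nat.eq_of_mul_eq_mul_right (by positivity) h2
  refine ⟨?_, hf2⟩
  -- the normal subgroup of `Gal(L/K₀)`
  set K' : IntermediateField K₀ L := IntermediateField.extendScalars h with hK'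
  have e : K' ≃ₐ[K₀] K :=
    { toFun := fun x => ⟨x.1, x.2⟩
      invFun := fun x => ⟨x.1, x.2⟩
      left_inv := fun x => rfl
      right_inv := fun x => rfl
      map_mul' := fun x y => rfl
      map_add' := fun x y => rfl
      commutes' := fun x => rfl }
  have hf3 : Module.finrank K' L = 5 ^ a := by
    have h2 := Module.finrank_mul_finrank K₀ K' L
    rw [e.toLinearEquiv.finrank_eq, hf2, hf0, pow_succ'] at h2
    exact Nat.eq_of_mul_eq_mul_left (by positivity) h2
  set N := K'.fixingSubgroup with hN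
  have hNc : Nat.card N = 5 ^ a := by
    rw [hN, IsGalois.card_fixingSubgroup_eq_finrank, hf3]
  have hG0 : Nat.card Gal(L/K₀) = 5 ^ (a + 1) := by rw [IsGalois.card_aut_eq_finrank, hf0]
  have hNi : N.index = 5 := by
    have h2 := N.index_mul_card
    rw [hNc, hG0, pow_succ'] at h2
    exact Nat.eq_of_mul_eq_mul_right (by positivity) h2
  have hNn : N.Normal := by
    apply Subgroup.normal_of_index_eq_minFac_card
    rw [hNi, hG0, Nat.prime_five.pow_minFac (by omega)]
  have hgal : IsGalois K₀ (IntermediateField.fixedField N) :=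
    IsGalois.of_fixedField_normal_subgroup N
  rw [hN, IsGalois.fixedField_fixingSubgroup K'] at hgal
  exact IsGalois.of_algEquiv e

/-- Let `L/F` be Galois of degree `5ⁿ` such that every place of `F` is silent or unramified in `L`.
Every intermediate field `K ≠ F` contains an intermediate field `K₀` with `K/K₀` Galois of degree
five (a proper subgroup of a finite `5`-group is properly contained in its normaliser); induction on
the degree with `Good.step`, `silent_up`. -/
theorem good_tower {F : Type u} {L : Type w} [Field F] [NumberField F] [Field L] [NumberField L] [Algebra F L]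
    [IsGalois F L] (n : ℕ) (hn : Module.finrank F L = 5 ^ n) {i : F} (hi : i ^ 2 = -1)
    (hram : ∀ v : HeightOneSpectrum (𝓞 F), Silent i v ∨ ∃ v' : HeightOneSpectrum (𝓞 L),
      bl F L v' = v ∧ ∀ x, v'.valuation L (algebraMap F L x) = v.valuation F x)
    (hF : Good.{u, v} F i) (K : IntermediateField F L) : Good.{w, v} K (algebraMap F K i) := by
  -- residue degrees are odd
  have hodd : ∀ (K₀ : IntermediateField F L) (v : Pl K₀), Odd (v.asIdeal.inertiaDeg (𝓞 F)) := by
    intro K₀ v
    obtain ⟨w, rfl⟩ := exists_bl_eq K₀ L v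
    have h1 : (bl K₀ L w).asIdeal.inertiaDeg (𝓞 F) ∣ w.asIdeal.inertiaDeg (𝓞 F) :=
      ⟨_, (inertiaDeg_mul F K₀ L w).symm⟩
    have : w.asIdeal.LiesOver (bl F L w).asIdeal := bl_liesOver F L w
    have : (bl F L w).asIdeal.IsMaximal := (bl F L w).isMaximal
    have h2 := Ideal.ncard_primesOver_mul_ramificationIdxIn_mul_inertiaDegIn
      (bl F L w).asIdeal (𝓞 L) Gal(L/F)
    rw [Ideal.inertiaDegIn_eq_inertiaDeg (bl F L w).asIdeal w.asIdeal Gal(L/F),
      IsGalois.card_aut_eq_finrank, hn] at h2
    have h3 : w.asIdeal.inertiaDeg (𝓞 F) ∣ 5 ^ n := by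
      rw [← h2, ← mul_assoc]
      exact dvd_mul_left _ _
    have h4 : Odd (5 ^ n) := Odd.pow (by decide)
    exact h4.of_dvd_nat (h1.trans h3)
  obtain ⟨m, hm⟩ : ∃ m, Module.finrank F K = 5 ^ m := by
    have h2 : Module.finrank F K ∣ 5 ^ n := ⟨Module.finrank K L, by
      rw [Module.finrank_mul_finrank, hn]⟩
    obtain ⟨a, _, ha⟩ := (Nat.dvd_prime_pow Nat.prime_five).1 h2
    exact ⟨a, ha⟩
  induction m generalizing K with
  | zero =>
    rw [pow_zero] at hm
    apply good_of_bij _ hi hF
    intro x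
    obtain ⟨y, hy⟩ := (finrank_eq_one_iff_of_nonzero' (1 : K) one_ne_zero).1 hm x
    exact ⟨y, by rw [← hy, Algebra.smul_def, mul_one]⟩
  | succ m ih =>
    obtain ⟨K₀, h, hK₀, hgal⟩ := exists_sub5 n hn K m hm
    let _ : Algebra K₀ K := (IntermediateField.inclusion h).toRingHom.toAlgebra
    obtain ⟨hgal, hdeg⟩ := hgal
    have : IsScalarTower K₀ K L := IsScalarTower.of_algebraMap_eq' rfl
    have hG := ih K₀ hK₀
    have hmap : algebraMap F K i = algebraMap K₀ K (algebraMap F K₀ i) := rfl
    rw [hmap]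
    refine Good.step hdeg (by rw [← map_pow, hi, map_neg, map_one]) (fun v => ?_) hG
    rcases hram (bl F K₀ v) with hs | ⟨u', hu', hux⟩
    · left
      exact silent_up hi v (hodd K₀ v) hs
    · right
      obtain ⟨w, rfl⟩ := exists_bl_eq K₀ L v
      refine ⟨bl K L w, bl_bl K₀ K L w, fun x => ?_⟩
      have he : u'.asIdeal.ramificationIdx (𝓞 F) = 1 := by
        rw [← ram_one_iff, hu']
        exact hux
      have hwu : bl F L u' = bl F L w := by rw [hu', bl_bl F K₀ L w]
      have he2 : w.asIdeal.ramificationIdx (𝓞 F) = 1 := by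
        have : w.asIdeal.LiesOver (bl F L w).asIdeal := bl_liesOver F L w
        have : u'.asIdeal.LiesOver (bl F L w).asIdeal := by
          rw [← hwu]
          exact bl_liesOver F L u'
        have : (bl F L w).asIdeal.IsMaximal := (bl F L w).isMaximal
        rw [← Ideal.ramificationIdxIn_eq_ramificationIdx (bl F L w).asIdeal w.asIdeal Gal(L/F),
          Ideal.ramificationIdxIn_eq_ramificationIdx (bl F L w).asIdeal u'.asIdeal Gal(L/F), he]
      have he3 : w.asIdeal.ramificationIdx (𝓞 K₀) = 1 := by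
        have h5 := Ideal.ramificationIdx_tower (R := 𝓞 F) (bl K₀ L w).asIdeal w.asIdeal
        rw [he2] at h5
        exact Nat.eq_one_of_mul_eq_one_left h5.symm
      have he4 : (bl K L w).asIdeal.ramificationIdx (𝓞 K₀) = 1 := by
        have h5 := Ideal.ramificationIdx_tower (R := 𝓞 K₀) (bl K L w).asIdeal w.asIdeal
        rw [he3] at h5
        exact Nat.eq_one_of_mul_eq_one_right h5.symm
      rw [← ram_one_iff] at he4
      have h6 := he4 x
      rw [bl_bl K₀ K L w] at h6
      exact h6

end BSD5
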