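import Mathlib

/-!
# Identities for the isogeny `1 + 2i` of `y² = x³ - x` and its Kummer function

`F` is the Kummer function (`div F = 5 T - 5 O`, `T = (t⁻², (1+i) t⁻³)`), `t⁴ = 1 - 2i`.
-/

namespace BSD5

section Defs

variable {R : Type*} [CommRing R]

/-- the Kummer function -/
def FF (i t x y : R) : R := 1 + (1 + i) * (1 - 2 * i) * t ^ 2 * x - (1 - 2 * i) * t ^ 3 * y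
  - i * (1 - 2 * i) ^ 2 * x ^ 2 + (1 - 2 * i) * t * x * y

/-- numerator of the function `H` with `F³ = τF · H⁵` -/
def MM (i t x y : R) : R := 1 + (1 + i) * t ^ 2 * x - (1 - i) * t ^ 3 * y - i * (1 - 2 * i) * x ^ 2

/-- numerator of the fifth root of `F ∘ [1 + 2i]` -/
def GG (i t x y : R) : R := t * x * y - (1 - i) * t ^ 2 * x + t ^ 3 * y - (i * x ^ 2 + 1)

def AA (i x : R) : R := x ^ 2 - (1 + 2 * i)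

def DD (i x : R) : R := (1 + 2 * i) * x ^ 2 - 1

def UU (i x : R) : R := x ^ 2 + (2 - 2 * i) * x + 1

def VV (i x : R) : R := x ^ 2 - (2 - 2 * i) * x + 1

end Defs

/-- `F · τ²F = (1 - t² x)⁵` -/
theorem FF_mul_neg {R : Type*} [CommRing R] {i t x y : R} (hi : i ^ 2 = -1) (ht : t ^ 4 = 1 - 2 * i)
    (hE : y ^ 2 = x ^ 3 - x) :
    FF i t x y * FF i (-t) x y = (1 - t ^ 2 * x) ^ 5 := by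
  simp only [FF]
  linear_combination (-4*i^2*t^6 + 8*i^2*t^4*x - 4*i^2*t^2*x^2 + 4*i*t^6 - 8*i*t^4*x + 4*i*t^2*x^2 - t^6 + 2*t^4*x
      - t^2*x^2) * hE + (4*i^4*x^2 + 4*i^3*x^2 - 4*i^2*t^2*x^3 + 4*i^2*t^2*x + 8*i^2*x^4 - 11*i^2*x^2 - 2*i*t^2*x^5
      + 4*i*t^2*x^3 - 4*i*t^2*x + 2*i*x^4 + 6*i*x^2 + t^6*x^5 - 5*t^4*x^4 + t^2*x^5 + 9*t^2*x^3
      + t^2*x - 3*x^4 - 11*x^2) * ht + (16*i^4*x^4 + 16*i^3*t^2*x^3 - 32*i^3*x^4 - 8*i^3*x^2 - 8*i^2*t^2*x^3 + 8*i^2*x^4 - 4*i^2*x^2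
      - 20*i*t^2*x^3 - 8*i*t^2*x + 8*i*x^4 + 26*i*x^2 + 10*t^2*x^3 + 8*t^2*x - 3*x^4 - 11*x^2) * hi

/-- `F ∘ [1 + 2i] = (G / D)⁵`, cleared of denominators -/
theorem FF_isog {R : Type*} [CommRing R] {i t x y : R} (hi : i ^ 2 = -1) (ht : t ^ 4 = 1 - 2 * i)
    (hE : y ^ 2 = x ^ 3 - x) :
    DD i x ^ 5 + (1 + i) * (1 - 2 * i) * t ^ 2 * (x * AA i x ^ 2) * DD i x ^ 3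
      - (1 - 2 * i) * t ^ 3 * (y * AA i x * UU i x * VV i x) * DD i x ^ 2
      - i * (1 - 2 * i) ^ 2 * (x * AA i x ^ 2) ^ 2 * DD i x
      + (1 - 2 * i) * t * (x * AA i x ^ 2) * (y * AA i x * UU i x * VV i x) = GG i t x y ^ 5 := by
  simp only [DD, AA, UU, VV, GG]
  linear_combination (-10*i^3*t^12*x^3 + 10*i^3*t^10*x^4 + 20*i^3*t^8*x^5 - 20*i^3*t^6*x^6 - 10*i^3*t^4*x^7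
      + 10*i^3*t^2*x^8 - 10*i^2*t^13*x^2*y + 30*i^2*t^12*x^3 - 10*i^2*t^11*x^3*y + 30*i^2*t^10*x^2
      + 20*i^2*t^9*x^4*y - 60*i^2*t^8*x^5 + 20*i^2*t^7*x^5*y - 60*i^2*t^6*x^4 - 10*i^2*t^5*x^6*y
      + 30*i^2*t^4*x^7 - 10*i^2*t^3*x^7*y + 30*i^2*t^2*x^6 - 5*i*t^14*x^4 + 5*i*t^14*x^2
      - 5*i*t^14*x*y^2 + 20*i*t^13*x^2*y - 15*i*t^12*x^5 - 15*i*t^12*x^3 - 15*i*t^12*x^2*y^2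
      + 40*i*t^11*x^3*y + 20*i*t^11*x*y - 10*i*t^10*x^6 - 20*i*t^10*x^4 - 10*i*t^10*x^3*y^2
      - 60*i*t^10*x^2 + 40*i*t^9*x^2*y + 10*i*t^8*x^7 + 20*i*t^8*x^5 + 10*i*t^8*x^4*y^2
      - 60*i*t^8*x^3 - 30*i*t^8*x - 40*i*t^7*x^5*y + 15*i*t^6*x^8 + 15*i*t^6*x^6
      + 15*i*t^6*x^5*y^2 + 60*i*t^6*x^4 - 30*i*t^6*x^2 - 20*i*t^5*x^6*y - 40*i*t^5*x^4*y
      + 5*i*t^4*x^9 - 5*i*t^4*x^7 + 5*i*t^4*x^6*y^2 + 60*i*t^4*x^5 + 30*i*t^4*x^3 - 20*i*t^3*x^5*y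
      + 30*i*t^2*x^4 - t^15*x^3*y + t^15*x*y - t^15*y^3 + 5*t^14*x^4 - 5*t^14*x^2 + 5*t^14*x*y^2
      - 5*t^13*x^4*y - 5*t^13*x^2*y - 5*t^13*x*y^3 + 20*t^12*x^5 - 5*t^12*x^3 + 20*t^12*x^2*y^2
      - 5*t^12*x + 5*t^12*y^2 - 10*t^11*x^5*y - 20*t^11*x^3*y - 10*t^11*x^2*y^3 - 20*t^11*x*y
      + 30*t^10*x^6 + 10*t^10*x^4 + 30*t^10*x^3*y^2 + 10*t^10*x^2 + 20*t^10*x*y^2 - 10*t^9*x^6*y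
      - 20*t^9*x^4*y - 10*t^9*x^3*y^3 - 60*t^9*x^2*y - 10*t^9*y + 20*t^8*x^7 + 20*t^8*x^5
      + 20*t^8*x^4*y^2 + 30*t^8*x^3 + 30*t^8*x^2*y^2 + 30*t^8*x - 5*t^7*x^7*y - 5*t^7*x^5*y
      - 5*t^7*x^4*y^3 - 60*t^7*x^3*y - 30*t^7*x*y + 5*t^6*x^8 + 15*t^6*x^6 + 5*t^6*x^5*y^2
      + 10*t^6*x^4 + 20*t^6*x^3*y^2 + 60*t^6*x^2 + 10*t^6 - t^5*x^8*y + t^5*x^6*y - t^5*x^5*y^3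
      - 20*t^5*x^4*y - 30*t^5*x^2*y + 5*t^4*x^7 - 5*t^4*x^5 + 5*t^4*x^4*y^2 + 30*t^4*x^3
      + 20*t^4*x - 10*t^3*x^3*y + 10*t^2*x^2) * hE + (2*i^6*t^2*x^5 - 10*i^6*x^6 - i^5*t^6*x^5 + 5*i^5*t^4*x^6 + 10*i^5*t^3*x^4*y - 10*i^5*t^2*x^7
      - 11*i^5*t^2*x^5 - 30*i^5*t*x^5*y + 10*i^5*x^8 + 5*i^5*x^6 + 30*i^5*x^4 - 5*i^4*t^7*x^4*y
      + 5*i^4*t^6*x^5 + 15*i^4*t^5*x^5*y - 15*i^4*t^4*x^4 - 10*i^4*t^3*x^6*y - 45*i^4*t^3*x^4*y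
      + 10*i^4*t^2*x^7 + 25*i^4*t^2*x^5 - 10*i^4*t*x^7*y + 55*i^4*t*x^5*y - 60*i^4*x^8
      + 150*i^4*x^6 - 115*i^4*x^4 - 10*i^3*t^8*x^6 + 10*i^3*t^8*x^4 + 20*i^3*t^7*x^4*y
      + 10*i^3*t^6*x^7 - 20*i^3*t^6*x^5 - 20*i^3*t^5*x^5*y + 20*i^3*t^4*x^8 - 60*i^3*t^4*x^6
      + 50*i^3*t^4*x^4 + 20*i^3*t^3*x^6*y + 20*i^3*t^3*x^4*y - 20*i^3*t^2*x^9 - 20*i^3*t^2*x^7
      + 30*i^3*t^2*x^3 + 60*i^3*t*x^5*y + 20*i^3*t*x^3*y - 10*i^3*x^10 + 100*i^3*x^8 - 260*i^3*x^6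
      + 140*i^3*x^4 - 10*i^2*t^9*x^5*y + 10*i^2*t^9*x^3*y + 30*i^2*t^8*x^6 - 30*i^2*t^8*x^4
      - 10*i^2*t^7*x^6*y - 20*i^2*t^7*x^4*y + 10*i^2*t^6*x^7 + 20*i^2*t^6*x^5 - 20*i^2*t^6*x^3
      + 20*i^2*t^5*x^7*y - 40*i^2*t^5*x^5*y - 10*i^2*t^5*x^3*y - 30*i^2*t^4*x^8 + 70*i^2*t^4*x^6
      - 30*i^2*t^4*x^4 + 20*i^2*t^3*x^8*y - 84*i^2*t^3*x^6*y + 48*i^2*t^3*x^4*y + 6*i^2*t^3*x^2*y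
      + 20*i^2*t^2*x^9 + 10*i^2*t^2*x^7 + 50*i^2*t^2*x^5 - 80*i^2*t^2*x^3 - 10*i^2*t*x^9*y
      - 20*i^2*t*x^7*y - 100*i^2*t*x^5*y + 40*i^2*t*x^3*y + 10*i^2*x^10 + 30*i^2*x^8 + 150*i^2*x^6
      - 140*i^2*x^4 - 30*i^2*x^2 - 5*i*t^10*x^7 + 10*i*t^10*x^5 - 5*i*t^10*x^3 + 20*i*t^9*x^5*y
      - 20*i*t^9*x^3*y - 15*i*t^8*x^8 + 15*i*t^8*x^4 + 42*i*t^7*x^6*y - 4*i*t^7*x^4*y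
      - 18*i*t^7*x^2*y - 10*i*t^6*x^9 - 25*i*t^6*x^7 - 15*i*t^6*x^5 + 45*i*t^6*x^3
      + 10*i*t^5*x^7*y + 60*i*t^5*x^5*y - 10*i*t^5*x^3*y + 10*i*t^4*x^10 - 45*i*t^4*x^8
      - 25*i*t^4*x^6 + 25*i*t^4*x^4 + 20*i*t^4*x^2 - 20*i*t^3*x^8*y + 84*i*t^3*x^6*y
      + 2*i*t^3*x^4*y + 4*i*t^3*x^2*y + 15*i*t^2*x^11 - 70*i*t^2*x^9 + 50*i*t^2*x^7 - 67*i*t^2*x^5
      + 55*i*t^2*x^3 + 20*i*t*x^7*y + 130*i*t*x^5*y - 80*i*t*x^3*y + 5*i*x^12 - 40*i*x^10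
      - 20*i*x^8 - 25*i*x^6 + 15*i*x^4 + 50*i*x^2 - t^11*x^6*y + 2*t^11*x^4*y - t^11*x^2*y
      + 5*t^10*x^7 - 10*t^10*x^5 + 5*t^10*x^3 - 5*t^9*x^7*y + 5*t^9*x^3*y + 20*t^8*x^8
      - 25*t^8*x^6 + 5*t^8*x^2 - 10*t^7*x^8*y - 11*t^7*x^6*y - 3*t^7*x^4*y + 19*t^7*x^2*y
      + 30*t^6*x^9 - 15*t^6*x^7 - 9*t^6*x^5 - 5*t^6*x^3 - 10*t^5*x^9*y - 15*t^5*x^7*y
      - 45*t^5*x^5*y + 35*t^5*x^3*y + 10*t^5*x*y + 20*t^4*x^10 + 20*t^4*x^8 - 15*t^4*x^6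
      + 5*t^4*x^4 - 25*t^4*x^2 - 5*t^3*x^10*y - 10*t^3*x^8*y - 66*t^3*x^6*y + 7*t^3*x^4*y
      + 19*t^3*x^2*y + 5*t^2*x^11 + 40*t^2*x^9 - 20*t^2*x^7 + 41*t^2*x^5 - 45*t^2*x^3 - 10*t^2*x
      - t*x^11*y - 8*t*x^9*y - 36*t*x^7*y - 55*t*x^5*y + 35*t*x^3*y - 10*t*x*y + 25*x^10 + 10*x^8
      + 20*x^6 - 5*x^4 - 35*x^2) * ht + (-128*i^6*x^4 - 64*i^5*t^2*x^7 - 4*i^5*t^2*x^5 + 276*i^5*x^6 - 192*i^5*x^4 + 64*i^5*x^2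
      + 64*i^4*t^3*x^6*y - 20*i^4*t^3*x^4*y + 64*i^4*t^2*x^9 - 172*i^4*t^2*x^7 + 120*i^4*t^2*x^5
      + 60*i^4*t*x^5*y - 64*i^4*t*x^3*y - 212*i^4*x^8 + 236*i^4*x^6 - 92*i^4*x^4 + 64*i^4*x^2
      - 32*i^3*t^3*x^8*y - 44*i^3*t^3*x^6*y + 36*i^3*t^3*x^4*y - 16*i^3*t^2*x^11 + 155*i^3*t^2*x^9
      - 270*i^3*t^2*x^7 + 183*i^3*t^2*x^5 - 48*i^3*t^2*x^3 + 20*i^3*t*x^7*y - 44*i^3*t*x^5*y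
      + 64*i^3*t*x^3*y + 97*i^3*x^10 + 34*i^3*x^8 - 539*i^3*x^6 + 468*i^3*x^4 - 80*i^3*x^2
      + 47*i^2*t^3*x^8*y - 178*i^2*t^3*x^6*y + 15*i^2*t^3*x^4*y + 16*i^2*t^3*x^2*y
      - 32*i^2*t^2*x^11 + 133*i^2*t^2*x^9 - 70*i^2*t^2*x^7 + 145*i^2*t^2*x^5 - 156*i^2*t^2*x^3
      + 8*i^2*t^2*x - 5*i^2*t*x^9*y - 58*i^2*t*x^7*y - 253*i^2*t*x^5*y + 120*i^2*t*x^3*y
      + 16*i^2*t*x*y - 8*i^2*x^12 + 100*i^2*x^10 - 59*i^2*x^8 + 306*i^2*x^6 - 199*i^2*x^4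
      - 96*i^2*x^2 + 8*i*t^3*x^10*y - 20*i*t^3*x^8*y + 248*i*t^3*x^6*y - 88*i*t^3*x^4*y
      - 28*i*t^3*x^2*y + 10*i*t^2*x^11 - 173*i*t^2*x^9 + 162*i*t^2*x^7 - 217*i*t^2*x^5
      + 182*i*t^2*x^3 + 12*i*t^2*x + 28*i*t*x^9*y + 72*i*t*x^7*y + 248*i*t*x^5*y - 164*i*t*x^3*y
      + 16*i*t*x*y + 4*i*x^12 - 75*i*x^10 - 90*i*x^8 + 5*i*x^6 - 20*i*x^4 + 136*i*x^2
      - 6*t^3*x^10*y - 5*t^3*x^8*y - 86*t^3*x^6*y + 27*t^3*x^4*y - 6*t^3*x^2*y - 4*t^3*y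
      + 6*t^2*x^11 + 35*t^2*x^9 - 10*t^2*x^7 + 41*t^2*x^5 - 50*t^2*x^3 - 6*t^2*x - 13*t*x^9*y
      - 26*t*x^7*y - 65*t*x^5*y + 40*t*x^3*y - 16*t*x*y + 26*x^10 + 5*x^8 + 30*x^6 - 15*x^4
      - 30*x^2) * hi

/-- `G³ (1 + t² X) = τG · M(X, Y)`, cleared of denominators -/
theorem GG_cube {R : Type*} [CommRing R] {i t x y : R} (hi : i ^ 2 = -1) (ht : t ^ 4 = 1 - 2 * i)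
    (hE : y ^ 2 = x ^ 3 - x) :
    GG i t x y ^ 3 * (DD i x ^ 2 + t ^ 2 * (x * AA i x ^ 2)) = GG i (i * t) x y *
      (DD i x ^ 4 + (1 + i) * t ^ 2 * (x * AA i x ^ 2) * DD i x ^ 2
        - (1 - i) * t ^ 3 * (y * AA i x * UU i x * VV i x) * DD i x
        - i * (1 - 2 * i) * (x * AA i x ^ 2) ^ 2) := by
  simp only [DD, AA, UU, VV, GG]
  linear_combination (-16*i^8*t^6*x^4 + 8*i^7*t^6*x^6 + 32*i^7*t^6*x^4 + 8*i^7*t^6*x^2 - 16*i^6*t^6*x^6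
      - 16*i^6*t^6*x^2 - 16*i^6*t^4*x^5 - 2*i^5*t^6*x^8 + 8*i^5*t^6*x^6 - 12*i^5*t^6*x^4
      + 8*i^5*t^6*x^2 - 2*i^5*t^6 + 8*i^5*t^4*x^7 + 32*i^5*t^4*x^5 + 8*i^5*t^4*x^3 + i^4*t^6*x^8
      + 4*i^4*t^6*x^6 - 10*i^4*t^6*x^4 + 4*i^4*t^6*x^2 + i^4*t^6 - 16*i^4*t^4*x^7 - 16*i^4*t^4*x^3
      + 12*i^3*t^10*x^2 + 12*i^3*t^8*x^5 + 12*i^3*t^8*x^3 + i^3*t^6*x^8 + 8*i^3*t^6*x^6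
      - 6*i^3*t^6*x^4 - 4*i^3*t^6*x^2 + i^3*t^6 - 2*i^3*t^4*x^9 - 4*i^3*t^4*x^7 - 24*i^3*t^4*x^5
      + 8*i^3*t^4*x^3 - 2*i^3*t^4*x - 12*i^3*t^2*x^8 + 4*i^2*t^11*x*y - 12*i^2*t^10*x^4
      + 4*i^2*t^9*x^4*y + 12*i^2*t^9*x^2*y - 12*i^2*t^8*x^5 - 24*i^2*t^8*x^3 - 12*i^2*t^8*x
      + 12*i^2*t^7*x^5*y + 12*i^2*t^7*x^3*y - 48*i^2*t^6*x^4 - 24*i^2*t^6*x^2 + 12*i^2*t^5*x^6*y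
      + 4*i^2*t^5*x^4*y + i^2*t^4*x^9 - 8*i^2*t^4*x^7 - 34*i^2*t^4*x^5 - 8*i^2*t^4*x^3 + i^2*t^4*x
      + 4*i^2*t^3*x^7*y - 12*i^2*t^2*x^8 - 4*i*t^11*x^3*y + 4*i*t^11*x*y + 3*i*t^10*x^6
      + 6*i*t^10*x^4 - 9*i*t^10*x^2 - 8*i*t^9*x^4*y + 8*i*t^9*x^2*y + 3*i*t^8*x^7 + 9*i*t^8*x^5
      - 3*i*t^8*x^3 - 9*i*t^8*x - 3*i*t^6*x^8 - 3*i*t^6*x^6 + 15*i*t^6*x^4 - 9*i*t^6*x^2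
      + 8*i*t^5*x^6*y - 8*i*t^5*x^4*y - 2*i*t^4*x^9 - 13*i*t^4*x^7 + 9*i*t^4*x^5 + 5*i*t^4*x^3
      + i*t^4*x + 4*i*t^3*x^7*y - 4*i*t^3*x^5*y - 3*i*t^2*x^8 - 6*i*t^2*x^6 + 9*i*t^2*x^4
      + t^11*x^5*y - 2*t^11*x^3*y + t^11*x*y - 3*t^10*x^6 + 6*t^10*x^4 - 3*t^10*x^2 + 3*t^9*x^6*y
      - 5*t^9*x^4*y + t^9*x^2*y + t^9*y - 6*t^8*x^7 + 6*t^8*x^5 + 6*t^8*x^3 - 6*t^8*x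
      + 3*t^7*x^7*y - 3*t^7*x^5*y - 3*t^7*x^3*y + 3*t^7*x*y - 3*t^6*x^8 - 6*t^6*x^6 + 18*t^6*x^4
      - 6*t^6*x^2 - 3*t^6 + t^5*x^8*y + t^5*x^6*y - 5*t^5*x^4*y + 3*t^5*x^2*y - 6*t^4*x^7
      + 6*t^4*x^5 + 6*t^4*x^3 - 6*t^4*x + t^3*x^7*y - 2*t^3*x^5*y + t^3*x^3*y - 3*t^2*x^6
      + 6*t^2*x^4 - 3*t^2*x^2) * hE + (-16*i^8*t^2*x^7 + 16*i^8*t^2*x^5 - 32*i^8*t*x^5*y - 16*i^8*x^6 + 8*i^7*t^2*x^9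
      + 24*i^7*t^2*x^7 - 24*i^7*t^2*x^5 - 8*i^7*t^2*x^3 + 24*i^7*t*x^7*y + 24*i^7*t*x^3*y
      + 16*i^7*x^8 - 32*i^7*x^6 + 16*i^7*x^4 - 16*i^6*t^2*x^9 + 16*i^6*t^2*x^7 - 16*i^6*t^2*x^5
      + 16*i^6*t^2*x^3 - 4*i^6*t*x^9*y + 16*i^6*t*x^7*y - 104*i^6*t*x^5*y + 16*i^6*t*x^3*y
      - 4*i^6*t*x*y - 4*i^6*x^10 + 8*i^6*x^8 - 8*i^6*x^6 + 16*i^6*x^4 - 4*i^6*x^2 + 4*i^5*t^4*x^4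
      - 2*i^5*t^2*x^11 + 10*i^5*t^2*x^9 - 16*i^5*t^2*x^7 + 8*i^5*t^2*x^5 - 10*i^5*t^2*x^3
      + 2*i^5*t^2*x - 10*i^5*t*x^9*y + 64*i^5*t*x^7*y - 76*i^5*t*x^5*y + 40*i^5*t*x^3*y
      - 10*i^5*t*x*y + 4*i^5*x^10 + 12*i^5*x^8 + 4*i^5*x^6 + 12*i^5*x^4 - 4*i^5*x^2
      + 12*i^4*t^5*x^3*y - 4*i^4*t^4*x^6 - 8*i^4*t^4*x^4 + 12*i^4*t^3*x^6*y - 12*i^4*t^3*x^4*y
      + i^4*t^2*x^11 + 3*i^4*t^2*x^9 - 10*i^4*t^2*x^7 - 2*i^4*t^2*x^5 + 9*i^4*t^2*x^3 - i^4*t^2*x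
      - 2*i^4*t*x^9*y + 4*i^4*t*x^7*y - 16*i^4*t*x^5*y + 52*i^4*t*x^3*y - 2*i^4*t*x*y
      - 13*i^4*x^10 - 30*i^4*x^8 - 6*i^4*x^6 + 34*i^4*x^4 + 3*i^4*x^2 + 12*i^3*t^6*x^5
      - 12*i^3*t^6*x^3 - 12*i^3*t^5*x^5*y - 12*i^3*t^5*x^3*y + 13*i^3*t^4*x^8 + 10*i^3*t^4*x^6
      - 11*i^3*t^4*x^4 - 32*i^3*t^3*x^4*y - 16*i^3*t^3*x^2*y + i^3*t^2*x^11 + 4*i^3*t^2*x^9
      - 7*i^3*t^2*x^7 + 21*i^3*t^2*x^5 + 6*i^3*t^2*x^3 - i^3*t^2*x - i^3*t*x^9*y - 18*i^3*t*x^7*y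
      - 54*i^3*t*x^5*y + 26*i^3*t*x^3*y - i^3*t*x*y - 2*i^3*x^12 + 5*i^3*x^10 + 22*i^3*x^8
      + 63*i^3*x^6 - 62*i^3*x^4 - 6*i^3*x^2 + 4*i^2*t^7*x^4*y - 4*i^2*t^7*x^2*y - 12*i^2*t^6*x^7
      + 12*i^2*t^6*x^5 + 7*i^2*t^5*x^7*y + 26*i^2*t^5*x^5*y - 21*i^2*t^5*x^3*y - 15*i^2*t^4*x^8
      - 18*i^2*t^4*x^6 + 17*i^2*t^4*x^4 + 12*i^2*t^4*x^2 + 9*i^2*t^3*x^8*y + 5*i^2*t^3*x^6*y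
      + 27*i^2*t^3*x^4*y + 7*i^2*t^3*x^2*y - 64*i^2*t^2*x^7 + 36*i^2*t^2*x^5 + 12*i^2*t^2*x^3
      + 8*i^2*t*x^9*y + 22*i^2*t*x^7*y + 11*i^2*t*x^5*y + 32*i^2*t*x^3*y + 11*i^2*t*x*y + i^2*x^12
      - 17*i^2*x^10 - 57*i^2*x^8 + 60*i^2*x^6 - 6*i^2*x^4 - 9*i^2*x^2 - 4*i*t^7*x^6*y
      + 8*i*t^7*x^4*y - 4*i*t^7*x^2*y + 3*i*t^6*x^9 + 3*i*t^6*x^7 - 15*i*t^6*x^5 + 9*i*t^6*x^3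
      - 14*i*t^5*x^7*y + 16*i*t^5*x^5*y - 2*i*t^5*x^3*y + 3*i*t^4*x^10 + 9*i*t^4*x^8
      - 14*i*t^4*x^6 - 7*i*t^4*x^4 + 9*i*t^4*x^2 - 2*i*t^3*x^8*y - 10*i*t^3*x^6*y + 2*i*t^3*x^4*y
      + 10*i*t^3*x^2*y - 3*i*t^2*x^11 + 6*i*t^2*x^9 + 14*i*t^2*x^7 - 26*i*t^2*x^5 + 9*i*t^2*x^3
      + 8*i*t*x^9*y - 20*i*t*x^7*y + 12*i*t*x^5*y - 8*i*t*x^3*y + 8*i*t*x*y - 2*i*x^12 + 4*i*x^10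
      - 7*i*x^6 + 12*i*x^4 - 7*i*x^2 + t^7*x^8*y - 3*t^7*x^6*y + 3*t^7*x^4*y - t^7*x^2*y
      - 3*t^6*x^9 + 9*t^6*x^7 - 9*t^6*x^5 + 3*t^6*x^3 + 3*t^5*x^9*y - 5*t^5*x^7*y + 3*t^5*x^3*y
      - t^5*x*y - 6*t^4*x^10 + 11*t^4*x^8 + 2*t^4*x^6 - 13*t^4*x^4 + 6*t^4*x^2 + 3*t^3*x^10*y
      - 2*t^3*x^8*y - 6*t^3*x^4*y + 5*t^3*x^2*y - 3*t^2*x^11 - 6*t^2*x^9 + 29*t^2*x^7 - 25*t^2*x^5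
      + 2*t^2*x^3 + 3*t^2*x + t*x^11*y + 3*t*x^9*y - 2*t*x^7*y - t*x^5*y - 9*t*x^3*y + 8*t*x*y
      - 12*x^10 + 23*x^8 - 4*x^6 - 13*x^4 + 6*x^2) * ht + (-32*i^7*t^3*x^2*y + 32*i^7*t^2*x^7 - 32*i^7*t^2*x^5 - 32*i^7*t^2*x^3 + 64*i^7*t*x^5*y
      + 32*i^7*x^6 + 64*i^6*t^3*x^4*y - 48*i^6*t^3*x^2*y - 16*i^6*t^2*x^9 - 64*i^6*t^2*x^7
      + 128*i^6*t^2*x^5 - 48*i^6*t*x^7*y - 32*i^6*t*x^5*y - 48*i^6*t*x^3*y - 32*i^6*x^8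
      + 48*i^6*x^6 - 32*i^6*x^4 - 16*i^5*t^3*x^8*y - 48*i^5*t^3*x^6*y + 64*i^5*t^3*x^4*y
      + 16*i^5*t^3*x^2*y + 24*i^5*t^2*x^9 - 88*i^5*t^2*x^7 + 40*i^5*t^2*x^5 + 24*i^5*t^2*x^3
      + 8*i^5*t*x^9*y - 8*i^5*t*x^7*y + 144*i^5*t*x^5*y - 40*i^5*t*x^3*y + 8*i^5*t*x*y
      + 8*i^5*x^10 - 48*i^5*x^6 + 16*i^5*x^4 + 8*i^5*x^2 - 16*i^4*t^3*x^8*y + 8*i^4*t^3*x^6*y
      - 64*i^4*t^3*x^4*y + 56*i^4*t^3*x^2*y + 4*i^4*t^2*x^11 - 20*i^4*t^2*x^9 + 184*i^4*t^2*x^7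
      - 224*i^4*t^2*x^5 + 60*i^4*t^2*x^3 - 4*i^4*t^2*x + 16*i^4*t*x^9*y - 64*i^4*t*x^7*y
      + 144*i^4*t*x^5*y - 64*i^4*t*x^3*y + 16*i^4*t*x*y - 12*i^4*x^10 + 16*i^4*x^8 - 128*i^4*x^6
      + 72*i^4*x^4 + 36*i^4*x^2 - 2*i^3*t^3*x^10*y + 4*i^3*t^3*x^6*y - 56*i^3*t^3*x^4*y
      - 10*i^3*t^3*x^2*y - 6*i^3*t^2*x^11 - 32*i^3*t^2*x^9 + 188*i^3*t^2*x^7 - 68*i^3*t^2*x^5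
      - 54*i^3*t^2*x^3 + 4*i^3*t^2*x - 30*i^3*t*x^9*y + 16*i^3*t*x^7*y - 124*i^3*t*x^5*y
      - 40*i^3*t*x^3*y - 14*i^3*t*x*y + 34*i^3*x^10 + 120*i^3*x^8 - 120*i^3*x^4 + 30*i^3*x^2
      - 3*i^2*t^3*x^10*y + 48*i^2*t^3*x^8*y - 34*i^2*t^3*x^6*y + 112*i^2*t^3*x^4*y
      - 27*i^2*t^3*x^2*y + 2*i^2*t^2*x^11 - 9*i^2*t^2*x^9 - 146*i^2*t^2*x^7 + 188*i^2*t^2*x^5
      - 72*i^2*t^2*x^3 + 5*i^2*t^2*x - 20*i^2*t*x^9*y + 112*i^2*t*x^7*y - 52*i^2*t*x^5*y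
      + 72*i^2*t*x^3*y - 16*i^2*t*x*y + 4*i^2*x^12 + i^2*x^10 - 90*i^2*x^8 + 44*i^2*x^6
      + 14*i^2*x^4 - 5*i^2*x^2 - 4*i*t^3*x^10*y + 13*i*t^3*x^8*y - 22*i*t^3*x^6*y + 20*i*t^3*x^4*y
      - 6*i*t^3*x^2*y - i*t^3*y + i*t^2*x^11 + 16*i*t^2*x^9 - 52*i*t^2*x^7 + 50*i*t^2*x^5
      - 13*i*t^2*x^3 - 2*i*t^2*x - 2*i*t*x^11*y + i*t*x^9*y - 6*i*t*x^7*y + 8*i*t*x^5*y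
      + 8*i*t*x^3*y - 9*i*t*x*y - 2*i*x^12 + 28*i*x^10 - 38*i*x^8 - 26*i*x^6 + 64*i*x^4 - 26*i*x^2
      + 4*t^3*x^10*y - 6*t^3*x^8*y + 16*t^3*x^6*y - 28*t^3*x^4*y + 12*t^3*x^2*y + 2*t^3*y
      - 3*t^2*x^11 - 8*t^2*x^9 + 34*t^2*x^7 - 32*t^2*x^5 + 9*t^2*x^3 + t*x^11*y + 3*t*x^9*y
      - 2*t*x^7*y + 2*t*x^5*y - 15*t*x^3*y + 11*t*x*y - 12*x^10 + 24*x^8 - 8*x^6 - 8*x^4 + 4*x^2) * hi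

/-- `F³ (1 + t² x)⁵ = τF · M⁵` -/
theorem FF_cube {R : Type*} [CommRing R] {i t x y : R} (hi : i ^ 2 = -1) (ht : t ^ 4 = 1 - 2 * i)
    (hE : y ^ 2 = x ^ 3 - x) :
    FF i t x y ^ 3 * (1 + t ^ 2 * x) ^ 5 = FF i (i * t) x y * MM i t x y ^ 5 := by
  obtain ⟨f, hf⟩ : ∃ f, f = FF i t x y := ⟨_, rfl⟩
  obtain ⟨f', hf'⟩ : ∃ f', f' = FF i (i * t) x y := ⟨_, rfl⟩
  obtain ⟨m, hm⟩ : ∃ m, m = MM i t x y := ⟨_, rfl⟩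
  obtain ⟨u, hu⟩ : ∃ u, u = 1 + t ^ 2 * x := ⟨_, rfl⟩
  rw [← hf, ← hf', ← hm, ← hu]
  simp only [FF] at hf hf'
  simp only [MM] at hm
  have hf0 : f = 2*i*t^3*y - i*t^2*x - 2*i*t*x*y + 3*i*x^2 - t^3*y + 3*t^2*x + t*x*y - 4*x^2 + 1 := by
    rw [hf]
    linear_combination (-4*i*x^2 - 2*t^2*x + 4*x^2) * hi
  have hf1 : f' = i*t^3*y + i*t^2*x + i*t*x*y + 3*i*x^2 + 2*t^3*y - 3*t^2*x + 2*t*x*y - 4*x^2 + 1 := by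
    rw [hf']
    linear_combination (2*i^2*t^3*y - 2*i^2*t^2*x - i*t^3*y - i*t^2*x - 4*i*x^2 - 2*t^3*y + 3*t^2*x - 2*t*x*y
      + 4*x^2) * hi
  have hm0 : m = i*t^3*y + i*t^2*x - i*x^2 - t^3*y + t^2*x - 2*x^2 + 1 := by
    rw [hm]
    linear_combination (2*x^2) * hi
  have hf2 : f * f = -36*i*t^3*x^2*y + 4*i*t^3*y - 4*i*t^2*x^5 + 32*i*t^2*x^3 - 4*i*t^2*x + 22*i*t*x^3*y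
      + 14*i*t*x*y - 28*i*x^4 - 12*i*x^2 - 2*t^3*x^2*y - 2*t^3*y - 3*t^2*x^5 - 26*t^2*x^3
      + 17*t^2*x + 4*t*x^3*y + 28*t*x*y + 29*x^4 - 34*x^2 + 1 := by
    rw [hf0]
    linear_combination (4*i^2*t^6 - 8*i^2*t^4*x + 4*i^2*t^2*x^2 - 4*i*t^6 + 8*i*t^4*x - 4*i*t^2*x^2 + t^6 - 2*t^4*x
      + t^2*x^2) * hE + (4*i^2*t^2*x^3 - 4*i^2*t^2*x - 4*i^2*t*x*y - 8*i^2*x^4 + 9*i^2*x^2 - 4*i*t^2*x^3 + 4*i*t^2*x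
      + 14*i*t*x*y + 8*i*x^4 - 14*i*x^2 + t^2*x^3 - t^2*x - 6*t*x*y - 2*x^4 + 11*x^2) * ht + (-8*i*t^2*x^3 + 8*i*t^2*x + 8*i*t*x*y + 16*i*x^4 - 18*i*x^2 + 16*t^3*x^2*y + 4*t^2*x^5
      + 2*t^2*x^3 - 12*t^2*x - 12*t*x^3*y - 32*t*x*y - 15*x^4 + 37*x^2) * hi
  obtain ⟨f2, hf2e⟩ : ∃ z, z = f * f := ⟨_, rfl⟩
  rw [← hf2e] at hf2
  have hf3 : f2 * f = 2*i*t^3*x^6*y + 370*i*t^3*x^4*y - 138*i*t^3*x^2*y + 6*i*t^3*y + 21*i*t^2*x^7 - 495*i*t^2*x^5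
      + 259*i*t^2*x^3 - 9*i*t^2*x - 186*i*t*x^5*y + 76*i*t*x^3*y + 86*i*t*x*y + 414*i*x^6
      + 84*i*x^4 - 282*i*x^2 - 11*t^3*x^6*y + 215*t^3*x^4*y + 159*t^3*x^2*y - 3*t^3*y + 72*t^2*x^7
      + 210*t^2*x^5 - 412*t^2*x^3 + 42*t^2*x - 102*t*x^5*y - 668*t*x^3*y + 122*t*x*y - 277*x^6
      + 663*x^4 - 99*x^2 + 1 := by
    rw [hf2, hf0]
    linear_combination (-72*i^2*t^6*x^2 + 8*i^2*t^6 + 116*i^2*t^4*x^3 + 20*i^2*t^4*x - 44*i^2*t^2*x^4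
      - 28*i^2*t^2*x^2 + 32*i*t^6*x^2 - 8*i*t^6 - 46*i*t^4*x^3 + 50*i*t^4*x + 14*i*t^2*x^4
      - 42*i*t^2*x^2 + 2*t^6*x^2 + 2*t^6 - 6*t^4*x^3 - 30*t^4*x + 4*t^2*x^4 + 28*t^2*x^2) * hE + (-72*i^2*t^2*x^5 + 80*i^2*t^2*x^3 - 8*i^2*t^2*x - 8*i^2*t*x^5*y + 100*i^2*t*x^3*y
      - 12*i^2*t*x*y + 120*i^2*x^6 - 128*i^2*x^4 - 16*i^2*x^2 + 32*i*t^2*x^5 - 40*i*t^2*x^3
      + 8*i*t^2*x - 2*i*t*x^5*y - 190*i*t*x^3*y + 52*i*t*x*y - 55*i*x^6 + 218*i*x^4 - 79*i*x^2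
      + 2*t^2*x^5 - 2*t^2*x + 3*t*x^5*y + 20*t*x^3*y - 23*t*x*y - 15*x^6 - 102*x^4 + 81*x^2) * ht + (144*i*t^2*x^5 - 160*i*t^2*x^3 + 16*i*t^2*x + 16*i*t*x^5*y - 200*i*t*x^3*y + 24*i*t*x*y
      - 240*i*x^6 + 256*i*x^4 + 32*i*x^2 + 8*t^3*x^6*y - 250*t^3*x^4*y - 18*t^3*x^2*y - 56*t^2*x^7
      + 4*t^2*x^5 + 188*t^2*x^3 - 24*t^2*x + 118*t*x^5*y + 546*t*x^3*y - 116*t*x*y + 146*x^6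
      - 600*x^4 + 142*x^2) * hi
  obtain ⟨f3, hf3e⟩ : ∃ z, z = f2 * f := ⟨_, rfl⟩
  rw [← hf3e] at hf3
  have hu2 : u * u = -2*i*x^2 + 2*t^2*x + x^2 + 1 := by
    rw [hu]
    linear_combination (x^2) * ht
  obtain ⟨u2, hu2e⟩ : ∃ z, z = u * u := ⟨_, rfl⟩
  rw [← hu2e] at hu2
  have hu4 : u2 * u2 = -8*i*t^2*x^3 - 4*i*x^4 - 12*i*x^2 + 4*t^2*x^3 + 4*t^2*x - 3*x^4 + 6*x^2 + 1 := by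
    rw [hu2]
    linear_combination (4*x^2) * ht + (4*x^4) * hi
  obtain ⟨u4, hu4e⟩ : ∃ z, z = u2 * u2 := ⟨_, rfl⟩
  rw [← hu4e] at hu4
  have hu5 : u4 * u = -4*i*t^2*x^5 - 20*i*t^2*x^3 - 20*i*x^4 - 20*i*x^2 - 3*t^2*x^5 + 10*t^2*x^3 + 5*t^2*x
      - 15*x^4 + 10*x^2 + 1 := by
    rw [hu4, hu]
    linear_combination (-8*i*x^4 + 4*x^4 + 4*x^2) * ht + (16*x^4) * hi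
  obtain ⟨u5, hu5e⟩ : ∃ z, z = u4 * u := ⟨_, rfl⟩
  rw [← hu5e] at hu5
  have hL : f3 * u5 = 1156*i*t^3*x^10*y - 6986*i*t^3*x^8*y + 10736*i*t^3*x^6*y - 5420*i*t^3*x^4*y
      + 412*i*t^3*x^2*y + 6*i*t^3*y - 1889*i*t^2*x^11 + 8771*i*t^2*x^9 - 13882*i*t^2*x^7
      + 9206*i*t^2*x^5 - 2101*i*t^2*x^3 - 9*i*t^2*x - 44*i*t*x^11*y + 1570*i*t*x^9*y
      - 5344*i*t*x^7*y + 7612*i*t*x^5*y - 3844*i*t*x^3*y + 146*i*t*x*y - 87*i*x^12 + 1685*i*x^10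
      - 2678*i*x^8 - 1478*i*x^6 + 3229*i*x^4 - 767*i*x^2 - 233*t^3*x^10*y + 1673*t^3*x^8*y
      - 1298*t^3*x^6*y - 1190*t^3*x^4*y + 859*t^3*x^2*y - 3*t^3*y + 1827*t^2*x^11 - 8053*t^2*x^9
      + 9726*t^2*x^7 - 2858*t^2*x^5 - 657*t^2*x^3 + 47*t^2*x + 117*t*x^11*y - 4885*t*x^9*y
      + 13642*t*x^7*y - 10866*t*x^5*y + 2017*t*x^3*y + 167*t*x*y - 834*x^12 + 9795*x^10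
      - 24271*x^8 + 22254*x^6 - 7072*x^4 + 31*x^2 + 1 := by
    rw [hf3, hu5]
    linear_combination (-8*i^2*t*x^11*y - 1520*i^2*t*x^9*y - 6848*i^2*t*x^7*y + 2736*i^2*t*x^5*y - 120*i^2*t*x^3*y
      - 84*i^2*x^12 + 1560*i^2*x^10 + 8864*i^2*x^8 - 5144*i^2*x^6 + 180*i^2*x^4 + 38*i*t*x^11*y
      - 1730*i*t*x^9*y - 812*i*t*x^7*y - 2716*i*t*x^5*y - 570*i*t*x^3*y + 30*i*t*x*y - 351*i*x^12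
      - 585*i*x^10 - 8174*i*x^8 + 8214*i*x^6 + 365*i*x^4 - 45*i*x^2 + 33*t*x^11*y - 755*t*x^9*y
      + 1618*t*x^7*y + 2674*t*x^5*y + 765*t*x^3*y - 15*t*x*y - 216*x^12 + 90*x^10 + 3696*x^8
      - 3196*x^6 - 1640*x^4 + 210*x^2) * ht + (16*i*t*x^11*y + 3040*i*t*x^9*y + 13696*i*t*x^7*y - 5472*i*t*x^5*y + 240*i*t*x^3*y
      + 168*i*x^12 - 3120*i*x^10 - 17728*i*x^8 + 10288*i*x^6 - 360*i*x^4 + 704*t^3*x^10*y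
      - 4024*t^3*x^8*y - 6504*t^3*x^6*y + 920*t^3*x^4*y - 120*t^3*x^2*y - 2076*t^2*x^11
      + 864*t^2*x^9 + 4168*t^2*x^7 + 640*t^2*x^5 + 180*t^2*x^3 - 84*t*x^11*y + 5660*t*x^9*y
      - 3024*t*x^7*y + 4928*t*x^5*y - 700*t*x^3*y - 60*t*x*y + 618*x^12 - 5550*x^10 + 15252*x^8
      - 17612*x^6 + 5090*x^4 + 90*x^2) * hi
  have hm2 : m * m = -2*i*t^3*x^2*y + 2*i*t^3*y - 8*i*t^2*x^3 + 4*i*t^2*x + 8*i*t*x*y + 4*i*x^4 + 6*t^3*x^2*y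
      - 2*t^3*y - 6*t^2*x^3 + 6*t^2*x - 4*t*x*y + 3*x^4 + 1 := by
    rw [hm0]
    linear_combination (i^2*t^6 - 2*i*t^6 + t^6) * hE + (i^2*t^2*x^3 - i^2*t^2*x + 2*i^2*t*x*y + i^2*x^2 - 2*i*t^2*x^3 + 2*i*t^2*x + 2*i*x^2
      + t^2*x^3 - t^2*x - 2*t*x*y + x^2) * ht + (-2*i*t^2*x^3 + 2*i*t^2*x - 4*i*t*x*y - 2*i*x^2 - 2*t^3*x^2*y + 3*t^2*x^3 - 5*t^2*x + 2*t*x*y
      + x^4 - 3*x^2) * hi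
  obtain ⟨m2, hm2e⟩ : ∃ z, z = m * m := ⟨_, rfl⟩
  rw [← hm2e] at hm2
  have hm4 : m2 * m2 = 36*i*t^3*x^6*y - 36*i*t^3*x^4*y + 60*i*t^3*x^2*y + 4*i*t^3*y - 184*i*t^2*x^7 + 160*i*t^2*x^5
      - 24*i*t^2*x^3 + 16*i*t^2*x + 152*i*t*x^5*y - 256*i*t*x^3*y + 104*i*t*x*y + 24*i*x^8
      + 296*i*x^6 - 280*i*x^4 + 24*i*x^2 + 52*t^3*x^6*y + 148*t^3*x^4*y - 100*t^3*x^2*y - 4*t^3*y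
      + 12*t^2*x^7 + 20*t^2*x^5 - 28*t^2*x^3 + 28*t^2*x - 336*t*x^5*y + 208*t*x^3*y - 32*t*x*y
      - 7*x^8 + 372*x^6 - 610*x^4 + 228*x^2 + 1 := by
    rw [hm2]
    linear_combination (4*i^2*t^6*x^4 - 8*i^2*t^6*x^2 + 4*i^2*t^6 - 32*i^2*t^4*x^3 + 32*i^2*t^4*x + 64*i^2*t^2*x^2
      - 24*i*t^6*x^4 + 32*i*t^6*x^2 - 8*i*t^6 + 112*i*t^4*x^3 - 48*i*t^4*x - 64*i*t^2*x^2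
      + 36*t^6*x^4 - 24*t^6*x^2 + 4*t^6 - 48*t^4*x^3 + 16*t^4*x + 16*t^2*x^2) * hE + (4*i^2*t^2*x^7 - 12*i^2*t^2*x^5 + 12*i^2*t^2*x^3 - 4*i^2*t^2*x + 32*i^2*t*x^5*y
      - 48*i^2*t*x^3*y + 16*i^2*t*x*y + 32*i^2*x^6 - 16*i^2*x^2 - 24*i*t^2*x^7 + 56*i*t^2*x^5
      - 40*i*t^2*x^3 + 8*i*t^2*x - 72*i*t*x^5*y + 32*i*t*x^3*y + 8*i*t*x*y + 208*i*x^6 - 304*i*x^4
      + 96*i*x^2 + 36*t^2*x^7 - 60*t^2*x^5 + 28*t^2*x^3 - 4*t^2*x - 72*t*x^5*y + 96*t*x^3*y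
      - 24*t*x*y - 12*x^6 - 8*x^4 + 20*x^2) * ht + (-8*i*t^2*x^7 + 24*i*t^2*x^5 - 24*i*t^2*x^3 + 8*i*t^2*x - 64*i*t*x^5*y + 96*i*t*x^3*y
      - 32*i*t*x*y - 64*i*x^6 + 32*i*x^2 - 16*t^3*x^6*y - 112*t^3*x^4*y + 64*t^3*x^2*y
      - 12*t^2*x^7 - 28*t^2*x^5 + 28*t^2*x^3 - 20*t^2*x + 240*t*x^5*y - 112*t*x^3*y + 16*x^8
      - 384*x^6 + 608*x^4 - 208*x^2) * hi
  obtain ⟨m4, hm4e⟩ : ∃ z, z = m2 * m2 := ⟨_, rfl⟩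
  rw [← hm4e] at hm4
  have hm5 : m4 * m = -155*i*t^3*x^8*y - 148*i*t^3*x^6*y - 434*i*t^3*x^4*y + 332*i*t^3*x^2*y + 5*i*t^3*y
      + 565*i*t^2*x^9 + 360*i*t^2*x^7 - 1302*i*t^2*x^5 + 400*i*t^2*x^3 + 25*i*t^2*x - 60*i*t*x^7*y
      + 420*i*t*x^5*y - 260*i*t*x^3*y + 220*i*t*x*y - 41*i*x^10 - 2360*i*x^8 + 3150*i*x^6
      - 960*i*x^4 + 35*i*x^2 - 85*t^3*x^8*y - 1436*t^3*x^6*y + 1762*t^3*x^4*y - 476*t^3*x^2*y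
      - 5*t^3*y - 295*t^2*x^9 + 520*t^2*x^7 - 814*t^2*x^5 + 400*t^2*x^3 + 45*t^2*x + 1580*t*x^7*y
      - 1060*t*x^5*y + 180*t*x^3*y - 60*t*x*y + 38*x^10 - 1395*x^8 + 3300*x^6 - 2470*x^4 + 670*x^2
      + 1 := by
    rw [hm4, hm0]
    linear_combination (36*i^2*t^6*x^6 - 36*i^2*t^6*x^4 + 60*i^2*t^6*x^2 + 4*i^2*t^6 + 152*i^2*t^4*x^5
      - 256*i^2*t^4*x^3 + 104*i^2*t^4*x + 16*i*t^6*x^6 + 184*i*t^6*x^4 - 160*i*t^6*x^2 - 8*i*t^6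
      - 488*i*t^4*x^5 + 464*i*t^4*x^3 - 136*i*t^4*x - 52*t^6*x^6 - 148*t^6*x^4 + 100*t^6*x^2
      + 4*t^6 + 336*t^4*x^5 - 208*t^4*x^3 + 32*t^4*x) * hE + (36*i^2*t^2*x^9 - 72*i^2*t^2*x^7 + 96*i^2*t^2*x^5 - 56*i^2*t^2*x^3 - 4*i^2*t^2*x
      - 148*i^2*t*x^7*y + 124*i^2*t*x^5*y + 36*i^2*t*x^3*y + 20*i^2*t*x*y - 32*i^2*x^8
      - 248*i^2*x^6 + 336*i^2*x^4 - 88*i^2*x^2 + 16*i*t^2*x^9 + 168*i*t^2*x^7 - 344*i*t^2*x^5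
      + 152*i*t^2*x^3 + 8*i*t^2*x + 284*i*t*x^7*y - 28*i*t*x^5*y - 44*i*t*x^3*y + 12*i*t*x*y
      - 660*i*x^8 + 1132*i*x^6 - 652*i*x^4 + 180*i*x^2 - 52*t^2*x^9 - 96*t^2*x^7 + 248*t^2*x^5
      - 96*t^2*x^3 - 4*t^2*x + 40*t*x^7*y + 128*t*x^5*y - 72*t*x^3*y - 32*t*x*y + 348*x^8
      - 524*x^6 + 212*x^4 - 4*x^2) * ht + (-72*i*t^2*x^9 + 144*i*t^2*x^7 - 192*i*t^2*x^5 + 112*i*t^2*x^3 + 8*i*t^2*x + 296*i*t*x^7*y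
      - 248*i*t*x^5*y - 72*i*t*x^3*y - 40*i*t*x*y + 64*i*x^8 + 496*i*x^6 - 672*i*x^4 + 176*i*x^2
      - 12*t^3*x^8*y + 484*t^3*x^6*y - 596*t^3*x^4*y + 124*t^3*x^2*y + 212*t^2*x^9 - 272*t^2*x^7
      + 528*t^2*x^5 - 352*t^2*x^3 - 20*t^2*x - 868*t*x^7*y + 436*t*x^5*y + 20*t*x^3*y - 4*t*x*y
      - 24*x^10 + 992*x^8 - 2232*x^6 + 1616*x^4 - 448*x^2) * hi
  obtain ⟨m5, hm5e⟩ : ∃ z, z = m4 * m := ⟨_, rfl⟩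
  rw [← hm5e] at hm5
  have hR : f' * m5 = 1156*i*t^3*x^10*y - 6986*i*t^3*x^8*y + 10736*i*t^3*x^6*y - 5420*i*t^3*x^4*y
      + 412*i*t^3*x^2*y + 6*i*t^3*y - 1889*i*t^2*x^11 + 8771*i*t^2*x^9 - 13882*i*t^2*x^7
      + 9206*i*t^2*x^5 - 2101*i*t^2*x^3 - 9*i*t^2*x - 44*i*t*x^11*y + 1570*i*t*x^9*y
      - 5344*i*t*x^7*y + 7612*i*t*x^5*y - 3844*i*t*x^3*y + 146*i*t*x*y - 87*i*x^12 + 1685*i*x^10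
      - 2678*i*x^8 - 1478*i*x^6 + 3229*i*x^4 - 767*i*x^2 - 233*t^3*x^10*y + 1673*t^3*x^8*y
      - 1298*t^3*x^6*y - 1190*t^3*x^4*y + 859*t^3*x^2*y - 3*t^3*y + 1827*t^2*x^11 - 8053*t^2*x^9
      + 9726*t^2*x^7 - 2858*t^2*x^5 - 657*t^2*x^3 + 47*t^2*x + 117*t*x^11*y - 4885*t*x^9*y
      + 13642*t*x^7*y - 10866*t*x^5*y + 2017*t*x^3*y + 167*t*x*y - 834*x^12 + 9795*x^10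
      - 24271*x^8 + 22254*x^6 - 7072*x^4 + 31*x^2 + 1 := by
    rw [hf1, hm5]
    linear_combination (-155*i^2*t^6*x^8 - 148*i^2*t^6*x^6 - 434*i^2*t^6*x^4 + 332*i^2*t^6*x^2 + 5*i^2*t^6
      - 155*i^2*t^4*x^9 - 208*i^2*t^4*x^7 - 14*i^2*t^4*x^5 + 72*i^2*t^4*x^3 + 225*i^2*t^4*x
      - 60*i^2*t^2*x^8 + 420*i^2*t^2*x^6 - 260*i^2*t^2*x^4 + 220*i^2*t^2*x^2 - 395*i*t^6*x^8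
      - 1732*i*t^6*x^6 + 894*i*t^6*x^4 + 188*i*t^6*x^2 + 5*i*t^6 - 395*i*t^4*x^9 - 272*i*t^4*x^7
      + 674*i*t^4*x^5 - 152*i*t^4*x^3 + 385*i*t^4*x + 1460*i*t^2*x^8 - 220*i*t^2*x^6
      - 340*i*t^2*x^4 + 380*i*t^2*x^2 - 170*t^6*x^8 - 2872*t^6*x^6 + 3524*t^6*x^4 - 952*t^6*x^2
      - 10*t^6 - 170*t^4*x^9 + 288*t^4*x^7 + 1404*t^4*x^5 - 592*t^4*x^3 - 130*t^4*x + 3160*t^2*x^8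
      - 2120*t^2*x^6 + 360*t^2*x^4 - 120*t^2*x^2) * hE + (-155*i^2*t^2*x^11 + 7*i^2*t^2*x^9 - 286*i^2*t^2*x^7 + 766*i^2*t^2*x^5 - 327*i^2*t^2*x^3
      - 5*i^2*t^2*x + 410*i^2*t*x^9*y + 212*i^2*t*x^7*y - 1736*i^2*t*x^5*y + 732*i^2*t*x^3*y
      + 30*i^2*t*x*y - 155*i^2*x^12 + 512*i^2*x^10 + 554*i^2*x^8 - 1216*i^2*x^6 + 553*i^2*x^4
      - 200*i^2*x^2 - 395*i*t^2*x^11 - 1337*i*t^2*x^9 + 2626*i*t^2*x^7 - 706*i*t^2*x^5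
      - 183*i*t^2*x^3 - 5*i*t^2*x + 1215*i*t*x^9*y + 248*i*t*x^7*y - 354*i*t*x^5*y - 272*i*t*x^3*y
      + 75*i*t*x*y - 395*i*x^12 - 1867*i*x^10 + 386*i*x^8 + 2266*i*x^6 - 263*i*x^4 - 415*i*x^2
      - 170*t^2*x^11 - 2702*t^2*x^9 + 6396*t^2*x^7 - 4476*t^2*x^5 + 942*t^2*x^3 + 10*t^2*x
      - 335*t*x^9*y + 5348*t*x^7*y - 6914*t*x^5*y + 2228*t*x^3*y + 105*t*x*y - 170*x^12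
      + 1343*x^10 - 444*x^8 + 446*x^6 - 738*x^4 - 5*x^2) * ht + (310*i*t^2*x^11 - 14*i*t^2*x^9 + 572*i*t^2*x^7 - 1532*i*t^2*x^5 + 654*i*t^2*x^3 + 10*i*t^2*x
      - 820*i*t*x^9*y - 424*i*t*x^7*y + 3472*i*t*x^5*y - 1464*i*t*x^3*y - 60*i*t*x*y + 310*i*x^12
      - 1024*i*x^10 - 1108*i*x^8 + 2432*i*x^6 - 1106*i*x^4 + 400*i*x^2 + 59*t^3*x^10*y
      - 2504*t^3*x^8*y + 966*t^3*x^6*y + 176*t^3*x^4*y + 295*t^3*x^2*y + 2229*t^2*x^11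
      + 1881*t^2*x^9 - 6974*t^2*x^7 + 2898*t^2*x^5 - 71*t^2*x^3 + 5*t^2*x - 41*t*x^11*y
      - 4560*t*x^9*y + 4126*t*x^7*y - 2768*t*x^5*y + 1971*t*x^3*y - 120*t*x*y + 512*x^12
      - 2834*x^10 + 9232*x^8 - 8628*x^6 + 1184*x^4 + 630*x^2) * hi
  have e1 : f ^ 3 * u ^ 5 = f3 * u5 := by rw [hf3e, hf2e, hu5e, hu4e, hu2e]; ring
  have e2 : f' * m ^ 5 = f' * m5 := by rw [hm5e, hm4e, hm2e]; ring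
  rw [e1, e2, hL, hR]

end BSD5
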