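import Pool.Agent.BSD5.Qr
import Pool.Agent.BSD5.Ident

/-!
# Auxiliary lemmas for the injectivity of the Kummer map
-/

namespace BSD5

section FieldLemmas

variable {F : Type*} [Field F] [CharZero F] {i t X Y : F}

lemma injAux_i_ne (hi : i ^ 2 = -1) : (-4 + 4 * i : F) ≠ 0 := by
  intro h
  have h1 : (32 : F) = 0 := by
    linear_combination (-4 - 4 * i) * h + 16 * hi
  norm_num at h1

/-- the preimages of `(X, Y)` under `[1 + 2i]` -/
structure InjPt (i X Y x y : F) : Prop where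
  curve : y ^ 2 = x ^ 3 - x
  dd : DD i x ≠ 0
  ne : y ≠ 0
  hX : X * DD i x ^ 2 = x * AA i x ^ 2
  hY : Y * DD i x ^ 3 = y * AA i x * UU i x * VV i x

lemma injAux_facts (hi : i ^ 2 = -1) (hE : Y ^ 2 = X ^ 3 - X) (hY : Y ≠ 0) {x : F}
    (hx : X * DD i x ^ 2 = x * AA i x ^ 2) :
    DD i x ≠ 0 ∧ AA i x ≠ 0 ∧ UU i x ≠ 0 ∧ VV i x ≠ 0 := by
  have hX0 : X ≠ 0 := by
    rintro rfl
    apply hY
    have : Y ^ 2 = 0 := by rw [hE]; ring
    simpa using this
  have hX1 : X - 1 ≠ 0 := by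
    intro h
    apply hY
    have : Y ^ 2 = 0 := by rw [hE]; linear_combination (X ^ 2 + X) * h
    simpa using this
  have hX2 : X + 1 ≠ 0 := by
    intro h
    apply hY
    have : Y ^ 2 = 0 := by rw [hE]; linear_combination (X ^ 2 - X) * h
    simpa using this
  have hD : DD i x ≠ 0 := by
    intro hD
    rw [hD] at hx
    have h0 : x * AA i x ^ 2 = 0 := by rw [← hx]; ring
    rcases mul_eq_zero.1 h0 with h1 | h1
    · rw [h1] at hD
      simp [DD] at hD
    · have h2 : AA i x = 0 := by simpa using h1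
      apply injAux_i_ne hi
      simp only [AA] at h2
      simp only [DD] at hD
      linear_combination hD - (1 + 2 * i) * h2 - 4 * hi
  have h1 : (X - 1) * DD i x ^ 2 = (x - 1) * UU i x ^ 2 := by
    have : (X - 1) * DD i x ^ 2 = x * AA i x ^ 2 - DD i x ^ 2 := by rw [← hx]; ring
    rw [this]
    simp only [AA, DD, UU]
    linear_combination (4 * x - 4 * x ^ 4 + 4 * x ^ 2 - 4 * x ^ 3) * hi
  have h2 : (X + 1) * DD i x ^ 2 = (x + 1) * VV i x ^ 2 := by
    have : (X + 1) * DD i x ^ 2 = x * AA i x ^ 2 + DD i x ^ 2 := by rw [← hx]; ring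
    rw [this]
    simp only [AA, DD, VV]
    linear_combination (4 * x + 4 * x ^ 4 - 4 * x ^ 2 - 4 * x ^ 3) * hi
  refine ⟨hD, ?_, ?_, ?_⟩
  · intro h
    rw [h] at hx
    apply hX0
    have : X * DD i x ^ 2 = 0 := by rw [hx]; ring
    rcases mul_eq_zero.1 this with h3 | h3
    · exact h3
    · exact absurd (by simpa using h3) hD
  · intro h
    rw [h] at h1
    apply hX1
    have : (X - 1) * DD i x ^ 2 = 0 := by rw [h1]; ring
    rcases mul_eq_zero.1 this with h3 | h3
    · exact h3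
    · exact absurd (by simpa using h3) hD
  · intro h
    rw [h] at h2
    apply hX2
    have : (X + 1) * DD i x ^ 2 = 0 := by rw [h2]; ring
    rcases mul_eq_zero.1 this with h3 | h3
    · exact h3
    · exact absurd (by simpa using h3) hD

lemma injAux_pt (hi : i ^ 2 = -1) (hE : Y ^ 2 = X ^ 3 - X) (hY : Y ≠ 0) {x : F}
    (hx : X * DD i x ^ 2 = x * AA i x ^ 2) :
    InjPt i X Y x (Y * DD i x ^ 3 / (AA i x * UU i x * VV i x)) := by
  obtain ⟨hD, hA, hU, hV⟩ := injAux_facts hi hE hY hx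
  have h1 : (X - 1) * DD i x ^ 2 = (x - 1) * UU i x ^ 2 := by
    have : (X - 1) * DD i x ^ 2 = x * AA i x ^ 2 - DD i x ^ 2 := by rw [← hx]; ring
    rw [this]
    simp only [AA, DD, UU]
    linear_combination (4 * x - 4 * x ^ 4 + 4 * x ^ 2 - 4 * x ^ 3) * hi
  have h2 : (X + 1) * DD i x ^ 2 = (x + 1) * VV i x ^ 2 := by
    have : (X + 1) * DD i x ^ 2 = x * AA i x ^ 2 + DD i x ^ 2 := by rw [← hx]; ring
    rw [this]
    simp only [AA, DD, VV]
    linear_combination (4 * x + 4 * x ^ 4 - 4 * x ^ 2 - 4 * x ^ 3) * hi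
  refine ⟨?_, hD, ?_, hx, ?_⟩
  · have hAUV : (AA i x * UU i x * VV i x) ^ 2 ≠ 0 :=
      pow_ne_zero _ (mul_ne_zero (mul_ne_zero hA hU) hV)
    rw [div_pow, div_eq_iff hAUV]
    calc (Y * DD i x ^ 3) ^ 2 = (X * DD i x ^ 2) * ((X - 1) * DD i x ^ 2) * ((X + 1) * DD i x ^ 2) := by
          linear_combination (DD i x ^ 6) * hE
      _ = (x ^ 3 - x) * (AA i x * UU i x * VV i x) ^ 2 := by
          rw [hx, h1, h2]; ring
  · exact div_ne_zero (mul_ne_zero hY (pow_ne_zero _ hD)) (mul_ne_zero (mul_ne_zero hA hU) hV)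
  · field_simp

/-- the fifth root of `F(X, Y)` -/
lemma injAux_pow5 (hi : i ^ 2 = -1) (ht : t ^ 4 = 1 - 2 * i) {x y : F} (h : InjPt i X Y x y) :
    (GG i t x y / DD i x) ^ 5 = FF i t X Y := by
  have hD := h.dd
  have e := FF_isog (i := i) (t := t) (x := x) (y := y) hi ht h.curve
  rw [← h.hX, ← h.hY] at e
  rw [div_pow, div_eq_iff (pow_ne_zero _ hD), ← e]
  simp only [FF]
  ring

lemma injAux_cube (hi : i ^ 2 = -1) (ht : t ^ 4 = 1 - 2 * i) {x y : F} (h : InjPt i X Y x y) :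
    (GG i t x y / DD i x) ^ 3 * (1 + t ^ 2 * X) = (GG i (i * t) x y / DD i x) * MM i t X Y := by
  have hD := h.dd
  have e := GG_cube (i := i) (t := t) (x := x) (y := y) hi ht h.curve
  rw [← h.hX, ← h.hY] at e
  rw [div_pow, div_mul_eq_mul_div, div_mul_eq_mul_div, div_eq_div_iff (pow_ne_zero _ hD) hD]
  have h2 : DD i x ^ 2 ≠ 0 := pow_ne_zero _ hD
  apply mul_left_cancel₀ h2
  simp only [MM]
  linear_combination (DD i x) * e

/-- four conjugates determine the coordinates -/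
lemma injAux_dft (hi : i ^ 2 = -1) (ht0 : t ≠ 0) {b0 b1 b2 b3 : F}
    (h0 : b0 + b1 * t + b2 * t ^ 2 + b3 * t ^ 3 = 0)
    (h1 : b0 + b1 * (i * t) + b2 * (i * t) ^ 2 + b3 * (i * t) ^ 3 = 0)
    (h2 : b0 + b1 * (i * (i * t)) + b2 * (i * (i * t)) ^ 2 + b3 * (i * (i * t)) ^ 3 = 0)
    (h3 : b0 + b1 * (i * (i * (i * t))) + b2 * (i * (i * (i * t))) ^ 2
      + b3 * (i * (i * (i * t))) ^ 3 = 0) :
    b0 = 0 ∧ b1 = 0 ∧ b2 = 0 ∧ b3 = 0 := by
  have e1 : i * i = -1 := by rw [← pow_two, hi]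
  have e2 : i * (i * t) = -t := by rw [← mul_assoc, e1]; ring
  have e3 : i * (i * (i * t)) = -(i * t) := by rw [← mul_assoc, e1]; ring
  rw [e2] at h2
  rw [e3] at h3
  have k0 : (4 : F) * b0 = 0 := by linear_combination h0 + h1 + h2 + h3 - 2 * b2 * t ^ 2 * hi
  have k2 : (4 : F) * (b2 * t ^ 2) = 0 := by
    linear_combination h0 - h1 + h2 - h3 + 2 * b2 * t ^ 2 * hi
  have k1 : (4 : F) * (b1 * t) = 0 := by
    linear_combination h0 - h2 - i * h1 + i * h3 + (2 * b1 * t + 2 * b3 * t ^ 3 * (i ^ 2 - 1)) * hi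
  have k3 : (4 : F) * (b3 * t ^ 3) = 0 := by
    linear_combination h0 - h2 + i * h1 - i * h3 - (2 * b1 * t + 2 * b3 * t ^ 3 * (i ^ 2 - 1)) * hi
  have four : (4 : F) ≠ 0 := by norm_num
  refine ⟨?_, ?_, ?_, ?_⟩
  · simpa using k0
  · rcases mul_eq_zero.1 ((mul_eq_zero.1 k1).resolve_left four) with h | h
    · exact h
    · exact absurd h ht0
  · rcases mul_eq_zero.1 ((mul_eq_zero.1 k2).resolve_left four) with h | h
    · exact h
    · exact absurd h (pow_ne_zero _ ht0)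
  · rcases mul_eq_zero.1 ((mul_eq_zero.1 k3).resolve_left four) with h | h
    · exact h
    · exact absurd h (pow_ne_zero _ ht0)

lemma injAux_FF_ne (hi : i ^ 2 = -1) (ht : t ^ 4 = 1 - 2 * i) (hE : Y ^ 2 = X ^ 3 - X)
    (h1 : 1 - t ^ 2 * X ≠ 0) : FF i t X Y ≠ 0 := by
  intro h
  have e := FF_mul_neg hi ht hE
  rw [h, zero_mul] at e
  exact pow_ne_zero 5 h1 e.symm

lemma injAux_MM_ne (hi : i ^ 2 = -1) (ht : t ^ 4 = 1 - 2 * i) (hE : Y ^ 2 = X ^ 3 - X)
    (h1 : 1 - t ^ 2 * X ≠ 0) (h2 : 1 + t ^ 2 * X ≠ 0) : MM i t X Y ≠ 0 := by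
  intro h
  have e := FF_cube hi ht hE
  rw [h] at e
  have : FF i t X Y ^ 3 * (1 + t ^ 2 * X) ^ 5 = 0 := by rw [e]; ring
  exact mul_ne_zero (pow_ne_zero 3 (injAux_FF_ne hi ht hE h1)) (pow_ne_zero 5 h2) this

lemma injAux_it (hi : i ^ 2 = -1) (ht : t ^ 4 = 1 - 2 * i) : (i * t) ^ 4 = 1 - 2 * i := by
  rw [mul_pow, show i ^ 4 = (i ^ 2) ^ 2 by ring, hi, ht]; ring

lemma injAux_it2 (hi : i ^ 2 = -1) : (i * t) ^ 2 = - t ^ 2 := by
  rw [mul_pow, hi]; ring

lemma injAux_expand {s x y : F} : GG i s x y / DD i x = (-(i * x ^ 2 + 1) / DD i x)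
    + (x * y / DD i x) * s + (-(1 - i) * x / DD i x) * s ^ 2 + (y / DD i x) * s ^ 3 := by
  simp only [GG]
  ring

/-- the values of `G/D` at the four conjugates are determined by the first one -/
lemma injAux_step (hi : i ^ 2 = -1) (ht : t ^ 4 = 1 - 2 * i) (hM : MM i t X Y ≠ 0) {x y z w : F}
    (h : InjPt i X Y x y) (h' : (w : F) ^ 3 * (1 + t ^ 2 * X) = z * MM i t X Y)
    (e : GG i t x y / DD i x = w) : GG i (i * t) x y / DD i x = z := by
  have h1 := injAux_cube hi ht h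
  rw [e, h'] at h1
  exact (mul_right_cancel₀ hM h1).symm

lemma injAux_inj (hi : i ^ 2 = -1) (ht : t ^ 4 = 1 - 2 * i) (ht0 : t ≠ 0)
    (hE : Y ^ 2 = X ^ 3 - X) (hm : 1 - t ^ 2 * X ≠ 0) (hp : 1 + t ^ 2 * X ≠ 0) {x y x' y' : F}
    (h : InjPt i X Y x y) (h' : InjPt i X Y x' y')
    (e : GG i t x y / DD i x = GG i t x' y' / DD i x') : x = x' := by
  have ht1 := injAux_it hi ht
  have ht2 := injAux_it hi ht1
  have hm1 : 1 - (i * t) ^ 2 * X ≠ 0 := by rw [injAux_it2 hi]; convert hp using 1; ring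
  have hp1 : 1 + (i * t) ^ 2 * X ≠ 0 := by rw [injAux_it2 hi]; convert hm using 1; ring
  have hm2 : 1 - (i * (i * t)) ^ 2 * X ≠ 0 := by rw [injAux_it2 hi]; convert hp1 using 1; ring
  have hp2 : 1 + (i * (i * t)) ^ 2 * X ≠ 0 := by rw [injAux_it2 hi]; convert hm1 using 1; ring
  have M0 := injAux_MM_ne hi ht hE hm hp
  have M1 := injAux_MM_ne hi ht1 hE hm1 hp1
  have M2 := injAux_MM_ne hi ht2 hE hm2 hp2
  have e1 : GG i (i * t) x y / DD i x = GG i (i * t) x' y' / DD i x' :=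
    injAux_step hi ht M0 h (injAux_cube hi ht h') e
  have e2 : GG i (i * (i * t)) x y / DD i x = GG i (i * (i * t)) x' y' / DD i x' :=
    injAux_step hi ht1 M1 h (injAux_cube hi ht1 h') e1
  have e3 : GG i (i * (i * (i * t))) x y / DD i x = GG i (i * (i * (i * t))) x' y' / DD i x' :=
    injAux_step hi ht2 M2 h (injAux_cube hi ht2 h') e2
  rw [injAux_expand, injAux_expand] at e e1 e2 e3
  obtain ⟨_, d1, _, d3⟩ := injAux_dft (i := i) (t := t) hi ht0
    (b0 := -(i * x ^ 2 + 1) / DD i x - -(i * x' ^ 2 + 1) / DD i x')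
    (b1 := x * y / DD i x - x' * y' / DD i x')
    (b2 := -(1 - i) * x / DD i x - -(1 - i) * x' / DD i x')
    (b3 := y / DD i x - y' / DD i x')
    (by linear_combination e) (by linear_combination e1) (by linear_combination e2)
    (by linear_combination e3)
  have d3' : y / DD i x = y' / DD i x' := sub_eq_zero.1 d3
  have d1' : x * y / DD i x = x' * y' / DD i x' := sub_eq_zero.1 d1
  rw [mul_div_assoc, mul_div_assoc, d3'] at d1'
  exact mul_right_cancel₀ (div_ne_zero h'.ne h'.dd) d1'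

open Polynomial in
/-- the polynomial of the `x`-coordinates of the preimages -/
noncomputable def injAux_q (i X : F) : Polynomial F :=
  Polynomial.X * (Polynomial.X ^ 2 - Polynomial.C (1 + 2 * i)) ^ 2
    - Polynomial.C X * (Polynomial.C (1 + 2 * i) * Polynomial.X ^ 2 - 1) ^ 2

lemma injAux_q_eval (x : F) : (injAux_q i X).eval x = x * AA i x ^ 2 - X * DD i x ^ 2 := by
  simp [injAux_q, AA, DD]

lemma injAux_q_deg : (injAux_q i X).natDegree = 5 := by
  unfold injAux_q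
  have h : (Polynomial.X * (Polynomial.X ^ 2 - Polynomial.C (1 + 2 * i)) ^ 2
    - Polynomial.C X * (Polynomial.C (1 + 2 * i) * Polynomial.X ^ 2 - 1) ^ 2 : Polynomial F)
    = Polynomial.C 1 * Polynomial.X ^ 5 + Polynomial.C (-X * (1 + 2 * i) ^ 2) * Polynomial.X ^ 4
      + Polynomial.C (-2 * (1 + 2 * i)) * Polynomial.X ^ 3
      + Polynomial.C (2 * X * (1 + 2 * i)) * Polynomial.X ^ 2
      + Polynomial.C ((1 + 2 * i) ^ 2) * Polynomial.X + Polynomial.C (-X) := by
    simp only [map_mul, map_neg, map_pow, map_add, map_one, map_ofNat]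
    ring
  rw [h]
  compute_degree!

lemma injAux_q_nodup (hi : i ^ 2 = -1) (hE : Y ^ 2 = X ^ 3 - X) (hY : Y ≠ 0) :
    (injAux_q i X).roots.Nodup := by
  classical
  have hq : injAux_q i X ≠ 0 := by
    intro h
    have := injAux_q_deg (i := i) (X := X)
    rw [h] at this
    simp at this
  rw [Multiset.nodup_iff_count_le_one]
  intro x
  rw [Polynomial.count_roots]
  by_contra hc
  push Not at hc
  rw [Polynomial.one_lt_rootMultiplicity_iff_isRoot hq] at hc
  obtain ⟨h1, h2⟩ := hc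
  have h1' : x * AA i x ^ 2 - X * DD i x ^ 2 = 0 := by rw [← injAux_q_eval]; exact h1
  obtain ⟨hD, hA, hU, hV⟩ := injAux_facts (x := x) hi hE hY (by linear_combination -h1')
  have h2' : AA i x ^ 2 + 4 * x ^ 2 * AA i x - 4 * (1 + 2 * i) * x * X * DD i x = 0 := by
    have : (Polynomial.derivative (injAux_q i X)).eval x = AA i x ^ 2 + 4 * x ^ 2 * AA i x
        - 4 * (1 + 2 * i) * x * X * DD i x := by
      simp [injAux_q, AA, DD, Polynomial.derivative_pow]
      ring
    rw [← this]; exact h2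
  have h3 : AA i x * ((1 + 2 * i) * UU i x * VV i x) = 0 := by
    have key : (1 + 2 * i) * UU i x * VV i x = DD i x * AA i x + 4 * x ^ 2 * DD i x
        - 4 * (1 + 2 * i) * x ^ 2 * AA i x := by
      simp only [AA, DD, UU, VV]
      linear_combination (-8 * i * x ^ 2) * hi
    linear_combination AA i x * key + DD i x * h2' - 4 * (1 + 2 * i) * x * h1'
  have hk : (1 + 2 * i : F) ≠ 0 := by
    intro h
    have : (5 : F) = 0 := by linear_combination (1 - 2 * i) * h + 4 * hi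
    norm_num at this
  exact mul_ne_zero hA (mul_ne_zero (mul_ne_zero hk hU) hV) h3

/-- over an algebraically closed field every fifth root of `F(X, Y)` comes from a preimage -/
lemma injAux_exists [IsAlgClosed F] (hi : i ^ 2 = -1) (ht : t ^ 4 = 1 - 2 * i) (ht0 : t ≠ 0)
    (hE : Y ^ 2 = X ^ 3 - X) (hY : Y ≠ 0) (hm : 1 - t ^ 2 * X ≠ 0) (hp : 1 + t ^ 2 * X ≠ 0) {a : F}
    (ha : FF i t X Y = a ^ 5) : ∃ x y : F, InjPt i X Y x y ∧ GG i t x y / DD i x = a := by
  classical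
  have hq : injAux_q i X ≠ 0 := by
    intro h
    have := injAux_q_deg (i := i) (X := X)
    rw [h] at this
    simp at this
  set R := (injAux_q i X).roots.toFinset with hR
  have hcard : R.card = 5 := by
    rw [hR, Multiset.toFinset_card_of_nodup (injAux_q_nodup hi hE hY),
      IsAlgClosed.card_roots_eq_natDegree, injAux_q_deg]
  have hmem : ∀ x ∈ R, X * DD i x ^ 2 = x * AA i x ^ 2 := by
    intro x hx
    rw [hR, Multiset.mem_toFinset, Polynomial.mem_roots hq, Polynomial.IsRoot, injAux_q_eval] at hx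
    linear_combination -hx
  set y : F → F := fun x => Y * DD i x ^ 3 / (AA i x * UU i x * VV i x) with hy
  set g : F → F := fun x => GG i t x (y x) / DD i x with hg
  have hpt : ∀ x ∈ R, InjPt i X Y x (y x) := fun x hx => injAux_pt hi hE hY (hmem x hx)
  have hinj : Set.InjOn g R := by
    intro x hx x' hx' e
    exact injAux_inj hi ht ht0 hE hm hp (hpt x hx) (hpt x' hx') e
  have ha0 : a ≠ 0 := by
    rintro rfl
    apply injAux_FF_ne hi ht hE hm
    rw [ha]; ring
  set T : Polynomial F := Polynomial.X ^ 5 - Polynomial.C (a ^ 5) with hT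
  have hTd : T.natDegree = 5 := by
    rw [hT]; exact Polynomial.natDegree_X_pow_sub_C
  have hT0 : T ≠ 0 := by
    intro h
    rw [h] at hTd
    simp at hTd
  have himg : R.image g ⊆ T.roots.toFinset := by
    intro z hz
    obtain ⟨x, hx, rfl⟩ := Finset.mem_image.1 hz
    rw [Multiset.mem_toFinset, Polynomial.mem_roots hT0, Polynomial.IsRoot, hT]
    have := injAux_pow5 (t := t) hi ht (hpt x hx)
    simp only [Polynomial.eval_sub, Polynomial.eval_pow, Polynomial.eval_X, Polynomial.eval_C]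
    rw [← ha, ← this]
    simp [hg]
  have hle : T.roots.toFinset.card ≤ (R.image g).card := by
    rw [Finset.card_image_of_injOn hinj, hcard]
    calc T.roots.toFinset.card ≤ T.roots.card := Multiset.toFinset_card_le _
      _ ≤ T.natDegree := Polynomial.card_roots' T
      _ = 5 := hTd
  have heq := Finset.eq_of_subset_of_card_le himg hle
  have haT : a ∈ T.roots.toFinset := by
    rw [Multiset.mem_toFinset, Polynomial.mem_roots hT0, Polynomial.IsRoot, hT]
    simp
  rw [← heq] at haT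
  obtain ⟨x, hx, hxa⟩ := Finset.mem_image.1 haT
  exact ⟨x, y x, hpt x hx, hxa⟩

end FieldLemmas

end BSD5
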