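import Pool.Agent.BSD5.Qr
import Pool.Agent.BSD5.Ident
import Pool.Agent.BSD5.InjAux

/-!
# Injectivity of the Kummer map
-/

namespace BSD5

section Maps

variable {R S : Type*} [CommRing R] [CommRing S] (f : R →+* S)

lemma injAux_map_FF (i t x y : R) : f (FF i t x y) = FF (f i) (f t) (f x) (f y) := by
  simp only [FF, map_add, map_sub, map_mul, map_pow, map_one, map_ofNat]

lemma injAux_map_MM (i t x y : R) : f (MM i t x y) = MM (f i) (f t) (f x) (f y) := by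
  simp only [MM, map_add, map_sub, map_mul, map_pow, map_one, map_ofNat]

lemma injAux_map_DD (i x : R) : f (DD i x) = DD (f i) (f x) := by
  simp only [DD, map_add, map_sub, map_mul, map_pow, map_one, map_ofNat]

lemma injAux_map_AA (i x : R) : f (AA i x) = AA (f i) (f x) := by
  simp only [AA, map_add, map_sub, map_mul, map_pow, map_one, map_ofNat]

end Maps

/-- If `F(P)` is a fifth power in `K(θ)` then `P = [1 + 2i] R` with `R` rational over `K`
(on `x`-coordinates; the points with `Y = 0` are excluded).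

Proof. Write `F(P) = a⁵`, `a ≠ 0`. Work in `Ω = AlgebraicClosure L`, put `k = 1 + 2i`,
`A = x² - k`, `D = k x² - 1`, `U = x² + (2-2i) x + 1`, `V = x² - (2-2i) x + 1`.
(1) The polynomial `q(x) = x A² - X D²` (degree 5, monic) has five distinct roots in `Ω`: at a root
`D ≠ 0` (else `x A² = 0`, impossible with `D = 0`), and as `(X - 1) D² = (x - 1) U²`,
`(X + 1) D² = (x + 1) V²` also `A, U, V ≠ 0` because `Y ≠ 0`; and
`D q'(x) = A (A D + 2x (A' D - A D')) = k A U V` at a root (`A'D` etc.: `A D + 4x²D - 4k x² A = k U V`).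
(2) For a root `x_j` put `y_j = Y D³ / (A U V)`; then `y_j² = x_j³ - x_j`, `X = x A²/D²`,
`Y = y A U V / D³` and `g_j := G(x_j, y_j) / D(x_j)` satisfies `g_j⁵ = F(P) = a⁵` (`FF_isog`).
(3) With `H = M(P) / (1 + t² X)`: `g_j³ = H · (G^τ(x_j,y_j) / D)` (`GG_cube`) and `a³ = H · τ(a)`
(both sides have the same fifth power by `FF_cube`, and `μ₅(L) = 1`), and the same with `t` replaced
by `i^k t`. (The identities hold for `t, it, -t, -it`.)
(4) `j ↦ g_j` is injective: if `g_j = g_l` then by (3) `G^{τ^k} / D` agree for `k = 0,1,2,3`, so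
their components (in `t⁰ .. t³`): `xy/D`, `x/D`, `y/D`, `(i x² + 1)/D` agree, hence `y` and `x` agree
(`x, y ≠ 0` as `Y ≠ 0`). So `{g_j}` are all five roots of `T⁵ = a⁵` and some `g_j = a`.
(5) Then the components of `G(x_j, y_j)/D = a = a₀ + a₁ t + a₂ t² + a₃ t³` and of its conjugates give
`x y / D = a₁`, `-(1-i) x / D = a₂`, `y / D = a₃` in `K` and so `x, y ∈ K`. -/
theorem exists_preimage {K L : Type*} [Field K] [CharZero K] [Field L] [Algebra K L] (Q : Qr K L)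
    (h5 : ∀ z : L, z ^ 5 = 1 → z = 1) {X Y : K} (hE : Y ^ 2 = X ^ 3 - X) (hY : Y ≠ 0)
    (h : Is5 (FF Q.j Q.t (algebraMap K L X) (algebraMap K L Y))) :
    ∃ x y : K, y ^ 2 = x ^ 3 - x ∧ DD Q.i x ≠ 0 ∧ X * DD Q.i x ^ 2 = x * AA Q.i x ^ 2 := by
  classical
  have : CharZero L := charZero_of_injective_algebraMap (algebraMap K L).injective
  obtain ⟨a, ha⟩ := h
  set XL := algebraMap K L X with hXL
  set YL := algebraMap K L Y with hYL
  have hj := Q.hj
  have ht : Q.t ^ 4 = 1 - 2 * Q.j := Q.ht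
  have hEL : YL ^ 2 = XL ^ 3 - XL := by
    rw [hXL, hYL, ← map_pow, hE, map_sub, map_pow]
  have hm : 1 - Q.t ^ 2 * XL ≠ 0 := by
    intro h
    have h1 : X = 0 := by
      apply Q.tsq_not_mem X 1
      rw [map_one]
      linear_combination -h
    rw [hXL, h1] at h
    simp at h
  have hp : 1 + Q.t ^ 2 * XL ≠ 0 := by
    intro h
    have h1 : X = 0 := by
      apply Q.tsq_not_mem X (-1)
      rw [map_neg, map_one]
      linear_combination h
    rw [hXL, h1] at h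
    simp at h
  have ht1 := injAux_it hj ht
  have ht2 := injAux_it hj ht1
  have hm1 : 1 - (Q.j * Q.t) ^ 2 * XL ≠ 0 := by rw [injAux_it2 hj]; convert hp using 1; ring
  have hp1 : 1 + (Q.j * Q.t) ^ 2 * XL ≠ 0 := by rw [injAux_it2 hj]; convert hm using 1; ring
  have hm2 : 1 - (Q.j * (Q.j * Q.t)) ^ 2 * XL ≠ 0 := by
    rw [injAux_it2 hj]; convert hp1 using 1; ring
  have hp2 : 1 + (Q.j * (Q.j * Q.t)) ^ 2 * XL ≠ 0 := by
    rw [injAux_it2 hj]; convert hm1 using 1; ring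
  have M0 := injAux_MM_ne hj ht hEL hm hp
  have M1 := injAux_MM_ne hj ht1 hEL hm1 hp1
  have M2 := injAux_MM_ne hj ht2 hEL hm2 hp2
  have hF0 := injAux_FF_ne hj ht hEL hm
  have ha0 : a ≠ 0 := by
    rintro rfl
    apply hF0
    rw [ha]; ring
  have hτX : Q.τ XL = XL := Q.τ_ι X
  have hτY : Q.τ YL = YL := Q.τ_ι Y
  -- the relation between `a` and `τ a`
  have r0 : a ^ 3 * (1 + Q.t ^ 2 * XL) = Q.τ a * MM Q.j Q.t XL YL := by
    have e1 := FF_cube hj ht hEL
    have e2 : FF Q.j (Q.j * Q.t) XL YL = Q.τ a ^ 5 := by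
      have := congrArg Q.τ ha
      rw [show Q.τ (FF Q.j Q.t XL YL) = FF (Q.τ Q.j) (Q.τ Q.t) (Q.τ XL) (Q.τ YL) from
        injAux_map_FF (Q.τ : L →+* L) _ _ _ _, Q.τ_j, Q.τ_t, hτX, hτY, map_pow] at this
      exact this
    rw [ha, e2] at e1
    have hne : Q.τ a * MM Q.j Q.t XL YL ≠ 0 := mul_ne_zero (by simpa using ha0) M0
    have e3 : (a ^ 3 * (1 + Q.t ^ 2 * XL) / (Q.τ a * MM Q.j Q.t XL YL)) ^ 5 = 1 := by
      rw [div_pow, div_eq_one_iff_eq (pow_ne_zero _ hne)]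
      linear_combination e1
    exact (div_eq_one_iff_eq hne).1 (h5 _ e3)
  have r1 : Q.τ a ^ 3 * (1 + (Q.j * Q.t) ^ 2 * XL) = Q.τ (Q.τ a) * MM Q.j (Q.j * Q.t) XL YL := by
    have := congrArg Q.τ r0
    rw [map_mul, map_mul, show Q.τ (MM Q.j Q.t XL YL) = MM (Q.τ Q.j) (Q.τ Q.t) (Q.τ XL) (Q.τ YL) from
        injAux_map_MM (Q.τ : L →+* L) _ _ _ _, map_add, map_mul, map_pow, map_pow, map_one, Q.τ_j,
        Q.τ_t, hτX, hτY] at this
    exact this
  have r2 : Q.τ (Q.τ a) ^ 3 * (1 + (Q.j * (Q.j * Q.t)) ^ 2 * XL)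
      = Q.τ (Q.τ (Q.τ a)) * MM Q.j (Q.j * (Q.j * Q.t)) XL YL := by
    have := congrArg Q.τ r1
    rw [map_mul, map_mul, show Q.τ (MM Q.j (Q.j * Q.t) XL YL)
        = MM (Q.τ Q.j) (Q.τ (Q.j * Q.t)) (Q.τ XL) (Q.τ YL) from
        injAux_map_MM (Q.τ : L →+* L) _ _ _ _, map_add, map_mul, map_pow, map_pow, map_one, map_mul,
        Q.τ_j, Q.τ_t, hτX, hτY] at this
    exact this
  -- coordinates of `a` and its conjugates
  set a0 := Q.c0 a
  set a1 := Q.c1 a
  set a2 := Q.c2 a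
  set a3 := Q.c3 a
  have s0 : a = algebraMap K L a0 + algebraMap K L a1 * Q.t + algebraMap K L a2 * Q.t ^ 2
    + algebraMap K L a3 * Q.t ^ 3 := Q.eq a
  have s1 : Q.τ a = algebraMap K L a0 + algebraMap K L a1 * (Q.j * Q.t)
      + algebraMap K L a2 * (Q.j * Q.t) ^ 2 + algebraMap K L a3 * (Q.j * Q.t) ^ 3 := by
    have := congrArg Q.τ s0
    simpa only [map_add, map_mul, map_pow, Q.τ_ι, Q.τ_t] using this
  have s2 : Q.τ (Q.τ a) = algebraMap K L a0 + algebraMap K L a1 * (Q.j * (Q.j * Q.t))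
      + algebraMap K L a2 * (Q.j * (Q.j * Q.t)) ^ 2
      + algebraMap K L a3 * (Q.j * (Q.j * Q.t)) ^ 3 := by
    have := congrArg Q.τ s1
    simpa only [map_add, map_mul, map_pow, Q.τ_ι, Q.τ_t, Q.τ_j] using this
  have s3 : Q.τ (Q.τ (Q.τ a)) = algebraMap K L a0 + algebraMap K L a1 * (Q.j * (Q.j * (Q.j * Q.t)))
      + algebraMap K L a2 * (Q.j * (Q.j * (Q.j * Q.t))) ^ 2
      + algebraMap K L a3 * (Q.j * (Q.j * (Q.j * Q.t))) ^ 3 := by
    have := congrArg Q.τ s2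
    simpa only [map_add, map_mul, map_pow, Q.τ_ι, Q.τ_t, Q.τ_j] using this
  -- go to the algebraic closure
  let Ω := AlgebraicClosure L
  let ι : L →+* Ω := algebraMap L Ω
  have : CharZero Ω := charZero_of_injective_algebraMap (algebraMap L Ω).injective
  let κ : K →+* Ω := ι.comp (algebraMap K L)
  have hιinj : Function.Injective ι := ι.injective
  have hi' : ι Q.j ^ 2 = -1 := by rw [← map_pow, hj, map_neg, map_one]
  have ht' : ι Q.t ^ 4 = 1 - 2 * ι Q.j := by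
    rw [← map_pow, ht, map_sub, map_one, map_mul, map_ofNat]
  have ht0' : ι Q.t ≠ 0 := by simpa using Q.t_ne_zero
  have hE' : ι YL ^ 2 = ι XL ^ 3 - ι XL := by rw [← map_pow, hEL, map_sub, map_pow]
  have hY' : ι YL ≠ 0 := by
    simpa [hYL] using hY
  have hm' : 1 - ι Q.t ^ 2 * ι XL ≠ 0 := by
    have : ι (1 - Q.t ^ 2 * XL) ≠ 0 := by
      intro h; exact hm ((map_eq_zero ι).1 h)
    rwa [map_sub, map_mul, map_pow, map_one] at this
  have hp' : 1 + ι Q.t ^ 2 * ι XL ≠ 0 := by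
    have : ι (1 + Q.t ^ 2 * XL) ≠ 0 := by
      intro h; exact hp ((map_eq_zero ι).1 h)
    rwa [map_add, map_mul, map_pow, map_one] at this
  have ha' : FF (ι Q.j) (ι Q.t) (ι XL) (ι YL) = ι a ^ 5 := by
    rw [← injAux_map_FF, ha, map_pow]
  obtain ⟨x, y, hpt, hg0⟩ := injAux_exists hi' ht' ht0' hE' hY' hm' hp' ha'
  have ht1' := injAux_it hi' ht'
  have ht2' := injAux_it hi' ht1'
  have M0' : MM (ι Q.j) (ι Q.t) (ι XL) (ι YL) ≠ 0 := by
    rw [← injAux_map_MM]; intro h; exact M0 ((map_eq_zero ι).1 h)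
  have M1' : MM (ι Q.j) (ι Q.j * ι Q.t) (ι XL) (ι YL) ≠ 0 := by
    rw [← map_mul, ← injAux_map_MM]; intro h; exact M1 ((map_eq_zero ι).1 h)
  have M2' : MM (ι Q.j) (ι Q.j * (ι Q.j * ι Q.t)) (ι XL) (ι YL) ≠ 0 := by
    rw [← map_mul, ← map_mul, ← injAux_map_MM]; intro h; exact M2 ((map_eq_zero ι).1 h)
  have hg1 : GG (ι Q.j) (ι Q.j * ι Q.t) x y / DD (ι Q.j) x = ι (Q.τ a) := by
    refine injAux_step hi' ht' M0' hpt ?_ hg0
    have := congrArg ι r0
    rw [map_mul, map_mul, injAux_map_MM, map_add, map_mul, map_pow, map_pow, map_one] at this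
    exact this
  have hg2 : GG (ι Q.j) (ι Q.j * (ι Q.j * ι Q.t)) x y / DD (ι Q.j) x = ι (Q.τ (Q.τ a)) := by
    refine injAux_step hi' ht1' M1' hpt ?_ hg1
    have := congrArg ι r1
    rw [map_mul, map_mul, injAux_map_MM, map_add, map_mul, map_pow, map_pow, map_one, map_mul]
      at this
    exact this
  have hg3 : GG (ι Q.j) (ι Q.j * (ι Q.j * (ι Q.j * ι Q.t))) x y / DD (ι Q.j) x
      = ι (Q.τ (Q.τ (Q.τ a))) := by
    refine injAux_step hi' ht2' M2' hpt ?_ hg2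
    have := congrArg ι r2
    rw [map_mul, map_mul, injAux_map_MM, map_add, map_mul, map_pow, map_pow, map_one, map_mul,
      map_mul] at this
    exact this
  rw [injAux_expand] at hg0 hg1 hg2 hg3
  have hκ : ∀ z, ι (algebraMap K L z) = κ z := fun z => rfl
  rw [s0] at hg0
  rw [s1] at hg1
  rw [s2] at hg2
  rw [s3] at hg3
  simp only [map_add, map_mul, map_pow, hκ] at hg0 hg1 hg2 hg3
  have hD := hpt.dd
  obtain ⟨_, d1, _, d3⟩ := injAux_dft (i := ι Q.j) (t := ι Q.t) hi' ht0'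
    (b0 := -(ι Q.j * x ^ 2 + 1) / DD (ι Q.j) x - κ a0)
    (b1 := x * y / DD (ι Q.j) x - κ a1)
    (b2 := -(1 - ι Q.j) * x / DD (ι Q.j) x - κ a2)
    (b3 := y / DD (ι Q.j) x - κ a3)
    (by linear_combination hg0) (by linear_combination hg1) (by linear_combination hg2)
    (by linear_combination hg3)
  have d3' : y / DD (ι Q.j) x = κ a3 := sub_eq_zero.1 d3
  have d1' : x * y / DD (ι Q.j) x = κ a1 := sub_eq_zero.1 d1
  have ha3 : κ a3 ≠ 0 := by
    rw [← d3']; exact div_ne_zero hpt.ne hD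
  have hx : x = κ (a1 / a3) := by
    rw [map_div₀, eq_div_iff ha3, ← d3', ← d1']; ring
  have hij : ι Q.j = κ Q.i := rfl
  have hDK : DD (ι Q.j) x = κ (DD Q.i (a1 / a3)) := by
    rw [injAux_map_DD, hx, hij]
  have hAK : AA (ι Q.j) x = κ (AA Q.i (a1 / a3)) := by
    rw [injAux_map_AA, hx, hij]
  have hy : y = κ (a3 * DD Q.i (a1 / a3)) := by
    rw [map_mul, ← hDK, ← d3', div_mul_cancel₀ _ hD]
  refine ⟨a1 / a3, a3 * DD Q.i (a1 / a3), ?_, ?_, ?_⟩
  · apply κ.injective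
    rw [map_pow, ← hy, map_sub, map_pow, ← hx]
    exact hpt.curve
  · intro h
    apply hD
    rw [hDK, h, map_zero]
  · apply κ.injective
    rw [map_mul, map_pow, map_mul, map_pow, ← hDK, ← hAK, ← hx]
    exact hpt.hX

end BSD5
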