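import Pool.Agent.BSD5.Points
import Pool.Agent.BSD5.Inj

/-!
# Finiteness of the group of points over good fields
-/

namespace BSD5

open NumberField IsDedekindDomain WithZero CFT

section

variable {K : Type*} [Field K] [NumberField K]

open MvPolynomial Height in
/-- the rational function `x (x² - k)² / (k x² - 1)²` multiplies heights by five -/
lemma height_rat {k : K} (hk : k ^ 2 - 1 ≠ 0) : ∃ C : ℝ, ∀ x X : K, k * x ^ 2 - 1 ≠ 0 →
    X * (k * x ^ 2 - 1) ^ 2 = x * (x ^ 2 - k) ^ 2 →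
    5 * logHeight₁ x ≤ logHeight₁ X + C := by
  let p : Fin 2 → MvPolynomial (Fin 2) K := ![X 0 ^ 5 - C (2 * k) * X 0 ^ 3 * X 1 ^ 2 +
      C (k ^ 2) * X 0 * X 1 ^ 4,
    C (k ^ 2) * X 0 ^ 4 * X 1 - C (2 * k) * X 0 ^ 2 * X 1 ^ 3 + X 1 ^ 5]
  let b0 : K := 2 * k ^ 3 * (k ^ 2 - 2) / (k ^ 2 - 1) ^ 3
  let b1 : K := k ^ 4 * (3 - k ^ 2) / (k ^ 2 - 1) ^ 3
  let a1 : K := 2 * k - k ^ 2 * (2 * k ^ 3 * (k ^ 2 - 2) / (k ^ 2 - 1) ^ 3)
  let a2 : K := - (k ^ 2 * (3 - k ^ 2) / (k ^ 2 - 1) ^ 3)
  let q' : Fin 2 → Fin 2 → MvPolynomial (Fin 2) K :=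
    ![![C 1 * X 0 ^ 4 * X 1 ^ 0 + (C a1 * X 0 ^ 2 * X 1 ^ 2 + C a2 * X 0 ^ 0 * X 1 ^ 4),
        C b0 * X 0 ^ 3 * X 1 ^ 1 + C b1 * X 0 ^ 1 * X 1 ^ 3],
      ![C b0 * X 0 ^ 1 * X 1 ^ 3 + C b1 * X 0 ^ 3 * X 1 ^ 1,
        C 1 * X 0 ^ 0 * X 1 ^ 4 + (C a1 * X 0 ^ 2 * X 1 ^ 2 + C a2 * X 0 ^ 4 * X 1 ^ 0)]]
  let q : Fin 2 × Fin 2 → MvPolynomial (Fin 2) K := fun a => q' a.1 a.2
  have hmon : ∀ (c : K) (a b : ℕ), a + b = 4 →
      (C c * X 0 ^ a * X 1 ^ b : MvPolynomial (Fin 2) K).IsHomogeneous 4 := by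
    intro c a b hab
    have h1 : (C c * X 0 ^ a * X 1 ^ b : MvPolynomial (Fin 2) K).IsHomogeneous (0 + a + b) :=
      ((isHomogeneous_C _ c).mul (isHomogeneous_X_pow 0 a)).mul (isHomogeneous_X_pow 1 b)
    rwa [zero_add, hab] at h1
  have hq : ∀ a, (q a).IsHomogeneous 4 := by
    rintro ⟨i, j⟩
    fin_cases i <;> fin_cases j
    · exact (hmon _ _ _ (by norm_num)).add ((hmon _ _ _ (by norm_num)).add (hmon _ _ _ (by norm_num)))
    · exact (hmon _ _ _ (by norm_num)).add (hmon _ _ _ (by norm_num))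
    · exact (hmon _ _ _ (by norm_num)).add (hmon _ _ _ (by norm_num))
    · exact (hmon _ _ _ (by norm_num)).add ((hmon _ _ _ (by norm_num)).add (hmon _ _ _ (by norm_num)))
  obtain ⟨c, hc⟩ := logHeight_eval_ge' (N := 5) hq
  refine ⟨-c, fun x Y hD hx => ?_⟩
  have h1 := hc p (x := ![x, 1]) (by
    intro l
    fin_cases l
    · simp [q, q', p, b0, b1, a1, a2]
      field_simp
      ring
    · simp [q, q', p, b0, b1, a1, a2]
      field_simp
      ring)
  have h2 : Y = (p 0).eval ![x, 1] / (p 1).eval ![x, 1] := by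
    have e0 : (p 0).eval ![x, 1] = x * (x ^ 2 - k) ^ 2 := by simp [p]; ring
    have e1 : (p 1).eval ![x, 1] = (k * x ^ 2 - 1) ^ 2 := by simp [p]; ring
    rw [e0, e1, eq_div_iff (pow_ne_zero 2 hD)]
    exact hx
  have h3 : logHeight₁ Y = logHeight (fun j => (p j).eval ![x, 1]) := by
    rw [h2, logHeight₁_div_eq_logHeight]
    congr 1
    ext j
    fin_cases j <;> rfl
  rw [h3, logHeight₁_eq_logHeight]
  have h4 : ((5 : ℕ) : ℝ) = 5 := by norm_num
  rw [h4] at h1
  linarith

/-- abstract descent: a set on which every element has a preimage of much smaller height is finite -/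
lemma finite_of_preimage {A : Type*} (S : Set A) (R : A → A) (h : A → ℝ)
    (hfin : ∀ B : ℝ, {a | h a ≤ B}.Finite) (C : ℝ)
    (hpre : ∀ a ∈ S, ∃ b ∈ S, R b = a ∧ 5 * h b ≤ h a + C) : S.Finite := by
  classical
  have hpre' : ∀ a : S, ∃ b : S, R b.1 = a.1 ∧ 5 * h b.1 ≤ h a.1 + C := by
    rintro ⟨a, ha⟩
    obtain ⟨b, hb, h1, h2⟩ := hpre a ha
    exact ⟨⟨b, hb⟩, h1, h2⟩
  choose f hf hfh using hpre'
  set T : Set A := {a | h a ≤ C / 4 + 1} with hT
  have hTf : T.Finite := hfin _
  have key : ∀ a : S, ∃ s ∈ T, (∃ m, 0 < m ∧ R^[m] s = s) ∧ ∃ n, R^[n] s = a.1 := by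
    intro a
    have hR : ∀ n : ℕ, ∀ b : S, R^[n] (f^[n] b).1 = b.1 := by
      intro n
      induction n with
      | zero => intro b; rfl
      | succ n ih =>
        intro b
        rw [Function.iterate_succ_apply' f, Function.iterate_succ_apply, hf]
        exact ih b
    have hbd : ∀ n : ℕ, h (f^[n] a).1 - C / 4 ≤ (h a.1 - C / 4) / 5 ^ n := by
      intro n
      induction n with
      | zero => simp
      | succ n ih =>
        rw [Function.iterate_succ_apply']
        have h1 := hfh (f^[n] a)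
        have h2 : (h a.1 - C / 4) / 5 ^ (n + 1) = (h a.1 - C / 4) / 5 ^ n / 5 := by
          rw [pow_succ]; field_simp
        rw [h2]
        linarith
    obtain ⟨N, hN⟩ : ∃ N : ℕ, |h a.1 - C / 4| < 5 ^ N := by
      obtain ⟨N, hN⟩ := exists_nat_gt |h a.1 - C / 4|
      refine ⟨N, hN.trans_le ?_⟩
      have : (N : ℝ) < 5 ^ N := by exact_mod_cast (Nat.lt_pow_self (by norm_num : 1 < 5))
      exact this.le
    have hmem : ∀ n : ℕ, (f^[N + n] a).1 ∈ T := by
      intro n
      rw [hT]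
      change h (f^[N + n] a).1 ≤ C / 4 + 1
      have h1 := hbd (N + n)
      have h2 : (h a.1 - C / 4) / 5 ^ (N + n) ≤ 1 := by
        rw [div_le_one (by positivity)]
        calc h a.1 - C / 4 ≤ |h a.1 - C / 4| := le_abs_self _
          _ ≤ 5 ^ N := hN.le
          _ ≤ 5 ^ (N + n) := pow_le_pow_right₀ (by norm_num) (by omega)
      linarith
    obtain ⟨n, m, hnm, he⟩ : ∃ n m : ℕ, n < m ∧ (f^[N + n] a).1 = (f^[N + m] a).1 := by
      by_contra hcon
      push Not at hcon
      have hinj : Function.Injective (fun n : ℕ => (f^[N + n] a).1) := by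
        intro n m h1
        rcases lt_trichotomy n m with h2 | h2 | h2
        · exact absurd h1 (hcon n m h2)
        · exact h2
        · exact absurd h1.symm (hcon m n h2)
      exact Set.infinite_of_injective_forall_mem hinj hmem hTf
    refine ⟨(f^[N + n] a).1, hmem n, ⟨m - n, by omega, ?_⟩, ⟨N + n, hR _ _⟩⟩
    have h3 := hR (m - n) (f^[N + n] a)
    rw [← Function.iterate_add_apply, show m - n + (N + n) = N + m by omega, ← he] at h3
    exact h3
  have hcov : S ⊆ ⋃ s ∈ (hTf.toFinset.filter (fun s => ∃ m, 0 < m ∧ R^[m] s = s) :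
      Finset A), {b | ∃ n, R^[n] s = b} := by
    intro a ha
    obtain ⟨s, hs, hs1, hs2⟩ := key ⟨a, ha⟩
    simp only [Set.mem_iUnion]
    exact ⟨s, by simp [hs, hs1], hs2⟩
  have hfinU : (⋃ s ∈ (hTf.toFinset.filter (fun s => ∃ m, 0 < m ∧ R^[m] s = s) :
      Finset A), {b | ∃ n, R^[n] s = b}).Finite := by
    apply Set.Finite.biUnion (Finset.finite_toSet _)
    intro s hs
    have hs' : ∃ m, 0 < m ∧ R^[m] s = s := by
      simp only [Finset.coe_filter, Set.mem_ofPred_eq] at hs
      exact hs.2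
    obtain ⟨m, hm, hms⟩ := hs'
    apply (Set.toFinite ((fun j => R^[j] s) '' (Finset.range m : Set ℕ))).subset
    rintro b ⟨n, rfl⟩
    refine ⟨n % m, by simpa using Nat.mod_lt _ hm, ?_⟩
    have hper : Function.IsPeriodicPt R m s := hms
    exact (hper.iterate_mod_apply n)
  exact hfinU.subset hcov

/-- The rational function `x (x² - k)² / (k x² - 1)²`, `k = 1 + 2i`, of degree five multiplies heights
by five up to a constant (Mathlib's height lower bound for morphisms of `ℙ¹`, see `height_double` in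
`BSD/FinitePts.lean`; cofactors: find `a, b` homogeneous of degree 4 with
`a · X (X² - kZ²)² + b · Z (kX² - Z²)² = c Z⁹` and similarly for `X⁹`; the resultant of the two
quintic forms is a unit times a power of two). -/
theorem height_isog {i : K} (hi : i ^ 2 = -1) : ∃ C : ℝ, ∀ x X : K, DD i x ≠ 0 →
    X * DD i x ^ 2 = x * AA i x ^ 2 → 5 * Height.logHeight₁ x ≤ Height.logHeight₁ X + C := by
  have hk : (1 + 2 * i) ^ 2 - 1 ≠ 0 := by
    intro h
    have h1 : i * (1 + i) = 0 := by
      have : (4 : K) * (i * (1 + i)) = 0 := by linear_combination h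
      simpa using this
    rcases mul_eq_zero.1 h1 with h2 | h2
    · rw [h2] at hi; norm_num at hi
    · have h3 : i = -1 := by linear_combination h2
      rw [h3] at hi
      norm_num at hi
  exact height_rat hk

end

universe u

/-- Over a good field there are only finitely many points: `Qr.exists` (with `exists_place`),
`Qr.mu5`, `FF_sel`, triviality of the Selmer group, `exists_preimage`, `height_isog`, Northcott. -/
theorem finite_points {K : Type u} [Field K] [NumberField K] {i : K} (hi : i ^ 2 = -1)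
    (hG : Good.{u, u} K i) : {P : K × K | P.2 ^ 2 = P.1 ^ 3 - P.1}.Finite := by
  classical
  obtain ⟨⟨v, hv⟩, ⟨v', hv'⟩⟩ := exists_place K i hi
  have hv1 := hG.five v hv
  have hv1' := hG.five' v' hv'
  obtain ⟨L, _, _, _, Q, hQ⟩ := Qr.exists K i hi v hv1
  subst hQ
  have h5 : ∀ z : L, z ^ 5 = 1 → z = 1 := fun z hz => Q.mu5 v' hv1' z hz
  obtain ⟨C, hC⟩ := height_isog (K := K) hi
  -- the set of abscissas
  set S : Set K := {X | ∃ Y : K, Y ^ 2 = X ^ 3 - X} with hS
  have hSf : S.Finite := by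
    refine finite_of_preimage S (fun x => x * AA Q.i x ^ 2 / DD Q.i x ^ 2) Height.logHeight₁
      (NumberField.finite_setOfPred_logHeight₁_le K) C ?_
    rintro X ⟨Y, hE⟩
    have main : ∃ x y : K, y ^ 2 = x ^ 3 - x ∧ DD Q.i x ≠ 0 ∧
        X * DD Q.i x ^ 2 = x * AA Q.i x ^ 2 := by
      by_cases hY : Y = 0
      · have h2i : 2 * Q.i ≠ 0 := by
          intro h
          have h0 : Q.i = 0 := by simpa using h
          rw [h0] at hi; norm_num at hi
        have hX : X = 0 ∨ X = 1 ∨ X = -1 := by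
          have h1 : X * ((X - 1) * (X + 1)) = 0 := by
            rw [hY] at hE; linear_combination -hE
          rcases mul_eq_zero.1 h1 with h | h
          · exact Or.inl h
          · rcases mul_eq_zero.1 h with h | h
            · exact Or.inr (Or.inl (by linear_combination h))
            · exact Or.inr (Or.inr (by linear_combination h))
        refine ⟨X, Y, hE, ?_, ?_⟩
        · rcases hX with rfl | rfl | rfl
          · simp [DD]
          · simp only [DD]
            intro h; apply h2i; linear_combination h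
          · simp only [DD]
            intro h; apply h2i; linear_combination h
        · rcases hX with rfl | rfl | rfl
          · simp
          · simp only [DD, AA]; ring
          · simp only [DD, AA]; ring
      · have hsel := FF_sel Q (fun v => hG.two v) (fun v => hG.five v) hE
        exact exists_preimage Q h5 hE hY (hG.triv L Q rfl _ hsel)
    obtain ⟨x, y, hxy, hD, hx⟩ := main
    refine ⟨x, ⟨y, hxy⟩, ?_, hC x X hD hx⟩
    rw [div_eq_iff (pow_ne_zero 2 hD)]
    exact hx.symm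
  -- finitely many points
  have hsub : {P : K × K | P.2 ^ 2 = P.1 ^ 3 - P.1} ⊆
      ⋃ X ∈ (hSf.toFinset : Finset K), (fun Y : K => (X, Y)) '' {Y | Y ^ 2 = X ^ 3 - X} := by
    rintro ⟨X, Y⟩ hP
    have hP' : Y ^ 2 = X ^ 3 - X := hP
    simp only [Set.mem_iUnion]
    exact ⟨X, by simpa using ⟨Y, hP'⟩, Y, hP', rfl⟩
  refine Set.Finite.subset ?_ hsub
  apply Set.Finite.biUnion (Finset.finite_toSet _)
  intro X _
  apply Set.Finite.image
  by_cases hne : ({Y | Y ^ 2 = X ^ 3 - X} : Set K).Nonempty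
  · obtain ⟨Y0, hY0⟩ := hne
    apply (Set.toFinite ({Y0, -Y0} : Set K)).subset
    intro Y hY
    have h1 : Y ^ 2 = Y0 ^ 2 := by
      have a1 : Y ^ 2 = X ^ 3 - X := hY
      have a2 : Y0 ^ 2 = X ^ 3 - X := hY0
      rw [a1, a2]
    rcases sq_eq_sq_iff_eq_or_eq_neg.1 h1 with h | h
    · left; exact h
    · right; exact h
  · rw [Set.not_nonempty_iff_eq_empty.1 hne]
    exact Set.finite_empty

end BSD5
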