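import Pool.Agent.BSD5.Decomp
import Pool.Agent.BSD5.Ident

/-!
# The Kummer image of points lies in the Selmer group
-/

namespace BSD5

open NumberField IsDedekindDomain WithZero CFT

section Field

variable {K L : Type*} [Field K] [Field L] [CharZero K] [Algebra K L] (Q : Qr K L)

omit [CharZero K] in
lemma pt_one_sub_tsq_ne (X : K) : 1 - Q.t ^ 2 * algebraMap K L X ≠ 0 := by
  intro h
  have h1 : algebraMap K L X * Q.t ^ 2 = algebraMap K L 1 := by
    rw [map_one]; linear_combination -h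
  have h2 := Q.tsq_not_mem X 1 h1
  rw [h2, map_zero, mul_zero, sub_zero] at h
  exact one_ne_zero h

omit [CharZero K] in
lemma pt_one_add_tsq_ne (X : K) : 1 + Q.t ^ 2 * algebraMap K L X ≠ 0 := by
  have h := pt_one_sub_tsq_ne Q (-X)
  rwa [map_neg, mul_neg, sub_neg_eq_add] at h

omit [CharZero K] in
lemma pt_map_curve {X Y : K} (hE : Y ^ 2 = X ^ 3 - X) :
    (algebraMap K L Y) ^ 2 = (algebraMap K L X) ^ 3 - algebraMap K L X := by
  rw [← map_pow, hE, map_sub, map_pow]

/-- From `FF_mul_neg` (`F · τ²F = (1 - θ² X)⁵`) and `θ² ∉ K`. -/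
theorem FF_ne_zero {X Y : K} (hE : Y ^ 2 = X ^ 3 - X) :
    FF Q.j Q.t (algebraMap K L X) (algebraMap K L Y) ≠ 0 := by
  intro h
  have h1 := FF_mul_neg Q.hj Q.ht (pt_map_curve (L := L) hE)
  rw [h, zero_mul] at h1
  exact pt_one_sub_tsq_ne Q X (pow_eq_zero_iff (by norm_num) |>.1 h1.symm)

omit [CharZero K] in
lemma τ_FF (X Y : K) : Q.τ (FF Q.j Q.t (algebraMap K L X) (algebraMap K L Y))
    = FF Q.j (Q.j * Q.t) (algebraMap K L X) (algebraMap K L Y) := by
  simp only [FF, map_add, map_sub, map_mul, map_pow, map_one, map_ofNat, Q.τ_t, Q.τ_ι]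

/-- The eigenvalue condition, from `FF_cube`. Also `H := M / (1 + θ² X)`. -/
theorem FF_eig {X Y : K} (hE : Y ^ 2 = X ^ 3 - X) :
    ∃ y : L, Q.τ (FF Q.j Q.t (algebraMap K L X) (algebraMap K L Y))
      = FF Q.j Q.t (algebraMap K L X) (algebraMap K L Y) ^ 3 * y ^ 5 := by
  have h1 := FF_cube Q.hj Q.ht (pt_map_curve (L := L) hE)
  have hM : MM Q.j Q.t (algebraMap K L X) (algebraMap K L Y) ≠ 0 := by
    intro h
    rw [h, zero_pow (by norm_num), mul_zero] at h1
    rcases mul_eq_zero.1 h1 with h2 | h2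
    · exact FF_ne_zero Q hE (pow_eq_zero_iff (by norm_num) |>.1 h2)
    · exact pt_one_add_tsq_ne Q X (pow_eq_zero_iff (by norm_num) |>.1 h2)
  refine ⟨(1 + Q.t ^ 2 * algebraMap K L X) / MM Q.j Q.t (algebraMap K L X) (algebraMap K L Y), ?_⟩
  rw [τ_FF, div_pow, ← mul_div_assoc, h1, mul_div_assoc, div_self (pow_ne_zero _ hM), mul_one]

end Field

section Val

variable {L : Type*} [Field L] (v : Valuation L ℤᵐ⁰)

lemma pt_two_le : v 2 ≤ 1 := by
  have : v ((1 : L) + 1) ≤ 1 := v.map_add_le (by rw [map_one]) (by rw [map_one])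
  rwa [one_add_one_eq_two] at this

lemma pt_val_j {j : L} (hj : j ^ 2 = -1) : v j = 1 := by
  have h : v j ^ 2 = 1 := by rw [← map_pow, hj, Valuation.map_neg, map_one]
  rcases lt_trichotomy (v j) 1 with h1 | h1 | h1
  · exact absurd h (pow_lt_one' h1 (by norm_num)).ne
  · exact h1
  · exact absurd h (one_lt_pow₀ h1 (by norm_num)).ne'

lemma pt_one_add_j_le {j : L} (hj : j ^ 2 = -1) : v (1 + j) ≤ 1 :=
  v.map_add_le (by rw [map_one]) (by rw [pt_val_j v hj])

/-- the valuations of a point with `v x > 1` -/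
lemma pt_val_point {x y : L} (hE : y ^ 2 = x ^ 3 - x) (hx : 1 < v x) :
    ∃ k : ℤ, 0 < k ∧ v x = exp (2 * k) ∧ v y = exp (3 * k) := by
  have hx0 : x ≠ 0 := by rintro rfl; simp at hx
  have hvx : v x ≠ 0 := (Valuation.ne_zero_iff v).2 hx0
  have h1 : v (x ^ 3 - x) = v x ^ 3 := by
    have h2 : v x < v (x ^ 3) := by
      rw [map_pow]
      calc v x = v x * 1 := (mul_one _).symm
        _ < v x * (v x) ^ 2 := by
            apply mul_lt_mul_of_pos_left (one_lt_pow₀ hx (by norm_num)) (zero_lt_iff.2 hvx)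
        _ = v x ^ 3 := (pow_succ' _ _).symm
    rw [Valuation.map_sub_eq_of_lt_left v h2, map_pow]
  have h3 : v y ^ 2 = v x ^ 3 := by rw [← map_pow, hE, h1]
  have hvy : v y ≠ 0 := by
    intro h
    rw [h, zero_pow (by norm_num)] at h3
    exact pow_ne_zero 3 hvx h3.symm
  obtain ⟨a, ha⟩ : ∃ a : ℤ, v x = exp a := ⟨log (v x), (exp_log hvx).symm⟩
  obtain ⟨b, hb⟩ : ∃ b : ℤ, v y = exp b := ⟨log (v y), (exp_log hvy).symm⟩
  rw [ha, hb, ← exp_nsmul, ← exp_nsmul, exp_inj] at h3
  rw [ha, ← exp_zero, exp_lt_exp] at hx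
  simp only [nsmul_eq_mul, Nat.cast_ofNat] at h3
  refine ⟨b - a, by omega, ?_, ?_⟩
  · rw [ha]; congr 1; omega
  · rw [hb]; congr 1; omega

/-- the places prime to `2 θ` -/
lemma FF_div5_aux {j t x y : L} (hj : j ^ 2 = -1) (ht4 : t ^ 4 = 1 - 2 * j) (h2 : v 2 = 1)
    (ht : v t = 1) (hE : y ^ 2 = x ^ 3 - x) (hx0 : 1 - t ^ 2 * x ≠ 0) :
    ∃ m : ℤ, v (FF j t x y) = exp (5 * m) := by
  have hvj := pt_val_j v hj
  have hκ : v (1 - 2 * j) = 1 := by rw [← ht4, map_pow, ht, one_pow]
  have h1j := pt_one_add_j_le v hj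
  rcases le_or_gt (v x) 1 with hx | hx
  · -- integral case
    have hy : v y ≤ 1 := by
      by_contra hc
      rw [not_le] at hc
      have h3 : 1 < v (y ^ 2) := by rw [map_pow]; exact one_lt_pow₀ hc (by norm_num)
      rw [hE] at h3
      refine absurd h3 (not_lt.2 (v.map_sub_le ?_ hx))
      rw [map_pow]; exact pow_le_one' hx 3
    have hI : ∀ t' : L, v t' = 1 → v (FF j t' x y) ≤ 1 := by
      intro t' ht'
      simp only [FF]
      refine v.map_add_le (v.map_sub_le (v.map_sub_le (v.map_add_le ?_ ?_) ?_) ?_) ?_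
      all_goals simp only [map_mul, map_pow, map_one, ht', hκ, hvj, one_pow, mul_one, one_mul]
      · exact le_refl 1
      · exact mul_le_one' h1j hx
      · exact hy
      · exact pow_le_one' hx 2
      · exact mul_le_one' hx hy
    have hp := FF_mul_neg hj ht4 hE
    have hF := hI t ht
    have hF' := hI (-t) (by rw [Valuation.map_neg, ht])
    rcases hF.lt_or_eq with hl | he
    · rcases hF'.lt_or_eq with hl' | he'
      · exfalso
        have he5 : v (1 - t ^ 2 * x) < 1 := by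
          by_contra hc
          rw [not_lt] at hc
          have h5 : 1 ≤ v ((1 - t ^ 2 * x) ^ 5) := by
            rw [map_pow]; exact one_le_pow_of_one_le' hc 5
          rw [← hp, map_mul] at h5
          exact absurd h5 (not_le.2 (mul_lt_one' hl hl'))
        obtain ⟨e, he⟩ : ∃ e, e = 1 - t ^ 2 * x := ⟨_, rfl⟩
        rw [← he] at he5
        have hv2j : v (2 * j) = 1 := by rw [map_mul, h2, hvj, one_mul]
        have ha : t ^ 2 * (x - t ^ 2) = 2 * j - e := by rw [he]; linear_combination (-1) * ht4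
        have ha1 : v (x - t ^ 2) = 1 := by
          have h6 : v (t ^ 2 * (x - t ^ 2)) = 1 := by
            rw [ha, Valuation.map_sub_eq_of_lt_left v (by rw [hv2j]; exact he5), hv2j]
          rwa [map_mul, map_pow, ht, one_pow, one_mul] at h6
        have hb : t ^ 6 * y ^ 2 = 2 * j + e * (-3 + 3 * e - e ^ 2 + t ^ 4) := by
          rw [he, hE]; linear_combination (-1) * ht4
        have hb1 : v y = 1 := by
          have h7 : v (e * (-3 + 3 * e - e ^ 2 + t ^ 4)) < 1 := by
            rw [map_mul]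
            refine mul_lt_one_of_lt_of_le he5 ?_
            have h3 : v (3 : L) ≤ 1 := by
              have : v ((2 : L) + 1) ≤ 1 := v.map_add_le h2.le (by rw [map_one])
              norm_num at this ⊢
              exact this
            refine v.map_add_le (v.map_sub_le (v.map_add_le ?_ ?_) ?_) ?_
            · rw [Valuation.map_neg]; exact h3
            · rw [map_mul]; exact mul_le_one' h3 he5.le
            · rw [map_pow]; exact pow_le_one' he5.le 2
            · rw [map_pow, ht, one_pow]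
          have h8 : v (t ^ 6 * y ^ 2) = 1 := by
            rw [hb, Valuation.map_add_eq_of_lt_left v (by rw [hv2j]; exact h7), hv2j]
          rw [map_mul, map_pow, map_pow, ht, one_pow, one_mul] at h8
          rcases lt_trichotomy (v y) 1 with h9 | h9 | h9
          · exact absurd h8 (pow_lt_one' h9 (by norm_num)).ne
          · exact h9
          · exact absurd h8 (one_lt_pow₀ h9 (by norm_num)).ne'
        have hd : FF j t x y - FF j (-t) x y = 2 * (1 - 2 * j) * t * (y * (x - t ^ 2)) := by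
          simp only [FF]; ring
        have h10 : v (FF j t x y - FF j (-t) x y) = 1 := by
          rw [hd]; simp only [map_mul, h2, hκ, ht, hb1, ha1, one_mul]
        exact absurd h10 (v.map_sub_lt hl hl').ne
      · have h11 : v (FF j t x y) = v (1 - t ^ 2 * x) ^ 5 := by
          rw [← map_pow, ← hp, map_mul, he', mul_one]
        have hne : v (1 - t ^ 2 * x) ≠ 0 := (Valuation.ne_zero_iff v).2 hx0
        refine ⟨log (v (1 - t ^ 2 * x)), ?_⟩
        rw [h11]
        conv_lhs => rw [← exp_log hne]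
        rw [← exp_nsmul]
        simp
    · exact ⟨0, by rw [he]; simp⟩
  · obtain ⟨k, hk, h1, h3⟩ := pt_val_point v hE hx
    refine ⟨k, ?_⟩
    have hm : v ((1 - 2 * j) * t * x * y) = exp (5 * k) := by
      rw [map_mul, map_mul, map_mul, hκ, ht, one_mul, one_mul, h1, h3, ← exp_add]
      congr 1; ring
    have hr : v (1 + (1 + j) * (1 - 2 * j) * t ^ 2 * x - (1 - 2 * j) * t ^ 3 * y
        - j * (1 - 2 * j) ^ 2 * x ^ 2) < exp (5 * k) := by
      refine v.map_sub_lt (v.map_sub_lt (v.map_add_lt ?_ ?_) ?_) ?_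
      · rw [map_one, ← exp_zero, exp_lt_exp]; omega
      · simp only [map_mul, map_pow, ht, hκ, one_pow, mul_one]
        refine lt_of_le_of_lt (mul_le_of_le_one_left' h1j) ?_
        rw [h1, exp_lt_exp]; omega
      · simp only [map_mul, map_pow, ht, hκ, one_pow, mul_one, one_mul]
        rw [h3, exp_lt_exp]; omega
      · simp only [map_mul, map_pow, hκ, hvj, one_pow, mul_one, one_mul]
        rw [h1, ← exp_nsmul, exp_lt_exp]; simp; omega
    rw [FF, Valuation.map_add_eq_of_lt_right v (by rw [hm]; exact hr), hm]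

/-- the places above `θ` -/
lemma FF_loc_aux {j t x y : L} {c : ℤ} (hj : j ^ 2 = -1) (ht4 : t ^ 4 = 1 - 2 * j)
    (ht : v t = exp (-c)) (hc : 1 ≤ c) (hE : y ^ 2 = x ^ 3 - x)
    (hx : v x ≤ 1 ∨ ∃ k : ℤ, 1 ≤ k ∧ v x = exp (8 * c * k) ∧ v y = exp (12 * c * k)) :
    ∃ z : L, v (FF j t x y * z ^ 5 - 1) ≤ exp (-5 : ℤ) := by
  have hvj := pt_val_j v hj
  have hκ : v (1 - 2 * j) = exp (-4 * c) := by
    rw [← ht4, map_pow, ht, ← exp_nsmul]; congr 1; simp
  have h1j := pt_one_add_j_le v hj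
  rcases hx with hx | ⟨k, hk, h1, h3⟩
  · have hy : v y ≤ 1 := by
      by_contra hc
      rw [not_le] at hc
      have h3 : 1 < v (y ^ 2) := by rw [map_pow]; exact one_lt_pow₀ hc (by norm_num)
      rw [hE] at h3
      refine absurd h3 (not_lt.2 (v.map_sub_le ?_ hx))
      rw [map_pow]; exact pow_le_one' hx 3
    have hκt : v ((1 - 2 * j) * t) ≤ exp (-5) := by
      rw [map_mul, hκ, ht, ← exp_add, exp_le_exp]; omega
    have ht1 : v t ≤ 1 := by rw [ht, ← exp_zero, exp_le_exp]; omega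
    refine ⟨1, ?_⟩
    have he : FF j t x y * 1 ^ 5 - 1 = (1 - 2 * j) * t *
        ((1 + j) * t * x - t ^ 2 * y - j * t ^ 3 * x ^ 2 + x * y) := by
      simp only [FF]
      linear_combination (j * (1 - 2 * j) * x ^ 2) * ht4
    rw [he, map_mul]
    refine le_trans (mul_le_of_le_one_right' ?_) hκt
    refine v.map_add_le (v.map_sub_le (v.map_sub_le ?_ ?_) ?_) ?_
    all_goals simp only [map_mul, map_pow]
    · exact mul_le_one' (mul_le_one' h1j ht1) hx
    · exact mul_le_one' (pow_le_one' ht1 2) hy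
    · exact mul_le_one' (mul_le_one' hvj.le (pow_le_one' ht1 3)) (pow_le_one' hx 2)
    · exact mul_le_one' hx hy
  · have hck : 1 ≤ c * k := by nlinarith
    have hx0 : x ≠ 0 := by
      rintro rfl
      rw [map_zero] at h1
      exact exp_ne_zero h1.symm
    have hy0 : y ≠ 0 := by
      rintro rfl
      rw [map_zero] at h3
      exact exp_ne_zero h3.symm
    have ht0 : t ≠ 0 := by
      rintro rfl
      rw [map_zero] at ht
      exact exp_ne_zero ht.symm
    refine ⟨x / (y * t), ?_⟩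
    -- `F z⁵ = (1 + r) (1 + s)`
    obtain ⟨r, hr⟩ : ∃ r, r = 1 / (t ^ 5 * x * y) + (1 + j) * t / y - t ^ 2 / x
        - j * t ^ 3 * x / y := ⟨_, rfl⟩
    obtain ⟨s, hs⟩ : ∃ s, s = x ^ 6 / y ^ 4 - 1 := ⟨_, rfl⟩
    have hF : FF j t x y = t ^ 5 * x * y * (1 + r) := by
      rw [hr]
      field_simp
      simp only [FF]
      linear_combination (-((1 + j) * t ^ 2 * x - t ^ 3 * y - j * (1 - 2 * j) * x ^ 2
        + t * x * y - j * x ^ 2 * t ^ 4)) * ht4
    have hprod : FF j t x y * (x / (y * t)) ^ 5 - 1 = r + s + r * s := by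
      have : FF j t x y * (x / (y * t)) ^ 5 = (1 + r) * (1 + s) := by
        rw [hF, hs]
        field_simp
        ring
      rw [this]; ring
    have hvr : v r ≤ exp (-5) := by
      rw [hr]
      refine v.map_sub_le (v.map_sub_le (v.map_add_le ?_ ?_) ?_) ?_
      · rw [one_div, map_inv₀, map_mul, map_mul, map_pow, ht, h1, h3, ← exp_nsmul, ← exp_add,
          ← exp_add, ← exp_neg, exp_le_exp]
        simp only [nsmul_eq_mul, Nat.cast_ofNat]
        nlinarith
      · rw [mul_div_assoc, map_mul]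
        refine le_trans (mul_le_of_le_one_left' h1j) ?_
        rw [map_div₀, ht, h3, ← exp_sub, exp_le_exp]
        nlinarith
      · rw [map_div₀, map_pow, ht, h1, ← exp_nsmul, ← exp_sub, exp_le_exp]
        simp only [nsmul_eq_mul, Nat.cast_ofNat]
        nlinarith
      · simp only [map_mul, map_div₀, map_pow, hvj, one_mul, ht, h1, h3, ← exp_nsmul, ← exp_add,
          ← exp_sub, exp_le_exp, nsmul_eq_mul, Nat.cast_ofNat]
        nlinarith
    have hvs : v s ≤ exp (-5) := by
      -- `s (1 - x⁻²)² = 2 x⁻² - x⁻⁴`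
      obtain ⟨q, hq⟩ : ∃ q, q = (x ^ 2)⁻¹ := ⟨_, rfl⟩
      have hvq : v q = exp (-(16 * (c * k))) := by
        rw [hq, map_inv₀, map_pow, h1, ← exp_nsmul, ← exp_neg]
        congr 1; simp; ring
      have hqx : q * x ^ 2 = 1 := by rw [hq]; exact inv_mul_cancel₀ (pow_ne_zero 2 hx0)
      have hy4 : y ^ 4 = x ^ 6 * (1 - q) ^ 2 := by
        have : y ^ 4 = (y ^ 2) ^ 2 := by ring
        rw [this, hE]
        linear_combination (-2 * x ^ 4 + x ^ 4 * q + x ^ 2) * hqx * (-1)
      have hq1 : v (1 - q) = 1 := by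
        rw [Valuation.map_sub_eq_of_lt_left v, map_one]
        rw [map_one, hvq, ← exp_zero, exp_lt_exp]; omega
      have hs' : s * (1 - q) ^ 2 = q * (2 - q) := by
        have h4 : y ^ 4 ≠ 0 := pow_ne_zero 4 hy0
        have h6 : x ^ 6 ≠ 0 := pow_ne_zero 6 hx0
        have h5 : x ^ 6 / y ^ 4 * (1 - q) ^ 2 = 1 := by
          have hq0 : 1 - q ≠ 0 := (Valuation.ne_zero_iff v).1 (by rw [hq1]; exact one_ne_zero)
          rw [hy4] at h4 ⊢
          field_simp
        rw [hs, sub_mul, h5]; ring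
      have : v s = v (q * (2 - q)) := by
        rw [← hs', map_mul, map_pow, hq1, one_pow, mul_one]
      rw [this, map_mul]
      refine le_trans (mul_le_of_le_one_right' ?_) (by rw [hvq, exp_le_exp]; omega)
      refine v.map_sub_le (pt_two_le v) ?_
      rw [hvq, ← exp_zero, exp_le_exp]; omega
    rw [hprod]
    refine v.map_add_le (v.map_add_le hvr hvs) ?_
    rw [map_mul]
    refine le_trans (mul_le_of_le_one_left' (le_trans hvr ?_)) hvs
    rw [← exp_zero, exp_le_exp]; omega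

end Val

variable {K L : Type*} [Field K] [NumberField K] [Field L] [NumberField L] [Algebra K L]
  (Q : Qr K L)

/-- Places prime to `2 θ`. If `w(X) < 0` then `w(X) = -2k`, `w(Y) = -3k`, `w(F) = w(XY) = -5k`. If
`w(X) ≥ 0` then `F` and `τ²F` are integral with product `(1 - θ² X)⁵`, and they are not both
divisible by `w`: their sum and difference are `2 (1 + (1+i)κ θ² X - iκ² X²)` and
`2 κ θ Y (X - θ²)` (`κ = 1 - 2i = θ⁴`); if `w` divides them and `1 - θ² X`, i.e. `X ≡ θ⁻²`, then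
`Y² ≡ 2i θ⁻⁶` and `X - θ² ≡ 2i θ⁻²` are units. -/
theorem FF_div5 (w : HeightOneSpectrum (𝓞 L)) (h2 : w.valuation L 2 = 1)
    (ht : w.valuation L Q.t = 1) {X Y : K} (hE : Y ^ 2 = X ^ 3 - X) :
    Div5 w (FF Q.j Q.t (algebraMap K L X) (algebraMap K L Y)) :=
  FF_div5_aux (w.valuation L) Q.hj Q.ht h2 ht (pt_map_curve hE) (pt_one_sub_tsq_ne Q X)

/-- Places above `θ`. If `w(X) ≥ 0` then `F ≡ 1` modulo `κ θ = θ⁵` (also `w(Y) ≥ 0`). If
`w(X) < 0`: as `v(X)`, `v` the place below, is even and `w = 4 v` on `K` (`v(2 + i) = 1`,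
`w(θ) = 1`), `w(X) = -8k`, `w(Y) = -12k`, `k ≥ 1`; then `F · (X / Y)⁵ / (κ θ) ≡ 1` modulo `θ⁵`
(`X⁶ / Y⁴ = (1 - X⁻²)⁻²`), and `κ θ = θ⁵` is a fifth power. -/
theorem FF_loc (w : HeightOneSpectrum (𝓞 L)) (ht : w.valuation L Q.t < 1)
    (hv : (bl K L w).valuation K (2 + Q.i) = exp (-1 : ℤ)) {X Y : K} (hE : Y ^ 2 = X ^ 3 - X) :
    Loc w (FF Q.j Q.t (algebraMap K L X) (algebraMap K L Y)) := by
  obtain ⟨e, he, h⟩ := val_bl_pow K w
  have hκ : (bl K L w).valuation K (1 - 2 * Q.i) = exp (-1 : ℤ) := by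
    have h1 : (1 : K) - 2 * Q.i = -Q.i * (2 + Q.i) := by linear_combination Q.hi
    rw [h1, map_mul, Valuation.map_neg, pt_val_j _ Q.hi, one_mul, hv]
  have hκL : w.valuation L (1 - 2 * Q.j) = exp (-(e : ℤ)) := by
    have h1 := h (1 - 2 * Q.i)
    rw [hκ, map_sub, map_one, map_mul, map_ofNat, ← exp_nsmul] at h1
    rw [← h1]; congr 1; simp
  have ht0 : w.valuation L Q.t ≠ 0 := (Valuation.ne_zero_iff _).2 Q.t_ne_zero
  obtain ⟨a, ha⟩ : ∃ a : ℤ, w.valuation L Q.t = exp a := ⟨log _, (exp_log ht0).symm⟩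
  have ha1 : a < 0 := by
    rw [ha, ← exp_zero, exp_lt_exp] at ht; exact ht
  have ha4 : 4 * a = -(e : ℤ) := by
    have h1 : w.valuation L Q.t ^ 4 = exp (-(e : ℤ)) := by rw [← map_pow, Q.ht, hκL]
    rw [ha, ← exp_nsmul, exp_inj] at h1
    simpa using h1
  refine FF_loc_aux (w.valuation L) (c := -a) Q.hj Q.ht (by rw [ha, neg_neg]) (by omega)
    (pt_map_curve hE) ?_
  rcases le_or_gt ((bl K L w).valuation K X) 1 with hX | hX
  · left
    rw [← h]; exact pow_le_one' hX e
  · right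
    obtain ⟨k, hk, h1, h3⟩ := pt_val_point _ hE hX
    refine ⟨k, by omega, ?_, ?_⟩
    · rw [← h, h1, ← exp_nsmul]
      congr 1
      simp only [nsmul_eq_mul]
      have : (e : ℤ) = -(4 * a) := by omega
      rw [this]; ring
    · rw [← h, h3, ← exp_nsmul]
      congr 1
      simp only [nsmul_eq_mul]
      have : (e : ℤ) = -(4 * a) := by omega
      rw [this]; ring

theorem FF_sel (h2 : ∀ v : HeightOneSpectrum (𝓞 K), v.valuation K (1 + Q.i) < 1 →
      v.valuation K (1 + Q.i) = exp (-1 : ℤ))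
    (h5 : ∀ v : HeightOneSpectrum (𝓞 K), v.valuation K (2 + Q.i) < 1 →
      v.valuation K (2 + Q.i) = exp (-1 : ℤ)) {X Y : K} (hE : Y ^ 2 = X ^ 3 - X) :
    Q.Sel (FF Q.j Q.t (algebraMap K L X) (algebraMap K L Y)) := by
  refine ⟨FF_ne_zero Q hE, FF_eig Q hE, ?_, ?_⟩
  · intro w ht
    rcases (pt_two_le (w.valuation L)).lt_or_eq with hl | he
    · refine div5_two Q w hl (h2 _ ?_) (FF_ne_zero Q hE) (FF_eig Q hE)
      rw [val_bl_lt_one]
      have h1 : (algebraMap K L (1 + Q.i)) ^ 2 = 2 * Q.j := by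
        rw [map_add, map_one]; linear_combination Q.hj
      have h3 : w.valuation L (algebraMap K L (1 + Q.i)) ^ 2 < 1 := by
        rw [← map_pow, h1, map_mul, pt_val_j _ Q.hj, mul_one]; exact hl
      by_contra hc
      rw [not_lt] at hc
      exact absurd h3 (not_lt.2 (one_le_pow_of_one_le' hc 2))
    · exact FF_div5 Q w he ht hE
  · intro w ht
    refine FF_loc Q w ht (h5 _ ?_) hE
    rw [val_bl_lt_one]
    have h1 : algebraMap K L (2 + Q.i) = Q.j * Q.t ^ 4 := by
      rw [Q.ht, map_add, map_ofNat]; linear_combination 2 * Q.hj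
    rw [h1, map_mul, pt_val_j _ Q.hj, one_mul, map_pow]
    exact pow_lt_one' ht (by norm_num)

end BSD5
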