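import Mathlib

/-!
# The quartic extension `K(θ)`, `θ⁴ = 1 - 2i`, and the Selmer condition

`E : y² = x³ - x`; `T = (θ⁻², (1+i) θ⁻³)` is a point of order five (killed by `2 + i`).
-/

namespace BSD5

open NumberField IsDedekindDomain WithZero

/-- `L = K ⊕ K t ⊕ K t² ⊕ K t³` with `t⁴ = 1 - 2 i`, `i² = -1`. -/
structure Qr (K L : Type*) [Field K] [Field L] [Algebra K L] where
  i : K
  hi : i ^ 2 = -1
  t : L
  ht : t ^ 4 = 1 - 2 * algebraMap K L i
  c0 : L → K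
  c1 : L → K
  c2 : L → K
  c3 : L → K
  eq : ∀ x, x = algebraMap K L (c0 x) + algebraMap K L (c1 x) * t + algebraMap K L (c2 x) * t ^ 2
    + algebraMap K L (c3 x) * t ^ 3
  c0_mk : ∀ a b c d, c0 (algebraMap K L a + algebraMap K L b * t + algebraMap K L c * t ^ 2
    + algebraMap K L d * t ^ 3) = a
  c1_mk : ∀ a b c d, c1 (algebraMap K L a + algebraMap K L b * t + algebraMap K L c * t ^ 2
    + algebraMap K L d * t ^ 3) = b
  c2_mk : ∀ a b c d, c2 (algebraMap K L a + algebraMap K L b * t + algebraMap K L c * t ^ 2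
    + algebraMap K L d * t ^ 3) = c
  c3_mk : ∀ a b c d, c3 (algebraMap K L a + algebraMap K L b * t + algebraMap K L c * t ^ 2
    + algebraMap K L d * t ^ 3) = d

namespace Qr

variable {K L : Type*} [Field K] [Field L] [Algebra K L] (Q : Qr K L)

/-- the element with given coordinates -/
def el (a b c d : K) : L := algebraMap K L a + algebraMap K L b * Q.t + algebraMap K L c * Q.t ^ 2
    + algebraMap K L d * Q.t ^ 3

lemma el_coord (x : L) : Q.el (Q.c0 x) (Q.c1 x) (Q.c2 x) (Q.c3 x) = x := (Q.eq x).symm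

lemma c0_mk' (a b c d : K) : Q.c0 (Q.el a b c d) = a := Q.c0_mk a b c d
lemma c1_mk' (a b c d : K) : Q.c1 (Q.el a b c d) = b := Q.c1_mk a b c d
lemma c2_mk' (a b c d : K) : Q.c2 (Q.el a b c d) = c := Q.c2_mk a b c d
lemma c3_mk' (a b c d : K) : Q.c3 (Q.el a b c d) = d := Q.c3_mk a b c d

lemma el_inj {a b c d a' b' c' d' : K} (h : Q.el a b c d = Q.el a' b' c' d') :
    a = a' ∧ b = b' ∧ c = c' ∧ d = d' := by
  refine ⟨?_, ?_, ?_, ?_⟩
  · rw [← Q.c0_mk' a b c d, h, Q.c0_mk']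
  · rw [← Q.c1_mk' a b c d, h, Q.c1_mk']
  · rw [← Q.c2_mk' a b c d, h, Q.c2_mk']
  · rw [← Q.c3_mk' a b c d, h, Q.c3_mk']

/-- the image of `i` -/
abbrev j : L := algebraMap K L Q.i

lemma hj : Q.j ^ 2 = -1 := by rw [j, ← map_pow, Q.hi, map_neg, map_one]

lemma el_mul (a b c d a' b' c' d' : K) : Q.el a b c d * Q.el a' b' c' d'
    = Q.el (a * a' + (1 - 2 * Q.i) * (b * d' + c * c' + d * b'))
      (a * b' + b * a' + (1 - 2 * Q.i) * (c * d' + d * c'))
      (a * c' + b * b' + c * a' + (1 - 2 * Q.i) * (d * d'))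
      (a * d' + b * c' + c * b' + d * a') := by
  simp only [el, map_add, map_mul, map_sub, map_one, map_ofNat]
  linear_combination (algebraMap K L b * algebraMap K L d' + algebraMap K L c * algebraMap K L c'
    + algebraMap K L d * algebraMap K L b' + (algebraMap K L c * algebraMap K L d'
    + algebraMap K L d * algebraMap K L c') * Q.t
    + algebraMap K L d * algebraMap K L d' * Q.t ^ 2) * Q.ht

lemma el_add (a b c d a' b' c' d' : K) : Q.el a b c d + Q.el a' b' c' d'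
    = Q.el (a + a') (b + b') (c + c') (d + d') := by
  simp only [el, map_add]
  ring

lemma t_eq : Q.t = Q.el 0 1 0 0 := by simp [el]

lemma algebraMap_eq (a : K) : algebraMap K L a = Q.el a 0 0 0 := by simp [el]

/-- the automorphism `t ↦ i t` -/
def τ : L ≃ₐ[K] L where
  toFun x := Q.el (Q.c0 x) (Q.i * Q.c1 x) (-Q.c2 x) (-Q.i * Q.c3 x)
  invFun x := Q.el (Q.c0 x) (-Q.i * Q.c1 x) (-Q.c2 x) (Q.i * Q.c3 x)
  left_inv x := by
    conv_rhs => rw [← Q.el_coord x]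
    simp only [Q.c0_mk', Q.c1_mk', Q.c2_mk', Q.c3_mk']
    have h := Q.hi
    congr 1
    · linear_combination (-Q.c1 x) * h
    · ring
    · linear_combination (-Q.c3 x) * h
  right_inv x := by
    conv_rhs => rw [← Q.el_coord x]
    simp only [Q.c0_mk', Q.c1_mk', Q.c2_mk', Q.c3_mk']
    have h := Q.hi
    congr 1
    · linear_combination (-Q.c1 x) * h
    · ring
    · linear_combination (-Q.c3 x) * h
  map_mul' x y := by
    have h := Q.hi
    conv_lhs => rw [← Q.el_coord x, ← Q.el_coord y]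
    rw [Q.el_mul, Q.el_mul]
    simp only [Q.c0_mk', Q.c1_mk', Q.c2_mk', Q.c3_mk']
    congr 1
    · linear_combination (-(1 - 2 * Q.i) * (-(Q.c1 x * Q.c3 y) - Q.c3 x * Q.c1 y)) * h
    · ring
    · linear_combination ((Q.c1 x * Q.c1 y * (-1)) - (1 - 2 * Q.i) * (Q.c3 x * Q.c3 y)) * h
    · ring
  map_add' x y := by
    conv_lhs => rw [← Q.el_coord x, ← Q.el_coord y]
    rw [Q.el_add, Q.el_add]
    simp only [Q.c0_mk', Q.c1_mk', Q.c2_mk', Q.c3_mk']
    congr 1 <;> ring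
  commutes' a := by
    rw [Q.algebraMap_eq]
    simp only [Q.c0_mk', Q.c1_mk', Q.c2_mk', Q.c3_mk']
    congr 1 <;> ring

lemma τ_el (a b c d : K) : Q.τ (Q.el a b c d) = Q.el a (Q.i * b) (-c) (-Q.i * d) := by
  change Q.el (Q.c0 (Q.el a b c d)) (Q.i * Q.c1 (Q.el a b c d)) (-Q.c2 (Q.el a b c d))
    (-Q.i * Q.c3 (Q.el a b c d)) = _
  rw [Q.c0_mk', Q.c1_mk', Q.c2_mk', Q.c3_mk']

lemma τ_t : Q.τ Q.t = Q.j * Q.t := by
  conv_lhs => rw [Q.t_eq]
  rw [Q.τ_el]
  simp [el, j]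

lemma τ_ι (a : K) : Q.τ (algebraMap K L a) = algebraMap K L a := Q.τ.commutes a

lemma τ_j : Q.τ Q.j = Q.j := Q.τ.commutes _

lemma ττ_el (a b c d : K) : Q.τ (Q.τ (Q.el a b c d)) = Q.el a (-b) c (-d) := by
  have h := Q.hi
  rw [Q.τ_el, Q.τ_el]
  congr 1
  · linear_combination b * h
  · ring
  · linear_combination d * h

lemma ττ_t : Q.τ (Q.τ Q.t) = -Q.t := by
  conv_lhs => rw [Q.t_eq]
  rw [Q.ττ_el]
  simp [el]

lemma ττττ (x : L) : Q.τ (Q.τ (Q.τ (Q.τ x))) = x := by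
  conv_rhs => rw [← Q.el_coord x]
  conv_lhs => rw [← Q.el_coord x]
  rw [Q.ττ_el, Q.ττ_el]
  congr 1 <;> ring

lemma mem_of_τ [CharZero K] {x : L} (h : Q.τ x = x) : ∃ a : K, algebraMap K L a = x := by
  have h0 : Q.el (Q.c0 x) (Q.i * Q.c1 x) (-Q.c2 x) (-Q.i * Q.c3 x)
      = Q.el (Q.c0 x) (Q.c1 x) (Q.c2 x) (Q.c3 x) := by
    rw [Q.el_coord]; exact h
  obtain ⟨_, h1, h2, h3⟩ := Q.el_inj h0
  have hi := Q.hi
  have e1 : Q.c1 x = 0 := by
    have : (2 : K) * Q.c1 x = 0 := by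
      linear_combination (-(Q.i + 1)) * h1 + Q.c1 x * hi
    simpa using this
  have e2 : Q.c2 x = 0 := by
    have : (2 : K) * Q.c2 x = 0 := by linear_combination -h2
    simpa using this
  have e3 : Q.c3 x = 0 := by
    have : (2 : K) * Q.c3 x = 0 := by
      linear_combination (Q.i - 1) * h3 + Q.c3 x * hi
    simpa using this
  refine ⟨Q.c0 x, ?_⟩
  conv_rhs => rw [← Q.el_coord x, e1, e2, e3]
  exact Q.algebraMap_eq _

lemma t_ne_zero : Q.t ≠ 0 := by
  intro h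
  have h1 := Q.t_eq
  rw [h] at h1
  have h2 : Q.el 0 0 0 0 = Q.el 0 1 0 0 := by rw [← h1]; simp [el]
  exact one_ne_zero (Q.el_inj h2).2.1.symm

lemma one_sub_ne_zero : (1 : L) - 2 * Q.j ≠ 0 := by
  rw [← Q.ht]
  exact pow_ne_zero _ Q.t_ne_zero

lemma t_not_mem (a : K) : algebraMap K L a ≠ Q.t := by
  intro h
  rw [Q.algebraMap_eq, Q.t_eq] at h
  exact one_ne_zero (Q.el_inj h).2.1.symm

lemma tsq_not_mem (a b : K) (h : algebraMap K L a * Q.t ^ 2 = algebraMap K L b) : a = 0 := by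
  have h1 : Q.el 0 0 a 0 = Q.el b 0 0 0 := by
    simpa [el] using h
  exact (Q.el_inj h1).2.2.1

end Qr

/-- fifth powers -/
def Is5 {L : Type*} [Field L] (x : L) : Prop := ∃ y : L, x = y ^ 5

lemma Is5.mul {L : Type*} [Field L] {x y : L} (hx : Is5 x) (hy : Is5 y) : Is5 (x * y) := by
  obtain ⟨a, rfl⟩ := hx
  obtain ⟨b, rfl⟩ := hy
  exact ⟨a * b, by ring⟩

lemma Is5.pow5 {L : Type*} [Field L] (x : L) : Is5 (x ^ 5) := ⟨x, rfl⟩

lemma Is5.inv {L : Type*} [Field L] {x : L} (hx : Is5 x) : Is5 x⁻¹ := by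
  obtain ⟨a, rfl⟩ := hx
  exact ⟨a⁻¹, by rw [inv_pow]⟩

lemma Is5.pow {L : Type*} [Field L] {x : L} (hx : Is5 x) (n : ℕ) : Is5 (x ^ n) := by
  obtain ⟨a, rfl⟩ := hx
  exact ⟨a ^ n, by ring⟩

/-- the valuation is divisible by five -/
def Div5 {L : Type*} [Field L] [NumberField L] (w : HeightOneSpectrum (𝓞 L)) (x : L) : Prop :=
  ∃ m : ℤ, w.valuation L x = exp (5 * m)

/-- the local condition at a prime above `2 + i` -/
def Loc {L : Type*} [Field L] [NumberField L] (w : HeightOneSpectrum (𝓞 L)) (x : L) : Prop :=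
  ∃ z : L, w.valuation L (x * z ^ 5 - 1) ≤ exp (-5 : ℤ)

/-- the Selmer condition -/
structure Qr.Sel {K L : Type*} [Field K] [Field L] [Algebra K L] [NumberField L] (Q : Qr K L)
    (x : L) : Prop where
  ne_zero : x ≠ 0
  eig : ∃ y : L, Q.τ x = x ^ 3 * y ^ 5
  val : ∀ w : HeightOneSpectrum (𝓞 L), w.valuation L Q.t = 1 → Div5 w x
  loc : ∀ w : HeightOneSpectrum (𝓞 L), w.valuation L Q.t < 1 → Loc w x

universe u v

/-- the Selmer group of the field `K` is trivial -/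
def TrivSel (K : Type u) [Field K] [NumberField K] (i : K) : Prop :=
  ∀ (L : Type v) [Field L] [NumberField L] [Algebra K L] (Q : Qr K L), Q.i = i → ∀ x : L,
    Q.Sel x → Is5 x

/-- good fields: unramified over `ℚ(i)` at `1 + i`, `2 + i`, `2 - i`, trivial Selmer group -/
structure Good (K : Type u) [Field K] [NumberField K] (i : K) : Prop where
  two : ∀ v : HeightOneSpectrum (𝓞 K), v.valuation K (1 + i) < 1 →
    v.valuation K (1 + i) = exp (-1 : ℤ)
  five : ∀ v : HeightOneSpectrum (𝓞 K), v.valuation K (2 + i) < 1 →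
    v.valuation K (2 + i) = exp (-1 : ℤ)
  five' : ∀ v : HeightOneSpectrum (𝓞 K), v.valuation K (2 - i) < 1 →
    v.valuation K (2 - i) = exp (-1 : ℤ)
  triv : TrivSel.{u, v} K i

/-- silent places: prime to ten and `1 - 2i` is not a fourth power modulo `v` -/
def Silent {K : Type*} [Field K] [NumberField K] (i : K) (v : HeightOneSpectrum (𝓞 K)) : Prop :=
  v.valuation K 10 = 1 ∧ ∀ a : K, 1 ≤ v.valuation K (a ^ 4 - (1 - 2 * i))

end BSD5
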