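import Pool.Agent.CFT.Norm

/-!
# Ramification indices through valuations
-/

namespace BSD5

open NumberField IsDedekindDomain WithZero CFT

section

variable {K L : Type*} [Field K] [NumberField K] [Field L] [NumberField L] [Algebra K L]

/-- the ramification index of a place -/
noncomputable def re (K : Type*) {L : Type*} [Field K] [NumberField K] [Field L] [NumberField L]
    [Algebra K L] (w : HeightOneSpectrum (𝓞 L)) : ℕ :=
  (bl K L w).asIdeal.ramificationIdx' w.asIdeal

lemma val_re (w : HeightOneSpectrum (𝓞 L)) (x : K) :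
    w.valuation L (algebraMap K L x) = (bl K L w).valuation K x ^ re K w := by
  have := bl_liesOver K L w
  exact (HeightOneSpectrum.valuation_liesOver L (bl K L w) w x).symm

lemma re_ne_zero (w : HeightOneSpectrum (𝓞 L)) : re K w ≠ 0 := by
  have := bl_liesOver K L w
  exact Ideal.IsDedekindDomain.ramificationIdx'_ne_zero_of_liesOver w.asIdeal (bl K L w).ne_bot

set_option linter.deprecated false in
/-- `e ≤ [L : K]` -/
lemma re_le (w : HeightOneSpectrum (𝓞 L)) : re K w ≤ Module.finrank K L := by
  have := w.isPrime
  have := bl_liesOver K L w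
  have : (bl K L w).asIdeal.IsMaximal := (bl K L w).isMaximal
  have : NoZeroSMulDivisors (𝓞 K) (𝓞 L) := by
    constructor
    intro c x h
    rw [Algebra.smul_def, mul_eq_zero,
      map_eq_zero_iff _ (FaithfulSMul.algebraMap_injective (𝓞 K) (𝓞 L))] at h
    exact h
  exact Ideal.ramificationIdx_le_finrank (𝓞 L) K L w.asIdeal

/-- a uniformizer below -/
lemma re_of_val (w : HeightOneSpectrum (𝓞 L)) {e : ℕ}
    (h : ∀ x : K, w.valuation L (algebraMap K L x) = (bl K L w).valuation K x ^ e) :
    re K w = e := by
  obtain ⟨z, hz⟩ := (bl K L w).valuation_surjective K (exp (-1 : ℤ))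
  have h1 := val_re (K := K) w z
  rw [h z, hz, ← exp_nsmul, ← exp_nsmul, exp_inj] at h1
  simp only [nsmul_eq_mul] at h1
  omega

lemma re_galois [IsGalois K L] {w w' : HeightOneSpectrum (𝓞 L)} (h : bl K L w = bl K L w') :
    re K w = re K w' := by
  have := w.isPrime
  have := w'.isPrime
  have := bl_liesOver K L w
  have : w'.asIdeal.LiesOver (bl K L w).asIdeal := by
    rw [h]
    exact bl_liesOver K L w'
  have h1 := Ideal.ramificationIdx'_eq_ramificationIdx (bl K L w).asIdeal w.asIdeal
    (bl K L w).ne_bot
  have h2 := Ideal.ramificationIdx'_eq_ramificationIdx (bl K L w).asIdeal w'.asIdeal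
    (bl K L w).ne_bot
  have h3 := Ideal.ramificationIdx_eq_of_isGaloisGroup (bl K L w).asIdeal w.asIdeal w'.asIdeal
    Gal(L/K)
  rw [re, re, ← h, h1, h2, h3]

end

lemma re_mul {K K' L' : Type*} [Field K] [Field K'] [Field L'] [NumberField K]
    [NumberField K'] [NumberField L'] [Algebra K K'] [Algebra K' L'] [Algebra K L']
    [IsScalarTower K K' L'] (w : HeightOneSpectrum (𝓞 L')) :
    re K (bl K' L' w) * re K' w = re K w := by
  symm
  apply re_of_val
  intro x
  rw [IsScalarTower.algebraMap_apply K K' L', val_re w (algebraMap K K' x),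
      val_re (bl K' L' w) x, bl_bl, pow_mul]

end BSD5
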