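import Pool.Agent.BSD5.Qr
import Pool.Agent.BSD.PrimeExt
import Pool.Agent.BSD.LocDescend

/-!
# Auxiliary lemmas for the quintic step
-/

namespace BSD5

open NumberField IsDedekindDomain WithZero

section H90

variable {K L : Type*} [Field K] [Field L] [Algebra K L] [FiniteDimensional K L] [IsGalois K L]

/-- Hilbert 90 for cyclic extensions -/
lemma exists_div_eq {σ : Gal(L/K)} (hσ : ∀ g, g ∈ Subgroup.zpowers σ) {x : L}
    (hx : Algebra.norm K x = 1) : ∃ y : Lˣ, (y : L) / σ y = x := by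
  classical
  set n := orderOf σ with hn
  have hn0 : 0 < n := orderOf_pos σ
  set c : ℕ → L := fun i => ∏ j ∈ Finset.range i, (σ ^ j) x with hc
  have hc0 : c 0 = 1 := by simp [hc]
  have hcs : ∀ i, x * σ (c i) = c (i + 1) := by
    intro i
    simp only [hc]
    rw [Finset.prod_range_succ', map_prod, pow_zero, AlgEquiv.one_apply, mul_comm]
    congr 1
    refine Finset.prod_congr rfl fun j _ => ?_
    rw [pow_succ', AlgEquiv.mul_apply]
  have hcn : c n = 1 := by
    have h1 : algebraMap K L (Algebra.norm K x) = ∏ g : Gal(L/K), g x :=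
      Algebra.norm_eq_prod_automorphisms K x
    rw [hx, map_one, ← IsCyclic.image_range_orderOf hσ, Finset.prod_image] at h1
    · exact h1.symm
    · intro a ha b hb hab
      exact pow_injOn_Iio_orderOf (by simpa using ha) (by simpa using hb) hab
  have hx0 : x ≠ 0 := by
    rintro rfl
    rw [Algebra.norm_zero] at hx
    exact zero_ne_one hx
  -- independence of characters
  let f : Fin n → (L →* L) := fun i => ((σ ^ (i : ℕ) : Gal(L/K)) : L →* L)
  have hf : Function.Injective f := by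
    intro i j hij
    have h1 : σ ^ (i : ℕ) = σ ^ (j : ℕ) := by
      apply AlgEquiv.ext
      intro z
      exact DFunLike.congr_fun hij z
    exact Fin.ext (pow_injOn_Iio_orderOf i.2 j.2 h1)
  have hli := (linearIndependent_monoidHom L L).comp f hf
  have hex : ∃ z : L, (∑ i : Fin n, c i * (σ ^ (i : ℕ)) z) ≠ 0 := by
    by_contra hall
    push Not at hall
    have h2 := Fintype.linearIndependent_iff.1 hli (fun i => c i) (by
      ext z
      simpa [f] using hall z) ⟨0, hn0⟩
    simp only [hc0] at h2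
    exact one_ne_zero h2
  obtain ⟨z, hz⟩ := hex
  set Y : L := ∑ i : Fin n, c i * (σ ^ (i : ℕ)) z with hY
  have hY' : Y = ∑ i ∈ Finset.range n, c i * (σ ^ i) z :=
    Fin.sum_univ_eq_sum_range (fun i => c i * (σ ^ i) z) n
  have hxY : x * σ Y = Y := by
    have h3 : x * σ Y = ∑ i ∈ Finset.range n, c (i + 1) * (σ ^ (i + 1)) z := by
      rw [hY', map_sum, Finset.mul_sum]
      refine Finset.sum_congr rfl fun i _ => ?_
      rw [map_mul, ← mul_assoc, hcs, pow_succ', AlgEquiv.mul_apply]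
    have h4 := Finset.sum_range_succ' (fun i => c i * (σ ^ i) z) n
    have h5 := Finset.sum_range_succ (fun i => c i * (σ ^ i) z) n
    rw [h5] at h4
    rw [hcn, hc0, hn, pow_orderOf_eq_one, ← hn, pow_zero] at h4
    rw [h3, hY']
    exact (add_right_cancel h4).symm
  have hσY : σ Y ≠ 0 := by
    intro h0
    exact hz (by rw [← hxY, h0, mul_zero])
  refine ⟨Units.mk0 Y hz, ?_⟩
  rw [Units.val_mk0, div_eq_iff hσY]
  exact hxY.symm

end H90

section

variable {L : Type*} [Field L] [NumberField L] (w : HeightOneSpectrum (𝓞 L))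

lemma five_le_one : w.valuation L (5 : L) ≤ 1 := BSD.val_ofNat_le w 5

lemma five_mem (h5 : w.valuation L (5 : L) < 1) : (5 : 𝓞 L) ∈ w.asIdeal := by
  have h : w.valuation L (algebraMap (𝓞 L) L (OfNat.ofNat 5)) < 1 ↔ _ :=
    w.valuation_lt_one_iff_mem _
  rw [map_ofNat] at h
  exact h.1 h5

/-- extraction of fifth roots modulo a prime above five -/
lemma exists_root5_mod (h5 : w.valuation L (5 : L) < 1) {u : L} (hu : w.valuation L u = 1) :
    ∃ a : L, w.valuation L a = 1 ∧ w.valuation L (u * a ^ 5 - 1) < 1 := by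
  set q := Nat.card (𝓞 L ⧸ w.asIdeal) with hq
  have hdvd : 5 ∣ q := by
    haveI := w.isPrime
    haveI : Finite (𝓞 L ⧸ w.asIdeal) := Ideal.finiteQuotientOfFreeOfNeBot _ w.ne_bot
    haveI : w.asIdeal.IsMaximal := w.isMaximal
    letI := Ideal.Quotient.field w.asIdeal
    letI := Fintype.ofFinite (𝓞 L ⧸ w.asIdeal)
    have h1 : ((Fintype.card (𝓞 L ⧸ w.asIdeal) : ℕ) : 𝓞 L ⧸ w.asIdeal) = 0 :=
      Nat.cast_card_eq_zero _
    have h3 : ((5 : ℕ) : 𝓞 L ⧸ w.asIdeal) = 0 := by
      have := Ideal.Quotient.eq_zero_iff_mem.2 (five_mem w h5)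
      rw [map_ofNat] at this
      exact_mod_cast this
    rw [hq, Nat.card_eq_fintype_card]
    by_contra hnd
    have hcop : Nat.Coprime 5 (Fintype.card (𝓞 L ⧸ w.asIdeal)) :=
      (Nat.Prime.coprime_iff_not_dvd (by norm_num)).2 hnd
    obtain ⟨a, b, hab⟩ := (Nat.isCoprime_iff_coprime.2 hcop)
    have h4 : ((a * ((5 : ℕ) : ℤ) + b * ((Fintype.card (𝓞 L ⧸ w.asIdeal) : ℕ) : ℤ) : ℤ)
        : 𝓞 L ⧸ w.asIdeal) = 1 := by rw [hab]; simp
    rw [Int.cast_add, Int.cast_mul, Int.cast_mul, Int.cast_natCast, Int.cast_natCast, h1, h3] at h4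
    simp at h4
  have hpos : 0 < q := by
    haveI : Finite (𝓞 L ⧸ w.asIdeal) := Ideal.finiteQuotientOfFreeOfNeBot _ w.ne_bot
    exact Nat.card_pos
  obtain ⟨k, hk⟩ := hdvd
  refine ⟨u ^ (4 * k - 1), by rw [map_pow, hu, one_pow], ?_⟩
  have h := BSD.val_pow_card w hu
  rw [← hq] at h
  have e1 : u * (u ^ (4 * k - 1)) ^ 5 = (u ^ (q - 1)) ^ 4 := by
    rw [← pow_mul, ← pow_succ', ← pow_mul]
    congr 1
    omega
  rw [e1]
  set v := u ^ (q - 1) with hv
  have hv1 : w.valuation L v = 1 := by rw [hv, map_pow, hu, one_pow]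
  have e2 : v ^ 4 - 1 = (v - 1) * (v ^ 3 + v ^ 2 + v + 1) := by ring
  rw [e2, map_mul]
  refine mul_lt_one_of_lt_of_le h ?_
  refine BSD.val_add_le w (BSD.val_add_le w (BSD.val_add_le w ?_ ?_) ?_) ?_
  · rw [map_pow, hv1, one_pow]
  · rw [map_pow, hv1, one_pow]
  · rw [hv1]
  · rw [map_one]

end

end BSD5
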