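import Pool.Agent.BSD5.Qr
import Pool.Agent.BSD5.StepAux
import Pool.Agent.CFT.Norm

/-!
# Triviality of the Selmer group goes up cyclic extensions of degree five
-/

namespace BSD5

open NumberField IsDedekindDomain WithZero CFT

/-- Compatible data for the step: `L = K(θ)`, `L' = K'(θ)`, `σ` a generator of `Gal(L'/L)` commuting
with `τ`. -/
structure StepData (K K' L L' : Type*) [Field K] [Field K'] [Field L] [Field L']
    [Algebra K K'] [Algebra K L] [Algebra L L'] [Algebra K' L'] [Algebra K L']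
    [IsScalarTower K K' L'] [IsScalarTower K L L'] where
  Q : Qr K L
  Q' : Qr K' L'
  hi : algebraMap K K' Q.i = Q'.i
  ht : algebraMap L L' Q.t = Q'.t
  σ : L' ≃ₐ[L] L'
  comm : ∀ x, σ (Q'.τ x) = Q'.τ (σ x)

namespace StepData

variable {K K' L L' : Type*} [Field K] [Field K'] [Field L] [Field L']
    [Algebra K K'] [Algebra K L] [Algebra L L'] [Algebra K' L'] [Algebra K L']
    [IsScalarTower K K' L'] [IsScalarTower K L L'] (S : StepData K K' L L')

lemma τ_compat (a : L) : S.Q'.τ (algebraMap L L' a) = algebraMap L L' (S.Q.τ a) := by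
  have hb : ∀ c : K, algebraMap L L' (algebraMap K L c) = algebraMap K' L' (algebraMap K K' c) :=
    fun c => by
      rw [← IsScalarTower.algebraMap_apply K L L', ← IsScalarTower.algebraMap_apply K K' L']
  have hj := S.Q'.hj
  rw [Qr.j, ← S.hi] at hj
  conv_lhs => rw [S.Q.eq a]
  conv_rhs => rw [← S.Q.el_coord a]
  rw [S.Q.τ_el]
  simp only [Qr.el, map_add, map_mul, map_pow, map_neg, hb, S.ht, S.Q'.τ_ι, S.Q'.τ_t]
  rw [Qr.j, ← S.hi]
  linear_combination (algebraMap K' L' (algebraMap K K' (S.Q.c2 a)) * S.Q'.t ^ 2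
    + algebraMap K' L' (algebraMap K K' (S.Q.c3 a)) * algebraMap K' L' (algebraMap K K' S.Q.i)
      * S.Q'.t ^ 3) * hj

end StepData

/-- Descent of the local condition. Let `w' ∣ w` be unramified, `w(5) ≥ 4` and `z ∈ L` with
`w'(z c'⁵ - 1) ≥ 5`. Then there is `c ∈ L` with `w(z c⁵ - 1) ≥ 5`: `5 ∣ w(z)`, so we may assume
`w(z) = 0`; the residue field of `w` is perfect: `z ≡ a⁵` modulo `w`; in the residue field of `w'`
fifth roots are unique, so `c'⁻¹ = a (1 + u)` with `w'(u) ≥ 1`, and `(1 + u)⁵ ≡ 1` modulo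
`w'`-valuation 5. So `c = a⁻¹`. -/
theorem loc_descend {L L' : Type*} [Field L] [NumberField L] [Field L'] [NumberField L']
    [Algebra L L'] (w : HeightOneSpectrum (𝓞 L)) (w' : HeightOneSpectrum (𝓞 L'))
    (hw : ∀ x : L, w'.valuation L' (algebraMap L L' x) = w.valuation L x)
    (h5 : w.valuation L 5 ≤ exp (-4 : ℤ)) {z : L} (hz : Loc w' (algebraMap L L' z)) : Loc w z := by
  obtain ⟨c, hc⟩ := hz
  have hlt : exp (-5 : ℤ) < (1 : ℤᵐ⁰) := by rw [← exp_zero, exp_lt_exp]; norm_num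
  have hlt4 : exp (-4 : ℤ) < (1 : ℤᵐ⁰) := by rw [← exp_zero, exp_lt_exp]; norm_num
  have hzc : w'.valuation L' (algebraMap L L' z * c ^ 5) = 1 := by
    have h1 : algebraMap L L' z * c ^ 5 = 1 + (algebraMap L L' z * c ^ 5 - 1) := by ring
    rw [h1]
    have := Valuation.map_add_eq_of_lt_left (w'.valuation L')
      (y := algebraMap L L' z * c ^ 5 - 1) (x := 1) (by rw [map_one]; exact hc.trans_lt hlt)
    rw [this, map_one]
  have hc0 : w'.valuation L' c ≠ 0 := by
    intro h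
    rw [map_mul, map_pow, h] at hzc
    simp at hzc
  obtain ⟨g, hg⟩ := BSD.exists_val_eq w _ hc0
  have hg0 : g ≠ 0 := by
    intro h
    rw [h, map_zero] at hg
    exact hc0 hg.symm
  have hg0' : algebraMap L L' g ≠ 0 := by
    rwa [Ne, map_eq_zero_iff _ (algebraMap L L').injective]
  set u : L := z * g ^ 5 with hu
  have hu1 : w.valuation L u = 1 := by
    rw [← hzc, hu, map_mul, map_pow, hg, map_mul, map_pow, hw]
  set d : L' := c / algebraMap L L' g with hd
  have hd1 : w'.valuation L' d = 1 := by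
    rw [hd, map_div₀, hw, hg, div_self hc0]
  have hud : algebraMap L L' u * d ^ 5 = algebraMap L L' z * c ^ 5 := by
    rw [hu, hd]
    push_cast [map_mul, map_pow]
    field_simp
  have h5lt : w.valuation L (5 : L) < 1 := h5.trans_lt hlt4
  obtain ⟨a, ha1, ha2⟩ := exists_root5_mod w h5lt hu1
  have h5' : w'.valuation L' (5 : L') ≤ exp (-4 : ℤ) := by
    have := hw 5
    rw [map_ofNat] at this
    rw [this]
    exact h5
  set A : L' := algebraMap L L' a with hA
  have hA1 : w'.valuation L' A = 1 := by rw [hA, hw, ha1]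
  have hU1 : w'.valuation L' (algebraMap L L' u) = 1 := by rw [hw, hu1]
  have k1 : w'.valuation L' (algebraMap L L' u * A ^ 5 - 1) < 1 := by
    have : algebraMap L L' u * A ^ 5 - 1 = algebraMap L L' (u * a ^ 5 - 1) := by
      rw [hA]; simp
    rw [this, hw]
    exact ha2
  have k2 : w'.valuation L' (algebraMap L L' u * d ^ 5 - 1) ≤ exp (-5 : ℤ) := by rw [hud]; exact hc
  have k3 : w'.valuation L' (d ^ 5 - A ^ 5) < 1 := by
    have h1 : w'.valuation L' (algebraMap L L' u * (d ^ 5 - A ^ 5)) < 1 := by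
      have : algebraMap L L' u * (d ^ 5 - A ^ 5)
        = (algebraMap L L' u * d ^ 5 - 1) - (algebraMap L L' u * A ^ 5 - 1) := by ring
      rw [this]
      exact BSD.val_sub_lt w' (k2.trans_lt hlt) k1
    rwa [map_mul, hU1, one_mul] at h1
  have k4 : w'.valuation L' (d - A) < 1 := by
    have h1 : w'.valuation L' ((d - A) ^ 5) < 1 := by
      have : (d - A) ^ 5 = (d ^ 5 - A ^ 5)
          - 5 * (d ^ 4 * A - 2 * (d ^ 3 * A ^ 2) + 2 * (d ^ 2 * A ^ 3) - d * A ^ 4) := by ring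
      rw [this]
      refine BSD.val_sub_lt w' k3 ?_
      rw [map_mul]
      refine mul_lt_one_of_lt_of_le (h5'.trans_lt hlt4) ?_
      have h2 : w'.valuation L' (2 : L') ≤ 1 := BSD.val_ofNat_le w' 2
      refine BSD.val_sub_le w' (BSD.val_add_le w' (BSD.val_sub_le w' ?_ ?_) ?_) ?_
      · rw [map_mul, map_pow, hd1, hA1, one_pow, one_mul]
      · rw [map_mul, map_mul, map_pow, map_pow, hd1, hA1, one_pow, one_pow, one_mul, mul_one]
        exact h2
      · rw [map_mul, map_mul, map_pow, map_pow, hd1, hA1, one_pow, one_pow, one_mul, mul_one]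
        exact h2
      · rw [map_mul, map_pow, hd1, hA1, one_pow, one_mul]
    rw [map_pow] at h1
    by_contra hge
    rw [not_lt] at hge
    have := one_le_pow₀ hge (n := 5)
    exact absurd h1 (not_lt.2 this)
  have k4' := BSD.le_exp_neg_one k4
  set e : L' := d - A with he
  have hde : d = A + e := by rw [he]; ring
  have he1 : w'.valuation L' e ≤ 1 := k4.le
  have hexp : exp (-4 : ℤ) * exp (-1 : ℤ) = (exp (-5 : ℤ) : ℤᵐ⁰) := by
    rw [← exp_add]; norm_num
  have hexp5 : (exp (-1 : ℤ) : ℤᵐ⁰) ^ 5 = (exp (-5 : ℤ) : ℤᵐ⁰) := by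
    rw [← exp_nsmul]; norm_num
  have k5 : w'.valuation L' (d ^ 5 - A ^ 5) ≤ exp (-5 : ℤ) := by
    have : d ^ 5 - A ^ 5 = 5 * e * (A ^ 4 + 2 * (A ^ 3 * e) + 2 * (A ^ 2 * e ^ 2) + A * e ^ 3)
        + e ^ 5 := by rw [hde]; ring
    rw [this]
    refine BSD.val_add_le w' ?_ ?_
    · rw [map_mul, map_mul, ← hexp]
      have h2 : w'.valuation L' (2 : L') ≤ 1 := BSD.val_ofNat_le w' 2
      have h3 : w'.valuation L'
          (A ^ 4 + 2 * (A ^ 3 * e) + 2 * (A ^ 2 * e ^ 2) + A * e ^ 3) ≤ 1 := by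
        refine BSD.val_add_le w' (BSD.val_add_le w' (BSD.val_add_le w' ?_ ?_) ?_) ?_
        · rw [map_pow, hA1, one_pow]
        · rw [map_mul, map_mul, map_pow, hA1, one_pow, one_mul]
          exact mul_le_one' h2 he1
        · rw [map_mul, map_mul, map_pow, map_pow, hA1, one_pow, one_mul]
          exact mul_le_one' h2 (pow_le_one' he1 _)
        · rw [map_mul, map_pow, hA1, one_mul]
          exact pow_le_one' he1 _
      calc _ ≤ exp (-4 : ℤ) * exp (-1 : ℤ) * 1 := mul_le_mul' (mul_le_mul' h5' k4') h3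
        _ = _ := mul_one _
    · rw [map_pow, ← hexp5]
      exact pow_le_pow_left₀ zero_le k4' 5
  refine ⟨g * a, ?_⟩
  rw [← hw]
  have : algebraMap L L' (z * (g * a) ^ 5 - 1)
      = (algebraMap L L' u * d ^ 5 - 1) - algebraMap L L' u * (d ^ 5 - A ^ 5) := by
    rw [hu, hA]
    simp only [map_sub, map_mul, map_pow, map_one]
    ring
  rw [this]
  refine BSD.val_sub_le w' k2 ?_
  rw [map_mul, hU1, one_mul]
  exact k5

section Closure

variable {K L : Type*} [Field K] [Field L] [Algebra K L] [NumberField L] {Q : Qr K L}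

lemma Div5.mul {w : HeightOneSpectrum (𝓞 L)} {x y : L} (hx : Div5 w x) (hy : Div5 w y) :
    Div5 w (x * y) := by
  obtain ⟨m, hm⟩ := hx
  obtain ⟨n, hn⟩ := hy
  exact ⟨m + n, by rw [map_mul, hm, hn, ← exp_add]; congr 1; ring⟩

lemma Div5.inv {w : HeightOneSpectrum (𝓞 L)} {x : L} (hx : Div5 w x) : Div5 w x⁻¹ := by
  obtain ⟨m, hm⟩ := hx
  exact ⟨-m, by rw [map_inv₀, hm, ← exp_neg]; congr 1; ring⟩

lemma Div5.pow5 (w : HeightOneSpectrum (𝓞 L)) {x : L} (hx : x ≠ 0) : Div5 w (x ^ 5) := by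
  have h0 : w.valuation L x ≠ 0 := (Valuation.ne_zero_iff _).2 hx
  refine ⟨log (w.valuation L x), ?_⟩
  rw [map_pow]
  conv_lhs => rw [← exp_log h0]
  rw [← exp_nsmul]
  norm_num

lemma Loc.val_eq {w : HeightOneSpectrum (𝓞 L)} {x z : L}
    (h : w.valuation L (x * z ^ 5 - 1) ≤ exp (-5 : ℤ)) : w.valuation L (x * z ^ 5) = 1 := by
  have hlt : exp (-5 : ℤ) < (1 : ℤᵐ⁰) := by rw [← exp_zero, exp_lt_exp]; norm_num
  have h1 : x * z ^ 5 = 1 + (x * z ^ 5 - 1) := by ring
  rw [h1]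
  have := Valuation.map_add_eq_of_lt_left (w.valuation L)
    (y := x * z ^ 5 - 1) (x := 1) (by rw [map_one]; exact h.trans_lt hlt)
  rw [this, map_one]

lemma Loc.mul {w : HeightOneSpectrum (𝓞 L)} {x y : L} (hx : Loc w x) (hy : Loc w y) :
    Loc w (x * y) := by
  obtain ⟨a, ha⟩ := hx
  obtain ⟨b, hb⟩ := hy
  have hle : exp (-5 : ℤ) ≤ (1 : ℤᵐ⁰) := by rw [← exp_zero, exp_le_exp]; norm_num
  refine ⟨a * b, ?_⟩
  have e : x * y * (a * b) ^ 5 - 1
      = (x * a ^ 5 - 1) * (y * b ^ 5 - 1) + ((x * a ^ 5 - 1) + (y * b ^ 5 - 1)) := by ring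
  rw [e]
  refine BSD.val_add_le w ?_ (BSD.val_add_le w ha hb)
  rw [map_mul]
  calc _ ≤ exp (-5 : ℤ) * 1 := mul_le_mul' ha (hb.trans hle)
    _ = _ := mul_one _

lemma Loc.inv {w : HeightOneSpectrum (𝓞 L)} {x : L} (hx : Loc w x) : Loc w x⁻¹ := by
  obtain ⟨a, ha⟩ := hx
  have h1 := Loc.val_eq ha
  have hxa : x * a ^ 5 ≠ 0 := by
    intro h
    rw [h, map_zero] at h1
    exact zero_ne_one h1
  have hx0 : x ≠ 0 := left_ne_zero_of_mul hxa
  have ha0 : a ^ 5 ≠ 0 := right_ne_zero_of_mul hxa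
  have ha1 : a ≠ 0 := fun h => ha0 (by rw [h, zero_pow (by norm_num)])
  refine ⟨a⁻¹, ?_⟩
  have e : x⁻¹ * a⁻¹ ^ 5 - 1 = -((x * a ^ 5 - 1) * (x * a ^ 5)⁻¹) := by
    rw [inv_pow]
    field_simp
    ring
  rw [e, Valuation.map_neg, map_mul, map_inv₀, h1, inv_one, mul_one]
  exact ha

lemma Loc.pow5_mul {w : HeightOneSpectrum (𝓞 L)} {x y : L} (hy : y ≠ 0) (hx : Loc w x) :
    Loc w (x * y ^ 5) := by
  obtain ⟨a, ha⟩ := hx
  refine ⟨a / y, ?_⟩
  have e : x * y ^ 5 * (a / y) ^ 5 - 1 = x * a ^ 5 - 1 := by field_simp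
  rw [e]
  exact ha

lemma Qr.Sel.mul {x y : L} (hx : Q.Sel x) (hy : Q.Sel y) : Q.Sel (x * y) where
  ne_zero := mul_ne_zero hx.ne_zero hy.ne_zero
  eig := by
    obtain ⟨a, ha⟩ := hx.eig
    obtain ⟨b, hb⟩ := hy.eig
    exact ⟨a * b, by rw [map_mul, ha, hb]; ring⟩
  val w hw := (hx.val w hw).mul (hy.val w hw)
  loc w hw := (hx.loc w hw).mul (hy.loc w hw)

lemma Qr.Sel.inv {x : L} (hx : Q.Sel x) : Q.Sel x⁻¹ where
  ne_zero := inv_ne_zero hx.ne_zero
  eig := by
    obtain ⟨a, ha⟩ := hx.eig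
    exact ⟨a⁻¹, by rw [map_inv₀, ha, mul_inv, inv_pow, inv_pow]⟩
  val w hw := (hx.val w hw).inv
  loc w hw := (hx.loc w hw).inv

end Closure

/-- **The step.**

Claim A: if `z` satisfies the Selmer condition in `L'` and `σ z / z` is a fifth power in `L'`, then
`z` is a fifth power. Proof: `σ z / z = c⁵`, `N_σ(c)⁵ = 1` so `N_σ(c) = 1` (`hmu`), Hilbert 90
(`CFT` file `Ray.lean` or Mathlib): `c = σ m / m`; `z₀ = z / m⁵` is fixed by `σ`, so it comes from
`L`. It satisfies the Selmer condition there: eigenvalue: `τ z₀ = z₀³ C⁵` with `C ∈ L'`, and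
`(σ C / C)⁵ = 1` so `C ∈ L`; valuations: `hram`; local condition: `loc_descend` and `hπ` (and
`w(5) = w(2 + i) = 4 w(θ)`, as `θ⁴ = -i (2 + i)`). So `z₀` is a fifth power.
Then, for `x` as in the theorem and `Δ x = σ x / x`, all `Δ^k x` satisfy the Selmer condition, `Δ⁵ x`
is a fifth power (`(σ - 1)⁵ ≡ σ⁵ - 1 = 0` modulo five), so by claim A `Δ⁴ x, Δ³ x, …, x` are. -/
theorem sel_step {K K' L L' : Type*} [Field K] [Field K'] [Field L] [Field L']
    [NumberField K] [NumberField K'] [NumberField L] [NumberField L']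
    [Algebra K K'] [Algebra K L] [Algebra L L'] [Algebra K' L'] [Algebra K L']
    [IsScalarTower K K' L'] [IsScalarTower K L L'] [IsGalois L L']
    (hdeg : Module.finrank L L' = 5) (S : StepData K K' L L') (hσ : S.σ ≠ 1)
    (hmu : ∀ z : L', z ^ 5 = 1 → z = 1)
    (hram : ∀ w : HeightOneSpectrum (𝓞 L), w.valuation L S.Q.t = 1 →
      (∀ x : L, x ≠ 0 → (∃ y : L, S.Q.τ x = x ^ 3 * y ^ 5) → Div5 w x) ∨
      ∃ w' : HeightOneSpectrum (𝓞 L'), ∀ x : L, w'.valuation L' (algebraMap L L' x)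
        = w.valuation L x)
    (hπ : ∀ w : HeightOneSpectrum (𝓞 L), w.valuation L S.Q.t < 1 →
      ∃ w' : HeightOneSpectrum (𝓞 L'), ∀ x : L, w'.valuation L' (algebraMap L L' x)
        = w.valuation L x)
    (htriv : ∀ x : L, S.Q.Sel x → Is5 x) (x : L') (hx : S.Q'.Sel x) : Is5 x := by
  have hcard : Nat.card Gal(L'/L) = 5 := by
    rw [IsGalois.card_aut_eq_finrank, hdeg]
  haveI : Fact (Nat.Prime 5) := ⟨by norm_num⟩
  have hgen : ∀ g : Gal(L'/L), g ∈ Subgroup.zpowers S.σ :=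
    fun g => mem_zpowers_of_prime_card hcard hσ
  have hσ5 : S.σ ^ 5 = 1 := by
    rw [← hcard]
    exact pow_card_eq_one'
  -- fixed elements come from below
  have hfix : ∀ y : L', S.σ y = y → ∃ a : L, algebraMap L L' a = y := by
    intro y hy
    have h1 : ∀ g : Gal(L'/L), g y = y := by
      intro g
      let T : Subgroup Gal(L'/L) := MulAction.stabilizer Gal(L'/L) y
      have h2 : Subgroup.zpowers S.σ ≤ T := by
        rw [Subgroup.zpowers_le]
        exact hy
      exact h2 (hgen g)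
    have h3 := (IsGalois.mem_range_algebraMap_iff_fixed (F := L) (E := L') y).2 h1
    exact h3
  have hinj := (algebraMap L L').injective
  -- the valuation of five
  have hj1 : ∀ w : HeightOneSpectrum (𝓞 L), w.valuation L S.Q.j ≤ 1 := by
    intro w
    by_contra h
    rw [not_le] at h
    have h1 := congrArg (w.valuation L) S.Q.hj
    rw [map_pow, Valuation.map_neg, map_one] at h1
    have h2 := one_lt_pow₀ h (n := 2) (by norm_num)
    rw [h1] at h2
    exact lt_irrefl _ h2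
  have h5val : ∀ w : HeightOneSpectrum (𝓞 L), w.valuation L S.Q.t < 1 →
      w.valuation L 5 ≤ exp (-4 : ℤ) := by
    intro w hw
    have e : (5 : L) = S.Q.t ^ 4 * (1 + 2 * S.Q.j) := by
      rw [S.Q.ht]
      linear_combination (4 : L) * S.Q.hj
    have h1 := BSD.le_exp_neg_one hw
    have h2 : w.valuation L (1 + 2 * S.Q.j) ≤ 1 := by
      refine BSD.val_add_le w (by rw [map_one]) ?_
      rw [map_mul]
      exact mul_le_one' (BSD.val_ofNat_le w 2) (hj1 w)
    have h3 : (exp (-1 : ℤ) : ℤᵐ⁰) ^ 4 = (exp (-4 : ℤ) : ℤᵐ⁰) := by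
      rw [← exp_nsmul]; norm_num
    rw [e, map_mul, map_pow, ← h3]
    calc _ ≤ (exp (-1 : ℤ) : ℤᵐ⁰) ^ 4 * 1 := mul_le_mul' (pow_le_pow_left₀ zero_le h1 4) h2
      _ = _ := mul_one _
  -- claim A
  have claimA : ∀ z : L', S.Q'.Sel z → Is5 (S.σ z / z) → Is5 z := by
    intro z hz hc
    obtain ⟨c, hc⟩ := hc
    have hz0 := hz.ne_zero
    have hσz0 : S.σ z ≠ 0 := by rwa [Ne, map_eq_zero_iff _ S.σ.injective]
    have hc0 : c ≠ 0 := by
      rintro rfl
      rw [zero_pow (by norm_num), div_eq_zero_iff] at hc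
      exact hc.elim hσz0 hz0
    have hN : Algebra.norm L c = 1 := by
      have h1 : Algebra.norm L c ^ 5 = 1 := by
        have h0 : S.σ z = c ^ 5 * z := by rw [← hc]; field_simp
        have h2 := congrArg (Algebra.norm L) h0
        rw [Algebra.norm_eq_of_algEquiv S.σ z, map_mul, map_pow] at h2
        exact mul_right_cancel₀ (Algebra.norm_ne_zero_iff.2 hz0) (by rw [one_mul]; exact h2.symm)
      have h2 : (algebraMap L L' (Algebra.norm L c)) ^ 5 = 1 := by
        rw [← map_pow, h1, map_one]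
      have h3 := hmu _ h2
      exact hinj (by rw [h3, map_one])
    obtain ⟨ε, hε⟩ := exists_div_eq hgen hN
    set m : L' := (ε : L')⁻¹ with hm
    have hε0 : (ε : L') ≠ 0 := ε.ne_zero
    have hm0 : m ≠ 0 := inv_ne_zero hε0
    have hσε0 : S.σ (ε : L') ≠ 0 := by rwa [Ne, map_eq_zero_iff _ S.σ.injective]
    have hσm : S.σ m = c * m := by
      rw [hm, map_inv₀, ← hε]
      field_simp
    obtain ⟨y, hy⟩ := hfix (z / m ^ 5) (by
      rw [map_div₀, map_pow, hσm]
      have h1 : S.σ z = z * c ^ 5 := by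
        rw [← hc]; field_simp
      rw [h1]
      field_simp)
    have hy0 : y ≠ 0 := by
      rintro rfl
      rw [map_zero] at hy
      exact div_ne_zero hz0 (pow_ne_zero _ hm0) hy.symm
    have hy0' : algebraMap L L' y ≠ 0 := by rwa [Ne, map_eq_zero_iff _ hinj]
    have hzy : algebraMap L L' y = z * (m⁻¹) ^ 5 := by
      rw [hy, div_eq_mul_inv, ← inv_pow m]
    have heig : ∃ C : L, S.Q.τ y = y ^ 3 * C ^ 5 := by
      obtain ⟨y1, hy1⟩ := hz.eig
      have hτm0 : S.Q'.τ m ≠ 0 := by rwa [Ne, map_eq_zero_iff _ S.Q'.τ.injective]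
      set C : L' := m ^ 3 * y1 / S.Q'.τ m with hC
      have h1 : S.Q'.τ (algebraMap L L' y) = (algebraMap L L' y) ^ 3 * C ^ 5 := by
        rw [hy, map_div₀, map_pow, hy1, hC]
        field_simp
      have hτy0 : S.Q'.τ (algebraMap L L' y) ≠ 0 := by
        rwa [Ne, map_eq_zero_iff _ S.Q'.τ.injective]
      have hC0 : C ≠ 0 := by
        intro h
        rw [h, zero_pow (by norm_num), mul_zero] at h1
        exact hτy0 h1
      have h2 : S.σ (S.Q'.τ (algebraMap L L' y)) = S.Q'.τ (algebraMap L L' y) := by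
        rw [S.comm, S.σ.commutes]
      have h3 : (S.σ C) ^ 5 = C ^ 5 := by
        have h4 := congrArg S.σ h1
        rw [h2, h1, map_mul, map_pow, map_pow, S.σ.commutes] at h4
        exact (mul_left_cancel₀ (pow_ne_zero _ hy0') h4).symm
      have h5 : S.σ C = C := by
        have h6 := hmu (S.σ C / C) (by
          rw [div_pow, h3]
          exact div_self (pow_ne_zero _ hC0))
        rwa [div_eq_one_iff_eq hC0] at h6
      obtain ⟨C0, hC0'⟩ := hfix C h5
      refine ⟨C0, hinj ?_⟩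
      rw [← S.τ_compat, h1, map_mul, map_pow, map_pow, hC0']
    have htt : ∀ (w : HeightOneSpectrum (𝓞 L)) (w' : HeightOneSpectrum (𝓞 L')),
        (∀ x : L, w'.valuation L' (algebraMap L L' x) = w.valuation L x) →
        w'.valuation L' S.Q'.t = w.valuation L S.Q.t := by
      intro w w' h
      rw [← S.ht, h]
    have hsel : S.Q.Sel y := by
      refine ⟨hy0, heig, fun w hw => ?_, fun w hw => ?_⟩
      · rcases hram w hw with h | ⟨w', hw'⟩
        · exact h y hy0 heig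
        · have h1 := hz.val w' (by rw [htt w w' hw', hw])
          have h2 : Div5 w' (algebraMap L L' y) := by
            rw [hzy]
            exact h1.mul (Div5.pow5 w' (inv_ne_zero hm0))
          obtain ⟨k, hk⟩ := h2
          exact ⟨k, by rw [← hw', hk]⟩
      · obtain ⟨w', hw'⟩ := hπ w hw
        have h1 := hz.loc w' (by rw [htt w w' hw']; exact hw)
        refine loc_descend w w' hw' (h5val w hw) ?_
        rw [hzy]
        exact Loc.pow5_mul (inv_ne_zero hm0) h1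
    obtain ⟨r, hr⟩ := htriv y hsel
    refine ⟨algebraMap L L' r * m, ?_⟩
    have h1 : z = algebraMap L L' y * m ^ 5 := by
      rw [hy]; field_simp
    rw [h1, hr, map_pow]
    ring
  -- the operator `Δ`
  have hselσ : ∀ z : L', S.Q'.Sel z → S.Q'.Sel (S.σ z) := by
    intro z hz
    refine ⟨by rw [Ne, map_eq_zero_iff _ S.σ.injective]; exact hz.ne_zero, ?_, fun w hw => ?_,
      fun w hw => ?_⟩
    · obtain ⟨a, ha⟩ := hz.eig
      exact ⟨S.σ a, by rw [← S.comm, ha, map_mul, map_pow, map_pow]⟩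
    · obtain ⟨w', hw'⟩ := BSD.exists_transport S.σ.toRingEquiv w
      have hw'' : ∀ x, w'.valuation L' x = w.valuation L' (S.σ x) := hw'
      have ht : w'.valuation L' S.Q'.t = 1 := by
        rw [hw'', ← S.ht, S.σ.commutes, S.ht, hw]
      obtain ⟨k, hk⟩ := hz.val w' ht
      exact ⟨k, by rw [← hw'', hk]⟩
    · obtain ⟨w', hw'⟩ := BSD.exists_transport S.σ.toRingEquiv w
      have hw'' : ∀ x, w'.valuation L' x = w.valuation L' (S.σ x) := hw'
      have ht : w'.valuation L' S.Q'.t < 1 := by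
        rw [hw'', ← S.ht, S.σ.commutes, S.ht]
        exact hw
      obtain ⟨a, ha⟩ := hz.loc w' ht
      refine ⟨S.σ a, ?_⟩
      rw [hw'', map_sub, map_mul, map_pow, map_one] at ha
      exact ha
  have hselΔ : ∀ z : L', S.Q'.Sel z → S.Q'.Sel (S.σ z / z) := by
    intro z hz
    rw [div_eq_mul_inv]
    exact (hselσ z hz).mul hz.inv
  have s1 := hselΔ _ hx
  have s2 := hselΔ _ s1
  have s3 := hselΔ _ s2
  have s4 := hselΔ _ s3
  have s5 : Is5 (S.σ (S.σ (S.σ (S.σ (S.σ x / x) / (S.σ x / x)) / (S.σ (S.σ x / x) / (S.σ x / x)))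
      / (S.σ (S.σ (S.σ x / x) / (S.σ x / x)) / (S.σ (S.σ x / x) / (S.σ x / x))))
      / (S.σ (S.σ (S.σ (S.σ x / x) / (S.σ x / x)) / (S.σ (S.σ x / x) / (S.σ x / x)))
      / (S.σ (S.σ (S.σ x / x) / (S.σ x / x)) / (S.σ (S.σ x / x) / (S.σ x / x))))) := by
    have n0 : x ≠ 0 := hx.ne_zero
    obtain ⟨a1, h1⟩ : ∃ a, S.σ x = a := ⟨_, rfl⟩
    obtain ⟨a2, h2⟩ : ∃ a, S.σ a1 = a := ⟨_, rfl⟩
    obtain ⟨a3, h3⟩ : ∃ a, S.σ a2 = a := ⟨_, rfl⟩
    obtain ⟨a4, h4⟩ : ∃ a, S.σ a3 = a := ⟨_, rfl⟩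
    have hz : ∀ {y z : L'}, S.σ y = z → y ≠ 0 → z ≠ 0 := by
      rintro y z rfl hy
      rwa [Ne, map_eq_zero_iff _ S.σ.injective]
    have n1 := hz h1 n0
    have n2 := hz h2 n1
    have n3 := hz h3 n2
    have n4 := hz h4 n3
    have h5 : S.σ a4 = x := by
      have h6 := DFunLike.congr_fun hσ5 x
      rw [AlgEquiv.one_apply] at h6
      rw [← h4, ← h3, ← h2, ← h1]
      exact h6
    refine ⟨a1 * a3 ^ 2 / (a2 ^ 2 * a4), ?_⟩
    simp only [map_div₀, h1, h2, h3, h4, h5]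
    field_simp
  exact claimA _ hx (claimA _ s1 (claimA _ s2 (claimA _ s3 (claimA _ s4 s5))))

end BSD5
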