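import Pool.Agent.BSD5.Step
import Pool.Agent.BSD5.Decomp
import Pool.Agent.BSD5.Ram

/-!
# Good fields: cyclic steps of degree five
-/

namespace BSD5

open NumberField IsDedekindDomain WithZero CFT

section Lift

variable {K K' L' : Type*} [Field K] [Field K'] [Field L'] [Algebra K K'] [Algebra K' L']
  [Algebra K L'] [IsScalarTower K K' L'] (Q' : Qr K' L')

/-- coordinatewise extension of an automorphism fixing `i` -/
def Qr.lift (s : K' ≃ₐ[K] K') (hs : s Q'.i = Q'.i) : L' ≃ₐ[K] L' where
  toFun x := Q'.el (s (Q'.c0 x)) (s (Q'.c1 x)) (s (Q'.c2 x)) (s (Q'.c3 x))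
  invFun x := Q'.el (s.symm (Q'.c0 x)) (s.symm (Q'.c1 x)) (s.symm (Q'.c2 x)) (s.symm (Q'.c3 x))
  left_inv x := by
    simp only [Q'.c0_mk', Q'.c1_mk', Q'.c2_mk', Q'.c3_mk', AlgEquiv.symm_apply_apply, Q'.el_coord]
  right_inv x := by
    simp only [Q'.c0_mk', Q'.c1_mk', Q'.c2_mk', Q'.c3_mk', AlgEquiv.apply_symm_apply, Q'.el_coord]
  map_mul' x y := by
    conv_lhs => rw [← Q'.el_coord x, ← Q'.el_coord y]
    rw [Q'.el_mul, Q'.el_mul]
    simp only [Q'.c0_mk', Q'.c1_mk', Q'.c2_mk', Q'.c3_mk', map_add, map_mul, map_sub, map_one,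
      map_ofNat, hs]
  map_add' x y := by
    conv_lhs => rw [← Q'.el_coord x, ← Q'.el_coord y]
    rw [Q'.el_add, Q'.el_add]
    simp only [Q'.c0_mk', Q'.c1_mk', Q'.c2_mk', Q'.c3_mk', map_add]
  commutes' a := by
    rw [IsScalarTower.algebraMap_apply K K' L', Q'.algebraMap_eq]
    simp only [Q'.c0_mk', Q'.c1_mk', Q'.c2_mk', Q'.c3_mk', map_zero, AlgEquiv.commutes]

lemma Qr.lift_el (s : K' ≃ₐ[K] K') (hs : s Q'.i = Q'.i) (a b c d : K') :
    Q'.lift s hs (Q'.el a b c d) = Q'.el (s a) (s b) (s c) (s d) := by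
  change Q'.el (s (Q'.c0 (Q'.el a b c d))) (s (Q'.c1 (Q'.el a b c d)))
    (s (Q'.c2 (Q'.el a b c d))) (s (Q'.c3 (Q'.el a b c d))) = _
  rw [Q'.c0_mk', Q'.c1_mk', Q'.c2_mk', Q'.c3_mk']

lemma Qr.lift_comm (s : K' ≃ₐ[K] K') (hs : s Q'.i = Q'.i) (x : L') :
    Q'.lift s hs (Q'.τ x) = Q'.τ (Q'.lift s hs x) := by
  rw [← Q'.el_coord x, Q'.τ_el, Q'.lift_el, Q'.lift_el, Q'.τ_el]
  simp only [map_mul, map_neg, hs]

lemma Qr.lift_pow (s : K' ≃ₐ[K] K') (hs : s Q'.i = Q'.i) (n : ℕ) (a b c d : K') :
    (Q'.lift s hs ^ n) (Q'.el a b c d)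
      = Q'.el ((s ^ n) a) ((s ^ n) b) ((s ^ n) c) ((s ^ n) d) := by
  induction n with
  | zero => simp
  | succ n ih =>
    rw [pow_succ', AlgEquiv.mul_apply, ih, Q'.lift_el]
    simp only [pow_succ', AlgEquiv.mul_apply]

end Lift

/-- Given `L' = K'(θ)` and `K'/K` Galois of degree five with `i ∈ K`, there are `L = K(θ) ⊆ L'` and a
generator `σ` of `Gal(L'/L)` commuting with `τ`. (Extend `σ₀ ∈ Gal(K'/K)` coordinatewise,
`σ(Σ a_j θ^j) = Σ σ₀(a_j) θ^j`, multiplicative by `Qr.el_mul`; `L` is the fixed field of `σ`.) -/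
theorem exists_stepData {K K' L' : Type*} [Field K] [Field K'] [Field L'] [NumberField K]
    [NumberField K'] [NumberField L'] [Algebra K K'] [Algebra K' L'] [Algebra K L']
    [IsScalarTower K K' L'] [IsGalois K K'] (hdeg : Module.finrank K K' = 5) (Q' : Qr K' L')
    {i : K} (hi : algebraMap K K' i = Q'.i) :
    ∃ (L : IntermediateField K L') (_ : IsGalois L L') (S : StepData K K' L L'),
      Module.finrank L L' = 5 ∧ S.σ ≠ 1 ∧ S.Q' = Q' ∧ S.Q.i = i := by
  have hcard : Nat.card Gal(K'/K) = 5 := by rw [IsGalois.card_aut_eq_finrank, hdeg]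
  have : Fact (Nat.Prime 5) := ⟨by norm_num⟩
  have : Nontrivial Gal(K'/K) := by
    apply Finite.one_lt_card_iff_nontrivial.1
    rw [hcard]
    norm_num
  obtain ⟨s, hs1⟩ := exists_ne (1 : Gal(K'/K))
  have hsi : s Q'.i = Q'.i := by rw [← hi, AlgEquiv.commutes]
  have htop : Subgroup.zpowers s = ⊤ := zpowers_eq_top_of_prime_card hcard hs1
  have hord : orderOf s = 5 := by
    rw [← Nat.card_zpowers, htop, Subgroup.card_top, hcard]
  have hfix : ∀ a : K', s a = a → ∃ b : K, algebraMap K K' b = a := by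
    intro a ha
    have h1 : a ∈ (⊥ : IntermediateField K K') := by
      rw [IsGalois.mem_bot_iff_fixed]
      intro g
      have hg : g ∈ Subgroup.zpowers s := by rw [htop]; trivial
      have h2 : Subgroup.zpowers s ≤ MulAction.stabilizer Gal(K'/K) a := by
        rw [Subgroup.zpowers_le]
        exact ha
      exact h2 hg
    exact IntermediateField.mem_bot.1 h1
  set σ := Q'.lift s hsi with hσ
  have hσ5 : σ ^ 5 = 1 := by
    ext x
    rw [← Q'.el_coord x, Q'.lift_pow]
    have : s ^ 5 = 1 := by rw [← hord, pow_orderOf_eq_one]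
    rw [this]
    simp
  have hσ1 : σ ≠ 1 := by
    intro h
    apply hs1
    ext a
    have h1 : σ (algebraMap K' L' a) = algebraMap K' L' a := by rw [h]; rfl
    rw [Q'.algebraMap_eq, hσ, Q'.lift_el] at h1
    exact (Q'.el_inj h1).1
  have hσord : orderOf σ = 5 := orderOf_eq_prime hσ5 hσ1
  set H := Subgroup.zpowers σ with hH
  have hmem : ∀ x : L', x ∈ IntermediateField.fixedField H ↔ σ x = x := by
    intro x
    rw [IntermediateField.mem_fixedField_iff]
    constructor
    · intro h
      exact h σ (Subgroup.mem_zpowers σ)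
    · intro h f hf
      have h2 : Subgroup.zpowers σ ≤ MulAction.stabilizer Gal(L'/K) x := by
        rw [Subgroup.zpowers_le]
        exact h
      exact h2 hf
  have hcoord : ∀ x : IntermediateField.fixedField H, ∃ a b c d : K,
      (x : L') = Q'.el (algebraMap K K' a) (algebraMap K K' b) (algebraMap K K' c)
        (algebraMap K K' d) := by
    intro x
    have h1 := (hmem _).1 x.2
    rw [← Q'.el_coord (x : L'), hσ, Q'.lift_el] at h1
    obtain ⟨h2, h3, h4, h5⟩ := Q'.el_inj h1
    obtain ⟨a, ha⟩ := hfix _ h2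
    obtain ⟨b, hb⟩ := hfix _ h3
    obtain ⟨c, hc⟩ := hfix _ h4
    obtain ⟨d, hd⟩ := hfix _ h5
    exact ⟨a, b, c, d, by rw [ha, hb, hc, hd, Q'.el_coord]⟩
  choose c0 c1 c2 c3 hc using hcoord
  have ht : Q'.t ∈ IntermediateField.fixedField H := by
    rw [hmem, hσ]
    conv_lhs => rw [Q'.t_eq, Q'.lift_el]
    simp only [map_zero, map_one]
    exact Q'.t_eq.symm
  let t : IntermediateField.fixedField H := ⟨Q'.t, ht⟩
  have hmk : ∀ a b c d : K, ((algebraMap K (IntermediateField.fixedField H) a
      + algebraMap K (IntermediateField.fixedField H) b * t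
      + algebraMap K (IntermediateField.fixedField H) c * t ^ 2
      + algebraMap K (IntermediateField.fixedField H) d * t ^ 3 :
        IntermediateField.fixedField H) : L')
      = Q'.el (algebraMap K K' a) (algebraMap K K' b) (algebraMap K K' c)
        (algebraMap K K' d) := by
    intro a b c d
    rw [Qr.el, ← IsScalarTower.algebraMap_apply, ← IsScalarTower.algebraMap_apply,
      ← IsScalarTower.algebraMap_apply, ← IsScalarTower.algebraMap_apply]
    rfl
  have hinj : ∀ a b c d : K, ∀ x : IntermediateField.fixedField H, x =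
      algebraMap K (IntermediateField.fixedField H) a
      + algebraMap K (IntermediateField.fixedField H) b * t
      + algebraMap K (IntermediateField.fixedField H) c * t ^ 2
      + algebraMap K (IntermediateField.fixedField H) d * t ^ 3 →
      c0 x = a ∧ c1 x = b ∧ c2 x = c ∧ c3 x = d := by
    intro a b c d x hx
    have h1 := hc x
    rw [hx, hmk, ← hx] at h1
    obtain ⟨h2, h3, h4, h5⟩ := Q'.el_inj h1
    exact ⟨(algebraMap K K').injective h2.symm, (algebraMap K K').injective h3.symm,
      (algebraMap K K').injective h4.symm, (algebraMap K K').injective h5.symm⟩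
  let Q : Qr K (IntermediateField.fixedField H) :=
    { i := i
      hi := (algebraMap K K').injective (by
        rw [map_pow, map_neg, map_one, hi, Q'.hi])
      t := t
      ht := Subtype.ext (by
        have h := Q'.ht
        rw [← hi, ← IsScalarTower.algebraMap_apply] at h
        exact h)
      c0 := c0
      c1 := c1
      c2 := c2
      c3 := c3
      eq := fun x => Subtype.ext (by rw [hmk]; exact hc x)
      c0_mk := fun a b c d => (hinj a b c d _ rfl).1
      c1_mk := fun a b c d => (hinj a b c d _ rfl).2.1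
      c2_mk := fun a b c d => (hinj a b c d _ rfl).2.2.1
      c3_mk := fun a b c d => (hinj a b c d _ rfl).2.2.2 }
  have hgal : IsGalois (IntermediateField.fixedField H) L' := by
    apply IsGalois.of_card_aut_eq_finrank
    rw [IntermediateField.finrank_fixedField_eq_card]
    exact (Nat.card_congr (IntermediateField.subgroupEquivAlgEquiv H).toEquiv).symm
  let σ' : L' ≃ₐ[IntermediateField.fixedField H] L' :=
    { σ with
      commutes' := fun r => (hmem _).1 r.2 }
  refine ⟨IntermediateField.fixedField H, hgal,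
    { Q := Q
      Q' := Q'
      hi := hi
      ht := rfl
      σ := σ'
      comm := fun x => Q'.lift_comm s hsi x }, ?_, ?_, rfl, rfl⟩
  · rw [IntermediateField.finrank_fixedField_eq_card, Nat.card_zpowers, hσord]
  · intro h
    apply hσ1
    ext x
    have h1 : σ' x = x := by
      change σ' = 1 at h
      rw [h]; rfl
    exact h1

universe u v w

section Aux

variable {K : Type*} [Field K] [NumberField K] (v : HeightOneSpectrum (𝓞 K))

lemma val_two_le : v.valuation K 2 ≤ 1 := by
  rw [← map_ofNat (algebraMap (𝓞 K) K) 2]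
  exact v.valuation_le_one (2 : 𝓞 K)

lemma val_five_le : v.valuation K 5 ≤ 1 := by
  rw [← map_ofNat (algebraMap (𝓞 K) K) 5]
  exact v.valuation_le_one (5 : 𝓞 K)

lemma val_i {i : K} (hi : i ^ 2 = -1) : v.valuation K i = 1 := by
  have h : v.valuation K i ^ 2 = 1 := by
    rw [← map_pow, hi, Valuation.map_neg, map_one]
  exact (pow_eq_one_iff.1 h).resolve_right (by norm_num)

lemma val_add_le {a b : K} (ha : v.valuation K a ≤ 1) (hb : v.valuation K b ≤ 1) :
    v.valuation K (a + b) ≤ 1 :=
  (Valuation.map_add _ _ _).trans (max_le ha hb)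

lemma val_sub_le {a b : K} (ha : v.valuation K a ≤ 1) (hb : v.valuation K b ≤ 1) :
    v.valuation K (a - b) ≤ 1 :=
  (Valuation.map_sub _ _ _).trans (max_le ha hb)

lemma not_silent_two (i : K) (h : v.valuation K 2 < 1) : ¬ Silent i v := by
  intro hs
  have h1 := hs.1
  rw [show (10 : K) = 2 * 5 by norm_num, map_mul] at h1
  have h2 : v.valuation K 2 * v.valuation K 5 < 1 := lt_of_le_of_lt (mul_le_of_le_one_right' (val_five_le v)) h
  exact h2.ne h1

lemma not_silent_five (i : K) (h : v.valuation K 5 < 1) : ¬ Silent i v := by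
  intro hs
  have h1 := hs.1
  rw [show (10 : K) = 2 * 5 by norm_num, map_mul] at h1
  have h2 : v.valuation K 2 * v.valuation K 5 < 1 := lt_of_le_of_lt (mul_le_of_le_one_left' (val_two_le v)) h
  exact h2.ne h1

lemma val_five_of_add {i : K} (hi : i ^ 2 = -1) (h : v.valuation K (2 + i) < 1) :
    v.valuation K 5 < 1 := by
  rw [show (5 : K) = (2 + i) * (2 - i) by linear_combination hi, map_mul]
  exact lt_of_le_of_lt (mul_le_of_le_one_right' (val_sub_le v (val_two_le v) (val_i v hi).le)) h

lemma val_five_of_sub {i : K} (hi : i ^ 2 = -1) (h : v.valuation K (2 - i) < 1) :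
    v.valuation K 5 < 1 := by
  rw [show (5 : K) = (2 + i) * (2 - i) by linear_combination hi, map_mul]
  exact lt_of_le_of_lt (mul_le_of_le_one_left' (val_add_le v (val_two_le v) (val_i v hi).le)) h

lemma val_two_eq {i : K} (hi : i ^ 2 = -1) :
    v.valuation K 2 = v.valuation K (1 + i) ^ 2 := by
  have h : (2 : K) = -i * (1 + i) ^ 2 := by linear_combination (2 + i) * hi
  conv_lhs => rw [h]
  rw [map_mul, Valuation.map_neg, val_i v hi, one_mul, map_pow]

lemma val_one_add {i : K} (hi : i ^ 2 = -1) (h : v.valuation K 2 < 1) :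
    v.valuation K (1 + i) < 1 := by
  by_contra hc
  rw [not_lt] at hc
  rw [val_two_eq v hi] at h
  exact absurd h (not_lt.2 (one_le_pow_of_one_le' hc 2))

lemma val_two_of_one_add {i : K} (hi : i ^ 2 = -1) (h : v.valuation K (1 + i) < 1) :
    v.valuation K 2 < 1 := by
  rw [val_two_eq v hi]
  exact pow_lt_one' h (by norm_num)

lemma val_one_sub_eq {i : K} (hi : i ^ 2 = -1) :
    v.valuation K (1 - 2 * i) = v.valuation K (2 + i) := by
  rw [show (1 : K) - 2 * i = -i * (2 + i) by linear_combination hi, map_mul, Valuation.map_neg,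
    val_i v hi, one_mul]

end Aux

/-- ramification of `K'(θ)/K(θ)` at a place -/
lemma exists_unram {K L K' L' : Type*} [Field K] [NumberField K] [Field K'] [NumberField K']
    [Field L] [NumberField L] [Field L'] [NumberField L'] [Algebra K K'] [Algebra K L]
    [Algebra K L'] [Algebra L L'] [Algebra K' L'] [IsScalarTower K K' L'] [IsScalarTower K L L']
    {i : K} (hun : ∀ v' : HeightOneSpectrum (𝓞 K'), ¬ Silent i (bl K K' v') → re K v' = 1)
    (w : HeightOneSpectrum (𝓞 L)) (hw : ¬ Silent i (bl K L w))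
    (he : ∀ w' : HeightOneSpectrum (𝓞 L'), bl L L' w' = w → re K' w' ≤ re K w) :
    ∃ w' : HeightOneSpectrum (𝓞 L'), ∀ x : L, w'.valuation L' (algebraMap L L' x)
        = w.valuation L x := by
  obtain ⟨w', rfl⟩ := exists_bl_eq L L' w
  refine ⟨w', fun y => ?_⟩
  have hb : bl K K' (bl K' L' w') = bl K L (bl L L' w') := by rw [bl_bl, bl_bl]
  have h1 : re K (bl K' L' w') = 1 := hun _ (by rwa [hb])
  have h2 := re_mul (K := K) (K' := K') w'
  have h3 := re_mul (K := K) (K' := L) w'
  have h4 := he w' rfl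
  have h5 := re_ne_zero (K := L) w'
  have h6 := re_ne_zero (K := K) (bl L L' w')
  rw [h1, one_mul] at h2
  have h7 : re L w' = 1 := by
    rw [← h3] at h2
    rw [h2] at h4
    by_contra hc
    have h8 : 2 ≤ re L w' := by omega
    have h9 : re K (bl L L' w') * 2 ≤ re K (bl L L' w') * re L w' := Nat.mul_le_mul_left _ h8
    omega
  rw [val_re w', h7, pow_one]

/-- The step for good fields. `sel_step` with `exists_stepData`. For a place `w` of `L` above `v` of
`K`: `v` silent: `div5_silent`. `v'` above `v` unramified: then all places above `v` are (Galois),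
and for `w'` of `L'` above `w`, `v'`: `e(w'/w) ∣ 5` and `e(w'/w) ≤ e(w'/w) e(w/v) = e(w'/v') ≤ 4`,
so `e(w'/w) = 1`. Silent places are prime to ten, so `two`, `five`, `five'` go up and `hπ` holds. -/
theorem Good.step {K : Type u} {K' : Type w} [Field K] [NumberField K] [Field K'] [NumberField K']
    [Algebra K K'] [IsGalois K K'] (hdeg : Module.finrank K K' = 5) {i : K} (hi : i ^ 2 = -1)
    (hram : ∀ v : HeightOneSpectrum (𝓞 K), Silent i v ∨ ∃ v' : HeightOneSpectrum (𝓞 K'),
      bl K K' v' = v ∧ ∀ x, v'.valuation K' (algebraMap K K' x) = v.valuation K x)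
    (hK : Good.{u, v} K i) : Good.{w, v} K' (algebraMap K K' i) := by
  have hi' : (algebraMap K K' i) ^ 2 = -1 := by rw [← map_pow, hi, map_neg, map_one]
  have hun : ∀ v' : HeightOneSpectrum (𝓞 K'), ¬ Silent i (bl K K' v') → re K v' = 1 := by
    intro v' hv'
    rcases hram (bl K K' v') with h | ⟨v'', h1, h2⟩
    · exact absurd h hv'
    · rw [← re_galois h1]
      apply re_of_val
      intro x
      rw [pow_one, h2, h1]
  have hgo : ∀ (v' : HeightOneSpectrum (𝓞 K')) (z : K), ¬ Silent i (bl K K' v') →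
      (bl K K' v').valuation K z = exp (-1 : ℤ) →
      v'.valuation K' (algebraMap K K' z) = exp (-1 : ℤ) := by
    intro v' z hs hz
    rw [val_re v', hun v' hs, pow_one, hz]
  have htwo : ∀ v' : HeightOneSpectrum (𝓞 K'), v'.valuation K' (1 + algebraMap K K' i) < 1 →
      v'.valuation K' (1 + algebraMap K K' i) = exp (-1 : ℤ) := by
    intro v' hv'
    have e : (1 : K') + algebraMap K K' i = algebraMap K K' (1 + i) := by rw [map_add, map_one]
    rw [e] at hv' ⊢
    have h1 := (val_bl_lt_one K v' _).2 hv'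
    exact hgo v' _ (not_silent_two _ _ (val_two_of_one_add _ hi h1)) (hK.two _ h1)
  have hfive : ∀ v' : HeightOneSpectrum (𝓞 K'), v'.valuation K' (2 + algebraMap K K' i) < 1 →
      v'.valuation K' (2 + algebraMap K K' i) = exp (-1 : ℤ) := by
    intro v' hv'
    have e : (2 : K') + algebraMap K K' i = algebraMap K K' (2 + i) := by rw [map_add, map_ofNat]
    rw [e] at hv' ⊢
    have h1 := (val_bl_lt_one K v' _).2 hv'
    exact hgo v' _ (not_silent_five _ _ (val_five_of_add _ hi h1)) (hK.five _ h1)
  have hfive' : ∀ v' : HeightOneSpectrum (𝓞 K'), v'.valuation K' (2 - algebraMap K K' i) < 1 →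
      v'.valuation K' (2 - algebraMap K K' i) = exp (-1 : ℤ) := by
    intro v' hv'
    have e : (2 : K') - algebraMap K K' i = algebraMap K K' (2 - i) := by rw [map_sub, map_ofNat]
    rw [e] at hv' ⊢
    have h1 := (val_bl_lt_one K v' _).2 hv'
    exact hgo v' _ (not_silent_five _ _ (val_five_of_sub _ hi h1)) (hK.five' _ h1)
  refine ⟨htwo, hfive, hfive', ?_⟩
  intro L' _ _ _ Q' hQ' x hx
  let : Algebra K L' := ((algebraMap K' L').comp (algebraMap K K')).toAlgebra
  have : IsScalarTower K K' L' := IsScalarTower.of_algebraMap_eq fun _ => rfl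
  obtain ⟨L, hgal, S, hdegL, hσ, rfl, hSi⟩ := exists_stepData hdeg Q' hQ'.symm
  refine sel_step hdegL S hσ ?_ ?_ ?_ (fun y hy => hK.triv L S.Q hSi y hy) x hx
  · intro z hz
    obtain ⟨v', hv'⟩ := (exists_place K' _ hi').2
    have h1 := hfive' v' hv'
    rw [← hQ'] at h1
    exact Qr.mu5 S.Q' v' h1 z hz
  · intro w hw
    by_cases hs : Silent i (bl K L w)
    · left
      intro y hy he
      exact div5_silent S.Q w (by rwa [hSi]) hy he
    by_cases h2 : w.valuation L 2 < 1
    · left
      intro y hy he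
      refine div5_two S.Q w h2 ?_ hy he
      rw [hSi]
      apply hK.two
      apply val_one_add _ hi
      rw [val_bl_lt_one, map_ofNat]
      exact h2
    · right
      have h2' : w.valuation L 2 = 1 := le_antisymm (val_two_le w) (not_lt.1 h2)
      refine exists_unram hun w hs ?_
      intro w' hw'
      subst hw'
      have e1 : w'.valuation L' 2 = 1 := by
        have := val_re (K := L) w' 2
        rwa [h2', one_pow, map_ofNat] at this
      have e2 : w'.valuation L' S.Q'.t = 1 := by
        have := val_re (K := L) w' S.Q.t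
        rwa [hw, one_pow, S.ht] at this
      have e3 : re K' w' = 1 := by
        apply re_of_val
        intro y
        rw [pow_one, Qr.unram S.Q' w' e1 e2]
      rw [e3]
      exact Nat.one_le_iff_ne_zero.2 (re_ne_zero _)
  · intro w hw
    have h0 : S.Q.t ^ 4 = algebraMap K L (1 - 2 * i) := by
      rw [S.Q.ht, hSi, map_sub, map_mul, map_one, map_ofNat]
    have h4 : w.valuation L S.Q.t ^ 4 = (bl K L w).valuation K (1 - 2 * i) ^ re K w := by
      rw [← map_pow, h0, val_re]
    have h5 : (bl K L w).valuation K (2 + i) < 1 := by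
      rw [← val_one_sub_eq _ hi, val_bl_lt_one, ← h0, map_pow]
      exact pow_lt_one' hw (by norm_num)
    have h6 := hK.five _ h5
    have hs : ¬ Silent i (bl K L w) := not_silent_five _ _ (val_five_of_add _ hi h5)
    have h7 : 4 ≤ re K w := by
      rw [val_one_sub_eq _ hi, h6, ← exp_nsmul] at h4
      have hne : w.valuation L S.Q.t ≠ 0 := by
        rw [Ne, map_eq_zero]
        exact S.Q.t_ne_zero
      obtain ⟨k, hk⟩ : ∃ k : ℤ, w.valuation L S.Q.t = exp k :=
        ⟨log (w.valuation L S.Q.t), (exp_log hne).symm⟩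
      rw [hk, ← exp_nsmul, exp_inj] at h4
      simp only [nsmul_eq_mul] at h4
      have h8 := re_ne_zero (K := K) w
      push_cast at h4
      omega
    refine exists_unram hun w hs ?_
    intro w' _
    refine le_trans ?_ h7
    rw [← Qr.finrank_eq S.Q']
    exact re_le w'

end BSD5
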